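import Mathlib

/-!
# Compact action realizations: definitions shared by all modules (MP_1ab1ed_lc, S14433)

`G`, `Γ` are countable groups, `X`, `Y` standard Borel spaces.
-/

set_option autoImplicit false
set_option linter.unusedVariables false

namespace Pool.Agent.CAR

open Set

/-- orbit relation -/
def Eo (G : Type) {X : Type} [Group G] [MulAction G X] (x y : X) : Prop := ∃ g : G, g • x = y

/-- invariance of a set -/
def Inv (G : Type) {X : Type} [Group G] [MulAction G X] (P : Set X) : Prop :=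
  ∀ g : G, ∀ x ∈ P, g • x ∈ P

/-- every orbit is infinite -/
def Aper (G : Type) (X : Type) [Group G] [MulAction G X] : Prop :=
  ∀ x : X, (range fun g : G => g • x).Infinite

/-- finite Borel sub-equivalence-relation of the orbit relation of `G` -/
structure FBR (G : Type) {X : Type} [Group G] [MulAction G X] [MeasurableSpace X]
    (F : X → X → Prop) : Prop where
  equiv : Equivalence F
  sub : ∀ x y, F x y → ∃ g : G, g • x = y
  fin : ∀ x, {y | F x y}.Finite
  meas : ∀ g : G, MeasurableSet {x | F x (g • x)}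

/-- compressibility on the (invariant) set `P`: a Borel injection `P × ℕ → P` inside classes -/
def ComprOn (G : Type) {X : Type} [Group G] [MulAction G X] [MeasurableSpace X]
    (P : Set X) : Prop :=
  ∃ ψ : X → ℕ → X, (∀ n, Measurable fun x => ψ x n) ∧ (∀ x ∈ P, ∀ n, Eo G x (ψ x n)) ∧
    ∀ x ∈ P, ∀ y ∈ P, ∀ m n, ψ x m = ψ y n → x = y ∧ m = n

/-- on the (invariant) set `P` the orbit relation is an increasing union of finite Borel ones -/
def HypOn (G : Type) {X : Type} [Group G] [MulAction G X] [MeasurableSpace X]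
    (P : Set X) : Prop :=
  ∃ F : ℕ → X → X → Prop, (∀ n, FBR G (F n)) ∧ (∀ n x y, F n x y → F (n + 1) x y) ∧
    ∀ x ∈ P, ∀ g : G, ∃ n, F n x (g • x)

/-- `R` is generated by a Borel action of `Γ` all of whose orbits are infinite -/
def Gen (Γ : Type) [Group Γ] {Y : Type} [MeasurableSpace Y] (R : Y → Y → Prop) : Prop :=
  ∃ a : Γ → Y → Y, (∀ y, a 1 y = y) ∧ (∀ g h y, a (g * h) y = a g (a h y)) ∧
    (∀ g, Measurable (a g)) ∧ (∀ y, (range fun g => a g y).Infinite) ∧
    ∀ y z, R y z ↔ ∃ g, a g y = z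

/-- `R` is generated by a free Borel action of `Γ` -/
def FreeGen (Γ : Type) [Group Γ] {Y : Type} [MeasurableSpace Y] (R : Y → Y → Prop) : Prop :=
  ∃ a : Γ → Y → Y, (∀ y, a 1 y = y) ∧ (∀ g h y, a (g * h) y = a g (a h y)) ∧
    (∀ g, Measurable (a g)) ∧ (∀ g y, a g y = y → g = 1) ∧
    ∀ y z, R y z ↔ ∃ g, a g y = z

/-- Borel embedding of relations with invariant image -/
def InvEmb {X Y : Type} [MeasurableSpace X] [MeasurableSpace Y]
    (R : X → X → Prop) (S : Y → Y → Prop) : Prop :=
  ∃ f : X → Y, Measurable f ∧ Function.Injective f ∧ (∀ x x', R x x' ↔ S (f x) (f x')) ∧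
    ∀ x y, S (f x) y → y ∈ range f

/-- `R` embeds invariantly in the orbit relation of a countable group acting by homeomorphisms on
a compact metrizable space, and that orbit relation is generated by an aperiodic Borel action
of `Γ` -/
def Realizable (Γ : Type) [Group Γ] {X : Type} [MeasurableSpace X] (R : X → X → Prop) : Prop :=
  ∃ (Y : Type) (tY : TopologicalSpace Y) (mY : MeasurableSpace Y),
    CompactSpace Y ∧ TopologicalSpace.MetrizableSpace Y ∧ BorelSpace Y ∧
    ∃ (Δ : Type) (gΔ : Group Δ) (aΔ : MulAction Δ Y), Countable Δ ∧ ContinuousConstSMul Δ Y ∧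
      InvEmb R (fun y z : Y => ∃ g : Δ, g • y = z) ∧
      Gen Γ (fun y z : Y => ∃ g : Δ, g • y = z)

/-- eventual equality of 0-1-sequences -/
def E0 (s t : ℕ → Bool) : Prop := {j | s j ≠ t j}.Finite

/-- `d` maps (on the invariant set `W`) every `R`-class bijectively onto an `E0`-class -/
structure Dig {X : Type} [MeasurableSpace X] (R : X → X → Prop) (W : Set X)
    (d : X → ℕ → Bool) : Prop where
  meas : Measurable d
  fwd : ∀ x ∈ W, ∀ y, R x y → E0 (d x) (d y)
  bij : ∀ x ∈ W, ∀ s, E0 (d x) s → ∃! y, R x y ∧ d y = s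

/-- fair coin measures on `2^ℕ`: every cylinder of length `n` has measure `2^{-n}` -/
def Coin (μ : MeasureTheory.Measure (ℕ → Bool)) : Prop :=
  ∀ (s : ℕ → Bool) (n : ℕ), μ {t | ∀ j < n, t j = s j} = (2 ^ n : ENNReal)⁻¹

/-- Condition (A): the restriction of `E0` to a Borel invariant set of full fair coin measure is
generated by a Borel action of `Γ` -/
def CondA (Γ : Type) [Group Γ] : Prop :=
  ∃ (μ : MeasureTheory.Measure (ℕ → Bool)) (X0 : Set (ℕ → Bool)) (a : Γ → (ℕ → Bool) → ℕ → Bool),
    MeasureTheory.IsProbabilityMeasure μ ∧ Coin μ ∧ MeasurableSet X0 ∧ μ X0ᶜ = 0 ∧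
    (∀ s ∈ X0, ∀ t, E0 s t → t ∈ X0) ∧
    (∀ s ∈ X0, a 1 s = s) ∧ (∀ g h, ∀ s ∈ X0, a (g * h) s = a g (a h s)) ∧
    (∀ g, Measurable (a g)) ∧ ∀ s ∈ X0, ∀ t, E0 s t ↔ ∃ g, a g s = t

/-- the invariant subset `P` as a `G`-space -/
def subAct {G X : Type} [Group G] [MulAction G X] (P : Set X) (hP : Inv G P) :
    SubMulAction G X where
  carrier := P
  smul_mem' := fun g x hx => hP g x hx

end Pool.Agent.CAR
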