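import Pool.Agent.CAR.Tool

/-!
# Toolkit for digit maps (module M0')
`fl G d s` flips the digits in the finite set `s`; `Lv G d n` is the level-`n` relation (same class,
same digits from `n` on), all of whose classes have exactly `2^n` elements; `dens` are the densities.
-/

set_option autoImplicit false

namespace Pool.Agent.CAR

open Set MeasureTheory

variable {G X : Type} [Group G] [MeasurableSpace X] [MulAction G X]

/-- `s` with the bits in the finite set `t` flipped -/
def flipSeq (t : Finset ℕ) (s : ℕ → Bool) : ℕ → Bool := fun j => xor (s j) (decide (j ∈ t))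

open Classical in
/-- flip the digits in `t` -/
noncomputable def fl (G : Type) {X : Type} [Group G] [MulAction G X] (d : X → ℕ → Bool)
    (t : Finset ℕ) (x : X) : X :=
  if h : ∃ y, Eo G x y ∧ d y = flipSeq t (d x) then h.choose else x

/-- level `n` relation -/
def Lv (G : Type) {X : Type} [Group G] [MulAction G X] (d : X → ℕ → Bool) (n : ℕ) (x y : X) :
    Prop := Eo G x y ∧ ∀ j ≥ n, d x j = d y j

/-- density of `U` in the level `n` class of `x` -/
noncomputable def dens (G : Type) {X : Type} [Group G] [MulAction G X] (d : X → ℕ → Bool) (n : ℕ)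
    (U : Set X) (x : X) : ℝ := ({y | Lv G d n x y ∧ y ∈ U}.ncard : ℝ) / 2 ^ n

theorem flipSeq_flipSeq (t u : Finset ℕ) (s : ℕ → Bool) :
    flipSeq t (flipSeq u s) = flipSeq (symmDiff t u) s := by
  funext j
  simp only [flipSeq, Finset.mem_symmDiff]
  by_cases h1 : j ∈ t <;> by_cases h2 : j ∈ u <;> simp [h1, h2]

theorem flipSeq_empty (s : ℕ → Bool) : flipSeq ∅ s = s := by
  funext j
  simp [flipSeq]

theorem flipSeq_inj {t u : Finset ℕ} {s : ℕ → Bool} (h : flipSeq t s = flipSeq u s) : t = u := by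
  ext j
  have := congrFun h j
  simp only [flipSeq] at this
  by_cases h1 : j ∈ t <;> by_cases h2 : j ∈ u <;> simp [h1, h2] at this ⊢

theorem E0_flipSeq (t : Finset ℕ) (s : ℕ → Bool) : E0 s (flipSeq t s) := by
  refine t.finite_toSet.subset fun j hj => ?_
  by_contra h
  apply hj
  have h' : j ∉ t := h
  simp [flipSeq, h']

theorem E0_iff (s u : ℕ → Bool) : E0 s u ↔ ∃ t, u = flipSeq t s := by
  constructor
  · intro h
    refine ⟨h.toFinset, ?_⟩
    funext j
    simp only [flipSeq, Set.Finite.mem_toFinset, mem_ofPred_eq]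
    cases s j <;> cases u j <;> simp
  · rintro ⟨t, rfl⟩
    exact E0_flipSeq t s

theorem E0_refl (s : ℕ → Bool) : E0 s s := by simp [E0]

theorem E0_symm {s t : ℕ → Bool} (h : E0 s t) : E0 t s := by
  unfold E0 at *
  simpa [ne_comm] using h

theorem E0_trans {s t u : ℕ → Bool} (h : E0 s t) (h' : E0 t u) : E0 s u := by
  refine (h.union h').subset fun j hj => ?_
  by_contra hc
  simp only [mem_union, mem_ofPred_eq, not_or, not_not] at hc
  exact hj (hc.1.trans hc.2)

theorem measurable_flipSeq (t : Finset ℕ) : Measurable (flipSeq t) := by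
  refine measurable_pi_lambda _ fun j => ?_
  exact (measurable_of_countable fun b : Bool => xor b (decide (j ∈ t))).comp (measurable_pi_apply j)

section
omit [MeasurableSpace X]

theorem Eo.refl (x : X) : Eo G x x := ⟨1, one_smul _ _⟩

theorem Eo.symm {x y : X} (h : Eo G x y) : Eo G y x := by
  obtain ⟨g, rfl⟩ := h
  exact ⟨g⁻¹, inv_smul_smul _ _⟩

theorem Eo.trans {x y z : X} (h : Eo G x y) (h' : Eo G y z) : Eo G x z := by
  obtain ⟨g, rfl⟩ := h
  obtain ⟨g', rfl⟩ := h'
  exact ⟨g' * g, mul_smul _ _ _⟩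

theorem Inv.mem_iff {P : Set X} (hP : Inv G P) {x y : X} (h : Eo G x y) : x ∈ P ↔ y ∈ P := by
  obtain ⟨g, rfl⟩ := h
  exact ⟨hP g x, fun hy => by simpa using hP g⁻¹ _ hy⟩

theorem Inv.compl {P : Set X} (hP : Inv G P) : Inv G Pᶜ := by
  intro g x hx h
  exact hx ((hP.mem_iff ⟨g, rfl⟩).2 h)

end

variable {d : X → ℕ → Bool}

section
variable (hd : Dig (Eo G (X := X)) univ d)
include hd

theorem fl_spec (t : Finset ℕ) (x : X) : Eo G x (fl G d t x) ∧ d (fl G d t x) = flipSeq t (d x) := by
  have h : ∃ y, Eo G x y ∧ d y = flipSeq t (d x) :=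
    (hd.bij x (mem_univ x) _ (E0_flipSeq t (d x))).exists
  unfold fl
  rw [dif_pos h]
  exact h.choose_spec

theorem dig_inj {x y : X} (h : Eo G x y) (hxy : d x = d y) : x = y :=
  (hd.bij x (mem_univ x) (d x) (E0_refl _)).unique ⟨Eo.refl x, rfl⟩ ⟨h, hxy.symm⟩

theorem fl_unique {t : Finset ℕ} {x y : X} (h : Eo G x y) (hy : d y = flipSeq t (d x)) :
    fl G d t x = y :=
  dig_inj hd ((fl_spec hd t x).1.symm.trans h) ((fl_spec hd t x).2.trans hy.symm)

theorem fl_fl (t u : Finset ℕ) (x : X) : fl G d t (fl G d u x) = fl G d (symmDiff t u) x := by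
  symm
  refine fl_unique hd ((fl_spec hd u x).1.trans (fl_spec hd t _).1) ?_
  rw [(fl_spec hd t _).2, (fl_spec hd u x).2, flipSeq_flipSeq]

theorem fl_empty (x : X) : fl G d ∅ x = x :=
  fl_unique hd (Eo.refl x) (flipSeq_empty _).symm

theorem fl_self (t : Finset ℕ) (x : X) : fl G d t (fl G d t x) = x := by
  rw [fl_fl hd, symmDiff_self]
  exact fl_empty hd x

theorem fl_inj_left {t u : Finset ℕ} {x : X} (h : fl G d t x = fl G d u x) : t = u := by
  have h1 := (fl_spec hd t x).2
  rw [h, (fl_spec hd u x).2] at h1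
  exact (flipSeq_inj h1).symm

theorem fl_injective (t : Finset ℕ) : Function.Injective (fl G d t (X := X)) := by
  intro x y h
  rw [← fl_self hd t x, h, fl_self hd t y]

theorem Eo_iff_fl (x y : X) : Eo G x y ↔ ∃ t, fl G d t x = y := by
  constructor
  · intro h
    obtain ⟨t, ht⟩ := (E0_iff _ _).1 (hd.fwd x (mem_univ x) y h)
    exact ⟨t, fl_unique hd h ht⟩
  · rintro ⟨t, rfl⟩
    exact (fl_spec hd t x).1

theorem Lv_iff_fl (n : ℕ) (x y : X) :
    Lv G d n x y ↔ ∃ t ∈ (Finset.range n).powerset, fl G d t x = y := by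
  constructor
  · rintro ⟨h, hj⟩
    obtain ⟨t, rfl⟩ := (Eo_iff_fl hd x y).1 h
    refine ⟨t, ?_, rfl⟩
    rw [Finset.mem_powerset]
    intro j hjt
    rw [Finset.mem_range]
    by_contra hn
    have h1 := hj j (not_lt.1 hn)
    rw [(fl_spec hd t x).2] at h1
    simp [flipSeq, hjt] at h1
  · rintro ⟨t, ht, rfl⟩
    refine ⟨(fl_spec hd t x).1, fun j hj => ?_⟩
    rw [(fl_spec hd t x).2]
    have : j ∉ t := fun h => by
      have := Finset.mem_range.1 (Finset.mem_powerset.1 ht h)
      omega
    simp [flipSeq, this]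

theorem Lv_cls (n : ℕ) (x : X) :
    {y | Lv G d n x y} = (fun t => fl G d t x) '' ((Finset.range n).powerset : Set (Finset ℕ)) := by
  ext y
  rw [mem_ofPred_eq, Lv_iff_fl hd, mem_image]
  rfl

theorem ncard_Lv (n : ℕ) (x : X) : {y | Lv G d n x y}.ncard = 2 ^ n := by
  rw [Lv_cls hd, InjOn.ncard_image (fun t _ u _ h => fl_inj_left hd h), Set.ncard_coe_finset,
    Finset.card_powerset, Finset.card_range]

theorem Lv_equiv (n : ℕ) : Equivalence (Lv G d n (X := X)) where
  refl x := ⟨Eo.refl x, fun _ _ => rfl⟩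
  symm h := ⟨h.1.symm, fun j hj => (h.2 j hj).symm⟩
  trans h h' := ⟨h.1.trans h'.1, fun j hj => (h.2 j hj).trans (h'.2 j hj)⟩

end

theorem Lv_mono {n m : ℕ} (h : n ≤ m) {x y : X} (hxy : Lv G d n x y) : Lv G d m x y :=
  ⟨hxy.1, fun j hj => hxy.2 j (h.trans hj)⟩

theorem exists_Lv (hd : Dig (Eo G (X := X)) univ d) {x y : X} (h : Eo G x y) :
    ∃ n, Lv G d n x y := by
  have h1 := hd.fwd x (mem_univ x) y h
  obtain ⟨n, hn⟩ := h1.bddAbove
  refine ⟨n + 1, h, fun j hj => ?_⟩
  by_contra hc
  have := hn hc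
  omega

section
variable [Countable G] [StandardBorelSpace X] [MeasurableConstSMul G X]
variable (hd : Dig (Eo G (X := X)) univ d)
include hd

omit [StandardBorelSpace X] in
theorem measurableSet_flip_cond (t : Finset ℕ) (g : G) :
    MeasurableSet {x | d (g • x) = flipSeq t (d x)} :=
  measurableSet_eq' (hd.meas.comp (measurable_const_smul g)) ((measurable_flipSeq t).comp hd.meas)

theorem measurable_fl (t : Finset ℕ) : Measurable (fl G d t (X := X)) := by
  intro B hB
  have h : fl G d t ⁻¹' B = ⋃ g : G, {x | d (g • x) = flipSeq t (d x)} ∩ {x | g • x ∈ B} := by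
    ext x
    simp only [mem_preimage, mem_iUnion, mem_inter_iff, mem_ofPred_eq]
    constructor
    · intro hx
      obtain ⟨g, hg⟩ := (fl_spec hd t x).1
      refine ⟨g, ?_, ?_⟩
      · rw [hg]
        exact (fl_spec hd t x).2
      · rw [hg]
        exact hx
    · rintro ⟨g, h1, h2⟩
      rw [fl_unique hd ⟨g, rfl⟩ h1]
      exact h2
  rw [h]
  exact MeasurableSet.iUnion fun g => (measurableSet_flip_cond hd t g).inter
    ((measurable_const_smul g) hB)

theorem Lv_FBR (n : ℕ) : FBR G (Lv G d n (X := X)) where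
  equiv := Lv_equiv hd n
  sub x y h := h.1
  fin x := by
    rw [Lv_cls hd]
    exact (Finset.finite_toSet _).image _
  meas g := by
    have : {x | Lv G d n x (g • x)} = ⋂ j : ℕ, ⋂ _ : n ≤ j, {x | d x j = d (g • x) j} := by
      ext x
      simp only [Lv, mem_ofPred_eq, mem_iInter]
      exact ⟨fun h j hj => h.2 j hj, fun h => ⟨⟨g, rfl⟩, fun j hj => h j hj⟩⟩
    rw [this]
    refine MeasurableSet.iInter fun j => MeasurableSet.iInter fun _ => ?_
    exact measurableSet_eq' ((measurable_pi_apply j).comp hd.meas)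
      ((measurable_pi_apply j).comp (hd.meas.comp (measurable_const_smul g)))

theorem sz_Lv (n : ℕ) (x : X) : sz (Lv G d n) x = 2 ^ n := ncard_Lv hd n x

theorem measurable_dens (n : ℕ) {U : Set X} (hU : MeasurableSet U) :
    Measurable (dens G d n U) := by
  have h : Measurable fun x => {y | Lv G d n x y ∧ y ∈ U}.ncard := by
    refine measurable_ncard (G := G) (fun x y => Lv G d n x y ∧ y ∈ U) (fun x y h => h.1.1)
      (fun x => ((Lv_FBR hd n).fin x).subset fun y hy => hy.1) fun g => ?_
    exact ((Lv_FBR hd n).meas g).inter ((measurable_const_smul g) hU)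
  unfold dens
  exact ((measurable_of_countable fun k : ℕ => (k : ℝ)).comp h).div_const _

end

end Pool.Agent.CAR
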