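import Pool.Agent.CAR.Tool

/-!
# Module M1: maximal discrete Borel sets and finite Borel colourings
-/

set_option autoImplicit false

namespace Pool.Agent.CAR

open Set MeasureTheory

variable {X : Type} [MeasurableSpace X] [StandardBorelSpace X]

/-- the points of `(p, q)` (in the Borel order) none of whose neighbours is in `(p, q)` -/
def m1B {ι : Type} (a : ι → X → X) (r : ℚ × ℚ) : Set X :=
  {x | nu x ∈ Ioo (r.1 : ℝ) r.2 ∧ ∀ i, a i x ≠ x → nu (a i x) ∉ Ioo (r.1 : ℝ) r.2}

theorem m1B_meas {ι : Type} [Finite ι] (a : ι → X → X) (ha : ∀ i, Measurable (a i)) (r : ℚ × ℚ) :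
    MeasurableSet (m1B a r) := by
  have h : m1B a r = (nu ⁻¹' Ioo (r.1 : ℝ) r.2) ∩
      ⋂ i, ({x | a i x = x} ∪ ((fun x => nu (a i x)) ⁻¹' Ioo (r.1 : ℝ) r.2)ᶜ) := by
    ext x
    simp only [m1B, mem_ofPred_eq, mem_inter_iff, mem_iInter, mem_union, mem_compl_iff,
      mem_preimage]
    refine and_congr_right fun _ => forall_congr' fun i => ?_
    by_cases h : a i x = x <;> simp [h]
  rw [h]
  refine (measurable_nu measurableSet_Ioo).inter (MeasurableSet.iInter fun i => ?_)
  exact (measurableSet_eq' (ha i) measurable_id).union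
    ((measurable_nu.comp (ha i)) measurableSet_Ioo).compl

theorem m1B_cover {ι : Type} [Finite ι] (a : ι → X → X) (x : X) : ∃ r, x ∈ m1B a r := by
  have hfin : {t : ℝ | ∃ i, a i x ≠ x ∧ t = nu (a i x)}.Finite := by
    refine (finite_range fun i => nu (a i x)).subset ?_
    rintro t ⟨i, -, rfl⟩
    exact ⟨i, rfl⟩
  have hmem : nu x ∈ {t : ℝ | ∃ i, a i x ≠ x ∧ t = nu (a i x)}ᶜ := by
    rintro ⟨i, hi, h⟩
    exact hi (nu_inj h).symm
  obtain ⟨ε, hε, hball⟩ := Metric.isOpen_iff.1 hfin.isClosed.isOpen_compl _ hmem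
  obtain ⟨p, hp1, hp2⟩ := exists_rat_btwn (show nu x - ε < nu x by linarith)
  obtain ⟨q, hq1, hq2⟩ := exists_rat_btwn (show nu x < nu x + ε by linarith)
  refine ⟨(p, q), ⟨hp2, hq1⟩, ?_⟩
  rintro i hi ⟨h1, h2⟩
  have : nu (a i x) ∈ Metric.ball (nu x) ε := by
    rw [Metric.mem_ball, Real.dist_eq, abs_lt]
    simp only at h1 h2
    constructor <;> linarith
  exact hball this ⟨i, hi, rfl⟩

/-- M1: maximal discrete Borel subsets -/
theorem exists_maxDisc {ι : Type} [Finite ι] (a : ι → X → X) (ha : ∀ i, Measurable (a i))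
    (hs : ∀ i, ∃ j, ∀ x, a j (a i x) = x) {S : Set X} (hS : MeasurableSet S) :
    ∃ M ⊆ S, MeasurableSet M ∧ (∀ x ∈ M, ∀ i, a i x ∈ M → a i x = x) ∧
      ∀ x ∈ S, x ∈ M ∨ ∃ i, a i x ∈ M := by
  classical
  obtain ⟨e, he⟩ := exists_surjective_nat (ℚ × ℚ)
  let U : ℕ → Set X := fun n => Nat.rec ∅
    (fun n W => W ∪ {x | x ∈ S ∧ x ∈ m1B a (e n) ∧ ∀ i, a i x ∉ W}) n
  have hU0 : U 0 = ∅ := rfl
  have hU1 : ∀ n, U (n + 1) = U n ∪ {x | x ∈ S ∧ x ∈ m1B a (e n) ∧ ∀ i, a i x ∉ U n} :=
    fun n => rfl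
  have hUm : ∀ n, MeasurableSet (U n) := by
    intro n
    induction n with
    | zero => rw [hU0]; exact MeasurableSet.empty
    | succ n ih =>
      rw [hU1]
      refine ih.union ?_
      have : {x | x ∈ S ∧ x ∈ m1B a (e n) ∧ ∀ i, a i x ∉ U n} =
          S ∩ (m1B a (e n) ∩ ⋂ i, (a i ⁻¹' U n)ᶜ) := by
        ext x
        simp only [mem_ofPred_eq, mem_inter_iff, mem_iInter, mem_compl_iff, mem_preimage]
      rw [this]
      exact hS.inter ((m1B_meas a ha _).inter (MeasurableSet.iInter fun i => ((ha i) ih).compl))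
  have hUS : ∀ n, U n ⊆ S := by
    intro n
    induction n with
    | zero => rw [hU0]; exact empty_subset _
    | succ n ih =>
      rw [hU1]
      exact union_subset ih fun x hx => hx.1
  have hmono : Monotone U := monotone_nat_of_le_succ fun n => by
    rw [hU1]
    exact subset_union_left
  have hUi : ∀ n, ∀ x ∈ U n, ∀ i, a i x ∈ U n → a i x = x := by
    intro n
    induction n with
    | zero => intro x hx; rw [hU0] at hx; exact absurd hx (notMem_empty x)
    | succ n ih =>
      intro x hx i hi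
      rw [hU1] at hx hi
      rcases hx with hx | hx <;> rcases hi with hi | hi
      · exact ih x hx i hi
      · exfalso
        obtain ⟨j, hj⟩ := hs i
        apply hi.2.2 j
        rw [hj x]
        exact hx
      · exact absurd hi (hx.2.2 i)
      · by_contra hne
        exact hx.2.1.2 i hne hi.2.1.1
  refine ⟨⋃ n, U n, iUnion_subset hUS, MeasurableSet.iUnion hUm, ?_, ?_⟩
  · intro x hx i hi
    rw [mem_iUnion] at hx hi
    obtain ⟨m, hm⟩ := hx
    obtain ⟨n, hn⟩ := hi
    exact hUi (max m n) x (hmono (le_max_left m n) hm) i (hmono (le_max_right m n) hn)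
  · intro x hx
    obtain ⟨r, hr⟩ := m1B_cover a x
    obtain ⟨n, rfl⟩ := he r
    rcases Classical.em (∀ i, a i x ∉ U n) with h | h
    · left
      rw [mem_iUnion]
      refine ⟨n + 1, ?_⟩
      rw [hU1]
      exact Or.inr ⟨hx, hr, h⟩
    · right
      push Not at h
      obtain ⟨i, hi⟩ := h
      exact ⟨i, mem_iUnion.2 ⟨n, hi⟩⟩

/-- M1: finite Borel colourings -/
theorem exists_coloring {ι : Type} [Finite ι] (a : ι → X → X) (ha : ∀ i, Measurable (a i))
    (hs : ∀ i, ∃ j, ∀ x, a j (a i x) = x) :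
    ∃ c : X → ℕ, Measurable c ∧ (∀ x, c x ≤ Nat.card ι) ∧
      ∀ x i, a i x ≠ x → c (a i x) ≠ c x := by
  classical
  have step : ∀ V : {V : Set X // MeasurableSet V}, ∃ M : Set X, M ⊆ V.1ᶜ ∧ MeasurableSet M ∧
      (∀ x ∈ M, ∀ i, a i x ∈ M → a i x = x) ∧ ∀ x ∈ V.1ᶜ, x ∈ M ∨ ∃ i, a i x ∈ M :=
    fun V => exists_maxDisc a ha hs V.2.compl
  choose Mf hM1 hM2 hM3 hM4 using step
  let V : ℕ → {V : Set X // MeasurableSet V} := fun k => Nat.rec ⟨∅, MeasurableSet.empty⟩
    (fun _ W => ⟨W.1 ∪ Mf W, W.2.union (hM2 W)⟩) k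
  have hV0 : (V 0).1 = ∅ := rfl
  have hV1 : ∀ k, (V (k + 1)).1 = (V k).1 ∪ Mf (V k) := fun k => rfl
  have hmono : Monotone fun k => (V k).1 := monotone_nat_of_le_succ fun k => by
    rw [hV1]
    exact subset_union_left
  have hall : ∀ x, x ∈ (V (Nat.card ι + 1)).1 := by
    intro x
    by_contra hx
    have h1 : ∀ k : Fin (Nat.card ι + 1), ∃ i, a i x ∈ Mf (V k) := by
      intro k
      have h2 : x ∉ (V (k + 1)).1 := fun h =>
        hx (hmono (show (k : ℕ) + 1 ≤ Nat.card ι + 1 by have := k.2; omega) h)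
      rw [hV1] at h2
      have h3 : x ∈ ((V k).1)ᶜ := fun h => h2 (Or.inl h)
      rcases hM4 (V k) x h3 with h4 | h4
      · exact absurd (Or.inr h4) h2
      · exact h4
    choose f hf using h1
    have hinj : Function.Injective f := by
      have key : ∀ k l : Fin (Nat.card ι + 1), k < l → f k ≠ f l := by
        intro k l hkl he
        have h2 : a (f l) x ∈ (V (k + 1)).1 := by
          rw [hV1, ← he]
          exact Or.inr (hf k)
        have h3 : a (f l) x ∈ (V l).1 := hmono (show (k : ℕ) + 1 ≤ l from hkl) h2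
        exact hM1 (V l) (hf l) h3
      intro k l he
      rcases lt_trichotomy k l with h | h | h
      · exact absurd he (key k l h)
      · exact h
      · exact absurd he.symm (key l k h)
    have := Nat.card_le_card_of_injective f hinj
    rw [Nat.card_fin] at this
    omega
  have hex : ∀ x, ∃ k, x ∈ (V (k + 1)).1 := fun x => ⟨_, hall x⟩
  refine ⟨fun x => Nat.find (hex x), ?_, fun x => Nat.find_min' (hex x) (hall x), ?_⟩
  · exact measurable_find hex fun k => (V (k + 1)).2
  · intro x i hi heq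
    have key : ∀ y, y ∈ Mf (V (Nat.find (hex y))) := by
      intro y
      have h1 := Nat.find_spec (hex y)
      rw [hV1] at h1
      rcases h1 with h1 | h1
      · exfalso
        rcases Nat.eq_zero_or_pos (Nat.find (hex y)) with h0 | h0
        · rw [h0, hV0] at h1
          exact h1
        · have h2 := Nat.find_min (hex y) (m := Nat.find (hex y) - 1) (by omega)
          apply h2
          rw [Nat.sub_add_cancel h0]
          exact h1
      · exact h1
    have h1 := key x
    have h2 := key (a i x)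
    simp only at heq
    rw [heq] at h2
    exact hi (hM3 _ x h1 i h2)

end Pool.Agent.CAR
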