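import Pool.Agent.CAR.DigTool

/-!
# Module M3: compressibility lemmas; compressible hyperfinite relations are generated by free
actions of any countable group that is not finitely generated
-/

set_option autoImplicit false
set_option linter.unusedVariables false
set_option linter.unusedSectionVars false

namespace Pool.Agent.CAR

open Set MeasureTheory

/-- a map that agrees with measurable maps on countably many measurable pieces is measurable -/
theorem measurable_pick {W Z ι : Type} [MeasurableSpace W] [MeasurableSpace Z] [Countable ι]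
    (r : W → Z) (φ : ι → W → Z) (hφ : ∀ i, Measurable (φ i)) (K : ι → Set W)
    (hK : ∀ i, MeasurableSet (K i)) (hcov : ∀ w, ∃ i, w ∈ K i)
    (heq : ∀ i, ∀ w ∈ K i, r w = φ i w) : Measurable r := by
  intro B hB
  have h : r ⁻¹' B = ⋃ i, K i ∩ φ i ⁻¹' B := by
    ext w
    simp only [mem_preimage, mem_iUnion, mem_inter_iff]
    constructor
    · intro h
      obtain ⟨i, hi⟩ := hcov w
      refine ⟨i, hi, ?_⟩
      rw [← heq i w hi]
      exact h
    · rintro ⟨i, hi, h⟩
      rw [heq i w hi]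
      exact h
  rw [h]
  exact MeasurableSet.iUnion fun i => (hK i).inter (hφ i hB)

/-- countable case distinction by a measurable index -/
theorem measurable_index {W Z ι : Type} [MeasurableSpace W] [MeasurableSpace Z] [Countable ι]
    [MeasurableSpace ι] [MeasurableSingletonClass ι]
    (n : W → ι) (hn : Measurable n) (φ : ι → W → Z) (hφ : ∀ i, Measurable (φ i)) :
    Measurable fun w => φ (n w) w := by
  refine measurable_pick _ φ hφ (fun i => n ⁻¹' {i}) (fun i => hn (measurableSet_singleton i))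
    (fun w => ⟨n w, rfl⟩) ?_
  intro i w hw
  have : n w = i := hw
  rw [this]

/-- Cantor-Schroeder-Bernstein for Borel injections with the pointwise property -/
theorem csb {α β : Type} [MeasurableSpace α] [StandardBorelSpace α] [MeasurableSpace β]
    [StandardBorelSpace β] {f : α → β} {g : β → α} (hf : Measurable f) (hfi : Function.Injective f)
    (hg : Measurable g) (hgi : Function.Injective g) :
    ∃ (h : α → β) (h' : β → α), Measurable h ∧ Measurable h' ∧ (∀ x, h' (h x) = x) ∧
      (∀ y, h (h' y) = y) ∧ ∀ x, h x = f x ∨ g (h x) = x := by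
  classical
  have ef : MeasurableEmbedding f := hf.measurableEmbedding hfi
  have eg : MeasurableEmbedding g := hg.measurableEmbedding hgi
  -- `C` is the set of points whose backward chain stops in `α`
  let C : Set α := ⋃ n : ℕ, (fun A : Set α => g '' (f '' A))^[n] (range g)ᶜ
  have hC0 : (range g)ᶜ ⊆ C := fun x hx => mem_iUnion.2 ⟨0, hx⟩
  have hCm : MeasurableSet C := by
    refine MeasurableSet.iUnion fun n => ?_
    induction n with
    | zero => exact eg.measurableSet_range.compl
    | succ n ih =>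
      rw [Function.iterate_succ_apply']
      exact eg.measurableSet_image.2 (ef.measurableSet_image.2 ih)
  have hC1 : ∀ x ∈ C, g (f x) ∈ C := by
    intro x hx
    obtain ⟨n, hn⟩ := mem_iUnion.1 hx
    refine mem_iUnion.2 ⟨n + 1, ?_⟩
    rw [Function.iterate_succ_apply']
    exact ⟨f x, ⟨x, hn, rfl⟩, rfl⟩
  have hC2 : ∀ x, g (f x) ∈ C → x ∈ C := by
    intro x hx
    obtain ⟨n, hn⟩ := mem_iUnion.1 hx
    rcases n with _ | n
    · exact absurd ⟨f x, rfl⟩ hn
    · rw [Function.iterate_succ_apply'] at hn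
      obtain ⟨y, ⟨z, hz, hzy⟩, hy⟩ := hn
      have h1 : y = f x := hgi hy
      have h2 : z = x := hfi (hzy.trans h1)
      rw [← h2]
      exact mem_iUnion.2 ⟨n, hz⟩
  have hex : ∀ x, x ∉ C → ∃ y, g y = x := by
    intro x hx
    by_contra h
    exact hx (hC0 fun ⟨y, hy⟩ => h ⟨y, hy⟩)
  let h : α → β := fun x => if hx : x ∈ C then f x else (hex x hx).choose
  have h1 : ∀ x ∈ C, h x = f x := fun x hx => by simp only [h]; rw [dif_pos hx]
  have h2 : ∀ x, x ∉ C → g (h x) = x := fun x hx => by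
    simp only [h]
    rw [dif_neg hx]
    exact (hex x hx).choose_spec
  have hinj : Function.Injective h := by
    intro x y hxy
    by_cases hx : x ∈ C <;> by_cases hy : y ∈ C
    · rw [h1 x hx, h1 y hy] at hxy
      exact hfi hxy
    · exfalso
      have := h2 y hy
      rw [← hxy, h1 x hx] at this
      exact hy (this ▸ hC1 x hx)
    · exfalso
      have := h2 x hx
      rw [hxy, h1 y hy] at this
      exact hx (this ▸ hC1 y hy)
    · rw [← h2 x hx, ← h2 y hy, hxy]
  have hsurj : Function.Surjective h := by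
    intro y
    by_cases hy : g y ∈ C
    · by_cases hyf : y ∈ range f
      · obtain ⟨x, rfl⟩ := hyf
        exact ⟨x, h1 x (hC2 x hy)⟩
      · exfalso
        obtain ⟨n, hn⟩ := mem_iUnion.1 hy
        rcases n with _ | n
        · exact hn ⟨y, rfl⟩
        · rw [Function.iterate_succ_apply'] at hn
          obtain ⟨y', ⟨z, hz, hzy⟩, hy'⟩ := hn
          exact hyf ⟨z, hzy.trans (hgi hy')⟩
    · exact ⟨g y, hgi (h2 _ hy)⟩
  have hmeas : Measurable h := by
    intro B hB
    have : h ⁻¹' B = (C ∩ f ⁻¹' B) ∪ (Cᶜ ∩ g '' B) := by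
      ext x
      simp only [mem_preimage, mem_union, mem_inter_iff, mem_compl_iff, mem_image]
      by_cases hx : x ∈ C
      · simp [hx, h1 x hx]
      · simp only [hx, false_and, not_false_eq_true, true_and, false_or]
        constructor
        · intro hB'
          exact ⟨h x, hB', h2 x hx⟩
        · rintro ⟨y, hy, hyx⟩
          have : h x = y := hgi ((h2 x hx).trans hyx.symm)
          rw [this]
          exact hy
    rw [this]
    exact (hCm.inter (hf hB)).union (hCm.compl.inter (eg.measurableSet_image.2 hB))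
  obtain ⟨h', hl, hr⟩ := Function.bijective_iff_has_inverse.1 ⟨hinj, hsurj⟩
  refine ⟨h, h', hmeas, ?_, hl, hr, ?_⟩
  · have eh : MeasurableEmbedding h := hmeas.measurableEmbedding hinj
    intro B hB
    have : h' ⁻¹' B = h '' B := by
      ext y
      simp only [mem_preimage, mem_image]
      constructor
      · intro hy
        exact ⟨h' y, hy, hr y⟩
      · rintro ⟨x, hx, rfl⟩
        rw [hl x]
        exact hx
    rw [this]
    exact eh.measurableSet_image.2 hB
  · intro x
    by_cases hx : x ∈ C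
    · exact Or.inl (h1 x hx)
    · exact Or.inr (h2 x hx)

section Compr

variable {G X : Type} [Group G] [Countable G] [MeasurableSpace X] [StandardBorelSpace X]
  [MulAction G X] [MeasurableConstSMul G X]

/-- M3: compressibility from a complete section -/
theorem comprOn_of_section {P : Set X} (hP : MeasurableSet P) (hPi : Inv G P) {A : Set X}
    (hA : MeasurableSet A) (hAP : A ⊆ P) (hc : ∀ x ∈ P, ∃ g : G, g • x ∈ A)
    (ψ : X → ℕ → X) (hm : ∀ n, Measurable fun x => ψ x n) (ho : ∀ x ∈ A, ∀ n, Eo G x (ψ x n))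
    (hi : ∀ x ∈ A, ∀ y ∈ A, ∀ m n, ψ x m = ψ y n → x = y ∧ m = n) : ComprOn G P := by
  classical
  obtain ⟨e, he⟩ := exists_surjective_nat G
  have hex : ∀ x, ∃ n, e n • x ∈ A ∨ x ∉ P := by
    intro x
    by_cases hx : x ∈ P
    · obtain ⟨g, hg⟩ := hc x hx
      obtain ⟨n, rfl⟩ := he g
      exact ⟨n, Or.inl hg⟩
    · exact ⟨0, Or.inr hx⟩
  have hmn : Measurable fun x => Nat.find (hex x) :=
    measurable_find hex fun k => ((measurable_const_smul (e k)) hA).union hP.compl
  have hsel : ∀ x ∈ P, e (Nat.find (hex x)) • x ∈ A := by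
    intro x hx
    rcases Nat.find_spec (hex x) with h | h
    · exact h
    · exact absurd hx h
  refine ⟨fun x m => ψ (e (Nat.find (hex x)) • x) (Nat.pair (Nat.find (hex x)) m),
    fun m => ?_, fun x hx n => ?_, fun x hx y hy m n h => ?_⟩
  · exact measurable_index (fun x => Nat.find (hex x)) hmn
      (fun k x => ψ (e k • x) (Nat.pair k m)) fun k => (hm _).comp (measurable_const_smul (e k))
  · exact Eo.trans ⟨_, rfl⟩ (ho _ (hsel x hx) _)
  · obtain ⟨h1, h2⟩ := hi _ (hsel x hx) _ (hsel y hy) _ _ h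
    have h3 := congrArg Nat.unpair h2
    simp only [Nat.unpair_pair, Prod.mk.injEq] at h3
    obtain ⟨h3, h4⟩ := h3
    refine ⟨?_, h4⟩
    rw [h3] at h1
    exact MulAction.injective _ h1

/-- M3: compressibility from an injection of a complete section into a smaller one -/
theorem comprOn_of_shrink {P : Set X} (hP : MeasurableSet P) (hPi : Inv G P) {A B : Set X}
    (hA : MeasurableSet A) (hB : MeasurableSet B) (hAP : A ⊆ P) (hBA : B ⊆ A)
    (hc : ∀ x ∈ P, ∃ g : G, g • x ∈ A \ B)
    (θ : X → X) (hm : Measurable θ) (ho : ∀ x ∈ A, Eo G x (θ x) ∧ θ x ∈ B)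
    (hi : ∀ x ∈ A, ∀ y ∈ A, θ x = θ y → x = y) : ComprOn G P := by
  have hit : ∀ n, ∀ x ∈ A, θ^[n] x ∈ A ∧ Eo G x (θ^[n] x) := by
    intro n
    induction n with
    | zero => exact fun x hx => ⟨hx, Eo.refl x⟩
    | succ n ih =>
      intro x hx
      rw [Function.iterate_succ_apply']
      obtain ⟨h1, h2⟩ := ih x hx
      exact ⟨hBA (ho _ h1).2, h2.trans (ho _ h1).1⟩
  have hinj : ∀ n, ∀ x ∈ A, ∀ y ∈ A, θ^[n] x = θ^[n] y → x = y := by
    intro n
    induction n with
    | zero => exact fun x hx y hy h => h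
    | succ n ih =>
      intro x hx y hy h
      rw [Function.iterate_succ_apply', Function.iterate_succ_apply'] at h
      exact ih x hx y hy (hi _ (hit n x hx).1 _ (hit n y hy).1 h)
  have key : ∀ m k, ∀ x ∈ A \ B, ∀ y ∈ A \ B, θ^[m] x = θ^[m + k] y → x = y ∧ m = m + k := by
    intro m k x hx y hy h
    rw [Function.iterate_add_apply] at h
    have h1 := hinj m x hx.1 _ (hit k y hy.1).1 h
    rcases k with _ | k
    · exact ⟨h1, rfl⟩
    · exfalso
      apply hx.2
      rw [h1, Function.iterate_succ_apply']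
      exact (ho _ (hit k y hy.1).1).2
  refine comprOn_of_section hP hPi (hA.diff hB) (fun x hx => hAP hx.1) hc
    (fun x n => θ^[n] x) (fun n => hm.iterate n) (fun x hx n => (hit n x hx.1).2) ?_
  intro x hx y hy m n h
  rcases le_total m n with hmn | hmn
  · obtain ⟨k, rfl⟩ := Nat.exists_eq_add_of_le hmn
    exact key m k x hx y hy h
  · obtain ⟨k, rfl⟩ := Nat.exists_eq_add_of_le hmn
    obtain ⟨h1, h2⟩ := key n k y hy x hx h.symm
    exact ⟨h1.symm, h2.symm⟩

/-- M3: countable unions -/
theorem comprOn_iUnion {P : ℕ → Set X} (hP : ∀ n, MeasurableSet (P n)) (hPi : ∀ n, Inv G (P n))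
    (hc : ∀ n, ComprOn G (P n)) : ComprOn G (⋃ n, P n) := by
  classical
  choose ψ hm ho hi using hc
  have hex : ∀ x, ∃ n, x ∈ P n ∨ x ∉ ⋃ n, P n := by
    intro x
    by_cases hx : x ∈ ⋃ n, P n
    · obtain ⟨n, hn⟩ := mem_iUnion.1 hx
      exact ⟨n, Or.inl hn⟩
    · exact ⟨0, Or.inr hx⟩
  have hmn : Measurable fun x => Nat.find (hex x) :=
    measurable_find hex fun k => (hP k).union (MeasurableSet.iUnion hP).compl
  have hsel : ∀ x ∈ ⋃ n, P n, x ∈ P (Nat.find (hex x)) := by
    intro x hx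
    rcases Nat.find_spec (hex x) with h | h
    · exact h
    · exact absurd hx h
  have hinv : ∀ x y, Eo G x y → Nat.find (hex x) = Nat.find (hex y) := by
    intro x y hxy
    have hU : (x ∉ ⋃ n, P n) ↔ (y ∉ ⋃ n, P n) := by
      simp only [mem_iUnion, (hPi _).mem_iff hxy]
    refine Nat.find_congr' fun {n} => ?_
    rw [hU, (hPi n).mem_iff hxy]
  refine ⟨fun x m => ψ (Nat.find (hex x)) x m, fun m => ?_, fun x hx n => ?_,
    fun x hx y hy m n h => ?_⟩
  · exact measurable_index (fun x => Nat.find (hex x)) hmn (fun k x => ψ k x m) fun k => hm k m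
  · exact ho _ x (hsel x hx) n
  · simp only at h
    have e1 : Eo G x (ψ (Nat.find (hex x)) x m) := ho _ x (hsel x hx) m
    have e2 : Eo G y (ψ (Nat.find (hex y)) y n) := ho _ y (hsel y hy) n
    rw [← h] at e2
    have e3 := hinv x y (e1.trans e2.symm)
    have hy' := hsel y hy
    rw [← e3] at h hy'
    exact hi _ x (hsel x hx) y hy' m n h

/-- a free action from an injective cocycle on a compressible relation -/
theorem freeGen_of_cocycle (Γ : Type) [Group Γ] [Countable Γ] (c : X → X → Γ)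
    (c1 : ∀ x y z, Eo G x y → Eo G y z → c x z = c x y * c y z)
    (c2 : ∀ x y, Eo G x y → c x y = 1 → x = y)
    (c3 : ∀ (g : G) δ, MeasurableSet {x | c x (g • x) = δ})
    (hC : ComprOn G (univ : Set X)) : FreeGen Γ (Eo G (X := X)) := by
  classical
  let _ : MeasurableSpace Γ := ⊤
  have _ : DiscreteMeasurableSpace Γ := ⟨fun _ => trivial⟩
  obtain ⟨enc, henc⟩ := exists_injective_nat Γ
  obtain ⟨ψ, hψm, hψo, hψi⟩ := hC
  have c11 : ∀ x, c x x = 1 := by
    intro x
    have := c1 x x x (Eo.refl x) (Eo.refl x)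
    exact (left_eq_mul.1 this)
  -- the equivalence relation
  let Q : X × Γ → X × Γ → Prop := fun p q => Eo G p.1 q.1 ∧ q.2 = p.2 * c p.1 q.1
  have Qrefl : ∀ p, Q p p := fun p => ⟨Eo.refl _, by rw [c11, mul_one]⟩
  have Qsymm : ∀ p q, Q p q → Q q p := by
    rintro p q ⟨h1, h2⟩
    refine ⟨h1.symm, ?_⟩
    rw [h2, mul_assoc, ← c1 _ _ _ h1 h1.symm, c11, mul_one]
  have Qtrans : ∀ p q r, Q p q → Q q r → Q p r := by
    rintro p q r ⟨h1, h2⟩ ⟨h3, h4⟩
    refine ⟨h1.trans h3, ?_⟩
    rw [h4, h2, mul_assoc, ← c1 _ _ _ h1 h3]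
  have Qmul : ∀ (γ : Γ) p q, Q p q → Q (p.1, γ * p.2) (q.1, γ * q.2) := by
    rintro γ p q ⟨h1, h2⟩
    refine ⟨h1, ?_⟩
    show γ * q.2 = γ * p.2 * c p.1 q.1
    rw [h2, mul_assoc]
  let Z0 : Set (X × Γ) := {p | ∀ g : G, enc p.2 ≤ enc (p.2 * c p.1 (g • p.1))}
  let φ : G → X × Γ → X × Γ := fun g p => (g • p.1, p.2 * c p.1 (g • p.1))
  have hφQ : ∀ g p, Q p (φ g p) := fun g p => ⟨⟨g, rfl⟩, rfl⟩
  have hQφ : ∀ p q, Q p q → ∃ g, q = φ g p := by
    rintro p q ⟨⟨g, hg⟩, h2⟩
    refine ⟨g, Prod.ext hg.symm ?_⟩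
    show q.2 = p.2 * c p.1 (g • p.1)
    rw [hg, h2]
  have hC2 : ∀ g : G, Measurable fun p : X × Γ => p.2 * c p.1 (g • p.1) := by
    intro g
    have h1 : Measurable fun x : X => c x (g • x) := measurable_to_countable' fun δ => c3 g δ
    exact measurable_index (fun p : X × Γ => p.2) measurable_snd
      (fun γ p => γ * c p.1 (g • p.1)) fun γ =>
      (Measurable.of_discrete (f := fun δ : Γ => γ * δ)).comp (h1.comp measurable_fst)
  have hφm : ∀ g, Measurable (φ g) := fun g =>
    ((measurable_const_smul g).comp measurable_fst).prodMk (hC2 g)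
  have hZ0 : MeasurableSet Z0 := by
    have : Z0 = ⋂ g : G, {p : X × Γ | enc p.2 ≤ enc (p.2 * c p.1 (g • p.1))} := by
      ext p
      simp only [Z0, mem_ofPred_eq, mem_iInter]
    rw [this]
    refine MeasurableSet.iInter fun g => measurableSet_le ?_ ?_
    · exact (Measurable.of_discrete (f := enc)).comp measurable_snd
    · exact (Measurable.of_discrete (f := enc)).comp (hC2 g)
  have hle : ∀ p ∈ Z0, ∀ q, Q p q → enc p.2 ≤ enc q.2 := by
    intro p hp q hq
    obtain ⟨g, rfl⟩ := hQφ p q hq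
    exact hp g
  have huniq : ∀ p ∈ Z0, ∀ q ∈ Z0, Q p q → p = q := by
    intro p hp q hq h
    have h1 : p.2 = q.2 := henc (le_antisymm (hle p hp q h) (hle q hq p (Qsymm _ _ h)))
    have h2 : c p.1 q.1 = 1 := by
      have := h.2
      rw [← h1] at this
      exact (left_eq_mul.1 this)
    exact Prod.ext (c2 _ _ h.1 h2) h1
  have hexr : ∀ p, ∃ q, q ∈ Z0 ∧ Q p q := by
    intro p
    obtain ⟨g, hg⟩ : ∃ g : G, ∀ g' : G, enc (φ g p).2 ≤ enc (φ g' p).2 := by
      have hne : (range fun g : G => enc (φ g p).2).Nonempty := ⟨_, 1, rfl⟩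
      obtain ⟨g, hg⟩ := Nat.sInf_mem hne
      refine ⟨g, fun g' => ?_⟩
      have hg1 : enc (φ g p).2 = sInf (range fun g : G => enc (φ g p).2) := hg
      rw [hg1]
      exact Nat.sInf_le ⟨g', rfl⟩
    refine ⟨φ g p, fun g' => ?_, hφQ g p⟩
    obtain ⟨g'', h''⟩ := hQφ p (φ g' (φ g p)) (Qtrans _ _ _ (hφQ g p) (hφQ g' _))
    have := hg g''
    rw [← h''] at this
    exact this
  choose rep hrep0 hrepQ using hexr
  have hrep_eq : ∀ p q, Q p q → rep p = rep q := by
    intro p q h
    exact huniq _ (hrep0 p) _ (hrep0 q)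
      (Qtrans _ _ _ (Qsymm _ _ (hrepQ p)) (Qtrans _ _ _ h (hrepQ q)))
  have hrep_iff : ∀ p, ∀ q ∈ Z0, rep p = q ↔ Q p q := by
    intro p q hq
    constructor
    · rintro rfl
      exact hrepQ p
    · intro h
      exact huniq _ (hrep0 p) _ hq (Qtrans _ _ _ (Qsymm _ _ (hrepQ p)) h)
  have hrepm : Measurable rep := by
    refine measurable_pick rep φ hφm (fun g => φ g ⁻¹' Z0) (fun g => hφm g hZ0) ?_ ?_
    · intro p
      obtain ⟨g, hg⟩ := hQφ p _ (hrepQ p)
      refine ⟨g, ?_⟩
      show φ g p ∈ Z0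
      rw [← hg]
      exact hrep0 p
    · intro g p hp
      exact (hrep_iff p _ hp).2 (hφQ g p)
  have _ : StandardBorelSpace Z0 := hZ0.standardBorel
  -- the two injections
  let f : X → Z0 := fun x => ⟨rep (x, 1), hrep0 _⟩
  let k : Z0 → X := fun z => ψ z.1.1 (enc z.1.2)
  have hfm : Measurable f := (hrepm.comp (measurable_id.prodMk measurable_const)).subtype_mk
  have hfi : Function.Injective f := by
    intro x y hxy
    have h1 : rep (x, 1) = rep (y, 1) := congrArg Subtype.val hxy
    have h2 : Q (x, 1) (y, 1) :=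
      Qtrans _ _ _ (hrepQ (x, 1)) (by rw [h1]; exact Qsymm _ _ (hrepQ (y, 1)))
    have h3 : (1 : Γ) = 1 * c x y := h2.2
    rw [one_mul] at h3
    exact c2 x y h2.1 h3.symm
  have hkm : Measurable k := by
    refine measurable_index (fun z : Z0 => enc z.1.2) ?_ (fun n z => ψ z.1.1 n) fun n => ?_
    · exact (Measurable.of_discrete (f := enc)).comp (measurable_snd.comp measurable_subtype_coe)
    · exact (hψm n).comp (measurable_fst.comp measurable_subtype_coe)
  have hki : Function.Injective k := by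
    intro z w h
    obtain ⟨h1, h2⟩ := hψi _ (mem_univ _) _ (mem_univ _) _ _ h
    exact Subtype.ext (Prod.ext h1 (henc h2))
  obtain ⟨h, h', hm, hm', hl, hr, hp⟩ := csb hfm hfi hkm hki
  have hcls : ∀ x, Eo G x (h x).1.1 := by
    intro x
    rcases hp x with hx | hx
    · rw [hx]
      exact (hrepQ (x, 1)).1
    · have : Eo G (h x).1.1 (ψ (h x).1.1 (enc (h x).1.2)) := hψo _ (mem_univ _) _
      have h2 : ψ (h x).1.1 (enc (h x).1.2) = x := hx
      rw [h2] at this
      exact this.symm
  -- the action on the transversal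
  let act : Γ → Z0 → Z0 := fun γ z => ⟨rep (z.1.1, γ * z.1.2), hrep0 _⟩
  have act1 : ∀ z, act 1 z = z := by
    intro z
    refine Subtype.ext ((hrep_iff _ _ z.2).2 ?_)
    rw [one_mul]
    exact Qrefl _
  have actmul : ∀ γ δ z, act (γ * δ) z = act γ (act δ z) := by
    intro γ δ z
    refine Subtype.ext ?_
    show rep (z.1.1, γ * δ * z.1.2) =
      rep ((rep (z.1.1, δ * z.1.2)).1, γ * (rep (z.1.1, δ * z.1.2)).2)
    refine hrep_eq _ _ ?_
    have := Qmul γ _ _ (hrepQ (z.1.1, δ * z.1.2))
    rw [mul_assoc]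
    exact this
  have actm : ∀ γ, Measurable (act γ) := by
    intro γ
    refine (hrepm.comp (Measurable.prodMk ?_ ?_)).subtype_mk
    · exact measurable_fst.comp measurable_subtype_coe
    · exact (Measurable.of_discrete (f := fun δ : Γ => γ * δ)).comp
        (measurable_snd.comp measurable_subtype_coe)
  have actfree : ∀ γ z, act γ z = z → γ = 1 := by
    intro γ z hz
    have h1 : Q (z.1.1, γ * z.1.2) z.1 := (hrep_iff _ _ z.2).1 (congrArg Subtype.val hz)
    have h2 : z.1.2 = γ * z.1.2 * c z.1.1 z.1.1 := h1.2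
    rw [c11, mul_one] at h2
    exact right_eq_mul.1 h2
  have actorb : ∀ z w : Z0, Eo G z.1.1 w.1.1 ↔ ∃ γ, act γ z = w := by
    intro z w
    constructor
    · intro h1
      refine ⟨w.1.2 * (c z.1.1 w.1.1)⁻¹ * z.1.2⁻¹, Subtype.ext ((hrep_iff _ _ w.2).2 ⟨h1, ?_⟩)⟩
      show w.1.2 = w.1.2 * (c z.1.1 w.1.1)⁻¹ * z.1.2⁻¹ * z.1.2 * c z.1.1 w.1.1
      group
    · rintro ⟨γ, rfl⟩
      exact (hrepQ (z.1.1, γ * z.1.2)).1
  refine ⟨fun γ x => h' (act γ (h x)), fun x => ?_, fun γ δ x => ?_, fun γ => ?_,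
    fun γ x hx => ?_, fun x y => ?_⟩
  · show h' (act 1 (h x)) = x
    rw [act1, hl]
  · show h' (act (γ * δ) (h x)) = h' (act γ (h (h' (act δ (h x)))))
    rw [hr, actmul]
  · exact hm'.comp ((actm γ).comp hm)
  · refine actfree γ (h x) ?_
    have := congrArg h hx
    rwa [hr] at this
  · constructor
    · intro hxy
      obtain ⟨γ, hγ⟩ := (actorb (h x) (h y)).1 ((hcls x).symm.trans (hxy.trans (hcls y)))
      refine ⟨γ, ?_⟩
      show h' (act γ (h x)) = y
      rw [hγ, hl]
    · rintro ⟨γ, rfl⟩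
      have h1 := (actorb (h x) (act γ (h x))).2 ⟨γ, rfl⟩
      have h2 := hcls (h' (act γ (h x)))
      rw [hr] at h2
      exact (hcls x).trans (h1.trans h2.symm)

theorem mono_le {F : ℕ → X → X → Prop} (hmono : ∀ n x y, F n x y → F (n + 1) x y) {n m : ℕ}
    (h : n ≤ m) {x y : X} (hx : F n x y) : F m x y := by
  induction m, h using Nat.le_induction with
  | base => exact hx
  | succ m _ ih => exact hmono m x y ih

/-- the slowed down relations: classes of size at most `j + 1` -/
def slow (F : ℕ → X → X → Prop) (j : ℕ) (x y : X) : Prop :=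
  x = y ∨ ∃ i ≤ j, F i x y ∧ sz (F i) x ≤ j + 1

theorem slow_FBR {F : ℕ → X → X → Prop} (hF : ∀ n, FBR G (F n))
    (hmono : ∀ n x y, F n x y → F (n + 1) x y) (j : ℕ) : FBR G (slow F j) where
  equiv := by
    refine ⟨fun x => Or.inl rfl, ?_, ?_⟩
    · rintro x y (rfl | ⟨i, hi, h, hs⟩)
      · exact Or.inl rfl
      · refine Or.inr ⟨i, hi, (hF i).equiv.symm h, ?_⟩
        rwa [← (hF i).sz_eq h]
    · rintro x y z (rfl | ⟨i, hi, h, hs⟩) (rfl | ⟨k, hk, h', hs'⟩)
      · exact Or.inl rfl
      · exact Or.inr ⟨k, hk, h', hs'⟩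
      · exact Or.inr ⟨i, hi, h, hs⟩
      · rcases le_total i k with hik | hik
        · have h1 := mono_le hmono hik h
          refine Or.inr ⟨k, hk, (hF k).equiv.trans h1 h', ?_⟩
          rwa [(hF k).sz_eq h1]
        · have h1 := mono_le hmono hik h'
          exact Or.inr ⟨i, hi, (hF i).equiv.trans h h1, hs⟩
  sub x y h := by
    rcases h with rfl | ⟨i, hi, h, hs⟩
    · exact ⟨1, one_smul _ _⟩
    · exact (hF i).sub x y h
  fin x := by
    refine ((Set.finite_singleton x).union
      (Set.Finite.biUnion (Set.finite_Iic j) fun i _ => (hF i).fin x)).subset ?_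
    rintro y (rfl | ⟨i, hi, h, hs⟩)
    · exact Or.inl rfl
    · exact Or.inr (mem_biUnion (mem_Iic.2 hi) h)
  meas g := by
    have : {x : X | slow F j x (g • x)} = {x : X | x = g • x} ∪
        ⋃ i : ℕ, ⋃ _ : i ≤ j, ({x | F i x (g • x)} ∩ {x | sz (F i) x ≤ j + 1}) := by
      ext x
      simp only [slow, mem_ofPred_eq, mem_union, mem_iUnion, mem_inter_iff, exists_prop]
    rw [this]
    refine (measurableSet_eq' measurable_id (measurable_const_smul g)).union ?_
    refine MeasurableSet.iUnion fun i => MeasurableSet.iUnion fun _ => ?_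
    exact ((hF i).meas g).inter (measurableSet_le (hF i).measurable_sz measurable_const)

theorem slow_mono (F : ℕ → X → X → Prop) (j : ℕ) (x y : X) (h : slow F j x y) :
    slow F (j + 1) x y := by
  rcases h with rfl | ⟨i, hi, h, hs⟩
  · exact Or.inl rfl
  · exact Or.inr ⟨i, by omega, h, by omega⟩

theorem slow_sz {F : ℕ → X → X → Prop} (hF : ∀ n, FBR G (F n))
    (hmono : ∀ n x y, F n x y → F (n + 1) x y) (j : ℕ) (x : X) : sz (slow F j) x ≤ j + 1 := by
  classical
  by_cases h : ∃ i ≤ j, sz (F i) x ≤ j + 1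
  · obtain ⟨i, hi, hs⟩ := h
    have h1 : sz (F (Nat.findGreatest (fun i => sz (F i) x ≤ j + 1) j)) x ≤ j + 1 :=
      Nat.findGreatest_spec (P := fun i => sz (F i) x ≤ j + 1) hi hs
    refine le_trans (Set.ncard_le_ncard ?_ ((hF _).fin x)) h1
    rintro y (rfl | ⟨k, hk, h', hs'⟩)
    · exact (hF _).equiv.refl _
    · exact mono_le hmono (Nat.le_findGreatest hk hs') h'
  · have h1 : {y | slow F j x y} ⊆ {x} := by
      rintro y (rfl | ⟨k, hk, h', hs'⟩)
      · rfl
      · exact absurd ⟨k, hk, hs'⟩ h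
    have h2 : sz (slow F j) x ≤ ({x} : Set X).ncard :=
      Set.ncard_le_ncard h1 (Set.finite_singleton x)
    rw [Set.ncard_singleton] at h2
    omega

theorem slow_exh {F : ℕ → X → X → Prop} {x y : X} {n : ℕ}
    (h : F n x y) : ∃ j, slow F j x y :=
  ⟨max n (sz (F n) x), Or.inr ⟨n, le_max_left _ _, h, by omega⟩⟩

theorem slow_zero {F : ℕ → X → X → Prop} (hF : ∀ n, FBR G (F n))
    (hmono : ∀ n x y, F n x y → F (n + 1) x y) {x y : X} (h : slow F 0 x y) : x = y := by
  have h1 := slow_sz hF hmono 0 x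
  have h2 := (slow_FBR hF hmono 0).fin x
  rw [sz, zero_add, Set.ncard_le_one h2] at h1
  exact h1 x ((slow_FBR hF hmono 0).equiv.refl x) y h

/-- the finitely generated subgroups of a group that is not finitely generated have infinite
index -/
theorem exists_cosets (Γ : Type) [Group Γ] (hΓ : ¬ Group.FG Γ) (S : Finset Γ) :
    ∃ u : ℕ → Γ, ∀ i j, u i * (u j)⁻¹ ∈ Subgroup.closure (S : Set Γ) → i = j := by
  classical
  have hinf : Infinite (Γ ⧸ Subgroup.closure (S : Set Γ)) := by
    by_contra h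
    rw [not_infinite_iff_finite] at h
    apply hΓ
    let R : Set Γ := range fun q : Γ ⧸ Subgroup.closure (S : Set Γ) => q.out
    have hR : R.Finite := Set.finite_range _
    refine ⟨⟨S ∪ hR.toFinset, ?_⟩⟩
    rw [eq_top_iff]
    intro g _
    have h1 : (QuotientGroup.mk g : Γ ⧸ Subgroup.closure (S : Set Γ)).out⁻¹ * g ∈
        Subgroup.closure (S : Set Γ) := by
      rw [← QuotientGroup.eq]
      exact Quotient.out_eq' _
    have h2 : g = (QuotientGroup.mk g : Γ ⧸ Subgroup.closure (S : Set Γ)).out *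
        ((QuotientGroup.mk g : Γ ⧸ Subgroup.closure (S : Set Γ)).out⁻¹ * g) := by group
    rw [h2]
    refine mul_mem (Subgroup.subset_closure ?_) (Subgroup.closure_mono ?_ h1)
    · rw [Finset.coe_union, Set.Finite.coe_toFinset]
      exact Or.inr ⟨_, rfl⟩
    · rw [Finset.coe_union]
      exact subset_union_left
  let f := Infinite.natEmbedding (Γ ⧸ Subgroup.closure (S : Set Γ))
  refine ⟨fun n => ((f n).out)⁻¹, fun i j h => ?_⟩
  simp only [inv_inv] at h
  have h1 : (QuotientGroup.mk (f i).out : Γ ⧸ Subgroup.closure (S : Set Γ)) =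
      QuotientGroup.mk (f j).out := QuotientGroup.eq.2 h
  have h2 : ∀ q : Γ ⧸ Subgroup.closure (S : Set Γ), QuotientGroup.mk q.out = q :=
    fun q => Quotient.out_eq' q
  rw [h2, h2] at h1
  exact f.injective h1

/-- an injective Borel cocycle on a hyperfinite relation -/
theorem exists_cocycle (Γ : Type) [Group Γ] [Countable Γ] (hΓ : ¬ Group.FG Γ)
    (hH : HypOn G (univ : Set X)) : ∃ c : X → X → Γ,
    (∀ x y z, Eo G x y → Eo G y z → c x z = c x y * c y z) ∧
    (∀ x y, Eo G x y → c x y = 1 → x = y) ∧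
    ∀ (g : G) δ, MeasurableSet {x | c x (g • x) = δ} := by
  classical
  obtain ⟨F0, hF0, hmono0, hex0⟩ := hH
  -- slow down
  obtain ⟨F, hF, hmono, hsz, hzero, hex⟩ : ∃ F : ℕ → X → X → Prop, (∀ n, FBR G (F n)) ∧
      (∀ n x y, F n x y → F (n + 1) x y) ∧ (∀ n x, sz (F n) x ≤ n + 1) ∧
      (∀ x y, F 0 x y → x = y) ∧ ∀ x y, Eo G x y → ∃ n, F n x y := by
    refine ⟨slow F0, slow_FBR hF0 hmono0, slow_mono F0, slow_sz hF0 hmono0,
      fun x y => slow_zero hF0 hmono0, ?_⟩
    rintro x _ ⟨g, rfl⟩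
    obtain ⟨n, hn⟩ := hex0 x (mem_univ x) g
    exact slow_exh hn
  choose u hu using exists_cosets Γ hΓ
  obtain ⟨T, hT⟩ : ∃ T : ℕ → Finset Γ,
      ∀ n, T (n + 1) = T n ∪ (Finset.range (n + 2)).image (u (T n)) :=
    ⟨fun n => Nat.rec ∅ (fun n S => S ∪ (Finset.range (n + 2)).image (u S)) n, fun n => rfl⟩
  let idx : ℕ → X → ℕ := fun n x => rk (F (n + 1)) (el (F n) x 0)
  have hidx : ∀ n x, idx n x < n + 2 := by
    intro n x
    have h1 := (hF (n + 1)).rk_lt_sz (el (F n) x 0)
    have h2 := hsz (n + 1) (el (F n) x 0)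
    show rk (F (n + 1)) (el (F n) x 0) < n + 2
    omega
  have hidx_eq : ∀ n x y, F n x y → idx n x = idx n y := by
    intro n x y h
    show rk (F (n + 1)) (el (F n) x 0) = rk (F (n + 1)) (el (F n) y 0)
    rw [(hF n).el_congr h ((hF n).sz_pos x)]
  have hidx_inj : ∀ n x y, F (n + 1) x y → idx n x = idx n y → F n x y := by
    intro n x y h h'
    have h1 : F n x (el (F n) x 0) := (hF n).el_cls x 0
    have h2 : F n y (el (F n) y 0) := (hF n).el_cls y 0
    have h3 : F (n + 1) (el (F n) x 0) (el (F n) y 0) :=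
      (hF (n + 1)).equiv.trans ((hF (n + 1)).equiv.symm (hmono _ _ _ h1))
        ((hF (n + 1)).equiv.trans h (hmono _ _ _ h2))
    have h4 := (hF (n + 1)).rk_inj h3 h'
    rw [← h4] at h2
    exact (hF n).equiv.trans h1 ((hF n).equiv.symm h2)
  have hidxm : ∀ n, Measurable (idx n) := fun n =>
    (hF (n + 1)).measurable_rk.comp ((hF n).measurable_el 0)
  obtain ⟨lam, hlam0, hlam⟩ : ∃ lam : ℕ → X → Γ, (∀ x, lam 0 x = 1) ∧
      ∀ n x, lam (n + 1) x = lam n x * u (T n) (idx n x) :=
    ⟨fun n x => Nat.rec 1 (fun n l => l * u (T n) (idx n x)) n, fun x => rfl, fun n x => rfl⟩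
  have hlamT : ∀ (n : ℕ) (x : X), lam n x ∈ Subgroup.closure (T n : Set Γ) := by
    intro n
    induction n with
    | zero =>
      intro x
      rw [hlam0]
      exact one_mem _
    | succ n ih =>
      intro x
      rw [hlam, hT]
      refine mul_mem (Subgroup.closure_mono ?_ (ih x)) (Subgroup.subset_closure ?_)
      · rw [Finset.coe_union]
        exact subset_union_left
      · rw [Finset.mem_coe, Finset.mem_union]
        exact Or.inr (Finset.mem_image.2 ⟨idx n x, Finset.mem_range.2 (hidx n x), rfl⟩)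
  have hlamm : ∀ n (γ : Γ), MeasurableSet {x | lam n x = γ} := by
    intro n
    induction n with
    | zero =>
      intro γ
      simp only [hlam0]
      exact MeasurableSet.const ((1 : Γ) = γ)
    | succ n ih =>
      intro γ
      have : {x | lam (n + 1) x = γ} = ⋃ k : ℕ, {x | idx n x = k} ∩
          {x | lam n x = γ * (u (T n) k)⁻¹} := by
        ext x
        simp only [mem_ofPred_eq, mem_iUnion, mem_inter_iff, hlam, eq_mul_inv_iff_mul_eq]
        constructor
        · intro h
          exact ⟨idx n x, rfl, h⟩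
        · rintro ⟨k, rfl, h⟩
          exact h
      rw [this]
      exact MeasurableSet.iUnion fun k => (hidxm n (measurableSet_singleton k)).inter (ih _)
  have hstab1 : ∀ n x y, F n x y → lam (n + 1) x * (lam (n + 1) y)⁻¹ = lam n x * (lam n y)⁻¹ := by
    intro n x y h
    rw [hlam, hlam, hidx_eq n x y h]
    group
  have hstab : ∀ n m x y, n ≤ m → F n x y → lam m x * (lam m y)⁻¹ = lam n x * (lam n y)⁻¹ := by
    intro n m x y hnm h
    induction m, hnm using Nat.le_induction with
    | base => rfl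
    | succ m hm ih => rw [hstab1 m x y (mono_le hmono hm h), ih]
  let c : X → X → Γ := fun x y => if h : ∃ n, F n x y then
    lam (Nat.find h) x * (lam (Nat.find h) y)⁻¹ else 1
  have hc : ∀ n x y, F n x y → c x y = lam n x * (lam n y)⁻¹ := by
    intro n x y h
    have hx : ∃ n, F n x y := ⟨n, h⟩
    show (if h : ∃ n, F n x y then lam (Nat.find h) x * (lam (Nat.find h) y)⁻¹ else 1) = _
    rw [dif_pos hx]
    exact (hstab _ _ x y (Nat.find_min' hx h) (Nat.find_spec hx)).symm
  have hinj : ∀ n x y, F n x y → lam n x = lam n y → x = y := by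
    intro n
    induction n with
    | zero => exact fun x y h _ => hzero x y h
    | succ n ih =>
      intro x y h h'
      rw [hlam, hlam] at h'
      have h1 : u (T n) (idx n x) * (u (T n) (idx n y))⁻¹ = (lam n x)⁻¹ * lam n y := by
        rw [mul_inv_eq_iff_eq_mul, mul_assoc, ← h']
        group
      have h2 : idx n x = idx n y := by
        refine hu (T n) _ _ ?_
        rw [h1]
        exact mul_mem (inv_mem (hlamT n x)) (hlamT n y)
      rw [h2] at h'
      exact ih x y (hidx_inj n x y h h2) (mul_right_cancel h')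
  refine ⟨c, fun x y z hxy hyz => ?_, fun x y hxy h1 => ?_, fun g δ => ?_⟩
  · obtain ⟨n, hn⟩ := hex x y hxy
    obtain ⟨m, hm⟩ := hex y z hyz
    have h1 := mono_le hmono (le_max_left n m) hn
    have h2 := mono_le hmono (le_max_right n m) hm
    rw [hc _ x y h1, hc _ y z h2, hc _ x z ((hF _).equiv.trans h1 h2)]
    group
  · obtain ⟨n, hn⟩ := hex x y hxy
    rw [hc n x y hn] at h1
    exact hinj n x y hn (mul_inv_eq_one.1 h1)
  · have : {x | c x (g • x) = δ} = ⋃ n : ℕ, {x | F n x (g • x)} ∩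
        ⋃ γ : Γ, ({x | lam n x = δ * γ} ∩ {x | lam n (g • x) = γ}) := by
      ext x
      simp only [mem_ofPred_eq, mem_iUnion, mem_inter_iff]
      constructor
      · intro h
        obtain ⟨n, hn⟩ := hex x (g • x) ⟨g, rfl⟩
        refine ⟨n, hn, lam n (g • x), ?_, rfl⟩
        rw [← h, hc n _ _ hn]
        group
      · rintro ⟨n, hn, γ, h1, h2⟩
        rw [hc n _ _ hn, h1, h2]
        group
    rw [this]
    refine MeasurableSet.iUnion fun n => ((hF n).meas g).inter (MeasurableSet.iUnion fun γ => ?_)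
    exact (hlamm n _).inter ((measurable_const_smul g) (hlamm n γ))

/-- M3: a compressible increasing union of finite Borel relations is generated by a free Borel
action of any countable group which is not finitely generated -/
theorem freeGen_of_compr (Γ : Type) [Group Γ] [Countable Γ] (hΓ : ¬ Group.FG Γ)
    (hH : HypOn G (univ : Set X)) (hC : ComprOn G (univ : Set X)) :
    FreeGen Γ (Eo G (X := X)) := by
  obtain ⟨c, c1, c2, c3⟩ := exists_cocycle Γ hΓ hH
  exact freeGen_of_cocycle Γ c c1 c2 c3 hC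

end Compr

end Pool.Agent.CAR
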