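import Pool.Agent.CAR.M2
import Pool.Agent.CAR.M3

/-!
# Module M10: the digit-flip space; condition (A) realizes every space with a digit map
-/

set_option autoImplicit false
set_option linter.unusedVariables false

namespace Pool.Agent.CAR

open Set MeasureTheory Filter Topology

/-- the group of finite subsets of `ℕ` under symmetric difference -/
structure FlG : Type where
  /-- the underlying finite set -/
  t : Finset ℕ

namespace FlG

theorem ext' {a b : FlG} (h : a.t = b.t) : a = b := by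
  cases a; cases b; cases h; rfl

instance : Group FlG where
  mul a b := ⟨symmDiff a.t b.t⟩
  one := ⟨∅⟩
  inv a := a
  mul_assoc a b c := ext' (symmDiff_assoc a.t b.t c.t)
  one_mul a := ext' (bot_symmDiff a.t)
  mul_one a := ext' (symmDiff_bot a.t)
  inv_mul_cancel a := ext' (symmDiff_self a.t)

theorem mul_t (a b : FlG) : (a * b).t = symmDiff a.t b.t := rfl

theorem one_t : (1 : FlG).t = ∅ := rfl

instance : Countable FlG := Function.Injective.countable (f := FlG.t) fun _ _ h => ext' h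

end FlG

/-- the digit-flip space -/
abbrev CC : Type := (Finset ℕ → ℕ → Bool) × (ℕ → Bool)

instance instActCC : MulAction FlG CC where
  smul a p := (fun u => p.1 (symmDiff u a.t), flipSeq a.t p.2)
  one_smul p := by
    refine Prod.ext ?_ (flipSeq_empty p.2)
    funext u
    change p.1 (symmDiff u ⊥) = p.1 u
    rw [symmDiff_bot]
  mul_smul a b p := by
    refine Prod.ext ?_ ?_
    · funext u
      change p.1 (symmDiff u (symmDiff a.t b.t)) = p.1 (symmDiff (symmDiff u a.t) b.t)
      rw [symmDiff_assoc]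
    · change flipSeq (symmDiff a.t b.t) p.2 = flipSeq a.t (flipSeq b.t p.2)
      rw [flipSeq_flipSeq]

theorem smulC_fst (a : FlG) (p : CC) (u : Finset ℕ) : (a • p).1 u = p.1 (symmDiff u a.t) := rfl

theorem smulC_snd (a : FlG) (p : CC) : (a • p).2 = flipSeq a.t p.2 := rfl

theorem continuous_flipSeq (t : Finset ℕ) : Continuous (flipSeq t) := by
  refine continuous_pi fun j => ?_
  exact (continuous_of_discreteTopology (f := fun b : Bool => xor b (decide (j ∈ t)))).comp
    (continuous_apply j)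

instance : ContinuousConstSMul FlG CC where
  continuous_const_smul a := by
    refine Continuous.prodMk ?_ ((continuous_flipSeq a.t).comp continuous_snd)
    exact continuous_pi fun u => (continuous_apply _).comp continuous_fst

instance : BorelSpace CC := inferInstance

instance : MeasurableConstSMul FlG CC where
  measurable_const_smul a := (continuous_const_smul a).measurable

theorem digC : Dig (Eo FlG (X := CC)) univ (fun p : CC => p.2) where
  meas := measurable_snd
  fwd x _ y h := by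
    obtain ⟨g, rfl⟩ := h
    exact E0_flipSeq g.t x.2
  bij x _ s h := by
    obtain ⟨t, rfl⟩ := (E0_iff _ _).1 h
    refine ⟨(⟨t⟩ : FlG) • x, ⟨⟨⟨t⟩, rfl⟩, rfl⟩, ?_⟩
    rintro y ⟨⟨g, rfl⟩, hy⟩
    have : g.t = t := flipSeq_inj hy
    have h2 : g = ⟨t⟩ := FlG.ext' this
    rw [h2]

/-- cylinder -/
def cyl (s : ℕ → Bool) (n : ℕ) : Set (ℕ → Bool) := {t | ∀ j < n, t j = s j}

theorem cyl_anti {s : ℕ → Bool} {n m : ℕ} (h : n ≤ m) : cyl s m ⊆ cyl s n :=
  fun t ht j hj => ht j (lt_of_lt_of_le hj h)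

theorem measurableSet_cyl (s : ℕ → Bool) (n : ℕ) : MeasurableSet (cyl s n) := by
  have : cyl s n = ⋂ j : ℕ, ⋂ _ : j < n, {t | t j = s j} := by
    ext t
    simp [cyl]
  rw [this]
  refine MeasurableSet.iInter fun j => MeasurableSet.iInter fun _ => ?_
  exact measurableSet_eq_fun (measurable_pi_apply j) measurable_const

theorem exists_cyl {O : Set (ℕ → Bool)} (hO : IsOpen O) {s : ℕ → Bool} (hs : s ∈ O) :
    ∃ n, cyl s n ⊆ O := by
  obtain ⟨I, u, hu, hI⟩ := isOpen_pi_iff.1 hO s hs
  refine ⟨I.sup id + 1, fun t ht => hI ?_⟩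
  intro j hj
  have : j < I.sup id + 1 := Nat.lt_succ_of_le (Finset.le_sup (f := id) hj)
  rw [ht j this]
  exact (hu j hj).2

theorem measurableSet_cylSub (O : Set (ℕ → Bool)) (n : ℕ) :
    MeasurableSet {s : ℕ → Bool | cyl s n ⊆ O} := by
  have h : {s : ℕ → Bool | cyl s n ⊆ O} =
      (fun s : ℕ → Bool => fun j : Fin n => s j) ⁻¹'
        {v | ∀ t : ℕ → Bool, (∀ j : Fin n, t j = v j) → t ∈ O} := by
    ext s
    constructor
    · intro hs t ht
      exact hs fun j hj => ht ⟨j, hj⟩
    · intro hs t ht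
      exact hs t fun j => ht j j.2
  rw [h]
  exact (measurable_pi_lambda _ fun j => measurable_pi_apply _) (Set.toFinite _).measurableSet

/-- first cylinder level inside `O` -/
noncomputable def lev (O : Set (ℕ → Bool)) (s : ℕ → Bool) : ℕ := sInf {n | cyl s n ⊆ O}

theorem measurable_lev (O : Set (ℕ → Bool)) : Measurable (lev O) := by
  refine measurable_to_countable' fun k => ?_
  have h : lev O ⁻¹' {k} = ({s | cyl s k ⊆ O} ∩ ⋂ j : ℕ, ⋂ _ : j < k, {s | cyl s j ⊆ O}ᶜ) ∪
      (if k = 0 then ⋂ j : ℕ, {s | cyl s j ⊆ O}ᶜ else ∅) := by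
    ext s
    simp only [mem_preimage, mem_singleton_iff, mem_union, mem_inter_iff, mem_ofPred_eq, mem_iInter,
      mem_compl_iff]
    constructor
    · intro hk
      by_cases hne : {n | cyl s n ⊆ O}.Nonempty
      · left
        have h1 := Nat.sInf_mem hne
        unfold lev at hk
        rw [hk] at h1
        refine ⟨h1, fun j hj hc => ?_⟩
        have := Nat.sInf_le (s := {n | cyl s n ⊆ O}) hc
        omega
      · right
        rw [not_nonempty_iff_eq_empty] at hne
        have : k = 0 := by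
          unfold lev at hk
          rw [hne, Nat.sInf_empty] at hk
          exact hk.symm
        rw [if_pos this]
        simp only [mem_iInter, mem_compl_iff, mem_ofPred_eq]
        intro j hj
        have : j ∈ {n | cyl s n ⊆ O} := hj
        rw [hne] at this
        exact this
    · rintro (⟨h1, h2⟩ | h)
      · unfold lev
        refine le_antisymm (Nat.sInf_le h1) ?_
        by_contra hlt
        exact h2 _ (not_le.1 hlt) (Nat.sInf_mem (s := {n | cyl s n ⊆ O}) ⟨k, h1⟩)
      · split_ifs at h with hk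
        · simp only [mem_iInter, mem_compl_iff, mem_ofPred_eq] at h
          have : {n | cyl s n ⊆ O} = ∅ := by
            ext n
            simp only [mem_ofPred_eq, mem_empty_iff_false, iff_false]
            exact h n
          unfold lev
          rw [this, Nat.sInf_empty, hk]
        · exact absurd h (notMem_empty _)
  rw [h]
  refine MeasurableSet.union (MeasurableSet.inter (measurableSet_cylSub O k) ?_) ?_
  · exact MeasurableSet.iInter fun j => MeasurableSet.iInter fun _ => (measurableSet_cylSub O j).compl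
  · split_ifs
    · exact MeasurableSet.iInter fun j => (measurableSet_cylSub O j).compl
    · exact MeasurableSet.empty

theorem cyl_sub_of_lev {O : Set (ℕ → Bool)} (hO : IsOpen O) {s : ℕ → Bool} (hs : s ∈ O) {n : ℕ}
    (h : lev O s ≤ n) : cyl s n ⊆ O := by
  have hne : {n | cyl s n ⊆ O}.Nonempty := exists_cyl hO hs
  exact (cyl_anti h).trans (Nat.sInf_mem hne)

/-- the number of cylinders of level `n` inside `O`, along a level `n` class -/
theorem count_cyl {μ : Measure (ℕ → Bool)} (hμ : Coin μ) {O : Set (ℕ → Bool)} (x : CC) (n m : ℕ)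
    (hO : μ O ≤ (2 ^ (m + 1) : ENNReal)⁻¹) :
    ({y : CC | Lv FlG (fun p : CC => p.2) n x y ∧ cyl y.2 n ⊆ O}).ncard * 2 ^ (m + 1) ≤ 2 ^ n := by
  set S := {y : CC | Lv FlG (fun p : CC => p.2) n x y ∧ cyl y.2 n ⊆ O} with hS
  have hfin : S.Finite := ((Lv_FBR digC n).fin x).subset fun y hy => hy.1
  have hdisj : (hfin.toFinset : Set CC).PairwiseDisjoint fun y => cyl y.2 n := by
    intro y hy z hz hyz
    rw [Function.onFun, Set.disjoint_left]
    intro t hty htz
    have hy' : y ∈ S := by simpa using hy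
    have hz' : z ∈ S := by simpa using hz
    apply hyz
    have hLv : Lv FlG (fun p : CC => p.2) n y z :=
      (Lv_equiv digC n).trans ((Lv_equiv digC n).symm hy'.1) hz'.1
    refine dig_inj digC hLv.1 ?_
    funext j
    by_cases hj : j < n
    · exact (hty j hj).symm.trans (htz j hj)
    · exact hLv.2 j (not_lt.1 hj)
  have h1 : ∑ y ∈ hfin.toFinset, μ (cyl y.2 n) ≤ μ O := by
    rw [← measure_biUnion_finset hdisj fun y _ => measurableSet_cyl y.2 n]
    refine measure_mono ?_
    refine iUnion₂_subset fun y hy => ?_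
    have hy' : y ∈ S := by simpa using hy
    exact hy'.2
  have h2 : ∑ y ∈ hfin.toFinset, μ (cyl y.2 n) = (S.ncard : ENNReal) * (2 ^ n : ENNReal)⁻¹ := by
    rw [Finset.sum_congr rfl fun y _ => hμ y.2 n, Finset.sum_const, nsmul_eq_mul,
      Set.ncard_eq_toFinset_card S hfin]
  rw [h2] at h1
  have h3 : (S.ncard : ENNReal) * (2 ^ n : ENNReal)⁻¹ ≤ (2 ^ (m + 1) : ENNReal)⁻¹ := h1.trans hO
  have hn0 : (2 ^ n : ENNReal) ≠ 0 := by simp
  have hnt : (2 ^ n : ENNReal) ≠ ⊤ := by simp
  have hm0 : (2 ^ (m + 1) : ENNReal) ≠ 0 := by simp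
  have hmt : (2 ^ (m + 1) : ENNReal) ≠ ⊤ := by simp
  have h4 : (S.ncard : ENNReal) * 2 ^ (m + 1) ≤ 2 ^ n := by
    calc (S.ncard : ENNReal) * 2 ^ (m + 1)
        = (S.ncard : ENNReal) * (2 ^ n)⁻¹ * (2 ^ n * 2 ^ (m + 1)) := by
          rw [mul_assoc, ← mul_assoc ((2 ^ n : ENNReal)⁻¹), ENNReal.inv_mul_cancel hn0 hnt, one_mul]
      _ ≤ (2 ^ (m + 1) : ENNReal)⁻¹ * (2 ^ n * 2 ^ (m + 1)) := by gcongr
      _ = 2 ^ n := by
          rw [mul_comm ((2 : ENNReal) ^ n), ← mul_assoc, ENNReal.inv_mul_cancel hm0 hmt, one_mul]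
  exact_mod_cast h4

theorem sum_halves (n : ℕ) (c : ℕ → ℕ) (h : ∀ m, c m * 2 ^ (m + 1) ≤ 2 ^ n) :
    ∑ m ∈ Finset.range n, c m ≤ 2 ^ n := by
  have h1 : ∀ m ∈ Finset.range n, c m ≤ 2 ^ (n - 1 - m) := by
    intro m hm
    rw [Finset.mem_range] at hm
    have h2 : 2 ^ n = 2 ^ (n - 1 - m) * 2 ^ (m + 1) := by
      rw [← pow_add]
      congr 1
      omega
    have h3 := h m
    rw [h2] at h3
    exact Nat.le_of_mul_le_mul_right h3 (by positivity)
  refine (Finset.sum_le_sum h1).trans ?_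
  rw [Finset.sum_range_reflect (fun j => 2 ^ j) n]
  have : ∀ k : ℕ, ∑ j ∈ Finset.range k, 2 ^ j + 1 = 2 ^ k := by
    intro k
    induction k with
    | zero => simp
    | succ k ih => rw [Finset.sum_range_succ, pow_succ]; omega
  have := this n
  omega

theorem zero_of_ge {n m c : ℕ} (h : c * 2 ^ (m + 1) ≤ 2 ^ n) (hm : n ≤ m) : c = 0 := by
  by_contra hc
  have h1 : 1 ≤ c := Nat.one_le_iff_ne_zero.2 hc
  have h2 : 2 ^ (m + 1) ≤ c * 2 ^ (m + 1) := Nat.le_mul_of_pos_left _ h1
  have h3 : 2 ^ n < 2 ^ (m + 1) := Nat.pow_lt_pow_right (by norm_num) (by omega)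
  omega

/-- the part of the digit-flip space over a null set is compressible -/
theorem comprOn_null {μ : Measure (ℕ → Bool)} [IsProbabilityMeasure μ] (hμ : Coin μ)
    {X0 : Set (ℕ → Bool)} (hX : MeasurableSet X0) (h0 : μ X0ᶜ = 0)
    (hinv : ∀ s ∈ X0, ∀ t, E0 s t → t ∈ X0) : ComprOn FlG {p : CC | p.2 ∉ X0} := by
  have hO : ∀ m : ℕ, ∃ O : Set (ℕ → Bool), X0ᶜ ⊆ O ∧ IsOpen O ∧
      μ O ≤ (2 ^ (m + 1) : ENNReal)⁻¹ := by
    intro m
    obtain ⟨U, hU, hUo, hUm⟩ := Set.exists_isOpen_lt_of_lt X0ᶜ (2 ^ (m + 1) : ENNReal)⁻¹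
      (μ := μ) (by rw [h0]; simp)
    exact ⟨U, hU, hUo, hUm.le⟩
  choose O hO1 hO2 hO3 using hO
  have hnot : ∀ {x y : CC}, Eo FlG x y → x.2 ∉ X0 → y.2 ∉ X0 := by
    intro x y h hx hy
    apply hx
    exact hinv _ hy _ (digC.fwd y (mem_univ y) x h.symm)
  obtain ⟨φ, h1, h2, h3⟩ := matching (G := FlG) (X := CC) (fun n => Lv FlG (fun p : CC => p.2) n)
    (fun n => Lv_FBR digC n) (fun n x y h => Lv_mono (Nat.le_succ n) h)
    (A := {q : CC × ℕ | q.1.2 ∉ X0}) (fun l => (hX.compl).preimage measurable_snd)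
    (T := {p : CC | p.2 ∉ X0}) ((hX.compl).preimage measurable_snd)
    (fun p m => lev (O m) p.2) (fun m => (measurable_lev (O m)).comp measurable_snd) (by
      intro n x
      by_cases hx : x.2 ∈ X0
      · have : {p : CC × ℕ | p ∈ {q : CC × ℕ | q.1.2 ∉ X0} ∧
            Lv FlG (fun p : CC => p.2) n x p.1 ∧ lev (O p.2) p.1.2 ≤ n} = ∅ := by
          ext p
          simp only [mem_ofPred_eq, mem_empty_iff_false, iff_false, not_and]
          intro hp hL _
          exact hp (hinv _ hx _ (digC.fwd x (mem_univ x) p.1 hL.1))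
        rw [this]
        simp
      · have hR : {y : CC | y ∈ {p : CC | p.2 ∉ X0} ∧ Lv FlG (fun p : CC => p.2) n x y} =
            {y : CC | Lv FlG (fun p : CC => p.2) n x y} := by
          ext y
          exact ⟨fun h => h.2, fun h => ⟨hnot h.1 hx, h⟩⟩
        have hRc : ({y : CC | y ∈ {p : CC | p.2 ∉ X0} ∧
            Lv FlG (fun p : CC => p.2) n x y}).encard = (2 ^ n : ℕ) := by
          rw [hR, ← ((Lv_FBR digC n).fin x).cast_ncard_eq, ncard_Lv digC]
        rw [hRc]
        have hfin : ∀ m, ({y : CC | Lv FlG (fun p : CC => p.2) n x y ∧ cyl y.2 n ⊆ O m}).Finite :=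
          fun m => ((Lv_FBR digC n).fin x).subset fun y hy => hy.1
        set Fm : ℕ → Finset CC := fun m => (hfin m).toFinset with hFm
        have hcard : ∀ m, (Fm m).card * 2 ^ (m + 1) ≤ 2 ^ n := by
          intro m
          rw [hFm, ← Set.ncard_eq_toFinset_card _ (hfin m)]
          exact count_cyl hμ x n m (hO3 m)
        set U : Finset (CC × ℕ) := (Finset.range n).sigma (fun m => Fm m) |>.map
          ⟨fun q => (q.2, q.1), by
            rintro ⟨a, b⟩ ⟨c, e⟩ h
            simp only [Prod.mk.injEq] at h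
            obtain ⟨h1, h2⟩ := h
            subst h1
            subst h2
            rfl⟩ with hU
        have hsub : {p : CC × ℕ | p ∈ {q : CC × ℕ | q.1.2 ∉ X0} ∧
            Lv FlG (fun p : CC => p.2) n x p.1 ∧ lev (O p.2) p.1.2 ≤ n} ⊆ (U : Set (CC × ℕ)) := by
          rintro ⟨y, m⟩ ⟨hp, hL, hl⟩
          have hc : cyl y.2 n ⊆ O m := cyl_sub_of_lev (hO2 m) (hO1 m hp) hl
          have hy : y ∈ Fm m := by
            rw [hFm, Set.Finite.mem_toFinset]
            exact ⟨hL, hc⟩
          have hm : m < n := by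
            by_contra hm
            have := zero_of_ge (hcard m) (not_lt.1 hm)
            rw [Finset.card_eq_zero] at this
            rw [this] at hy
            exact absurd hy (Finset.notMem_empty _)
          rw [hU, Finset.mem_coe, Finset.mem_map]
          exact ⟨⟨m, y⟩, Finset.mem_sigma.2 ⟨Finset.mem_range.2 hm, hy⟩, rfl⟩
        refine (Set.encard_le_encard hsub).trans ?_
        rw [Set.encard_coe_eq_coe_finsetCard]
        have : U.card ≤ 2 ^ n := by
          rw [hU, Finset.card_map, Finset.card_sigma]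
          exact sum_halves n (fun m => (Fm m).card) hcard
        exact_mod_cast this)
  refine ⟨φ, h1, fun x hx n => (h2 (x, n) hx).2.1, fun x hx y hy m n h => ?_⟩
  have := h3 (x, m) hx (y, n) hy h
  exact ⟨congrArg Prod.fst this, congrArg Prod.snd this⟩

section Sub

variable {G X : Type} [Group G] [MeasurableSpace X] [MulAction G X]

theorem subAct_constSMul [MeasurableConstSMul G X] {P : Set X} (hP : Inv G P) :
    MeasurableConstSMul G (subAct P hP) where
  measurable_const_smul g :=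
    Measurable.subtype_mk ((measurable_const_smul g).comp measurable_subtype_coe)

omit [MeasurableSpace X] in
theorem Eo_sub {P : Set X} (hP : Inv G P) (x y : subAct P hP) :
    Eo G x y ↔ Eo G (x : X) (y : X) := by
  constructor
  · rintro ⟨g, rfl⟩
    exact ⟨g, rfl⟩
  · rintro ⟨g, hg⟩
    exact ⟨g, Subtype.ext hg⟩

theorem comprOn_sub {P : Set X} (hP : Inv G P) (h : ComprOn G P) :
    ComprOn G (univ : Set (subAct P hP)) := by
  obtain ⟨ψ, h1, h2, h3⟩ := h
  refine ⟨fun x n => ⟨ψ x n, (hP.mem_iff (h2 x x.2 n)).1 x.2⟩, fun n => ?_, ?_, ?_⟩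
  · exact Measurable.subtype_mk ((h1 n).comp measurable_subtype_coe)
  · intro x _ n
    rw [Eo_sub]
    exact h2 x x.2 n
  · intro x _ y _ m n hxy
    have := h3 x x.2 y y.2 m n (congrArg Subtype.val hxy)
    exact ⟨Subtype.ext this.1, this.2⟩

theorem hypOn_sub {P : Set X} (hP : Inv G P) (h : HypOn G P) :
    HypOn G (univ : Set (subAct P hP)) := by
  obtain ⟨F, h1, h2, h3⟩ := h
  refine ⟨fun n x y => F n x y, fun n => ?_, fun n x y hxy => h2 n x y hxy,
    fun x _ g => h3 x x.2 g⟩
  refine ⟨⟨fun x => (h1 n).equiv.refl x, fun h => (h1 n).equiv.symm h,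
    fun h h' => (h1 n).equiv.trans h h'⟩, ?_, ?_, ?_⟩
  · intro x y hxy
    obtain ⟨g, hg⟩ := (h1 n).sub _ _ hxy
    exact ⟨g, Subtype.ext hg⟩
  · intro x
    exact ((h1 n).fin x).preimage Subtype.val_injective.injOn
  · intro g
    exact measurable_subtype_coe ((h1 n).meas g)

end Sub

theorem gen_union {Γ : Type} [Group Γ] {Y : Type} [MeasurableSpace Y] {R : Y → Y → Prop}
    {P : Set Y} (hP : MeasurableSet P) (hinv : ∀ x y, R x y → (x ∈ P ↔ y ∈ P))
    (h1 : Gen Γ (fun x y : P => R x y)) (h2 : Gen Γ (fun x y : (Pᶜ : Set Y) => R x y)) :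
    Gen Γ R := by
  classical
  obtain ⟨a, a1, a2, a3, a4, a5⟩ := h1
  obtain ⟨b, b1, b2, b3, b4, b5⟩ := h2
  have e1 : ∀ g (y : P), (if h : (y : Y) ∈ P then (a g ⟨y, h⟩ : Y) else (b g ⟨y, h⟩ : Y)) = a g y :=
    fun g y => dif_pos y.2
  have e2 : ∀ g (y : (Pᶜ : Set Y)),
      (if h : (y : Y) ∈ P then (a g ⟨y, h⟩ : Y) else (b g ⟨y, h⟩ : Y)) = b g y :=
    fun g y => dif_neg y.2
  refine ⟨fun g y => if h : y ∈ P then (a g ⟨y, h⟩ : Y) else (b g ⟨y, h⟩ : Y), ?_, ?_, ?_, ?_, ?_⟩
  · intro y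
    by_cases hy : y ∈ P
    · simp only [dif_pos hy, a1]
    · simp only [dif_neg hy, b1]
  · intro g h y
    by_cases hy : y ∈ P
    · simp only [dif_pos hy]
      rw [e1 g (a h ⟨y, hy⟩), a2]
    · simp only [dif_neg hy]
      rw [e2 g (b h ⟨y, hy⟩), b2]
  · intro g
    exact Measurable.dite (measurable_subtype_coe.comp (a3 g))
      (measurable_subtype_coe.comp (b3 g)) hP
  · intro y
    by_cases hy : y ∈ P
    · have : (range fun g => if h : y ∈ P then (a g ⟨y, h⟩ : Y) else (b g ⟨y, h⟩ : Y)) =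
          Subtype.val '' (range fun g => a g ⟨y, hy⟩) := by
        rw [← range_comp]
        congr 1
        funext g
        exact dif_pos hy
      rw [this]
      exact (a4 ⟨y, hy⟩).image Subtype.val_injective.injOn
    · have : (range fun g => if h : y ∈ P then (a g ⟨y, h⟩ : Y) else (b g ⟨y, h⟩ : Y)) =
          Subtype.val '' (range fun g => b g ⟨y, hy⟩) := by
        rw [← range_comp]
        congr 1
        funext g
        exact dif_neg hy
      rw [this]
      exact (b4 ⟨y, hy⟩).image Subtype.val_injective.injOn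
  · intro y z
    by_cases hy : y ∈ P
    · simp only [dif_pos hy]
      constructor
      · intro h
        have hz : z ∈ P := (hinv y z h).1 hy
        obtain ⟨g, hg⟩ := (a5 ⟨y, hy⟩ ⟨z, hz⟩).1 h
        exact ⟨g, congrArg Subtype.val hg⟩
      · rintro ⟨g, rfl⟩
        exact (a5 ⟨y, hy⟩ _).2 ⟨g, rfl⟩
    · simp only [dif_neg hy]
      constructor
      · intro h
        have hz : z ∉ P := fun hz => hy ((hinv y z h).2 hz)
        obtain ⟨g, hg⟩ := (b5 ⟨y, hy⟩ ⟨z, hz⟩).1 h
        exact ⟨g, congrArg Subtype.val hg⟩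
      · rintro ⟨g, rfl⟩
        exact (b5 ⟨y, hy⟩ _).2 ⟨g, rfl⟩

theorem FreeGen.gen {Γ : Type} [Group Γ] [Infinite Γ] {Y : Type} [MeasurableSpace Y]
    {R : Y → Y → Prop} (h : FreeGen Γ R) : Gen Γ R := by
  obtain ⟨a, a1, a2, a3, a4, a5⟩ := h
  refine ⟨a, a1, a2, a3, fun y => infinite_range_of_injective fun g h hgh => ?_, a5⟩
  have : a (h⁻¹ * g) y = y := by
    change a g y = a h y at hgh
    rw [a2, hgh, ← a2, inv_mul_cancel, a1]
  exact (inv_mul_eq_one.1 (a4 _ _ this)).symm

/-- the orbits of the digit-flip space are infinite -/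
theorem infinite_class (p : CC) : {q | Eo FlG p q}.Infinite := by
  refine (infinite_range_of_injective (f := fun t : Finset ℕ => (⟨t⟩ : FlG) • p) ?_).mono ?_
  · intro t u h
    exact flipSeq_inj (congrArg Prod.snd h)
  · rintro _ ⟨t, rfl⟩
    exact ⟨⟨t⟩, rfl⟩

/-- over the full measure set the digit-flip relation is generated by the action of `Γ` -/
theorem gen_of_condA {Γ : Type} [Group Γ] {X0 : Set (ℕ → Bool)} {a : Γ → (ℕ → Bool) → ℕ → Bool}
    (h1 : ∀ s ∈ X0, a 1 s = s) (h2 : ∀ g h, ∀ s ∈ X0, a (g * h) s = a g (a h s))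
    (hm : ∀ g, Measurable (a g)) (h3 : ∀ s ∈ X0, ∀ t, E0 s t ↔ ∃ g, a g s = t)
    (hinv : ∀ s ∈ X0, ∀ t, E0 s t → t ∈ X0) :
    Gen Γ (fun x y : {p : CC | p.2 ∈ X0} => Eo FlG (x : CC) (y : CC)) := by
  classical
  have hex : ∀ (g : Γ) (p : {p : CC | p.2 ∈ X0}), ∃ q : {p : CC | p.2 ∈ X0},
      Eo FlG (p : CC) (q : CC) ∧ (q : CC).2 = a g (p : CC).2 := by
    intro g p
    have hE : E0 (p : CC).2 (a g (p : CC).2) := (h3 _ p.2 _).2 ⟨g, rfl⟩
    obtain ⟨q, hq1, hq2⟩ := (digC.bij p (mem_univ _) _ hE).exists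
    exact ⟨⟨q, by
      change q.2 ∈ X0
      rw [hq2]
      exact hinv _ p.2 _ hE⟩, hq1, hq2⟩
  choose c c1 c2 using hex
  have huniq : ∀ {x y z : {p : CC | p.2 ∈ X0}}, Eo FlG (x : CC) (y : CC) →
      Eo FlG (x : CC) (z : CC) → (y : CC).2 = (z : CC).2 → y = z := by
    intro x y z hy hz h
    exact Subtype.ext (dig_inj digC (hy.symm.trans hz) h)
  have c5 : ∀ y z : {p : CC | p.2 ∈ X0}, Eo FlG (y : CC) (z : CC) ↔ ∃ g, c g y = z := by
    intro y z
    constructor
    · intro h
      obtain ⟨g, hg⟩ := (h3 _ y.2 _).1 (digC.fwd y (mem_univ _) z h)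
      exact ⟨g, huniq (c1 g y) h ((c2 g y).trans hg)⟩
    · rintro ⟨g, rfl⟩
      exact c1 g y
  refine ⟨c, ?_, ?_, ?_, ?_, c5⟩
  · intro y
    exact huniq (c1 1 y) (Eo.refl _) ((c2 1 y).trans (h1 _ y.2))
  · intro g h y
    refine huniq (c1 (g * h) y) ((c1 h y).trans (c1 g _)) ?_
    rw [c2, c2, c2]
    exact h2 g h _ y.2
  · intro g
    refine Measurable.subtype_mk (f := fun y => ((c g y : {p : CC | p.2 ∈ X0}) : CC))
      (measurable_pick (ι := Finset ℕ) _
        (fun t (y : {p : CC | p.2 ∈ X0}) => (⟨t⟩ : FlG) • (y : CC))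
        (fun t => (measurable_const_smul (⟨t⟩ : FlG)).comp measurable_subtype_coe)
        (fun t => {y : {p : CC | p.2 ∈ X0} | a g (y : CC).2 = flipSeq t (y : CC).2})
        (fun t => ?_) (fun y => ?_) (fun t y hy => ?_))
    · exact measurableSet_eq' ((hm g).comp (measurable_snd.comp measurable_subtype_coe))
        ((measurable_flipSeq t).comp (measurable_snd.comp measurable_subtype_coe))
    · exact (E0_iff _ _).1 ((h3 _ y.2 _).2 ⟨g, rfl⟩)
    · refine dig_inj digC ((c1 g y).symm.trans ⟨⟨t⟩, rfl⟩) ((c2 g y).trans hy)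
  · intro y
    have : (range fun g => c g y) = Subtype.val ⁻¹' {q | Eo FlG (y : CC) q} := by
      ext z
      exact (c5 y z).symm
    rw [this]
    refine (infinite_class (y : CC)).preimage ?_
    intro q hq
    exact ⟨⟨q, hinv _ y.2 _ (digC.fwd y (mem_univ _) q hq)⟩, rfl⟩

/-- M3/M10: the digit-flip space. Condition (A) realizes every space with a digit map. -/
theorem realizable_of_condA (Γ : Type) [Group Γ] [Countable Γ] (hΓ : ¬ Group.FG Γ)
    (hA : CondA Γ) {G X : Type} [Group G] [Countable G] [MeasurableSpace X] [StandardBorelSpace X]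
    [MulAction G X] [MeasurableConstSMul G X] {d : X → ℕ → Bool}
    (hd : Dig (Eo G (X := X)) univ d) : Realizable Γ (Eo G (X := X)) := by
  classical
  have hinf : Infinite Γ := by
    by_contra h
    rw [not_infinite_iff_finite] at h
    exact hΓ inferInstance
  have hmetr : TopologicalSpace.MetrizableSpace CC :=
    TopologicalSpace.metrizableSpace_of_t3_secondCountable CC
  refine ⟨CC, inferInstance, inferInstance, inferInstance, hmetr, inferInstance, FlG,
    inferInstance, inferInstance, inferInstance, inferInstance, ?_, ?_⟩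
  · obtain ⟨name, hn1, hn2⟩ := MeasurableSpace.measurable_injection_nat_bool_of_countablySeparated X
    set e : X → CC := fun x => (fun u => name (fl G d u x), d x) with he
    have heq : ∀ (a : FlG) x, a • e x = e (fl G d a.t x) := by
      intro a x
      refine Prod.ext ?_ ?_
      · funext u
        change name (fl G d (symmDiff u a.t) x) = name (fl G d u (fl G d a.t x))
        rw [fl_fl hd]
      · exact (fl_spec hd a.t x).2.symm
    have hinj : Function.Injective e := by
      intro x y h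
      have h1 : name (fl G d ∅ x) = name (fl G d ∅ y) := congrFun (congrArg Prod.fst h) ∅
      rw [fl_empty hd, fl_empty hd] at h1
      exact hn2 h1
    refine ⟨e, ?_, hinj, ?_, ?_⟩
    · exact Measurable.prodMk (measurable_pi_lambda _ fun u => hn1.comp (measurable_fl hd u)) hd.meas
    · intro x y
      constructor
      · intro h
        obtain ⟨t, rfl⟩ := (Eo_iff_fl hd x y).1 h
        exact ⟨⟨t⟩, heq ⟨t⟩ x⟩
      · rintro ⟨g, hg⟩
        rw [heq] at hg
        exact (Eo_iff_fl hd x y).2 ⟨g.t, hinj hg⟩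
    · rintro x _ ⟨g, rfl⟩
      exact ⟨fl G d g.t x, (heq g x).symm⟩
  · obtain ⟨μ, X0, a, hμp, hμ, hX, h0, hinv, h1, h2, hm, h3⟩ := hA
    have hP : MeasurableSet {p : CC | p.2 ∈ X0} := hX.preimage measurable_snd
    have hPinv : ∀ x y : CC, Eo FlG x y → (x ∈ {p : CC | p.2 ∈ X0} ↔ y ∈ {p : CC | p.2 ∈ X0}) :=
      fun x y h => ⟨fun hx => hinv _ hx _ (digC.fwd x (mem_univ _) y h),
        fun hy => hinv _ hy _ (digC.fwd y (mem_univ _) x h.symm)⟩
    refine gen_union (R := Eo FlG) hP hPinv (gen_of_condA h1 h2 hm h3 hinv) ?_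
    have hI : Inv FlG {p : CC | p.2 ∈ X0}ᶜ := by
      intro g x hx hgx
      exact hx ((hPinv x (g • x) ⟨g, rfl⟩).2 hgx)
    have hC : ComprOn FlG ({p : CC | p.2 ∈ X0}ᶜ) := comprOn_null hμ hX h0 hinv
    have hH : HypOn FlG ({p : CC | p.2 ∈ X0}ᶜ) :=
      ⟨fun n => Lv FlG (fun p : CC => p.2) n, fun n => Lv_FBR digC n,
        fun n x y h => Lv_mono (Nat.le_succ n) h, fun x _ g => exists_Lv digC ⟨g, rfl⟩⟩
    have := subAct_constSMul (G := FlG) (X := CC) hI
    have : StandardBorelSpace (subAct _ hI) := hP.compl.standardBorel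
    have hF := freeGen_of_compr (G := FlG) Γ hΓ (hypOn_sub hI hH) (comprOn_sub hI hC)
    have hG := hF.gen
    obtain ⟨b, b1, b2, b3, b4, b5⟩ := hG
    exact ⟨b, b1, b2, b3, b4, fun y z => (Eo_sub hI y z).symm.trans (b5 y z)⟩

end Pool.Agent.CAR
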