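import Pool.Agent.CAR.M2
import Pool.Agent.CAR.M3

/-!
# Module M11a: non-convergence of densities and escape of mass happen on compressible sets
-/

set_option autoImplicit false
set_option linter.unusedVariables false
set_option linter.unusedSectionVars false

namespace Pool.Agent.CAR

open Set MeasureTheory Filter Topology

namespace M11a

section
variable {X : Type} [MeasurableSpace X]

/-- the least index satisfying a measurable condition is measurable -/
theorem measurable_sInf (C : ℕ → X → Prop) (hC : ∀ n, MeasurableSet {x | C n x}) :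
    Measurable fun x => sInf {n | C n x} := by
  classical
  have h1 : (fun x => sInf {n | C n x}) = fun x => if (∃ n, C n x) then
      sInf {n | C n x ∨ ¬ ∃ m, C m x} else 0 := by
    funext x
    split_ifs with h
    · congr 1
      ext n
      simp [h]
    · have : {n | C n x} = ∅ := by
        ext n
        simp only [mem_ofPred_eq, mem_empty_iff_false, iff_false]
        exact fun hn => h ⟨n, hn⟩
      rw [this, Nat.sInf_empty]
  rw [h1]
  have hE : MeasurableSet {x | ∃ n, C n x} := by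
    rw [Set.ofPred_exists]
    exact MeasurableSet.iUnion hC
  refine Measurable.ite hE ?_ measurable_const
  have hp : ∀ x, ∃ n, C n x ∨ ¬ ∃ m, C m x := by
    intro x
    by_cases h : ∃ m, C m x
    · obtain ⟨m, hm⟩ := h
      exact ⟨m, Or.inl hm⟩
    · exact ⟨0, Or.inr h⟩
  have h2 : (fun x => sInf {n | C n x ∨ ¬ ∃ m, C m x}) = fun x => Nat.find (hp x) := by
    funext x
    exact le_antisymm (Nat.sInf_le (Nat.find_spec (hp x)))
      (Nat.find_min' (hp x) (Nat.sInf_mem (s := {n | C n x ∨ ¬ ∃ m, C m x}) (hp x)))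
  rw [h2]
  refine measurable_find hp fun k => ?_
  exact (hC k).union hE.compl

end

variable {G X : Type} [Group G] [Countable G] [MeasurableSpace X] [StandardBorelSpace X]
  [MulAction G X] [MeasurableConstSMul G X]
variable {d : X → ℕ → Bool}

section
omit [Countable G] [StandardBorelSpace X] [MeasurableConstSMul G X]

/-- number of points of `A` in the level `n` class of `x` -/
noncomputable def cnt (G : Type) {X : Type} [Group G] [MulAction G X] (d : X → ℕ → Bool)
    (n : ℕ) (A : Set X) (x : X) : ℕ := {y | Lv G d n x y ∧ y ∈ A}.ncard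

theorem dens_eq (n : ℕ) (A : Set X) (x : X) : dens G d n A x = (cnt G d n A x : ℝ) / 2 ^ n := rfl

theorem finL (hd : Dig (Eo G (X := X)) univ d) (n : ℕ) (x : X) : {y | Lv G d n x y}.Finite := by
  rw [Lv_cls hd]
  exact (Finset.finite_toSet _).image _

theorem finLA (hd : Dig (Eo G (X := X)) univ d) (n : ℕ) (A : Set X) (x : X) :
    {y | Lv G d n x y ∧ y ∈ A}.Finite := (finL hd n x).subset fun y hy => hy.1

theorem cnt_mono (hd : Dig (Eo G (X := X)) univ d) (n : ℕ) {A B : Set X} (h : A ⊆ B) (x : X) :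
    cnt G d n A x ≤ cnt G d n B x :=
  Set.ncard_le_ncard (fun y hy => ⟨hy.1, h hy.2⟩) (finLA hd n B x)

theorem Lv_cls_eq (hd : Dig (Eo G (X := X)) univ d) {n : ℕ} {x y : X} (h : Lv G d n x y) (z : X) :
    Lv G d n x z ↔ Lv G d n y z :=
  ⟨fun hz => (Lv_equiv hd n).trans ((Lv_equiv hd n).symm h) hz, fun hz => (Lv_equiv hd n).trans h hz⟩

theorem cnt_congr (hd : Dig (Eo G (X := X)) univ d) {n : ℕ} (A : Set X) {x y : X}
    (h : Lv G d n x y) : cnt G d n A x = cnt G d n A y := by
  unfold cnt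
  congr 1
  ext z
  simp only [mem_ofPred_eq, Lv_cls_eq hd h z]

theorem Lv_succ_iff (hd : Dig (Eo G (X := X)) univ d) (n : ℕ) (x z : X) :
    Lv G d (n + 1) x z ↔ Lv G d n x z ∨ Lv G d n (fl G d {n} x) z := by
  have hs := fl_spec hd {n} x
  constructor
  · rintro ⟨h1, h2⟩
    by_cases h : d x n = d z n
    · left
      refine ⟨h1, fun j hj => ?_⟩
      rcases Nat.lt_or_ge n j with h' | h'
      · exact h2 j h'
      · have : j = n := le_antisymm h' hj
        rw [this]
        exact h
    · right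
      refine ⟨hs.1.symm.trans h1, fun j hj => ?_⟩
      rw [hs.2]
      rcases Nat.lt_or_ge n j with h' | h'
      · rw [← h2 j h']
        have : j ≠ n := by omega
        simp [flipSeq, this]
      · have : j = n := le_antisymm h' hj
        rw [this]
        simp only [flipSeq, Finset.mem_singleton, decide_true]
        revert h
        cases d x n <;> cases d z n <;> simp
  · rintro (h | h)
    · exact Lv_mono (Nat.le_succ n) h
    · refine ⟨hs.1.trans h.1, fun j hj => ?_⟩
      rw [← h.2 j (by omega), hs.2]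
      have : j ≠ n := by omega
      simp [flipSeq, this]

theorem not_Lv_both (hd : Dig (Eo G (X := X)) univ d) (n : ℕ) (x z : X) (h1 : Lv G d n x z)
    (h2 : Lv G d n (fl G d {n} x) z) : False := by
  have h3 := h1.2 n le_rfl
  have h4 := h2.2 n le_rfl
  rw [(fl_spec hd {n} x).2, ← h3] at h4
  simp only [flipSeq, Finset.mem_singleton, decide_true] at h4
  revert h4
  cases d x n <;> simp

theorem cnt_succ (hd : Dig (Eo G (X := X)) univ d) (n : ℕ) (A : Set X) (x : X) :
    cnt G d (n + 1) A x = cnt G d n A x + cnt G d n A (fl G d {n} x) := by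
  unfold cnt
  rw [← Set.ncard_union_eq ?_ (finLA hd n A x) (finLA hd n A _)]
  · congr 1
    ext z
    simp only [mem_ofPred_eq, mem_union, Lv_succ_iff hd n x z]
    tauto
  · rw [Set.disjoint_left]
    intro z hz hz'
    exact not_Lv_both hd n x z hz.1 hz'.1

/-- the number with binary digits `d x 0, …, d x (l-1)` -/
def num (d : X → ℕ → Bool) (l : ℕ) (x : X) : ℕ := Nat.ofBits fun j : Fin l => d x j

theorem num_lt (l : ℕ) (x : X) : num d l x < 2 ^ l := Nat.ofBits_lt_two_pow _

theorem num_inj (hd : Dig (Eo G (X := X)) univ d) {l : ℕ} {x y : X} (h : Lv G d l x y)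
    (hn : num d l x = num d l y) : x = y := by
  refine dig_inj hd h.1 ?_
  funext j
  rcases Nat.lt_or_ge j l with hj | hj
  · have h1 := congrArg (fun n => Nat.testBit n j) hn
    simpa [num, Nat.testBit_ofBits_lt _ _ hj] using h1
  · exact h.2 j hj

/-- `num < p` -/
def Xn (d : X → ℕ → Bool) (l p : ℕ) : Set X := {x | num d l x < p}

theorem image_num (hd : Dig (Eo G (X := X)) univ d) (l : ℕ) (x : X) :
    num d l '' {y | Lv G d l x y} = Iio (2 ^ l) := by
  refine Set.eq_of_subset_of_ncard_le ?_ ?_ (Set.finite_Iio _)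
  · rintro _ ⟨y, hy, rfl⟩
    exact num_lt l y
  · rw [InjOn.ncard_image, ncard_Lv hd, ← Finset.coe_Iio, Set.ncard_coe_finset, Nat.card_Iio]
    intro y hy z hz h
    exact num_inj hd ((Lv_cls_eq hd hy z).1 hz) h

theorem exists_num (hd : Dig (Eo G (X := X)) univ d) {l v : ℕ} (hv : v < 2 ^ l) (x : X) :
    ∃ y, Lv G d l x y ∧ num d l y = v := by
  have : v ∈ num d l '' {y | Lv G d l x y} := by
    rw [image_num hd]
    exact hv
  obtain ⟨y, hy, h⟩ := this
  exact ⟨y, hy, h⟩

theorem cnt_Xn (hd : Dig (Eo G (X := X)) univ d) {l p n : ℕ} (hp : p ≤ 2 ^ l) (hn : l ≤ n)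
    (x : X) : cnt G d n (Xn d l p) x = p * 2 ^ (n - l) := by
  induction n, hn using Nat.le_induction generalizing x with
  | base =>
    rw [Nat.sub_self, pow_zero, mul_one]
    have h1 : num d l '' {y | Lv G d l x y ∧ y ∈ Xn d l p} = Iio p := by
      ext v
      simp only [mem_image, mem_ofPred_eq, mem_Iio, Xn]
      constructor
      · rintro ⟨y, ⟨_, h⟩, rfl⟩
        exact h
      · intro hv
        obtain ⟨y, hy, h⟩ := exists_num hd (hv.trans_le hp) x
        exact ⟨y, ⟨hy, by rw [h]; exact hv⟩, h⟩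
    unfold cnt
    rw [← InjOn.ncard_image (f := num d l) (s := {y | Lv G d l x y ∧ y ∈ Xn d l p}), h1,
      ← Finset.coe_Iio, Set.ncard_coe_finset, Nat.card_Iio]
    intro y hy z hz h
    exact num_inj hd ((Lv_cls_eq hd hy.1 z).1 hz.1) h
  | succ n hn ih =>
    rw [cnt_succ hd, ih, ih, Nat.succ_sub hn, pow_succ]
    ring

end

section
omit [Countable G] [StandardBorelSpace X] [MeasurableConstSMul G X]

theorem measurableSet_Xn (hd : Dig (Eo G (X := X)) univ d) (l p : ℕ) :
    MeasurableSet (Xn d l p) := by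
  have h1 : Measurable fun x => (fun j : Fin l => d x j) := by
    refine measurable_pi_lambda _ fun j => ?_
    exact (measurable_pi_apply (j : ℕ)).comp hd.meas
  have h2 : Measurable (num d l) :=
    (measurable_of_countable fun f : Fin l → Bool => Nat.ofBits f).comp h1
  exact measurableSet_lt h2 measurable_const

end

/-- matching, one variable version -/
theorem match1 (hd : Dig (Eo G (X := X)) univ d) {A T : Set X} (hA : MeasurableSet A)
    (hT : MeasurableSet T) (st : X → ℕ) (hst : Measurable st)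
    (hcount : ∀ n x, {z | Lv G d n x z ∧ (z ∈ A ∧ st z ≤ n)}.ncard ≤ cnt G d n T x) :
    ∃ φ : X → X, Measurable φ ∧ (∀ x ∈ A, Eo G x (φ x) ∧ φ x ∈ T) ∧
      ∀ x ∈ A, ∀ y ∈ A, φ x = φ y → x = y := by
  obtain ⟨φ, h1, h2, h3⟩ := matching (G := G) (fun n => Lv G d n) (fun n => Lv_FBR hd n)
    (fun n x y h => Lv_mono (Nat.le_succ n) h) (A := {p : X × ℕ | p.1 ∈ A ∧ p.2 = 0})
    (fun l => by
      by_cases hl : l = 0
      · simpa [hl] using hA
      · have : {x | (x, l) ∈ {p : X × ℕ | p.1 ∈ A ∧ p.2 = 0}} = ∅ := by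
          ext x
          simp [hl]
        rw [this]
        exact MeasurableSet.empty) hT (fun x _ => st x) (fun _ => hst) (fun n x => by
      have e1 : {p : X × ℕ | p ∈ {p : X × ℕ | p.1 ∈ A ∧ p.2 = 0} ∧ Lv G d n x p.1 ∧ st p.1 ≤ n} =
          (fun z => (z, 0)) '' {z | Lv G d n x z ∧ (z ∈ A ∧ st z ≤ n)} := by
        ext ⟨z, l⟩
        simp only [mem_ofPred_eq, mem_image, Prod.mk.injEq]
        constructor
        · rintro ⟨⟨h1, h2⟩, h3, h4⟩
          exact ⟨z, ⟨h3, h1, h4⟩, rfl, h2.symm⟩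
        · rintro ⟨z', ⟨h3, h1, h4⟩, rfl, rfl⟩
          exact ⟨⟨h1, rfl⟩, h3, h4⟩
      have e2 : {y | y ∈ T ∧ Lv G d n x y} = {y | Lv G d n x y ∧ y ∈ T} := by
        ext y
        simp only [mem_ofPred_eq, and_comm]
      rw [e1, e2, Function.Injective.encard_image (fun a b h => (Prod.mk.inj h).1),
        ← ((finL hd n x).subset fun y hy => hy.1).cast_ncard_eq,
        ← (finLA hd n T x).cast_ncard_eq]
      exact_mod_cast hcount n x)
  refine ⟨fun x => φ x 0, h1 0, fun x hx => ?_, fun x hx y hy h => ?_⟩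
  · have := h2 (x, 0) ⟨hx, rfl⟩
    exact ⟨this.2.1, this.1⟩
  · have := h3 (x, 0) ⟨hx, rfl⟩ (y, 0) ⟨hy, rfl⟩ h
    exact (Prod.mk.inj this).1

/-- matching with a stopping rule depending on the level class -/
theorem match_stop (hd : Dig (Eo G (X := X)) univ d) {A T : Set X} (hA : MeasurableSet A)
    (hT : MeasurableSet T) (C : ℕ → X → Prop) (hCm : ∀ n, MeasurableSet {x | C n x})
    (hC : ∀ n x y, Lv G d n x y → C n x → C n y) (hex : ∀ x ∈ A, ∃ n, C n x)
    (hle : ∀ n x, C n x → cnt G d n A x ≤ cnt G d n T x) :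
    ∃ φ : X → X, Measurable φ ∧ (∀ x ∈ A, Eo G x (φ x) ∧ φ x ∈ T) ∧
      ∀ x ∈ A, ∀ y ∈ A, φ x = φ y → x = y := by
  refine match1 hd hA hT (fun x => sInf {n | C n x}) (measurable_sInf C hCm) fun n => ?_
  have hmem : ∀ z ∈ A, C (sInf {n | C n z}) z := fun z hz => Nat.sInf_mem (hex z hz)
  have hfin : ∀ n x, {z | Lv G d n x z ∧ (z ∈ A ∧ sInf {n | C n z} ≤ n)}.Finite :=
    fun n x => (finL hd n x).subset fun y hy => hy.1
  induction n with
  | zero =>
    intro x
    by_cases h : ∃ z, Lv G d 0 x z ∧ (z ∈ A ∧ sInf {n | C n z} ≤ 0)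
    · obtain ⟨z, h1, h2, h3⟩ := h
      have h4 : C 0 x := by
        have := hmem z h2
        rw [Nat.le_zero.1 h3] at this
        exact hC 0 z x ((Lv_equiv hd 0).symm h1) this
      refine (Set.ncard_le_ncard (fun y hy => ?_) (finLA hd 0 A x)).trans (hle 0 x h4)
      exact ⟨hy.1, hy.2.1⟩
    · have : {z | Lv G d 0 x z ∧ (z ∈ A ∧ sInf {n | C n z} ≤ 0)} = ∅ := by
        ext z
        simp only [mem_ofPred_eq, mem_empty_iff_false, iff_false]
        exact fun hz => h ⟨z, hz⟩
      rw [this]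
      simp
  | succ n ih =>
    intro x
    by_cases h : ∃ z, Lv G d (n + 1) x z ∧ (z ∈ A ∧ sInf {n | C n z} = n + 1)
    · obtain ⟨z, h1, h2, h3⟩ := h
      have h4 : C (n + 1) x := by
        have := hmem z h2
        rw [h3] at this
        exact hC (n + 1) z x ((Lv_equiv hd (n + 1)).symm h1) this
      refine (Set.ncard_le_ncard (fun y hy => ?_) (finLA hd (n + 1) A x)).trans (hle (n + 1) x h4)
      exact ⟨hy.1, hy.2.1⟩
    · have hsub : {z | Lv G d (n + 1) x z ∧ (z ∈ A ∧ sInf {n | C n z} ≤ n + 1)} ⊆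
          {z | Lv G d n x z ∧ (z ∈ A ∧ sInf {n | C n z} ≤ n)} ∪
          {z | Lv G d n (fl G d {n} x) z ∧ (z ∈ A ∧ sInf {n | C n z} ≤ n)} := by
        rintro z ⟨h1, h2, h3⟩
        have h4 : sInf {n | C n z} ≤ n := by
          rcases Nat.lt_or_ge n (sInf {n | C n z}) with h5 | h5
          · exact absurd ⟨z, h1, h2, le_antisymm h3 h5⟩ h
          · exact h5
        rcases (Lv_succ_iff hd n x z).1 h1 with h6 | h6
        · exact Or.inl ⟨h6, h2, h4⟩
        · exact Or.inr ⟨h6, h2, h4⟩
      calc _ ≤ _ := Set.ncard_le_ncard hsub ((hfin n x).union (hfin n _))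
        _ ≤ _ := Set.ncard_union_le _ _
        _ ≤ cnt G d n T x + cnt G d n T (fl G d {n} x) := add_le_add (ih x) (ih _)
        _ = _ := (cnt_succ hd n T x).symm

/-- compressibility from two matchings -/
theorem comprOn_sandwich (hd : Dig (Eo G (X := X)) univ d) {V M : Set X} (hV : MeasurableSet V)
    (hVi : Inv G V) {l p q : ℕ} (hpq : p < q) (hq : q ≤ 2 ^ l) (hM : MeasurableSet M)
    (h2 : ∃ φ : X → X, Measurable φ ∧ (∀ x ∈ Xn d l q ∩ V, Eo G x (φ x) ∧ φ x ∈ M) ∧
      ∀ x ∈ Xn d l q ∩ V, ∀ y ∈ Xn d l q ∩ V, φ x = φ y → x = y)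
    (h1 : ∃ φ : X → X, Measurable φ ∧ (∀ x ∈ M ∩ V, Eo G x (φ x) ∧ φ x ∈ Xn d l p) ∧
      ∀ x ∈ M ∩ V, ∀ y ∈ M ∩ V, φ x = φ y → x = y) : ComprOn G V := by
  obtain ⟨f, f1, f2, f3⟩ := h2
  obtain ⟨g, g1, g2, g3⟩ := h1
  have hfV : ∀ x ∈ Xn d l q ∩ V, f x ∈ M ∩ V := fun x hx =>
    ⟨(f2 x hx).2, (hVi.mem_iff (f2 x hx).1).1 hx.2⟩
  refine comprOn_of_shrink (G := G) (A := Xn d l q ∩ V) (B := Xn d l p ∩ V) hV hVi
    ((measurableSet_Xn hd l q).inter hV) ((measurableSet_Xn hd l p).inter hV)
    inter_subset_right (fun x hx => ⟨lt_trans hx.1 hpq, hx.2⟩) ?_ (fun x => g (f x))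
    (g1.comp f1) ?_ ?_
  · intro x hx
    obtain ⟨y, ⟨⟨g, rfl⟩, _⟩, h⟩ := exists_num hd (hpq.trans_le hq) x
    refine ⟨g, ⟨?_, hVi g x hx⟩, fun h' => ?_⟩
    · show num d l (g • x) < q
      rw [h]
      exact hpq
    · have : num d l (g • x) < p := h'.1
      omega
  · intro x hx
    have h1 := f2 x hx
    have h2 := g2 (f x) (hfV x hx)
    exact ⟨h1.1.trans h2.1, h2.2, (hVi.mem_iff (h1.1.trans h2.1)).1 hx.2⟩
  · intro x hx y hy h
    exact f3 x hx y hy (g3 _ (hfV x hx) _ (hfV y hy) h)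

theorem dens_eventually (hd : Dig (Eo G (X := X)) univ d) (g : G) (x : X) :
    ∀ᶠ n in atTop, ∀ U : Set X, dens G d n U (g • x) = dens G d n U x := by
  obtain ⟨n, hn⟩ := exists_Lv hd (x := x) (y := g • x) ⟨g, rfl⟩
  filter_upwards [eventually_ge_atTop n] with m hm U
  rw [dens_eq, dens_eq, cnt_congr hd U (Lv_mono hm hn)]

theorem measurableSet_frequently (p : ℕ → X → Prop) (hp : ∀ n, MeasurableSet {x | p n x}) :
    MeasurableSet {x | ∃ᶠ n in atTop, p n x} := by
  simp only [frequently_atTop, Set.ofPred_forall, Set.ofPred_exists]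
  refine MeasurableSet.iInter fun a => MeasurableSet.iUnion fun b => ?_
  by_cases h : a ≤ b
  · simpa [h] using hp b
  · simp [h]

theorem measurableSet_eventually (p : ℕ → X → Prop) (hp : ∀ n, MeasurableSet {x | p n x}) :
    MeasurableSet {x | ∀ᶠ n in atTop, p n x} := by
  have h := (measurableSet_frequently (fun n x => ¬ p n x) fun n => (hp n).compl).compl
  convert h using 1
  ext x
  simp only [mem_compl_iff, mem_ofPred_eq, not_frequently, not_not]

theorem real_pow {l n : ℕ} (h : l ≤ n) (q : ℝ) : q * 2 ^ (n - l) = q / 2 ^ l * 2 ^ n := by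
  obtain ⟨k, rfl⟩ := Nat.exists_eq_add_of_le h
  rw [Nat.add_sub_cancel_left, pow_add]
  field_simp

/-- the piece with parameters `l, p` is compressible -/
theorem compr_piece (hd : Dig (Eo G (X := X)) univ d) {U : Set X} (hU : MeasurableSet U)
    {l p : ℕ} (hp : p + 1 ≤ 2 ^ l) {V : Set X} (hV : MeasurableSet V) (hVi : Inv G V)
    (h1 : ∀ x ∈ V, ∃ᶠ n in atTop, dens G d n U x < (p : ℝ) / 2 ^ l)
    (h2 : ∀ x ∈ V, ∃ᶠ n in atTop, ((p : ℝ) + 1) / 2 ^ l < dens G d n U x) : ComprOn G V := by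
  refine comprOn_sandwich hd hV hVi (Nat.lt_succ_self p) hp hU ?_ ?_
  · refine match_stop hd ((measurableSet_Xn hd l _).inter hV) hU
      (fun n x => l ≤ n ∧ ((p : ℝ) + 1) / 2 ^ l < dens G d n U x) (fun n => ?_) ?_ ?_ ?_
    · have : {x | l ≤ n ∧ ((p : ℝ) + 1) / 2 ^ l < dens G d n U x} =
          {x | l ≤ n} ∩ {x | ((p : ℝ) + 1) / 2 ^ l < dens G d n U x} := rfl
      rw [this]
      exact (MeasurableSet.const _).inter (measurableSet_lt measurable_const (measurable_dens hd n hU))
    · rintro n x y hxy ⟨ha, hb⟩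
      refine ⟨ha, ?_⟩
      rw [dens_eq, ← cnt_congr hd U hxy]
      exact hb
    · intro x hx
      obtain ⟨n, hn, h⟩ := (frequently_atTop.1 (h2 x hx.2)) l
      exact ⟨n, hn, h⟩
    · rintro n x ⟨ha, hb⟩
      refine (cnt_mono hd n inter_subset_left x).trans ?_
      rw [cnt_Xn hd hp ha]
      have h3 : ((p : ℝ) + 1) * 2 ^ (n - l) ≤ cnt G d n U x := by
        rw [real_pow ha]
        rw [dens_eq, lt_div_iff₀ (by positivity)] at hb
        exact hb.le
      exact_mod_cast h3
  · refine match_stop hd (hU.inter hV) (measurableSet_Xn hd l _)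
      (fun n x => l ≤ n ∧ dens G d n U x < (p : ℝ) / 2 ^ l) (fun n => ?_) ?_ ?_ ?_
    · have : {x | l ≤ n ∧ dens G d n U x < (p : ℝ) / 2 ^ l} =
          {x | l ≤ n} ∩ {x | dens G d n U x < (p : ℝ) / 2 ^ l} := rfl
      rw [this]
      exact (MeasurableSet.const _).inter (measurableSet_lt (measurable_dens hd n hU) measurable_const)
    · rintro n x y hxy ⟨ha, hb⟩
      refine ⟨ha, ?_⟩
      rw [dens_eq, ← cnt_congr hd U hxy]
      exact hb
    · intro x hx
      obtain ⟨n, hn, h⟩ := (frequently_atTop.1 (h1 x hx.2)) l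
      exact ⟨n, hn, h⟩
    · rintro n x ⟨ha, hb⟩
      refine (cnt_mono hd n inter_subset_left x).trans ?_
      rw [cnt_Xn hd (by omega) ha]
      have h3 : (cnt G d n U x : ℝ) ≤ (p : ℝ) * 2 ^ (n - l) := by
        rw [real_pow ha]
        rw [dens_eq, div_lt_iff₀ (by positivity)] at hb
        exact hb.le
      exact_mod_cast h3

theorem dens_nonneg (n : ℕ) (U : Set X) (x : X) : 0 ≤ dens G d n U x := by
  rw [dens_eq]
  positivity

theorem dens_le_one (hd : Dig (Eo G (X := X)) univ d) (n : ℕ) (U : Set X) (x : X) :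
    dens G d n U x ≤ 1 := by
  rw [dens_eq, div_le_one (by positivity)]
  have h := Set.ncard_le_ncard (s := {y | Lv G d n x y ∧ y ∈ U}) (t := {y | Lv G d n x y})
    (fun y hy => hy.1) (finL hd n x)
  rw [ncard_Lv hd] at h
  exact_mod_cast h

end M11a

open M11a in
/-- M11a: non-convergence of densities only on a compressible set -/
theorem comprOn_nonconv {G X : Type} [Group G] [Countable G] [MeasurableSpace X]
    [StandardBorelSpace X] [MulAction G X] [MeasurableConstSMul G X]
    {d : X → ℕ → Bool} (hd : Dig (Eo G (X := X)) univ d) {U : Set X}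
    (hU : MeasurableSet U) :
    MeasurableSet {x | ¬ ∃ r : ℝ, Tendsto (fun n => dens G d n U x) atTop (𝓝 r)} ∧
    Inv G {x | ¬ ∃ r : ℝ, Tendsto (fun n => dens G d n U x) atTop (𝓝 r)} ∧
    ComprOn G {x | ¬ ∃ r : ℝ, Tendsto (fun n => dens G d n U x) atTop (𝓝 r)} := by
  have hm : MeasurableSet {x | ¬ ∃ r : ℝ, Tendsto (fun n => dens G d n U x) atTop (𝓝 r)} :=
    (measurableSet_exists_tendsto fun n => measurable_dens hd n hU).compl
  have hi : Inv G {x | ¬ ∃ r : ℝ, Tendsto (fun n => dens G d n U x) atTop (𝓝 r)} := by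
    intro g x hx
    rintro ⟨r, hr⟩
    refine hx ⟨r, hr.congr' ?_⟩
    filter_upwards [dens_eventually hd g x] with n hn
    exact hn U
  refine ⟨hm, hi, ?_⟩
  set V : ℕ → ℕ → Set X := fun l p => {x | p + 1 ≤ 2 ^ l ∧
    (∃ᶠ n in atTop, dens G d n U x < (p : ℝ) / 2 ^ l) ∧
    ∃ᶠ n in atTop, ((p : ℝ) + 1) / 2 ^ l < dens G d n U x} with hVdef
  have hVm : ∀ l p, MeasurableSet (V l p) := by
    intro l p
    refine (MeasurableSet.const _).inter (MeasurableSet.inter ?_ ?_)
    · exact measurableSet_frequently _ fun n =>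
        measurableSet_lt (measurable_dens hd n hU) measurable_const
    · exact measurableSet_frequently _ fun n =>
        measurableSet_lt measurable_const (measurable_dens hd n hU)
  have hVi : ∀ l p, Inv G (V l p) := by
    rintro l p g x ⟨h0, h1, h2⟩
    refine ⟨h0, (h1.and_eventually (dens_eventually hd g x)).mono fun n hn => ?_,
      (h2.and_eventually (dens_eventually hd g x)).mono fun n hn => ?_⟩
    · rw [hn.2]
      exact hn.1
    · rw [hn.2]
      exact hn.1
  have hVc : ∀ l p, ComprOn G (V l p) := by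
    intro l p
    by_cases h : p + 1 ≤ 2 ^ l
    · exact compr_piece hd hU h (hVm l p) (hVi l p) (fun x hx => hx.2.1) fun x hx => hx.2.2
    · have : V l p = ∅ := by
        ext x
        simp only [mem_empty_iff_false, iff_false]
        exact fun hx => h hx.1
      rw [this]
      exact ⟨fun x _ => x, fun _ => measurable_id, fun x hx => absurd hx (notMem_empty x),
        fun x hx => absurd hx (notMem_empty x)⟩
  have hEq : {x | ¬ ∃ r : ℝ, Tendsto (fun n => dens G d n U x) atTop (𝓝 r)} =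
      ⋃ k : ℕ, V k.unpair.1 k.unpair.2 := by
    ext x
    simp only [mem_ofPred_eq, mem_iUnion]
    constructor
    · intro hx
      by_contra hc
      apply hx
      refine tendsto_of_no_upcrossings (s := univ) dense_univ (fun a _ b _ hab => ?_)
        (isBoundedUnder_of ⟨1, fun n => dens_le_one hd n U x⟩)
        (isBoundedUnder_of ⟨0, fun n => dens_nonneg n U x⟩)
      rintro ⟨ha, hb⟩
      apply hc
      obtain ⟨l, hl⟩ := exists_pow_lt_of_lt_one (show 0 < (b - a) / 2 by linarith)
        (show (1 / 2 : ℝ) < 1 by norm_num)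
      have hpos : (0 : ℝ) < 2 ^ l := by positivity
      have ha0 : 0 ≤ a := by
        obtain ⟨n, hn⟩ := ha.exists
        exact (dens_nonneg n U x).trans hn.le
      have hb1 : b < 1 := by
        obtain ⟨n, hn⟩ := hb.exists
        exact hn.trans_le (dens_le_one hd n U x)
      have hl' : 2 < (b - a) * 2 ^ l := by
        have h1 : (1 / 2 : ℝ) ^ l * 2 ^ l = 1 := by
          rw [← mul_pow]
          norm_num
        have h2 : (1 / 2 : ℝ) ^ l * 2 ^ l < (b - a) / 2 * 2 ^ l := by gcongr
        rw [h1] at h2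
        linarith
      set p := ⌈a * 2 ^ l⌉₊ with hp
      have hp1 : a * 2 ^ l ≤ p := Nat.le_ceil _
      have hp2 : (p : ℝ) < a * 2 ^ l + 1 := Nat.ceil_lt_add_one (by positivity)
      have hp3 : (p : ℝ) + 1 < b * 2 ^ l := by nlinarith
      refine ⟨Nat.pair l p, ?_⟩
      simp only [Nat.unpair_pair]
      refine ⟨?_, ha.mono fun n hn => ?_, hb.mono fun n hn => ?_⟩
      · have : ((p : ℝ) + 1) ≤ 2 ^ l := by nlinarith
        exact_mod_cast this
      · rw [lt_div_iff₀ hpos]
        nlinarith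
      · rw [div_lt_iff₀ hpos]
        nlinarith
    · rintro ⟨k, _, h1, h2⟩ ⟨r, hr⟩
      set a : ℝ := ((k.unpair.2 : ℕ) : ℝ) / 2 ^ k.unpair.1 with ha
      set b : ℝ := (((k.unpair.2 : ℕ) : ℝ) + 1) / 2 ^ k.unpair.1 with hb
      have hab : a < b := by
        rw [ha, hb]
        gcongr
        linarith
      rcases lt_or_ge r b with h | h
      · obtain ⟨n, h3, h4⟩ := (h2.and_eventually (hr.eventually (gt_mem_nhds h))).exists
        exact lt_asymm h3 h4
      · obtain ⟨n, h3, h4⟩ := (h1.and_eventually (hr.eventually (lt_mem_nhds (hab.trans_le h)))).exists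
        exact lt_asymm h3 h4
  rw [hEq]
  exact comprOn_iUnion (fun k => hVm _ _) (fun k => hVi _ _) fun k => hVc _ _

namespace M11a

variable {G X : Type} [Group G] [Countable G] [MeasurableSpace X] [StandardBorelSpace X]
  [MulAction G X] [MeasurableConstSMul G X]
variable {d : X → ℕ → Bool}

/-- the piece with parameters `l, N` is compressible -/
theorem compr_piece2 (hd : Dig (Eo G (X := X)) univ d) {B : ℕ → Set X}
    (hB : ∀ k, MeasurableSet (B k)) (hanti : Antitone B) (hempty : ⋂ k, B k = ∅)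
    {V : Set X} (hV : MeasurableSet V) (hVi : Inv G V) (l N : ℕ) (hl : 1 ≤ l)
    (h1 : ∀ x ∈ V, ∀ n, ∀ᶠ j in atTop, dens G d j (B N \ B n) x ≤ 1 / 2 ^ l)
    (h2 : ∀ x ∈ V, ∀ᶠ j in atTop, 2 / 2 ^ l ≤ dens G d j (B N) x) : ComprOn G V := by
  have hl2 : 1 + 1 ≤ 2 ^ l := by
    calc 1 + 1 = 2 ^ 1 := rfl
      _ ≤ 2 ^ l := Nat.pow_le_pow_right (by norm_num) hl
  have hnB : ∀ z, ∃ n, z ∉ B n := by
    intro z
    by_contra hc
    push Not at hc
    have : z ∈ ⋂ k, B k := mem_iInter.2 hc
    rw [hempty] at this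
    exact this
  refine comprOn_sandwich hd hV hVi (Nat.lt_succ_self 1) hl2 (hB N) ?_ ?_
  · refine match_stop hd ((measurableSet_Xn hd l _).inter hV) (hB N)
      (fun n x => l ≤ n ∧ 2 / 2 ^ l ≤ dens G d n (B N) x) (fun n => ?_) ?_ ?_ ?_
    · have : {x | l ≤ n ∧ 2 / 2 ^ l ≤ dens G d n (B N) x} =
          {x | l ≤ n} ∩ {x | 2 / 2 ^ l ≤ dens G d n (B N) x} := rfl
      rw [this]
      exact (MeasurableSet.const _).inter
        (measurableSet_le measurable_const (measurable_dens hd n (hB N)))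
    · rintro n x y hxy ⟨ha, hb⟩
      refine ⟨ha, ?_⟩
      rw [dens_eq, ← cnt_congr hd (B N) hxy]
      exact hb
    · intro x hx
      obtain ⟨n, hn, h⟩ := ((eventually_ge_atTop l).and (h2 x hx.2)).exists
      exact ⟨n, hn, h⟩
    · rintro n x ⟨ha, hb⟩
      refine (cnt_mono hd n inter_subset_left x).trans ?_
      rw [cnt_Xn hd hl2 ha]
      have h3 : (2 : ℝ) * 2 ^ (n - l) ≤ cnt G d n (B N) x := by
        rw [real_pow ha]
        rwa [dens_eq, le_div_iff₀ (by positivity)] at hb
      exact_mod_cast h3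
  · set nn : X → ℕ := fun z => sInf {n | z ∉ B n} with hnn
    have hnnm : Measurable nn := measurable_sInf (fun n z => z ∉ B n) fun n => (hB n).compl
    have hnnmem : ∀ z, z ∉ B (nn z) := fun z => Nat.sInf_mem (s := {n | z ∉ B n}) (hnB z)
    set C : ℕ → X → Prop := fun k z => l ≤ k ∧ ∀ j ≥ k, dens G d j (B N \ B (nn z)) z ≤ 1 / 2 ^ l
      with hC
    have hCm : ∀ k, MeasurableSet {z | C k z} := by
      intro k
      have : {z | C k z} = ⋃ m : ℕ, ({z | nn z = m} ∩ ({z | l ≤ k} ∩
          ⋂ j : ℕ, ⋂ _ : k ≤ j, {z | dens G d j (B N \ B m) z ≤ 1 / 2 ^ l})) := by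
        ext z
        simp only [hC, mem_ofPred_eq, mem_iUnion, mem_inter_iff, mem_iInter]
        constructor
        · rintro ⟨h3, h4⟩
          exact ⟨nn z, rfl, h3, h4⟩
        · rintro ⟨m, rfl, h3, h4⟩
          exact ⟨h3, h4⟩
      rw [this]
      refine MeasurableSet.iUnion fun m => (hnnm (measurableSet_singleton m)).inter
        ((MeasurableSet.const _).inter (MeasurableSet.iInter fun j => MeasurableSet.iInter fun _ => ?_))
      exact measurableSet_le (measurable_dens hd j ((hB N).diff (hB m))) measurable_const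
    refine match1 hd ((hB N).inter hV) (measurableSet_Xn hd l _) (fun z => sInf {k | C k z})
      (measurable_sInf C hCm) fun n x => ?_
    set S := {z | Lv G d n x z ∧ (z ∈ B N ∩ V ∧ sInf {k | C k z} ≤ n)} with hS
    have hSfin : S.Finite := (finL hd n x).subset fun y hy => hy.1
    by_cases hne : S.Nonempty
    · obtain ⟨z, ⟨hz1, hz2, hz3⟩, hmax⟩ := Set.exists_max_image S nn hSfin hne
      have hCz : C (sInf {k | C k z}) z := by
        refine Nat.sInf_mem (s := {k | C k z}) ?_
        obtain ⟨k, hk⟩ := eventually_atTop.1 (h1 z hz2.2 (nn z))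
        exact ⟨max l k, le_max_left _ _, fun j hj => hk j ((le_max_right _ _).trans hj)⟩
      have hln : l ≤ n := hCz.1.trans hz3
      have hden := hCz.2 n hz3
      have hsub : S ⊆ {y | Lv G d n x y ∧ y ∈ B N \ B (nn z)} := by
        intro y hy
        refine ⟨hy.1, hy.2.1.1, fun h => ?_⟩
        exact hnnmem y (hanti (hmax y hy) h)
      calc S.ncard ≤ cnt G d n (B N \ B (nn z)) x := Set.ncard_le_ncard hsub (finLA hd n _ x)
        _ = cnt G d n (B N \ B (nn z)) z := cnt_congr hd _ hz1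
        _ ≤ 1 * 2 ^ (n - l) := by
            have h3 : (cnt G d n (B N \ B (nn z)) z : ℝ) ≤ 1 * 2 ^ (n - l) := by
              rw [real_pow hln]
              rwa [dens_eq, div_le_iff₀ (by positivity)] at hden
            exact_mod_cast h3
        _ = cnt G d n (Xn d l 1) x := (cnt_Xn hd (by omega) hln x).symm
    · rw [Set.not_nonempty_iff_eq_empty.1 hne]
      simp

theorem dens_diff (hd : Dig (Eo G (X := X)) univ d) (n : ℕ) {A B : Set X} (h : B ⊆ A) (x : X) :
    dens G d n (A \ B) x = dens G d n A x - dens G d n B x := by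
  have h1 : cnt G d n A x = cnt G d n (A \ B) x + cnt G d n B x := by
    unfold cnt
    rw [← Set.ncard_union_eq ?_ (finLA hd n _ x) (finLA hd n _ x)]
    · congr 1
      ext z
      simp only [mem_ofPred_eq, mem_union, Set.mem_sdiff]
      constructor
      · rintro ⟨h1, h2⟩
        by_cases h3 : z ∈ B
        · exact Or.inr ⟨h1, h3⟩
        · exact Or.inl ⟨h1, h2, h3⟩
      · rintro (⟨h1, h2, _⟩ | ⟨h1, h2⟩)
        · exact ⟨h1, h2⟩
        · exact ⟨h1, h h2⟩
    · rw [Set.disjoint_left]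
      intro z hz hz'
      exact hz.2.2 hz'.2
  simp only [dens_eq]
  rw [h1]
  push_cast
  ring

end M11a

open M11a in
/-- M11a: escape of mass only on a compressible set -/
theorem comprOn_escape {G X : Type} [Group G] [Countable G] [MeasurableSpace X]
    [StandardBorelSpace X] [MulAction G X] [MeasurableConstSMul G X]
    {d : X → ℕ → Bool} (hd : Dig (Eo G (X := X)) univ d) {B : ℕ → Set X}
    (hB : ∀ k, MeasurableSet (B k)) (hanti : ∀ k, B (k + 1) ⊆ B k) (hempty : ⋂ k, B k = ∅)
    {V : Set X} (hV : MeasurableSet V) (hVi : Inv G V) (r : ℕ → X → ℝ)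
    (hlim : ∀ x ∈ V, ∀ k, Tendsto (fun n => dens G d n (B k) x) atTop (𝓝 (r k x)))
    (hpos : ∀ x ∈ V, ∃ ε > 0, ∀ k, ε ≤ r k x) : ComprOn G V := by
  have hanti' : Antitone B := antitone_nat_of_succ_le hanti
  set P : ℕ → ℕ → Set X := fun l N => V ∩ ((⋂ n : ℕ,
    {x | ∀ᶠ j in atTop, dens G d j (B N \ B n) x ≤ 1 / 2 ^ (l + 1)}) ∩
    {x | ∀ᶠ j in atTop, 2 / 2 ^ (l + 1) ≤ dens G d j (B N) x}) with hP
  have hPm : ∀ l N, MeasurableSet (P l N) := by
    intro l N
    refine hV.inter ((MeasurableSet.iInter fun n => ?_).inter ?_)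
    · exact measurableSet_eventually _ fun j =>
        measurableSet_le (measurable_dens hd j ((hB N).diff (hB n))) measurable_const
    · exact measurableSet_eventually _ fun j =>
        measurableSet_le measurable_const (measurable_dens hd j (hB N))
  have hPi : ∀ l N, Inv G (P l N) := by
    rintro l N g x ⟨h0, h1, h2⟩
    refine ⟨hVi g x h0, mem_iInter.2 fun n => ?_, ?_⟩
    · filter_upwards [mem_iInter.1 h1 n, dens_eventually hd g x] with j h3 h4
      rw [h4]
      exact h3
    · have h2' : ∀ᶠ j in atTop, 2 / 2 ^ (l + 1) ≤ dens G d j (B N) x := h2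
      filter_upwards [h2', dens_eventually hd g x] with j h3 h4
      rw [h4]
      exact h3
  have hPc : ∀ l N, ComprOn G (P l N) := fun l N =>
    compr_piece2 hd hB hanti' hempty (hPm l N) (hPi l N) (l + 1) N (by omega)
      (fun x hx n => mem_iInter.1 hx.2.1 n) fun x hx => hx.2.2
  have hEq : V = ⋃ k : ℕ, P k.unpair.1 k.unpair.2 := by
    ext x
    simp only [mem_iUnion]
    constructor
    · intro hx
      obtain ⟨ε, hε, hr⟩ := hpos x hx
      have hbdd : BddBelow (range fun k => r k x) := ⟨ε, by rintro _ ⟨k, rfl⟩; exact hr k⟩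
      set R := ⨅ k, r k x with hR
      have hRε : ε ≤ R := le_ciInf hr
      obtain ⟨l, hl⟩ := exists_pow_lt_of_lt_one (show 0 < ε / 2 by linarith)
        (show (1 / 2 : ℝ) < 1 by norm_num)
      have hl1 : (1 : ℝ) / 2 ^ (l + 1) < ε / 2 := by
        rw [pow_succ, ← one_div_mul_one_div, ← one_div_pow]
        have : (0 : ℝ) < (1 / 2) ^ l := by positivity
        linarith
      have hl2 : (2 : ℝ) / 2 ^ (l + 1) < R := by
        have : (2 : ℝ) / 2 ^ (l + 1) = 2 * (1 / 2 ^ (l + 1)) := by ring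
        rw [this]
        linarith
      have hlpos : (0 : ℝ) < 1 / 2 ^ (l + 1) := by positivity
      obtain ⟨N, hN⟩ := exists_lt_of_ciInf_lt (show R < R + 1 / 2 ^ (l + 1) by linarith)
      refine ⟨Nat.pair l N, ?_⟩
      simp only [Nat.unpair_pair]
      refine ⟨hx, mem_iInter.2 fun n => ?_, ?_⟩
      · have h1 : Tendsto (fun j => dens G d j (B N) x - dens G d j (B (max N n)) x) atTop
            (𝓝 (r N x - r (max N n) x)) := (hlim x hx N).sub (hlim x hx (max N n))
        have h2 : r N x - r (max N n) x < 1 / 2 ^ (l + 1) := by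
          have : R ≤ r (max N n) x := ciInf_le hbdd _
          linarith
        filter_upwards [h1.eventually (gt_mem_nhds h2)] with j hj
        rw [← dens_diff hd j (hanti' (le_max_left N n))] at hj
        refine le_trans ?_ hj.le
        rw [dens_eq, dens_eq]
        have h3 := cnt_mono hd j (A := B N \ B n) (B := B N \ B (max N n))
          (fun y hy => ⟨hy.1, fun h => hy.2 (hanti' (le_max_right N n) h)⟩) x
        gcongr
      · have h2 : (2 : ℝ) / 2 ^ (l + 1) < r N x := hl2.trans_le (ciInf_le hbdd _)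
        filter_upwards [(hlim x hx N).eventually (lt_mem_nhds h2)] with j hj
        exact hj.le
    · rintro ⟨k, h, _⟩
      exact h
  rw [hEq]
  exact comprOn_iUnion (fun k => hPm _ _) (fun k => hPi _ _) fun k => hPc _ _

end Pool.Agent.CAR
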