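import Pool.Agent.CAR.M11a
import Pool.Agent.CAR.M3

/-!
# Module M11b: Nadkarni's theorem for spaces with a digit map
-/

set_option autoImplicit false

namespace Pool.Agent.CAR

open Set MeasureTheory Filter Topology

/-- finitely additive probabilities on the measurable sets -/
structure FinAdd {Y : Type} [MeasurableSpace Y] (m : Set Y → ℝ) : Prop where
  nonneg : ∀ A, 0 ≤ m A
  total : m univ = 1
  add : ∀ A B, MeasurableSet A → MeasurableSet B → Disjoint A B → m (A ∪ B) = m A + m B

/-- decreasing sequences of Borel sets with empty intersection -/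
structure Van {Y : Type} [MeasurableSpace Y] (B : ℕ → Set Y) : Prop where
  meas : ∀ k, MeasurableSet (B k)
  anti : ∀ k, B (k + 1) ⊆ B k
  empty : ⋂ k, B k = ∅

namespace FinAdd

variable {Y : Type} [MeasurableSpace Y] {m : Set Y → ℝ} (hm : FinAdd m)
include hm

theorem empty : m ∅ = 0 := by
  have := hm.add ∅ ∅ MeasurableSet.empty MeasurableSet.empty (disjoint_bot_left)
  simp at this
  exact this

theorem compl {A : Set Y} (hA : MeasurableSet A) : m Aᶜ = 1 - m A := by
  have := hm.add A Aᶜ hA hA.compl disjoint_compl_right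
  rw [union_compl_self, hm.total] at this
  linarith

theorem mono {A B : Set Y} (hA : MeasurableSet A) (hB : MeasurableSet B) (h : A ⊆ B) :
    m A ≤ m B := by
  have := hm.add A (B \ A) hA (hB.diff hA) disjoint_sdiff_right
  rw [union_sdiff_cancel h] at this
  have := hm.nonneg (B \ A)
  linarith

theorem tail {D : ℕ → Set Y} (hD : ∀ i, MeasurableSet (D i))
    (hdis : Pairwise (Function.onFun Disjoint D)) (k : ℕ) :
    m (⋃ i, D i) = (∑ i ∈ Finset.range k, m (D i)) + m (⋃ i, D (k + i)) := by
  induction k with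
  | zero => simp
  | succ k ih =>
    have h1 : (⋃ i, D (k + i)) = D k ∪ ⋃ i, D (k + 1 + i) := by
      ext x
      simp only [mem_iUnion, mem_union]
      constructor
      · rintro ⟨i, hi⟩
        rcases Nat.eq_zero_or_pos i with h | h
        · left
          subst h
          exact hi
        · right
          refine ⟨i - 1, ?_⟩
          rwa [show k + 1 + (i - 1) = k + i by omega]
      · rintro (h | ⟨i, hi⟩)
        · exact ⟨0, h⟩
        · refine ⟨1 + i, ?_⟩
          rwa [← add_assoc]
    have h2 : Disjoint (D k) (⋃ i, D (k + 1 + i)) := by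
      rw [disjoint_iUnion_right]
      intro i
      exact hdis (by omega)
    rw [ih, h1, hm.add _ _ (hD k) (MeasurableSet.iUnion fun i => hD _) h2, Finset.sum_range_succ]
    ring

end FinAdd

theorem finAdd_real {Y : Type} [MeasurableSpace Y] (μ : Measure Y) [IsProbabilityMeasure μ] :
    FinAdd (μ.real) where
  nonneg A := measureReal_nonneg
  total := by simp
  add A B _ hB h := measureReal_union h hB

theorem van_tail {Y : Type} [MeasurableSpace Y] {D : ℕ → Set Y} (hD : ∀ i, MeasurableSet (D i))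
    (hdis : Pairwise (Function.onFun Disjoint D)) : Van fun k => ⋃ i, D (k + i) where
  meas k := MeasurableSet.iUnion fun i => hD _
  anti k := by
    refine iUnion_subset fun i => ?_
    rw [show k + 1 + i = k + (1 + i) by ring]
    exact subset_iUnion (fun i => D (k + i)) (1 + i)
  empty := by
    ext x
    simp only [mem_iInter, mem_iUnion, mem_empty_iff_false, iff_false]
    intro hc
    obtain ⟨i, hi⟩ := hc 0
    obtain ⟨j, hj⟩ := hc (0 + i + 1)
    exact (hdis (show 0 + i ≠ 0 + i + 1 + j by omega)).le_bot ⟨hi, hj⟩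

theorem van_empty {Y : Type} [MeasurableSpace Y] : Van (fun _ => (∅ : Set Y)) where
  meas _ := MeasurableSet.empty
  anti _ := subset_rfl
  empty := iInter_const ∅

/-- a measure agreeing on half-lines with a finitely additive probability agrees with it on a
given Borel set if countably many vanishing sequences are respected -/
theorem exists_family {D : Set ℝ} (hD : MeasurableSet D) :
    ∃ B : ℕ → ℕ → Set ℝ, (∀ s, Van (B s)) ∧ ∀ m : Set ℝ → ℝ, FinAdd m →
      ∀ μ : Measure ℝ, IsProbabilityMeasure μ →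
      (∀ q : ℚ, μ.real (Iic (q : ℝ)) = m (Iic (q : ℝ))) →
      (∀ s, Tendsto (fun k => m (B s k)) atTop (𝓝 0)) → μ.real D = m D := by
  have hb : (inferInstance : MeasurableSpace ℝ) =
      MeasurableSpace.generateFrom (⋃ a : ℚ, {Iic (a : ℝ)}) := by
    rw [← Real.borel_eq_generateFrom_Iic_rat]
    exact BorelSpace.measurable_eq
  induction D, hD using MeasurableSpace.induction_on_inter hb Real.isPiSystem_Iic_rat with
  | empty =>
    refine ⟨fun _ _ => ∅, fun _ => van_empty, fun m hm μ hμ _ _ => ?_⟩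
    rw [hm.empty]
    simp
  | basic t ht =>
    refine ⟨fun _ _ => ∅, fun _ => van_empty, fun m hm μ hμ h _ => ?_⟩
    simp only [mem_iUnion, mem_singleton_iff] at ht
    obtain ⟨q, rfl⟩ := ht
    exact h q
  | compl t ht ih =>
    obtain ⟨B, hB, h⟩ := ih
    refine ⟨B, hB, fun m hm μ hμ hq hs => ?_⟩
    rw [(finAdd_real μ).compl ht, hm.compl ht, h m hm μ hμ hq hs]
  | iUnion D hdis hD ih =>
    choose B hB h using ih
    refine ⟨fun s => match s with
      | 0 => fun k => ⋃ i, D (k + i)
      | s + 1 => B s.unpair.1 s.unpair.2, ?_, fun m hm μ hμ hq hs => ?_⟩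
    · intro s
      cases s with
      | zero => exact van_tail hD hdis
      | succ s => exact hB _ _
    · have h1 : ∀ i, μ.real (D i) = m (D i) := by
        intro i
        refine h i m hm μ hμ hq fun s => ?_
        have := hs (Nat.pair i s + 1)
        simpa using this
      have h2 : Tendsto (fun k => m (⋃ i, D (k + i))) atTop (𝓝 0) := hs 0
      have h3 : Tendsto (fun k => μ.real (⋃ i, D (k + i))) atTop (𝓝 0) := by
        have hv := van_tail hD hdis
        have h4 := tendsto_measure_iInter_atTop (μ := μ) (s := fun k => ⋃ i, D (k + i))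
          (fun k => (hv.meas k).nullMeasurableSet) (antitone_nat_of_succ_le hv.anti)
          ⟨0, measure_ne_top _ _⟩
        rw [hv.empty, measure_empty] at h4
        exact (ENNReal.tendsto_toReal ENNReal.zero_ne_top).comp h4
      have h6 : ∀ k, μ.real (⋃ i, D i) - μ.real (⋃ i, D (k + i)) =
          m (⋃ i, D i) - m (⋃ i, D (k + i)) := by
        intro k
        rw [(finAdd_real μ).tail hD hdis k, hm.tail hD hdis k]
        simp only [h1]
        ring
      have h7 := (tendsto_const_nhds (x := μ.real (⋃ i, D i))).sub h3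
      have h8 := (tendsto_const_nhds (x := m (⋃ i, D i))).sub h2
      simp only [h6] at h7
      have := tendsto_nhds_unique h7 h8
      simpa using this

/-- the vanishing sequences needed for the existence of the measure -/
def famZero : ℕ ⊕ ℚ → ℕ → Set ℝ
  | Sum.inl 0 => fun k => Iic (-(k : ℝ))
  | Sum.inl (_ + 1) => fun k => Ioi (k : ℝ)
  | Sum.inr q => fun k => Ioc (q : ℝ) (q + 1 / ((k : ℝ) + 1))

theorem van_famZero (i : ℕ ⊕ ℚ) : Van (famZero i) := by
  rcases i with (_ | n) | q
  · refine ⟨fun k => measurableSet_Iic, fun k => ?_, ?_⟩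
    · refine Iic_subset_Iic.2 ?_
      push_cast
      linarith
    · ext x
      simp only [famZero, mem_iInter, mem_Iic, mem_empty_iff_false, iff_false, not_forall, not_le]
      obtain ⟨k, hk⟩ := exists_nat_gt (-x)
      exact ⟨k, by linarith⟩
  · refine ⟨fun k => measurableSet_Ioi, fun k => ?_, ?_⟩
    · refine Ioi_subset_Ioi ?_
      push_cast
      linarith
    · ext x
      simp only [famZero, mem_iInter, mem_Ioi, mem_empty_iff_false, iff_false, not_forall, not_lt]
      obtain ⟨k, hk⟩ := exists_nat_gt x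
      exact ⟨k, hk.le⟩
  · refine ⟨fun k => measurableSet_Ioc, fun k => ?_, ?_⟩
    · refine Ioc_subset_Ioc_right ?_
      have : 1 / (((k + 1 : ℕ) : ℝ) + 1) ≤ 1 / ((k : ℝ) + 1) := by
        apply one_div_le_one_div_of_le
        · positivity
        · push_cast
          linarith
      linarith
    · ext x
      simp only [famZero, mem_iInter, mem_Ioc, mem_empty_iff_false, iff_false, not_forall]
      by_cases hx : (q : ℝ) < x
      · obtain ⟨k, hk⟩ := exists_nat_one_div_lt (sub_pos.2 hx)
        refine ⟨k, fun h => ?_⟩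
        linarith [h.2]
      · exact ⟨0, fun h => hx h.1⟩

theorem exists_measure {m : Set ℝ → ℝ} (hm : FinAdd m)
    (h : ∀ i, Tendsto (fun k => m (famZero i k)) atTop (𝓝 0)) :
    ∃ μ : Measure ℝ, IsProbabilityMeasure μ ∧
      ∀ q : ℚ, μ.real (Iic (q : ℝ)) = m (Iic (q : ℝ)) := by
  have h0 : Tendsto (fun k : ℕ => m (Iic (-(k : ℝ)))) atTop (𝓝 0) := h (Sum.inl 0)
  have h1 : Tendsto (fun k : ℕ => m (Ioi (k : ℝ))) atTop (𝓝 0) := h (Sum.inl 1)
  have h2 : ∀ q : ℚ, Tendsto (fun k : ℕ => m (Ioc (q : ℝ) (q + 1 / ((k : ℝ) + 1)))) atTop (𝓝 0) :=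
    fun q => h (Sum.inr q)
  have hmono : ∀ p q : ℚ, p ≤ q → m (Iic (p : ℝ)) ≤ m (Iic (q : ℝ)) := by
    intro p q hpq
    exact hm.mono measurableSet_Iic measurableSet_Iic (Iic_subset_Iic.2 (by exact_mod_cast hpq))
  have hf : ProbabilityTheory.IsMeasurableRatCDF (fun (_ : Unit) (q : ℚ) => m (Iic (q : ℝ))) := by
    refine ⟨fun _ => ⟨fun p q hpq => hmono p q hpq, ?_, ?_, fun q => ?_⟩, ?_⟩
    · have h3 : ∀ q : ℚ, m (Iic (q : ℝ)) = 1 - m (Ioi (q : ℝ)) := by
        intro q
        rw [← hm.compl measurableSet_Ioi, compl_Ioi]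
      simp only [h3]
      rw [Metric.tendsto_atTop]
      intro ε hε
      obtain ⟨k, hk⟩ := ((tendsto_order.1 h1).2 ε hε).exists
      refine ⟨k, fun q hq => ?_⟩
      have h4 : m (Ioi (q : ℝ)) ≤ m (Ioi (k : ℝ)) :=
        hm.mono measurableSet_Ioi measurableSet_Ioi (Ioi_subset_Ioi (by exact_mod_cast hq))
      rw [Real.dist_eq, abs_lt]
      have := hm.nonneg (Ioi (q : ℝ))
      constructor <;> linarith
    · rw [tendsto_order]
      refine ⟨fun a ha => Eventually.of_forall fun q => lt_of_lt_of_le ha (hm.nonneg _),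
        fun ε hε => ?_⟩
      obtain ⟨k, hk⟩ := ((tendsto_order.1 h0).2 ε hε).exists
      filter_upwards [eventually_le_atBot (-(k : ℚ))] with q hq
      refine lt_of_le_of_lt (hm.mono measurableSet_Iic measurableSet_Iic (Iic_subset_Iic.2 ?_)) hk
      exact_mod_cast hq
    · apply le_antisymm
      · refine le_of_forall_pos_lt_add fun ε hε => ?_
        obtain ⟨k, hk⟩ := ((tendsto_order.1 (h2 q)).2 ε hε).exists
        have hq : q < q + 1 / ((k : ℚ) + 1) := by
          have : (0 : ℚ) < 1 / ((k : ℚ) + 1) := by positivity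
          linarith
        have hbdd : BddBelow (range fun r : Ioi q => m (Iic ((r : ℚ) : ℝ))) :=
          ⟨0, by rintro _ ⟨r, rfl⟩; exact hm.nonneg _⟩
        refine lt_of_le_of_lt (ciInf_le hbdd ⟨q + 1 / ((k : ℚ) + 1), hq⟩) ?_
        have h5 := hm.add (Iic (q : ℝ)) (Ioc (q : ℝ) (q + 1 / ((k : ℝ) + 1))) measurableSet_Iic
          measurableSet_Ioc (by
            rw [Set.disjoint_left]
            intro x hx hx'
            exact absurd hx (not_le.2 hx'.1))
        rw [Iic_union_Ioc_eq_Iic (by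
          have : (0 : ℝ) < 1 / ((k : ℝ) + 1) := by positivity
          linarith)] at h5
        push_cast
        rw [h5]
        linarith
      · have : Nonempty (Ioi q) := ⟨⟨q + 1, by simp⟩⟩
        refine le_ciInf fun r => hmono _ _ (le_of_lt r.2)
    · exact measurable_of_countable _
  refine ⟨(hf.stieltjesFunction ()).measure, inferInstance, fun q => ?_⟩
  rw [Measure.real, hf.measure_stieltjesFunction_Iic, hf.stieltjesFunction_eq,
    ENNReal.toReal_ofReal (hm.nonneg _)]

section Ultra

variable {G X : Type} [Group G] [MeasurableSpace X] [MulAction G X]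
variable {d : X → ℕ → Bool}

omit [MeasurableSpace X] in
theorem dens_nonneg (n : ℕ) (U : Set X) (x : X) : 0 ≤ dens G d n U x := by
  unfold dens
  positivity

omit [MeasurableSpace X] in
theorem dens_congr {n : ℕ} {x y : X} (h : Lv G d n x y) (U : Set X) :
    dens G d n U x = dens G d n U y := by
  have h1 : {z | Lv G d n x z ∧ z ∈ U} = {z | Lv G d n y z ∧ z ∈ U} := by
    ext z
    simp only [mem_ofPred_eq]
    constructor
    · rintro ⟨h2, h3⟩
      exact ⟨⟨h.1.symm.trans h2.1, fun j hj => (h.2 j hj).symm.trans (h2.2 j hj)⟩, h3⟩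
    · rintro ⟨h2, h3⟩
      exact ⟨⟨h.1.trans h2.1, fun j hj => (h.2 j hj).trans (h2.2 j hj)⟩, h3⟩
  unfold dens
  rw [h1]

variable (hd : Dig (Eo G (X := X)) univ d)
include hd

theorem Lv_fin (n : ℕ) (x : X) : {y | Lv G d n x y}.Finite := by
  rw [Lv_cls hd]
  exact (Finset.finite_toSet _).image _

theorem dens_univ (n : ℕ) (x : X) : dens G d n univ x = 1 := by
  unfold dens
  simp only [mem_univ, and_true]
  rw [ncard_Lv hd]
  push_cast
  exact div_self (by positivity)

theorem dens_union (n : ℕ) {A B : Set X} (h : Disjoint A B) (x : X) :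
    dens G d n (A ∪ B) x = dens G d n A x + dens G d n B x := by
  have h1 : {y | Lv G d n x y ∧ y ∈ A ∪ B} =
      {y | Lv G d n x y ∧ y ∈ A} ∪ {y | Lv G d n x y ∧ y ∈ B} := by
    ext y
    simp only [mem_ofPred_eq, mem_union]
    tauto
  have h2 : Disjoint {y | Lv G d n x y ∧ y ∈ A} {y | Lv G d n x y ∧ y ∈ B} := by
    rw [Set.disjoint_left]
    intro y hy hy'
    exact h.le_bot ⟨hy.2, hy'.2⟩
  unfold dens
  rw [h1, Set.ncard_union_eq h2 ((Lv_fin hd n x).subset fun y hy => hy.1)
    ((Lv_fin hd n x).subset fun y hy => hy.1)]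
  push_cast
  ring

theorem dens_le_one (n : ℕ) (U : Set X) (x : X) : dens G d n U x ≤ 1 := by
  have h := dens_union hd n (disjoint_compl_right (a := U)) x
  rw [union_compl_self, dens_univ hd] at h
  have := dens_nonneg (G := G) (d := d) n Uᶜ x
  linarith

theorem dens_fl (n : ℕ) {t : Finset ℕ} (ht : t ⊆ Finset.range n) (A : Set X) (x : X) :
    dens G d n (fl G d t ⁻¹' A) x = dens G d n A x := by
  have key : ∀ y, Lv G d n x y → Lv G d n x (fl G d t y) := by
    intro y hy
    exact (Lv_equiv hd n).trans hy ((Lv_iff_fl hd n y _).2 ⟨t, Finset.mem_powerset.2 ht, rfl⟩)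
  have h1 : {y | Lv G d n x y ∧ y ∈ A} = fl G d t '' {y | Lv G d n x y ∧ y ∈ fl G d t ⁻¹' A} := by
    ext y
    simp only [mem_ofPred_eq, mem_image, mem_preimage]
    constructor
    · rintro ⟨h2, h3⟩
      refine ⟨fl G d t y, ⟨key y h2, ?_⟩, fl_self hd t y⟩
      rwa [fl_self hd]
    · rintro ⟨z, ⟨h2, h3⟩, rfl⟩
      exact ⟨key z h2, h3⟩
  unfold dens
  rw [h1, InjOn.ncard_image (fl_injective hd t).injOn]

theorem eventually_dens_eq {x y : X} (h : Eo G x y) :
    ∃ n0, ∀ n ≥ n0, ∀ U : Set X, dens G d n U x = dens G d n U y := by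
  obtain ⟨n0, hn0⟩ := exists_Lv hd h
  exact ⟨n0, fun n hn U => dens_congr (Lv_mono hn hn0) U⟩

theorem exists_ulim (x : X) (A : Set X) :
    ∃ r : ℝ, Tendsto (fun n => dens G d n A x) (hyperfilter ℕ : Filter ℕ) (𝓝 r) := by
  have h : ((hyperfilter ℕ).map fun n => dens G d n A x : Filter ℝ) ≤ 𝓟 (Icc (0 : ℝ) 1) := by
    rw [le_principal_iff]
    refine Filter.mem_map.2 ?_
    refine Filter.mem_of_superset univ_mem fun n _ => ?_
    exact ⟨dens_nonneg n A x, dens_le_one hd n A x⟩
  obtain ⟨r, _, hr⟩ := isCompact_Icc.ultrafilter_le_nhds ((hyperfilter ℕ).map _) h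
  exact ⟨r, hr⟩

end Ultra

section Main

variable {G X : Type} [Group G] [Countable G] [MeasurableSpace X] [StandardBorelSpace X]
  [MulAction G X] [MeasurableConstSMul G X]
variable {d : X → ℕ → Bool}

/-- from one point with good densities we get an invariant probability measure -/
theorem measure_of_good (hd : Dig (Eo G (X := X)) univ d)
    (C : Option (Finset ℕ × ℚ) → ℕ → ℕ → Set ℝ)
    (hC1 : ∀ m : Set ℝ → ℝ, FinAdd m → ∀ μ : Measure ℝ, IsProbabilityMeasure μ →
      (∀ q : ℚ, μ.real (Iic (q : ℝ)) = m (Iic (q : ℝ))) →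
      (∀ s, Tendsto (fun k => m (C none s k)) atTop (𝓝 0)) →
      μ.real (range (nu (X := X))) = m (range (nu (X := X))))
    (hC2 : ∀ t q, ∀ m : Set ℝ → ℝ, FinAdd m → ∀ μ : Measure ℝ, IsProbabilityMeasure μ →
      (∀ q : ℚ, μ.real (Iic (q : ℝ)) = m (Iic (q : ℝ))) →
      (∀ s, Tendsto (fun k => m (C (some (t, q)) s k)) atTop (𝓝 0)) →
      μ.real (nu '' (fl G d t ⁻¹' (nu (X := X) ⁻¹' Iic (q : ℝ)))) =
        m (nu '' (fl G d t ⁻¹' (nu (X := X) ⁻¹' Iic (q : ℝ)))))
    (m : Set X → ℝ) (hm : FinAdd m) (hfl : ∀ t A, m (fl G d t ⁻¹' A) = m A)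
    (h0 : ∀ i, Tendsto (fun k => m (nu (X := X) ⁻¹' famZero i k)) atTop (𝓝 0))
    (h1 : ∀ o s, Tendsto (fun k => m (nu (X := X) ⁻¹' C o s k)) atTop (𝓝 0)) :
    ∃ μ : Measure X, IsProbabilityMeasure μ ∧ ∀ t, MeasurePreserving (fl G d t) μ μ := by
  have hme : MeasurableEmbedding (nu (X := X)) := measurableEmbedding_embeddingReal X
  have hm' : FinAdd (fun A : Set ℝ => m (nu (X := X) ⁻¹' A)) :=
    { nonneg := fun A => hm.nonneg _
      total := hm.total
      add := fun A B hA hB h => by
        rw [preimage_union]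
        exact hm.add _ _ (measurable_nu hA) (measurable_nu hB) (h.preimage _) }
  obtain ⟨μ, hμ, hq⟩ := exists_measure hm' h0
  have hr : μ.real (range (nu (X := X))) = 1 := by
    rw [hC1 _ hm' μ hμ hq (h1 none), preimage_range]
    exact hm.total
  have hr' : μ (range (nu (X := X)))ᶜ = 0 := by
    rw [prob_compl_eq_zero_iff hme.measurableSet_range]
    have := ENNReal.ofReal_toReal (measure_ne_top μ (range (nu (X := X))))
    rw [← this]
    change ENNReal.ofReal (μ.real _) = 1
    rw [hr, ENNReal.ofReal_one]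
  have hcomap : ∀ A : Set X, MeasurableSet A → (μ.comap nu) A = μ (nu '' A) := fun A hA =>
    hme.comap_apply μ A
  have hprob : IsProbabilityMeasure (μ.comap (nu (X := X))) := by
    refine ⟨?_⟩
    rw [hcomap univ MeasurableSet.univ, image_univ]
    exact (prob_compl_eq_zero_iff hme.measurableSet_range).1 hr'
  refine ⟨μ.comap nu, hprob, fun t => ⟨measurable_fl hd t, ?_⟩⟩
  have hgen : (inferInstance : MeasurableSpace X) =
      MeasurableSpace.generateFrom ((fun A => nu (X := X) ⁻¹' A) '' (⋃ a : ℚ, {Iic (a : ℝ)})) := by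
    rw [← MeasurableSpace.comap_generateFrom, ← Real.borel_eq_generateFrom_Iic_rat]
    have : (borel ℝ) = (inferInstance : MeasurableSpace ℝ) := BorelSpace.measurable_eq.symm
    rw [this]
    exact hme.comap_eq.symm
  have hpi : IsPiSystem ((fun A => nu (X := X) ⁻¹' A) '' (⋃ a : ℚ, {Iic (a : ℝ)})) :=
    Real.isPiSystem_Iic_rat.comap nu
  have : IsProbabilityMeasure ((μ.comap nu).map (fl G d t (X := X))) :=
    Measure.isProbabilityMeasure_map (measurable_fl hd t).aemeasurable
  refine ext_of_generate_finite _ hgen hpi ?_ (by simp)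
  rintro _ ⟨A, hA, rfl⟩
  simp only [mem_iUnion, mem_singleton_iff] at hA
  obtain ⟨q, rfl⟩ := hA
  have hmq : MeasurableSet (nu (X := X) ⁻¹' Iic (q : ℝ)) := measurable_nu measurableSet_Iic
  rw [Measure.map_apply (measurable_fl hd t) hmq, hcomap _ (measurable_fl hd t hmq), hcomap _ hmq]
  have e1 : μ.real (nu '' (fl G d t ⁻¹' (nu (X := X) ⁻¹' Iic (q : ℝ)))) =
      m (nu (X := X) ⁻¹' Iic (q : ℝ)) := by
    rw [hC2 t q _ hm' μ hμ hq (h1 (some (t, q))), preimage_image_eq _ hme.injective, hfl]
  have e2 : μ (nu '' (nu (X := X) ⁻¹' Iic (q : ℝ))) = μ (Iic (q : ℝ)) := by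
    rw [image_preimage_eq_inter_range]
    exact measure_inter_conull hr'
  have e3 : μ.real (Iic (q : ℝ)) = m (nu (X := X) ⁻¹' Iic (q : ℝ)) := hq q
  rw [e2]
  have e4 := e1.trans e3.symm
  rw [Measure.real, Measure.real, ENNReal.toReal_eq_toReal_iff' (measure_ne_top _ _)
    (measure_ne_top _ _)] at e4
  exact e4

/-- the invariant Borel set where mass escapes along `B` -/
def esc (G : Type) {X : Type} [Group G] [MulAction G X] (d : X → ℕ → Bool) (B : ℕ → Set X) :
    Set X :=
  {x | (∀ k, ∃ r : ℝ, Tendsto (fun n => dens G d n (B k) x) atTop (𝓝 r)) ∧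
    ∃ j : ℕ, ∀ k, ∃ᶠ n in atTop, 1 / ((j : ℝ) + 1) ≤ dens G d n (B k) x}

omit [Countable G] [StandardBorelSpace X] [MeasurableConstSMul G X] in
theorem inv_esc (hd : Dig (Eo G (X := X)) univ d) (B : ℕ → Set X) : Inv G (esc G d B) := by
  rintro g x ⟨h1, j, h2⟩
  obtain ⟨n0, hn0⟩ := eventually_dens_eq hd (show Eo G x (g • x) from ⟨g, rfl⟩)
  refine ⟨fun k => ?_, j, fun k => ?_⟩
  · obtain ⟨r, hr⟩ := h1 k
    refine ⟨r, hr.congr' ?_⟩
    filter_upwards [eventually_ge_atTop n0] with n hn
    exact hn0 n hn _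
  · refine ((h2 k).and_eventually (eventually_ge_atTop n0)).mono ?_
    rintro n ⟨h3, hn⟩
    rwa [← hn0 n hn]

theorem measurableSet_esc (hd : Dig (Eo G (X := X)) univ d) {B : ℕ → Set X}
    (hB : ∀ k, MeasurableSet (B k)) : MeasurableSet (esc G d B) := by
  have h : esc G d B =
      (⋂ k, {x | ¬ ∃ r : ℝ, Tendsto (fun n => dens G d n (B k) x) atTop (𝓝 r)}ᶜ) ∩
      ⋃ j : ℕ, ⋂ k, ⋂ N : ℕ, ⋃ n : ℕ, ⋃ _ : N ≤ n, {x | 1 / ((j : ℝ) + 1) ≤ dens G d n (B k) x} := by
    ext x
    simp only [esc, mem_ofPred_eq, mem_inter_iff, mem_iInter, mem_iUnion, mem_compl_iff, not_not,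
      frequently_atTop, exists_prop]
  rw [h]
  refine MeasurableSet.inter (MeasurableSet.iInter fun k => (comprOn_nonconv hd (hB k)).1.compl) ?_
  refine MeasurableSet.iUnion fun j => MeasurableSet.iInter fun k => MeasurableSet.iInter fun N =>
    MeasurableSet.iUnion fun n => MeasurableSet.iUnion fun _ => ?_
  exact measurableSet_le measurable_const (measurable_dens hd n (hB k))

theorem comprOn_esc (hd : Dig (Eo G (X := X)) univ d) {B : ℕ → Set X} (hB : Van B) :
    ComprOn G (esc G d B) := by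
  classical
  refine comprOn_escape hd hB.meas hB.anti hB.empty (measurableSet_esc hd hB.meas)
    (inv_esc hd B) (fun k x => if h : ∃ r : ℝ, Tendsto (fun n => dens G d n (B k) x) atTop (𝓝 r)
      then h.choose else 0) ?_ ?_
  · intro x hx k
    have h := hx.1 k
    simp only [dif_pos h]
    exact h.choose_spec
  · rintro x ⟨h1, j, h2⟩
    refine ⟨1 / ((j : ℝ) + 1), by positivity, fun k => ?_⟩
    have h := h1 k
    simp only [dif_pos h]
    by_contra hc
    obtain ⟨n, h3, h4⟩ := ((h2 k).and_eventually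
      ((tendsto_order.1 h.choose_spec).2 _ (not_le.1 hc))).exists
    linarith

omit [Countable G] [StandardBorelSpace X] [MeasurableConstSMul G X] in
theorem finAdd_ulim (hd : Dig (Eo G (X := X)) univ d) (x : X) (m : Set X → ℝ)
    (hm : ∀ A, Tendsto (fun n => dens G d n A x) (hyperfilter ℕ : Filter ℕ) (𝓝 (m A))) :
    FinAdd m := by
  refine ⟨fun A => ?_, ?_, fun A B _ _ h => ?_⟩
  · exact ge_of_tendsto (hm A) (Eventually.of_forall fun n => dens_nonneg n A x)
  · refine tendsto_nhds_unique (hm univ) ?_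
    simp only [dens_univ hd]
    exact tendsto_const_nhds
  · refine tendsto_nhds_unique (hm (A ∪ B)) ?_
    simp only [dens_union hd _ h]
    exact (hm A).add (hm B)

/-- M11b: Nadkarni's theorem for spaces with a digit map -/
theorem nadkarni {d : X → ℕ → Bool} (hd : Dig (Eo G (X := X)) univ d) :
    ComprOn G (univ : Set X) ∨ ∃ μ : Measure X, IsProbabilityMeasure μ ∧
      ∀ t, MeasurePreserving (fl G d t) μ μ := by
  classical
  have hme : MeasurableEmbedding (nu (X := X)) := measurableEmbedding_embeddingReal X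
  let D : Option (Finset ℕ × ℚ) → Set ℝ := fun o => match o with
    | none => range (nu (X := X))
    | some (t, q) => nu '' (fl G d t ⁻¹' (nu (X := X) ⁻¹' Iic (q : ℝ)))
  have hD : ∀ o, MeasurableSet (D o) := by
    rintro (_ | ⟨t, q⟩)
    · exact hme.measurableSet_range
    · exact hme.measurableSet_image.2 (measurable_fl hd t (measurable_nu measurableSet_Iic))
  choose C hC0 hC using fun o => exists_family (hD o)
  let B : (ℕ ⊕ ℚ) ⊕ (Option (Finset ℕ × ℚ) × ℕ) → ℕ → Set X := fun i k => match i with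
    | Sum.inl j => nu ⁻¹' famZero j k
    | Sum.inr (o, s) => nu ⁻¹' C o s k
  have hpre : ∀ A : ℕ → Set ℝ, Van A → Van fun k => nu (X := X) ⁻¹' A k := by
    intro A hA
    refine ⟨fun k => measurable_nu (hA.meas k), fun k => preimage_mono (hA.anti k), ?_⟩
    rw [← preimage_iInter, hA.empty, preimage_empty]
  have hB : ∀ i, Van (B i) := by
    rintro (j | ⟨o, s⟩)
    · exact hpre _ (van_famZero j)
    · exact hpre _ (hC0 o s)
  by_cases hgood : ∃ x : X, ∀ i,
      (∀ k, ∃ r : ℝ, Tendsto (fun n => dens G d n (B i k) x) atTop (𝓝 r)) ∧ x ∉ esc G d (B i)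
  · right
    obtain ⟨x, hx⟩ := hgood
    choose m hm using exists_ulim hd x
    have hm' := finAdd_ulim hd x m hm
    have hlim : ∀ i, Tendsto (fun k => m (B i k)) atTop (𝓝 0) := by
      intro i
      obtain ⟨h1, h2⟩ := hx i
      rw [tendsto_order]
      refine ⟨fun a ha => Eventually.of_forall fun k => lt_of_lt_of_le ha (hm'.nonneg _),
        fun ε hε => ?_⟩
      obtain ⟨j, hj⟩ := exists_nat_one_div_lt hε
      have h3 : ∃ k, ¬ ∃ᶠ n in atTop, 1 / ((j : ℝ) + 1) ≤ dens G d n (B i k) x := by
        by_contra hc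
        simp only [not_exists, not_not] at hc
        exact h2 ⟨h1, j, hc⟩
      obtain ⟨k, hk⟩ := h3
      rw [not_frequently] at hk
      obtain ⟨r, hr⟩ := h1 k
      have h4 : r ≤ 1 / ((j : ℝ) + 1) := by
        refine le_of_tendsto hr ?_
        filter_upwards [hk] with n hn
        exact (not_le.1 hn).le
      have h5 : m (B i k) = r :=
        tendsto_nhds_unique (hm _) (hr.mono_left (Nat.hyperfilter_le_atTop))
      filter_upwards [eventually_ge_atTop k] with k' hk'
      have h6 : m (B i k') ≤ m (B i k) :=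
        hm'.mono ((hB i).meas _) ((hB i).meas _) (antitone_nat_of_succ_le (hB i).anti hk')
      linarith
    refine measure_of_good hd C (hC none) (fun t q => hC (some (t, q))) m hm' ?_
      (fun i => hlim (Sum.inl i)) (fun o s => hlim (Sum.inr (o, s)))
    intro t A
    refine tendsto_nhds_unique (hm _) ((hm A).congr' ?_)
    have h1 : ∀ᶠ n in atTop, dens G d n A x = dens G d n (fl G d t ⁻¹' A) x := by
      filter_upwards [eventually_ge_atTop (t.sup id + 1)] with n hn
      refine (dens_fl hd n (fun i hi => ?_) A x).symm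
      have : i ≤ t.sup id := Finset.le_sup (f := id) hi
      rw [Finset.mem_range]
      omega
    exact Nat.hyperfilter_le_atTop h1
  · left
    let J := ((ℕ ⊕ ℚ) ⊕ (Option (Finset ℕ × ℚ) × ℕ)) × Option ℕ
    let P : J → Set X := fun j => match j with
      | (i, none) => esc G d (B i)
      | (i, some k) => {x | ¬ ∃ r : ℝ, Tendsto (fun n => dens G d n (B i k) x) atTop (𝓝 r)}
    obtain ⟨e, he⟩ := exists_surjective_nat J
    have hU : (univ : Set X) = ⋃ n, P (e n) := by
      symm
      rw [eq_univ_iff_forall]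
      intro x
      rw [mem_iUnion]
      have h1 : ∃ j, x ∈ P j := by
        by_contra hc
        push Not at hc
        apply hgood
        refine ⟨x, fun i => ⟨fun k => ?_, hc (i, none)⟩⟩
        by_contra h2
        exact hc (i, some k) h2
      obtain ⟨j, hj⟩ := h1
      obtain ⟨n, rfl⟩ := he j
      exact ⟨n, hj⟩
    rw [hU]
    refine comprOn_iUnion (fun n => ?_) (fun n => ?_) (fun n => ?_)
    · generalize e n = j
      rcases j with ⟨i, _ | k⟩
      · exact measurableSet_esc hd (hB i).meas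
      · exact (comprOn_nonconv hd ((hB i).meas k)).1
    · generalize e n = j
      rcases j with ⟨i, _ | k⟩
      · exact inv_esc hd _
      · exact (comprOn_nonconv hd ((hB i).meas k)).2.1
    · generalize e n = j
      rcases j with ⟨i, _ | k⟩
      · exact comprOn_esc hd (hB i)
      · exact (comprOn_nonconv hd ((hB i).meas k)).2.2

end Main

end Pool.Agent.CAR
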