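import Pool.Agent.CAR.M11a

/-!
# M12a: one step of the relabelling (Dye)
-/

set_option autoImplicit false
set_option linter.unusedVariables false

namespace Pool.Agent.CAR

open Set MeasureTheory Filter Topology

namespace Dye

/-! ## Combinatorial lemmas -/

/-- if `f` takes each value `w` at least as often as `g` takes the value `some w`, some permutation
carries `g` into `f` -/
theorem exists_perm {A W : Type} [Fintype A] [DecidableEq A] [DecidableEq W] (f : A → W)
    (g : A → Option W)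
    (h : ∀ w, (Finset.univ.filter fun a => g a = some w).card ≤
      (Finset.univ.filter fun a => f a = w).card) :
    ∃ σ : Equiv.Perm A, ∀ a w, g a = some w → f (σ a) = w := by
  classical
  let good : Equiv.Perm A → Finset A := fun σ =>
    Finset.univ.filter fun a => g a = some (f (σ a))
  obtain ⟨σ, hσ⟩ := Finite.exists_max fun σ : Equiv.Perm A => (good σ).card
  refine ⟨σ, fun a w haw => ?_⟩
  by_contra hne
  have hex : ∃ b, f (σ b) = w ∧ g b ≠ some w := by
    by_contra hcon
    push Not at hcon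
    have h1 : (Finset.univ.filter fun b => f (σ b) = w).card < (Finset.univ.filter fun b => g b = some w).card := by
      refine Finset.card_lt_card ⟨fun b hb => ?_, fun hsub => ?_⟩
      · simp only [Finset.mem_filter, Finset.mem_univ, true_and] at hb ⊢
        exact hcon b hb
      · have : a ∈ (Finset.univ.filter fun b => f (σ b) = w) := hsub (by simp [haw])
        simp only [Finset.mem_filter, Finset.mem_univ, true_and] at this
        exact hne this
    have h2 : (Finset.univ.filter fun b => f (σ b) = w).card = (Finset.univ.filter fun b => f b = w).card := by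
      refine Finset.card_bij (fun b _ => σ b) (fun b hb => ?_) (fun b _ c _ hbc => σ.injective hbc) fun b hb => ?_
      · simpa using hb
      · exact ⟨σ.symm b, by simpa using hb, by simp⟩
    have := h w
    omega
  obtain ⟨b, hb, hgb⟩ := hex
  have hab : a ≠ b := fun hh => hne (hh ▸ hb)
  let τ := (Equiv.swap a b).trans σ
  have hτa : τ a = σ b := by simp [τ]
  have hτb : τ b = σ a := by simp [τ]
  have hτc : ∀ c, c ≠ a → c ≠ b → τ c = σ c := by
    intro c h1 h2
    simp [τ, Equiv.swap_apply_of_ne_of_ne h1 h2]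
  have hlt : (good σ).card < (good τ).card := by
    refine Finset.card_lt_card ⟨fun c hc => ?_, fun hsub => ?_⟩
    · simp only [good, Finset.mem_filter, Finset.mem_univ, true_and] at hc ⊢
      by_cases h1 : c = a
      · subst h1
        rw [haw] at hc
        exact absurd (Option.some.inj hc).symm hne
      by_cases h2 : c = b
      · subst h2
        rw [hb] at hc
        exact absurd hc hgb
      rw [hτc c h1 h2]
      exact hc
    · have : a ∈ good σ := hsub (by simp [good, hτa, hb, haw])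
      simp only [good, Finset.mem_filter, Finset.mem_univ, true_and] at this
      rw [haw] at this
      exact hne (Option.some.inj this).symm
  exact absurd (hσ τ) (not_le.2 hlt)

/-- functions with prescribed fibre sizes -/
theorem exists_fibres {A W : Type} [Fintype A] [DecidableEq A] [Fintype W] [DecidableEq W]
    (q : W → ℕ) (h : ∑ w, q w ≤ Fintype.card A) :
    ∃ g : A → Option W, ∀ w, (Finset.univ.filter fun a => g a = some w).card = q w := by
  classical
  have hc : Fintype.card (Σ w : W, Fin (q w)) ≤ Fintype.card A := by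
    simpa using h
  obtain ⟨e⟩ := Function.Embedding.nonempty_of_card_le hc
  refine ⟨fun a => if h : ∃ p, e p = a then some h.choose.1 else none, fun w => ?_⟩
  have key : ∀ p, (if h : ∃ p', e p' = e p then some h.choose.1 else none) = some p.1 := by
    intro p
    have hex : ∃ p', e p' = e p := ⟨p, rfl⟩
    rw [dif_pos hex]
    have := e.injective hex.choose_spec
    rw [this]
  have : (Finset.univ.filter fun a => (if h : ∃ p, e p = a then some h.choose.1 else none) = some w) =
      (Finset.univ : Finset (Fin (q w))).map ⟨fun j => e ⟨w, j⟩, fun j k hjk => by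
        have := e.injective hjk
        simpa using this⟩ := by
    ext a
    simp only [Finset.mem_filter, Finset.mem_univ, true_and, Finset.mem_map, Function.Embedding.coeFn_mk]
    constructor
    · intro ha
      by_cases hh : ∃ p, e p = a
      · obtain ⟨⟨w', j⟩, rfl⟩ := hh
        rw [key ⟨w', j⟩] at ha
        have h1 : w' = w := Option.some.inj ha
        subst h1
        exact ⟨j, rfl⟩
      · rw [dif_neg hh] at ha
        exact absurd ha (by simp)
    · rintro ⟨j, rfl⟩
      exact key ⟨w, j⟩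
  rw [this, Finset.card_map, Finset.card_univ, Fintype.card_fin]

/-! ## Measure lemmas -/

section
variable {G X : Type} [Group G] [Countable G] [MeasurableSpace X] [StandardBorelSpace X]
  [MulAction G X] [MeasurableConstSMul G X]
variable {d : X → ℕ → Bool} (hd : Dig (Eo G (X := X)) univ d)
include hd

/-- compressible invariant sets are null for invariant probability measures -/
theorem null_of_comprOn (μ : Measure X) [IsProbabilityMeasure μ]
    (hμ : ∀ t, MeasurePreserving (fl G d t) μ μ) {P : Set X} (hP : MeasurableSet P)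
    (hPi : Inv G P) (hC : ComprOn G P) : μ P = 0 := by
  obtain ⟨ψ, hm, ho, hi⟩ := hC
  let S : ℕ → Finset ℕ → Set X := fun n t => P ∩ {x | ψ x n = fl G d t x}
  have hS : ∀ n t, MeasurableSet (S n t) := fun n t =>
    hP.inter (measurableSet_eq' (hm n) (measurable_fl hd t))
  let Q : ℕ → Set X := fun n => ⋃ t, fl G d t ⁻¹' S n t
  have hQ : ∀ n, MeasurableSet (Q n) := fun n =>
    MeasurableSet.iUnion fun t => measurable_fl hd t (hS n t)
  have hval : ∀ n t y, y ∈ fl G d t ⁻¹' S n t → fl G d t y ∈ P ∧ ψ (fl G d t y) n = y := by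
    intro n t y hy
    refine ⟨hy.1, ?_⟩
    have h2 : ψ (fl G d t y) n = fl G d t (fl G d t y) := hy.2
    rw [h2, fl_self hd]
  have hPS : ∀ n, P = ⋃ t, S n t := by
    intro n
    ext x
    simp only [S, mem_iUnion, mem_inter_iff, mem_ofPred_eq]
    constructor
    · intro hx
      obtain ⟨t, ht⟩ := (Eo_iff_fl hd _ _).1 (ho x hx n)
      exact ⟨t, hx, ht.symm⟩
    · rintro ⟨t, hx, -⟩
      exact hx
  have hμQ : ∀ n, μ (Q n) = μ P := by
    intro n
    have h1 : μ (Q n) = ∑' t, μ (fl G d t ⁻¹' S n t) := by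
      refine measure_iUnion (fun t u htu => ?_) fun t => measurable_fl hd t (hS n t)
      rw [Function.onFun, Set.disjoint_left]
      intro y hy hy'
      have e1 := hval n t y hy
      have e2 := hval n u y hy'
      have := (hi _ e1.1 _ e2.1 n n (e1.2.trans e2.2.symm)).1
      exact htu (fl_inj_left hd this)
    have h2 : μ P = ∑' t, μ (S n t) := by
      conv_lhs => rw [hPS n]
      refine measure_iUnion (fun t u htu => ?_) fun t => hS n t
      rw [Function.onFun, Set.disjoint_left]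
      intro y hy hy'
      exact htu (fl_inj_left hd (hy.2.symm.trans hy'.2))
    rw [h1, h2]
    exact tsum_congr fun t => (hμ t).measure_preimage (hS n t).nullMeasurableSet
  have hdisj : Pairwise (Function.onFun Disjoint Q) := by
    intro m n hmn
    rw [Function.onFun, Set.disjoint_left]
    intro y hy hy'
    obtain ⟨t, ht⟩ := mem_iUnion.1 hy
    obtain ⟨u, hu⟩ := mem_iUnion.1 hy'
    have e1 := hval m t y ht
    have e2 := hval n u y hu
    exact hmn (hi _ e1.1 _ e2.1 m n (e1.2.trans e2.2.symm)).2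
  have h3 : ∑' n : ℕ, μ P ≤ 1 := by
    calc ∑' n : ℕ, μ P = ∑' n, μ (Q n) := tsum_congr fun n => (hμQ n).symm
      _ = μ (⋃ n, Q n) := (measure_iUnion hdisj hQ).symm
      _ ≤ 1 := prob_le_one
  by_contra hne
  rw [ENNReal.tsum_const_eq_top_of_ne_zero hne] at h3
  exact absurd h3 (by simp)

open Classical in
theorem dens_eq_sum (N : ℕ) (A : Set X) (x : X) : dens G d N A x =
    (∑ t ∈ (Finset.range N).powerset, A.indicator (fun _ => (1 : ℝ)) (fl G d t x)) / 2 ^ N := by
  unfold dens
  congr 1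
  have h1 : {y | Lv G d N x y ∧ y ∈ A} = (fun t => fl G d t x) ''
      (((Finset.range N).powerset.filter fun t => fl G d t x ∈ A : Finset (Finset ℕ)) : Set (Finset ℕ)) := by
    ext y
    simp only [mem_ofPred_eq, mem_image, Finset.coe_filter]
    constructor
    · rintro ⟨h, hy⟩
      obtain ⟨t, ht, rfl⟩ := (Lv_iff_fl hd N x y).1 h
      exact ⟨t, ⟨ht, hy⟩, rfl⟩
    · rintro ⟨t, ⟨ht, hy⟩, rfl⟩
      exact ⟨(Lv_iff_fl hd N x _).2 ⟨t, ht, rfl⟩, hy⟩
  rw [h1, InjOn.ncard_image (fun t _ u _ h => fl_inj_left hd h), Set.ncard_coe_finset,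
    Finset.card_filter, Nat.cast_sum]
  refine Finset.sum_congr rfl fun t _ => ?_
  by_cases h : fl G d t x ∈ A <;> simp [h]

theorem integral_dens (μ : Measure X) [IsProbabilityMeasure μ]
    (hμ : ∀ t, MeasurePreserving (fl G d t) μ μ) (N : ℕ) {A : Set X} (hA : MeasurableSet A) :
    ∫ x, dens G d N A x ∂μ = μ.real A := by
  have hint : ∀ t : Finset ℕ, Integrable (fun x => A.indicator (fun _ => (1 : ℝ)) (fl G d t x)) μ := by
    intro t
    refine Integrable.of_bound (C := 1) ?_ ?_
    · exact ((measurable_const.indicator hA).comp (measurable_fl hd t)).aestronglyMeasurable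
    · refine Eventually.of_forall fun x => ?_
      by_cases h : fl G d t x ∈ A <;> simp [h]
  have hval : ∀ t : Finset ℕ, ∫ x, A.indicator (fun _ => (1 : ℝ)) (fl G d t x) ∂μ = μ.real A := by
    intro t
    have h1 : (fun x => A.indicator (fun _ => (1 : ℝ)) (fl G d t x)) =
        (fl G d t ⁻¹' A).indicator (fun _ => (1 : ℝ)) := by
      funext x
      by_cases h : fl G d t x ∈ A
      · rw [indicator_of_mem h, indicator_of_mem (show x ∈ fl G d t ⁻¹' A from h)]
      · rw [indicator_of_notMem h, indicator_of_notMem (show x ∉ fl G d t ⁻¹' A from h)]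
    rw [h1, integral_indicator_const _ (measurable_fl hd t hA), smul_eq_mul, mul_one,
      measureReal_def, (hμ t).measure_preimage hA.nullMeasurableSet, ← measureReal_def]
  simp_rw [dens_eq_sum hd]
  rw [integral_div, integral_finset_sum _ fun t _ => hint t, Finset.sum_congr rfl fun t _ => hval t,
    Finset.sum_const, Finset.card_powerset, Finset.card_range, nsmul_eq_mul]
  push_cast
  field_simp

theorem dens_nonneg (N : ℕ) (A : Set X) (x : X) : 0 ≤ dens G d N A x := by
  unfold dens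
  positivity

theorem dens_le_one (N : ℕ) (A : Set X) (x : X) : dens G d N A x ≤ 1 := by
  unfold dens
  rw [div_le_one (by positivity)]
  have h1 : {y | Lv G d N x y ∧ y ∈ A}.ncard ≤ {y | Lv G d N x y}.ncard :=
    Set.ncard_le_ncard (fun y hy => hy.1) ((Lv_FBR hd N).fin x)
  rw [ncard_Lv hd] at h1
  exact_mod_cast h1

theorem measure_le_of_dens (μ : Measure X) [IsProbabilityMeasure μ]
    (hμ : ∀ t, MeasurePreserving (fl G d t) μ μ) (N : ℕ) {A : Set X} (hA : MeasurableSet A)
    {δ : ℝ} (h : ∀ x, dens G d N A x ≤ δ) : μ.real A ≤ δ := by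
  rw [← integral_dens hd μ hμ N hA]
  have h1 : ∫ x, dens G d N A x ∂μ ≤ ∫ x, δ ∂μ := by
    refine integral_mono ?_ (integrable_const _) h
    refine Integrable.of_bound (C := 1) (measurable_dens hd N hA).aestronglyMeasurable ?_
    refine Eventually.of_forall fun x => ?_
    rw [Real.norm_of_nonneg (dens_nonneg hd N A x)]
    exact dens_le_one hd N A x
  simpa using h1

theorem dens_congr {N : ℕ} (A : Set X) {x y : X} (h : Lv G d N x y) :
    dens G d N A x = dens G d N A y := by
  unfold dens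
  congr 3
  ext z
  simp only [mem_ofPred_eq]
  constructor
  · rintro ⟨h1, h2⟩
    exact ⟨(Lv_equiv hd N).trans ((Lv_equiv hd N).symm h) h1, h2⟩
  · rintro ⟨h1, h2⟩
    exact ⟨(Lv_equiv hd N).trans h h1, h2⟩

/-- saturations are measurable -/
theorem measurableSet_exists_Lv (N : ℕ) {A : Set X} (hA : MeasurableSet A) :
    MeasurableSet {x | ∃ y, Lv G d N x y ∧ y ∈ A} := by
  have : {x | ∃ y, Lv G d N x y ∧ y ∈ A} =
      ⋃ t ∈ (Finset.range N).powerset, fl G d t ⁻¹' A := by
    ext x
    simp only [mem_ofPred_eq, mem_iUnion, mem_preimage, exists_prop]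
    constructor
    · rintro ⟨y, h, hy⟩
      obtain ⟨t, ht, rfl⟩ := (Lv_iff_fl hd N x y).1 h
      exact ⟨t, ht, hy⟩
    · rintro ⟨t, ht, hy⟩
      exact ⟨_, (Lv_iff_fl hd N x _).2 ⟨t, ht, rfl⟩, hy⟩
  rw [this]
  exact Finset.measurableSet_biUnion _ fun t _ => measurable_fl hd t hA

end

/-! ## The construction -/

section
variable {G X : Type} [Group G] [MeasurableSpace X] [MulAction G X]

open Classical in
/-- the type of a point: the trace of `U` on its level `n` class, read through the labels -/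
noncomputable def tp (G : Type) {X : Type} [Group G] [MulAction G X] (d : X → ℕ → Bool) (n : ℕ)
    (ℓ : X → ℕ) (U : Set X) (x : X) : Fin (2 ^ n) → Bool :=
  fun i => decide (∃ y, Lv G d n x y ∧ (ℓ y = i ∧ y ∈ U))

/-- the digits between `n` and `N` as a number -/
noncomputable def cd {X : Type} (d : X → ℕ → Bool) (n N : ℕ) (x : X) : Fin (2 ^ (N - n)) :=
  (Fintype.equivFinOfCardEq (α := Fin (N - n) → Bool) (by simp)) fun j => d x (n + j)

open Classical in
/-- the types of the level `n` classes in the level `N` class of `x` -/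
noncomputable def TT (G : Type) {X : Type} [Group G] [MulAction G X] (d : X → ℕ → Bool) (n N : ℕ)
    (ℓ : X → ℕ) (U : Set X) (x : X) (c : Fin (2 ^ (N - n))) : Fin (2 ^ n) → Bool :=
  if h : ∃ y, Lv G d N x y ∧ cd d n N y = c then tp G d n ℓ U h.choose else fun _ => false

end

section
variable {G X : Type} [Group G] [Countable G] [MeasurableSpace X] [StandardBorelSpace X]
  [MulAction G X] [MeasurableConstSMul G X]
variable {d : X → ℕ → Bool} (hd : Dig (Eo G (X := X)) univ d)
include hd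

theorem tp_congr {n : ℕ} (ℓ : X → ℕ) (U : Set X) {x y : X} (h : Lv G d n x y) :
    tp G d n ℓ U x = tp G d n ℓ U y := by
  funext i
  unfold tp
  simp only [decide_eq_decide]
  constructor
  · rintro ⟨z, h1, h2⟩
    exact ⟨z, (Lv_equiv hd n).trans ((Lv_equiv hd n).symm h) h1, h2⟩
  · rintro ⟨z, h1, h2⟩
    exact ⟨z, (Lv_equiv hd n).trans h h1, h2⟩

theorem tp_self {n : ℕ} {ℓ : X → ℕ} (hℓ : ∀ x, ℓ x < 2 ^ n)
    (hℓi : ∀ x y, Lv G d n x y → ℓ x = ℓ y → x = y) (U : Set X) (x : X) :
    tp G d n ℓ U x ⟨ℓ x, hℓ x⟩ = true ↔ x ∈ U := by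
  unfold tp
  simp only [decide_eq_true_eq]
  constructor
  · rintro ⟨y, h1, h2, h3⟩
    rwa [hℓi x y h1 h2.symm]
  · intro h
    exact ⟨x, (Lv_equiv hd n).refl x, rfl, h⟩

theorem measurable_tp (n : ℕ) {ℓ : X → ℕ} (hℓm : Measurable ℓ) {U : Set X} (hU : MeasurableSet U) :
    Measurable (tp G d n ℓ U) := by
  refine measurable_pi_lambda _ fun i => measurable_to_bool ?_
  have h : (fun x => tp G d n ℓ U x i) ⁻¹' {true} =
      {x | ∃ y, Lv G d n x y ∧ y ∈ {y | ℓ y = i} ∩ U} := by
    ext x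
    simp [tp]
  rw [h]
  exact measurableSet_exists_Lv hd n ((hℓm (measurableSet_singleton _)).inter hU)

omit [Countable G] [StandardBorelSpace X] [MeasurableConstSMul G X] in
theorem measurable_cd (n N : ℕ) : Measurable (cd d n N) := by
  unfold cd
  refine (measurable_of_countable _).comp (measurable_pi_lambda _ fun j => ?_)
  exact (measurable_pi_apply _).comp hd.meas

omit hd [Countable G] [StandardBorelSpace X] [MeasurableConstSMul G X] in
theorem cd_eq_iff {n N : ℕ} (hn : n ≤ N) {x y : X} (h : Lv G d N x y) :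
    cd d n N x = cd d n N y ↔ Lv G d n x y := by
  unfold cd
  rw [Equiv.apply_eq_iff_eq]
  constructor
  · intro hc
    refine ⟨h.1, fun j hj => ?_⟩
    by_cases hjN : N ≤ j
    · exact h.2 j hjN
    · have := congrFun hc ⟨j - n, by omega⟩
      simp only at this
      rwa [show n + (j - n) = j by omega] at this
  · intro h'
    funext j
    exact h'.2 _ (by omega)

omit [Countable G] [StandardBorelSpace X] [MeasurableConstSMul G X] in
theorem exists_cd {n N : ℕ} (hn : n ≤ N) (x : X) (c : Fin (2 ^ (N - n))) :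
    ∃ y, Lv G d N x y ∧ cd d n N y = c := by
  let e : (Fin (N - n) → Bool) ≃ Fin (2 ^ (N - n)) :=
    Fintype.equivFinOfCardEq (α := Fin (N - n) → Bool) (by simp)
  let s : ℕ → Bool := fun j => if h : n ≤ j ∧ j < N then e.symm c ⟨j - n, by omega⟩ else d x j
  have hs : E0 (d x) s := by
    refine (Set.finite_lt_nat N).subset fun j hj => ?_
    simp only [mem_ofPred_eq, s] at hj ⊢
    by_contra hN
    rw [dif_neg (by omega)] at hj
    exact hj rfl
  obtain ⟨y, ⟨hy1, hy2⟩, -⟩ := hd.bij x (mem_univ x) s hs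
  refine ⟨y, ⟨hy1, fun j hj => ?_⟩, ?_⟩
  · rw [hy2]
    simp only [s]
    rw [dif_neg (by omega)]
  · show e _ = c
    rw [← Equiv.eq_symm_apply]
    funext j
    rw [hy2]
    simp only [s]
    rw [dif_pos (by omega)]
    congr 1
    simp

theorem TT_spec {n N : ℕ} (hn : n ≤ N) (ℓ : X → ℕ) (U : Set X) {x y : X} (h : Lv G d N x y) :
    TT G d n N ℓ U x (cd d n N y) = tp G d n ℓ U y := by
  have hex : ∃ y', Lv G d N x y' ∧ cd d n N y' = cd d n N y := ⟨y, h, rfl⟩
  unfold TT
  rw [dif_pos hex]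
  refine tp_congr hd ℓ U ?_
  exact (cd_eq_iff hn ((Lv_equiv hd N).trans ((Lv_equiv hd N).symm hex.choose_spec.1) h)).1
    hex.choose_spec.2

theorem TT_congr {n N : ℕ} (hn : n ≤ N) (ℓ : X → ℕ) (U : Set X) {x y : X} (h : Lv G d N x y) :
    TT G d n N ℓ U x = TT G d n N ℓ U y := by
  funext c
  obtain ⟨z, hz, rfl⟩ := exists_cd hd hn x c
  rw [TT_spec hd hn ℓ U hz, TT_spec hd hn ℓ U ((Lv_equiv hd N).trans ((Lv_equiv hd N).symm h) hz)]

theorem measurable_TT {n N : ℕ} (hn : n ≤ N) {ℓ : X → ℕ} (hℓm : Measurable ℓ) {U : Set X}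
    (hU : MeasurableSet U) : Measurable (TT G d n N ℓ U) := by
  refine measurable_pi_lambda _ fun c => measurable_to_countable' fun w => ?_
  have h : (fun x => TT G d n N ℓ U x c) ⁻¹' {w} =
      {x | ∃ y, Lv G d N x y ∧ y ∈ cd d n N ⁻¹' {c} ∩ tp G d n ℓ U ⁻¹' {w}} := by
    ext x
    simp only [mem_preimage, mem_singleton_iff, mem_inter_iff, mem_ofPred_eq]
    constructor
    · intro hx
      obtain ⟨y, hy, hc⟩ := exists_cd hd hn x c
      refine ⟨y, hy, hc, ?_⟩
      rw [← hx, ← hc, TT_spec hd hn ℓ U hy]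
    · rintro ⟨y, hy, hc, hw⟩
      rw [← hc, TT_spec hd hn ℓ U hy, hw]
  rw [h]
  exact measurableSet_exists_Lv hd N ((measurable_cd hd n N (measurableSet_singleton c)).inter
    (measurable_tp hd n hℓm hU (measurableSet_singleton w)))

end

section
variable {n N : ℕ}

open Classical in
/-- a function with prescribed fibre sizes `q w * 2 ^ (N - n - r)` -/
noncomputable def gg (n N r : ℕ) (q : (Fin (2 ^ n) → Bool) → ℕ) :
    Fin (2 ^ (N - n)) → Option (Fin (2 ^ n) → Bool) :=
  if h : ∑ w, q w * 2 ^ (N - n - r) ≤ Fintype.card (Fin (2 ^ (N - n))) then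
    (exists_fibres (fun w => q w * 2 ^ (N - n - r)) h).choose else fun _ => none

theorem gg_spec {r : ℕ} {q : (Fin (2 ^ n) → Bool) → ℕ}
    (h : ∑ w, q w * 2 ^ (N - n - r) ≤ 2 ^ (N - n)) (w : Fin (2 ^ n) → Bool) :
    (Finset.univ.filter fun a => gg n N r q a = some w).card = q w * 2 ^ (N - n - r) := by
  have h' : ∑ w, q w * 2 ^ (N - n - r) ≤ Fintype.card (Fin (2 ^ (N - n))) := by
    rwa [Fintype.card_fin]
  unfold gg
  rw [dif_pos h']
  convert (exists_fibres (fun w => q w * 2 ^ (N - n - r)) h').choose_spec w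

open Classical in
/-- the permutation which carries the pattern `g` into the types `T` -/
noncomputable def sg (T : Fin (2 ^ (N - n)) → Fin (2 ^ n) → Bool)
    (g : Fin (2 ^ (N - n)) → Option (Fin (2 ^ n) → Bool)) : Equiv.Perm (Fin (2 ^ (N - n))) :=
  if h : ∀ w, (Finset.univ.filter fun a => g a = some w).card ≤
      (Finset.univ.filter fun a => T a = w).card then (exists_perm T g h).choose else 1

theorem sg_spec {T : Fin (2 ^ (N - n)) → Fin (2 ^ n) → Bool}
    {g : Fin (2 ^ (N - n)) → Option (Fin (2 ^ n) → Bool)}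
    (h : ∀ w, (Finset.univ.filter fun a => g a = some w).card ≤
      (Finset.univ.filter fun a => T a = w).card) (a : Fin (2 ^ (N - n)))
    (w : Fin (2 ^ n) → Bool) (haw : g a = some w) : T (sg T g a) = w := by
  unfold sg
  rw [dif_pos (by convert h)]
  exact (exists_perm T g (by convert h)).choose_spec a w haw

end

section
variable {G X : Type} [Group G] [Countable G] [MeasurableSpace X] [StandardBorelSpace X]
  [MulAction G X] [MeasurableConstSMul G X]
variable {d : X → ℕ → Bool} (hd : Dig (Eo G (X := X)) univ d)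

omit [Countable G] [MeasurableSpace X] [StandardBorelSpace X] [MeasurableConstSMul G X] in
theorem count_le {n N : ℕ} {ℓ : X → ℕ} (hℓ : ∀ x, ℓ x < 2 ^ n) (F : X → Fin (2 ^ (N - n))) (x : X)
    (hinj : ∀ y z, Lv G d N x y → Lv G d N x z → F y = F z → ℓ y = ℓ z → y = z)
    (S : Set X) (P : Fin (2 ^ (N - n)) → Prop) [DecidablePred P]
    (h : ∀ y, Lv G d N x y → y ∈ S → P (F y)) :
    {y | Lv G d N x y ∧ y ∈ S}.ncard ≤ (Finset.univ.filter P).card * 2 ^ n := by
  classical
  have h1 : (Finset.univ.filter P).card * 2 ^ n =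
      ((((Finset.univ.filter P) ×ˢ (Finset.univ : Finset (Fin (2 ^ n))) :
        Finset (Fin (2 ^ (N - n)) × Fin (2 ^ n))) : Set (Fin (2 ^ (N - n)) × Fin (2 ^ n)))).ncard := by
    rw [Set.ncard_coe_finset, Finset.card_product, Finset.card_univ, Fintype.card_fin]
  rw [h1]
  refine Set.ncard_le_ncard_of_injOn (fun y => (F y, ⟨ℓ y, hℓ y⟩)) ?_ ?_ (Finset.finite_toSet _)
  · rintro y ⟨hy, hyS⟩
    simp only [Finset.coe_product, Finset.coe_filter, Finset.mem_univ, true_and, Finset.coe_univ,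
      mem_prod, mem_ofPred_eq, mem_univ, and_true]
    exact h y hy hyS
  · rintro y ⟨hy, -⟩ z ⟨hz, -⟩ hyz
    simp only [Prod.mk.injEq, Fin.mk.injEq] at hyz
    exact hinj y z hy hz hyz.1 hyz.2

/-- upper densities of the types -/
noncomputable def aa (G : Type) {X : Type} [Group G] [MulAction G X] (d : X → ℕ → Bool) (n : ℕ)
    (ℓ : X → ℕ) (U : Set X) (x : X) (w : Fin (2 ^ n) → Bool) : ℝ :=
  limsup (fun N => dens G d N (tp G d n ℓ U ⁻¹' {w}) x) atTop

/-- the discretised densities -/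
noncomputable def qq (G : Type) {X : Type} [Group G] [MulAction G X] (d : X → ℕ → Bool) (n r : ℕ)
    (ℓ : X → ℕ) (U : Set X) (x : X) (w : Fin (2 ^ n) → Bool) : ℕ :=
  ⌊2 ^ r * aa G d n ℓ U x w⌋₊ - 1

/-- the set of points whose level `N` class is good -/
def Gd (G : Type) {X : Type} [Group G] [MulAction G X] (d : X → ℕ → Bool) (n r N : ℕ)
    (ℓ : X → ℕ) (U : Set X) : Set X :=
  {x | (∀ w, (qq G d n r ℓ U x w : ℝ) / 2 ^ r ≤ dens G d N (tp G d n ℓ U ⁻¹' {w}) x) ∧
    ∑ w, qq G d n r ℓ U x w ≤ 2 ^ r ∧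
    2 ^ r ≤ ∑ w, qq G d n r ℓ U x w + 2 * Fintype.card (Fin (2 ^ n) → Bool)}

include hd

theorem aa_congr {n : ℕ} (ℓ : X → ℕ) (U : Set X) {x y : X} (h : Eo G x y) :
    aa G d n ℓ U x = aa G d n ℓ U y := by
  funext w
  obtain ⟨m, hm⟩ := exists_Lv hd h
  unfold aa
  refine Filter.limsup_congr ?_
  filter_upwards [eventually_ge_atTop m] with N hN
  exact dens_congr hd _ (Lv_mono hN hm)

theorem qq_congr {n r : ℕ} (ℓ : X → ℕ) (U : Set X) {x y : X} (h : Eo G x y) :
    qq G d n r ℓ U x = qq G d n r ℓ U y := by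
  funext w
  unfold qq
  rw [aa_congr hd ℓ U h]

theorem measurable_aa {n : ℕ} {ℓ : X → ℕ} (hℓm : Measurable ℓ) {U : Set X} (hU : MeasurableSet U)
    (w : Fin (2 ^ n) → Bool) : Measurable fun x => aa G d n ℓ U x w :=
  Measurable.limsup fun N => measurable_dens hd N
    (measurable_tp hd n hℓm hU (measurableSet_singleton w))

theorem measurable_qq {n r : ℕ} {ℓ : X → ℕ} (hℓm : Measurable ℓ) {U : Set X} (hU : MeasurableSet U) :
    Measurable (qq G d n r ℓ U) := by
  refine measurable_pi_lambda _ fun w => ?_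
  unfold qq
  exact (measurable_of_countable fun k : ℕ => k - 1).comp
    (Nat.measurable_floor.comp ((measurable_aa hd hℓm hU w).const_mul _))

theorem measurableSet_Gd {n r N : ℕ} {ℓ : X → ℕ} (hℓm : Measurable ℓ) {U : Set X}
    (hU : MeasurableSet U) : MeasurableSet (Gd G d n r N ℓ U) := by
  have hq := measurable_qq hd (n := n) (r := r) hℓm hU
  have h : Gd G d n r N ℓ U =
      (⋂ w, {x | (qq G d n r ℓ U x w : ℝ) / 2 ^ r ≤ dens G d N (tp G d n ℓ U ⁻¹' {w}) x}) ∩
      (qq G d n r ℓ U ⁻¹' {q | ∑ w, q w ≤ 2 ^ r ∧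
        2 ^ r ≤ ∑ w, q w + 2 * Fintype.card (Fin (2 ^ n) → Bool)}) := by
    ext x
    simp only [Gd, mem_inter_iff, mem_iInter, mem_ofPred_eq, mem_preimage]
  rw [h]
  refine MeasurableSet.inter (MeasurableSet.iInter fun w => ?_) (hq (Set.to_countable _).measurableSet)
  refine measurableSet_le ?_ (measurable_dens hd N
    (measurable_tp hd n hℓm hU (measurableSet_singleton w)))
  exact ((measurable_of_countable fun k : ℕ => (k : ℝ)).comp ((measurable_pi_apply w).comp hq)).div_const _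

theorem Gd_congr {n r N : ℕ} (ℓ : X → ℕ) (U : Set X) {x y : X} (h : Lv G d N x y) :
    x ∈ Gd G d n r N ℓ U ↔ y ∈ Gd G d n r N ℓ U := by
  unfold Gd
  simp only [mem_ofPred_eq, qq_congr hd ℓ U h.1, dens_congr hd _ h]

end

section
variable {G X : Type} [Group G] [Countable G] [MeasurableSpace X] [StandardBorelSpace X]
  [MulAction G X] [MeasurableConstSMul G X]
variable {d : X → ℕ → Bool}

theorem measurable_fun3 {Z α β γ δ : Type} [MeasurableSpace Z] [Countable α] [MeasurableSpace α]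
    [MeasurableSingletonClass α] [Countable β] [MeasurableSpace β] [MeasurableSingletonClass β]
    [Countable γ] [MeasurableSpace γ] [MeasurableSingletonClass γ] [MeasurableSpace δ]
    (Φ : α → β → γ → δ) {f : Z → α} {g : Z → β} {h : Z → γ} (hf : Measurable f)
    (hg : Measurable g) (hh : Measurable h) : Measurable fun z => Φ (f z) (g z) (h z) :=
  (measurable_of_countable fun p : α × β × γ => Φ p.1 p.2.1 p.2.2).comp (hf.prodMk (hg.prodMk hh))

/-- the rank of the level `n` class of `x` in its level `N` class -/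
noncomputable def rnk (G : Type) {X : Type} [Group G] [MulAction G X] (d : X → ℕ → Bool)
    (n r N : ℕ) (ℓ : X → ℕ) (U : Set X) (x : X) : Fin (2 ^ (N - n)) :=
  (sg (TT G d n N ℓ U x) (gg n N r (qq G d n r ℓ U x))).symm (cd d n N x)

variable (hd : Dig (Eo G (X := X)) univ d)
include hd

theorem measurable_rnk {n r N : ℕ} (hn : n ≤ N) {ℓ : X → ℕ} (hℓm : Measurable ℓ) {U : Set X}
    (hU : MeasurableSet U) : Measurable (rnk G d n r N ℓ U) :=
  measurable_fun3 (fun T q c => (sg T (gg n N r q)).symm c) (measurable_TT hd hn hℓm hU)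
    (measurable_qq hd hℓm hU) (measurable_cd hd n N)

theorem rnk_inj {n r N : ℕ} (hn : n ≤ N) (ℓ : X → ℕ) (U : Set X) {x y : X} (h : Lv G d N x y) :
    rnk G d n r N ℓ U x = rnk G d n r N ℓ U y ↔ Lv G d n x y := by
  unfold rnk
  rw [TT_congr hd hn ℓ U h, qq_congr hd ℓ U h.1, Equiv.apply_eq_iff_eq, cd_eq_iff hn h]

/-- in a good class the pattern is realised -/
theorem good_spec {n r N : ℕ} (hN : n + r ≤ N) {ℓ : X → ℕ} (hℓ : ∀ x, ℓ x < 2 ^ n)
    (hℓi : ∀ x y, Lv G d n x y → ℓ x = ℓ y → x = y) {U : Set X} {x : X}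
    (hx : x ∈ Gd G d n r N ℓ U) (w : Fin (2 ^ n) → Bool)
    (hw : gg n N r (qq G d n r ℓ U x) (rnk G d n r N ℓ U x) = some w) :
    tp G d n ℓ U x = w := by
  classical
  have hn : n ≤ N := by omega
  have hpow : (2 : ℕ) ^ (N - n) = 2 ^ r * 2 ^ (N - n - r) := by
    rw [← pow_add]
    congr 1
    omega
  have hsum : ∑ w, qq G d n r ℓ U x w * 2 ^ (N - n - r) ≤ 2 ^ (N - n) := by
    rw [← Finset.sum_mul, hpow]
    exact Nat.mul_le_mul_right _ hx.2.1
  have hcount : ∀ w, (Finset.univ.filter fun a => gg n N r (qq G d n r ℓ U x) a = some w).card ≤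
      (Finset.univ.filter fun a => TT G d n N ℓ U x a = w).card := by
    intro w
    rw [gg_spec hsum w]
    have h1 : {y | Lv G d N x y ∧ y ∈ tp G d n ℓ U ⁻¹' {w}}.ncard ≤
        (Finset.univ.filter fun a => TT G d n N ℓ U x a = w).card * 2 ^ n := by
      refine count_le hℓ (cd d n N) x ?_ _ _ ?_
      · intro y z hy hz hyz hl
        have hyz' := (Lv_equiv hd N).trans ((Lv_equiv hd N).symm hy) hz
        exact hℓi y z ((cd_eq_iff hn hyz').1 hyz) hl
      · intro y hy hyw
        rw [TT_spec hd hn ℓ U hy]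
        exact hyw
    have h2 := hx.1 w
    unfold dens at h2
    rw [div_le_div_iff₀ (by positivity) (by positivity)] at h2
    have h3 : (qq G d n r ℓ U x w : ℝ) * 2 ^ N ≤
        ((Finset.univ.filter fun a => TT G d n N ℓ U x a = w).card : ℝ) * 2 ^ n * 2 ^ r := by
      refine h2.trans ?_
      have := mul_le_mul_of_nonneg_right (Nat.cast_le (α := ℝ).2 h1) (show (0:ℝ) ≤ 2 ^ r by positivity)
      push_cast at this
      exact this
    have h4 : qq G d n r ℓ U x w * 2 ^ N ≤
        (Finset.univ.filter fun a => TT G d n N ℓ U x a = w).card * 2 ^ n * 2 ^ r := by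
      exact_mod_cast h3
    have h5 : (2 : ℕ) ^ N = 2 ^ (N - n - r) * (2 ^ n * 2 ^ r) := by
      rw [← pow_add, ← pow_add]
      congr 1
      omega
    rw [h5, ← mul_assoc, mul_assoc ((Finset.univ.filter _).card)] at h4
    exact Nat.le_of_mul_le_mul_right h4 (by positivity)
  have h6 := sg_spec hcount _ _ hw
  have h7 : sg (TT G d n N ℓ U x) (gg n N r (qq G d n r ℓ U x)) (rnk G d n r N ℓ U x) =
      cd d n N x := by
    unfold rnk
    rw [Equiv.apply_symm_apply]
  rw [h7, TT_spec hd hn ℓ U ((Lv_equiv hd N).refl x)] at h6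
  exact h6

/-- few points of good classes are outside the pattern -/
theorem dens_bad {n r N : ℕ} (hN : n + r ≤ N) {ℓ : X → ℕ} (hℓ : ∀ x, ℓ x < 2 ^ n)
    (hℓi : ∀ x y, Lv G d n x y → ℓ x = ℓ y → x = y) {U : Set X} (x : X) :
    dens G d N {y | y ∈ Gd G d n r N ℓ U ∧
      gg n N r (qq G d n r ℓ U y) (rnk G d n r N ℓ U y) = none} x ≤
      2 * Fintype.card (Fin (2 ^ n) → Bool) / 2 ^ r := by
  classical
  have hn : n ≤ N := by omega
  by_cases hx : x ∈ Gd G d n r N ℓ U
  · have hpow : (2 : ℕ) ^ (N - n) = 2 ^ r * 2 ^ (N - n - r) := by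
      rw [← pow_add]
      congr 1
      omega
    have hsum : ∑ w, qq G d n r ℓ U x w * 2 ^ (N - n - r) ≤ 2 ^ (N - n) := by
      rw [← Finset.sum_mul, hpow]
      exact Nat.mul_le_mul_right _ hx.2.1
    have h1 : {y | Lv G d N x y ∧ y ∈ {y | y ∈ Gd G d n r N ℓ U ∧
        gg n N r (qq G d n r ℓ U y) (rnk G d n r N ℓ U y) = none}}.ncard ≤
        (Finset.univ.filter fun a => gg n N r (qq G d n r ℓ U x) a = none).card * 2 ^ n := by
      refine count_le hℓ (rnk G d n r N ℓ U) x ?_ _ _ ?_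
      · intro y z hy hz hyz hl
        have hyz' := (Lv_equiv hd N).trans ((Lv_equiv hd N).symm hy) hz
        exact hℓi y z ((rnk_inj hd hn ℓ U hyz').1 hyz) hl
      · rintro y hy ⟨-, h⟩
        rw [qq_congr hd ℓ U hy.1]
        exact h
    have h2 : (Finset.univ.filter fun a => gg n N r (qq G d n r ℓ U x) a = none).card +
        ∑ w, qq G d n r ℓ U x w * 2 ^ (N - n - r) = 2 ^ (N - n) := by
      have e1 : ∑ w, qq G d n r ℓ U x w * 2 ^ (N - n - r) =
          ∑ w, (Finset.univ.filter fun a => gg n N r (qq G d n r ℓ U x) a = some w).card :=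
        Finset.sum_congr rfl fun w _ => (gg_spec hsum w).symm
      rw [e1]
      have e2 := Finset.card_eq_sum_card_fiberwise (s := (Finset.univ : Finset (Fin (2 ^ (N - n)))))
        (t := (Finset.univ : Finset (Option (Fin (2 ^ n) → Bool))))
        (f := gg n N r (qq G d n r ℓ U x)) (fun _ _ => Finset.mem_coe.2 (Finset.mem_univ _))
      rw [Finset.card_univ, Fintype.card_fin, Fintype.sum_option] at e2
      exact e2.symm
    unfold dens
    rw [div_le_div_iff₀ (by positivity) (by positivity)]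
    have h3 : {y | Lv G d N x y ∧ y ∈ {y | y ∈ Gd G d n r N ℓ U ∧
        gg n N r (qq G d n r ℓ U y) (rnk G d n r N ℓ U y) = none}}.ncard * 2 ^ r ≤
        2 * Fintype.card (Fin (2 ^ n) → Bool) * 2 ^ N := by
      have h4 : (Finset.univ.filter fun a => gg n N r (qq G d n r ℓ U x) a = none).card ≤
          2 * Fintype.card (Fin (2 ^ n) → Bool) * 2 ^ (N - n - r) := by
        rw [← Finset.sum_mul] at h2
        have h5 := Nat.mul_le_mul_right (2 ^ (N - n - r)) hx.2.2
        rw [← hpow, add_mul] at h5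
        omega
      calc _ ≤ (2 * Fintype.card (Fin (2 ^ n) → Bool) * 2 ^ (N - n - r) * 2 ^ n) * 2 ^ r :=
            Nat.mul_le_mul_right _ (h1.trans (Nat.mul_le_mul_right _ h4))
        _ = 2 * Fintype.card (Fin (2 ^ n) → Bool) * 2 ^ N := by
            have h5 : (2 : ℕ) ^ N = 2 ^ (N - n - r) * (2 ^ n * 2 ^ r) := by
              rw [← pow_add, ← pow_add]
              congr 1
              omega
            rw [h5]
            ring
    exact_mod_cast h3
  · have : {y | Lv G d N x y ∧ y ∈ {y | y ∈ Gd G d n r N ℓ U ∧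
        gg n N r (qq G d n r ℓ U y) (rnk G d n r N ℓ U y) = none}} = ∅ := by
      ext y
      simp only [mem_ofPred_eq, mem_empty_iff_false, iff_false, not_and]
      intro hy h
      exact absurd ((Gd_congr hd ℓ U hy).2 h) hx
    unfold dens
    rw [this, ncard_empty]
    simp only [Nat.cast_zero, zero_div]
    positivity

end

section
variable {G X : Type} [Group G] [Countable G] [MeasurableSpace X] [StandardBorelSpace X]
  [MulAction G X] [MeasurableConstSMul G X]
variable {d : X → ℕ → Bool} (hd : Dig (Eo G (X := X)) univ d)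
include hd

theorem sum_dens {n : ℕ} (N : ℕ) (ℓ : X → ℕ) (U : Set X) (x : X) :
    ∑ w : Fin (2 ^ n) → Bool, dens G d N (tp G d n ℓ U ⁻¹' {w}) x = 1 := by
  classical
  simp_rw [dens_eq_sum hd]
  rw [← Finset.sum_div, Finset.sum_comm]
  have h : ∀ t ∈ (Finset.range N).powerset, ∑ w : Fin (2 ^ n) → Bool,
      (tp G d n ℓ U ⁻¹' {w}).indicator (fun _ => (1 : ℝ)) (fl G d t x) = 1 := by
    intro t _
    rw [Finset.sum_eq_single (tp G d n ℓ U (fl G d t x))]
    · rw [indicator_of_mem]
      rfl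
    · intro w _ hw
      rw [indicator_of_notMem]
      exact fun h => hw h.symm
    · intro h
      exact absurd (Finset.mem_univ _) h
  rw [Finset.sum_congr rfl h, Finset.sum_const, Finset.card_powerset, Finset.card_range,
    nsmul_eq_mul, mul_one]
  push_cast
  exact div_self (by positivity)

theorem eventually_Gd {n r : ℕ} (ℓ : X → ℕ) (U : Set X) (x : X)
    (hx : ∀ w : Fin (2 ^ n) → Bool, ∃ L : ℝ,
      Tendsto (fun N => dens G d N (tp G d n ℓ U ⁻¹' {w}) x) atTop (𝓝 L)) :
    ∀ᶠ N in atTop, x ∈ Gd G d n r N ℓ U := by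
  classical
  choose L hL using hx
  have hpos : (0 : ℝ) < 2 ^ r := by positivity
  have haa : ∀ w, aa G d n ℓ U x w = L w := fun w => (hL w).limsup_eq
  have hL0 : ∀ w, 0 ≤ L w := fun w =>
    ge_of_tendsto' (hL w) fun N => dens_nonneg hd N _ x
  have hL1 : ∑ w, L w = 1 := by
    refine tendsto_nhds_unique (tendsto_finsetSum _ fun w _ => hL w) ?_
    simp_rw [sum_dens hd]
    exact tendsto_const_nhds
  have hq : ∀ w, qq G d n r ℓ U x w = ⌊2 ^ r * L w⌋₊ - 1 := by
    intro w
    unfold qq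
    rw [haa]
  have hq1 : ∀ w, (qq G d n r ℓ U x w : ℝ) ≤ 2 ^ r * L w := by
    intro w
    rw [hq]
    have h1 : ((⌊2 ^ r * L w⌋₊ - 1 : ℕ) : ℝ) ≤ (⌊2 ^ r * L w⌋₊ : ℝ) := by
      exact_mod_cast Nat.sub_le _ _
    exact h1.trans (Nat.floor_le (mul_nonneg hpos.le (hL0 w)))
  have hq2 : ∀ w, 2 ^ r * L w ≤ (qq G d n r ℓ U x w : ℝ) + 2 := by
    intro w
    rw [hq]
    have h1 := Nat.lt_floor_add_one (2 ^ r * L w)
    have h2 : (⌊2 ^ r * L w⌋₊ : ℝ) ≤ ((⌊2 ^ r * L w⌋₊ - 1 : ℕ) : ℝ) + 1 := by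
      have : ⌊2 ^ r * L w⌋₊ ≤ (⌊2 ^ r * L w⌋₊ - 1) + 1 := by omega
      exact_mod_cast this
    linarith
  have hq3 : ∀ w, qq G d n r ℓ U x w ≠ 0 → (qq G d n r ℓ U x w : ℝ) < 2 ^ r * L w := by
    intro w hw
    rw [hq] at hw ⊢
    have h1 := Nat.floor_le (mul_nonneg hpos.le (hL0 w))
    have h2 : ((⌊2 ^ r * L w⌋₊ - 1 : ℕ) : ℝ) < (⌊2 ^ r * L w⌋₊ : ℝ) := by
      have : ⌊2 ^ r * L w⌋₊ - 1 < ⌊2 ^ r * L w⌋₊ := by omega
      exact_mod_cast this
    linarith
  have hs1 : ∑ w, qq G d n r ℓ U x w ≤ 2 ^ r := by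
    have h1 : ((∑ w, qq G d n r ℓ U x w : ℕ) : ℝ) ≤ 2 ^ r := by
      push_cast
      calc ∑ w, (qq G d n r ℓ U x w : ℝ) ≤ ∑ w, 2 ^ r * L w := Finset.sum_le_sum fun w _ => hq1 w
        _ = 2 ^ r := by rw [← Finset.mul_sum, hL1, mul_one]
    exact_mod_cast h1
  have hs2 : 2 ^ r ≤ ∑ w, qq G d n r ℓ U x w + 2 * Fintype.card (Fin (2 ^ n) → Bool) := by
    have h1 : (2 : ℝ) ^ r ≤
        ((∑ w, qq G d n r ℓ U x w + 2 * Fintype.card (Fin (2 ^ n) → Bool) : ℕ) : ℝ) := by
      push_cast
      calc (2 : ℝ) ^ r = ∑ w, 2 ^ r * L w := by rw [← Finset.mul_sum, hL1, mul_one]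
        _ ≤ ∑ w, ((qq G d n r ℓ U x w : ℝ) + 2) := Finset.sum_le_sum fun w _ => hq2 w
        _ = _ := by
          rw [Finset.sum_add_distrib, Finset.sum_const, Finset.card_univ, nsmul_eq_mul]
          ring
    exact_mod_cast h1
  have hev : ∀ᶠ N in atTop, ∀ w, (qq G d n r ℓ U x w : ℝ) / 2 ^ r ≤
      dens G d N (tp G d n ℓ U ⁻¹' {w}) x := by
    rw [Filter.eventually_all]
    intro w
    by_cases hw : qq G d n r ℓ U x w = 0
    · refine Eventually.of_forall fun N => ?_
      rw [hw, Nat.cast_zero, zero_div]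
      exact dens_nonneg hd N _ x
    · have h1 : (qq G d n r ℓ U x w : ℝ) / 2 ^ r < L w := by
        rw [div_lt_iff₀ hpos, mul_comm]
        exact hq3 w hw
      filter_upwards [(hL w).eventually (lt_mem_nhds h1)] with N hN
      exact hN.le
  filter_upwards [hev] with N hN
  exact ⟨hN, hs1, hs2⟩

end

end Dye

open Dye in
/-- M12a: one step of the relabelling (Dye) -/
theorem dye_step {G X : Type} [Group G] [Countable G] [MeasurableSpace X] [StandardBorelSpace X]
    [MulAction G X] [MeasurableConstSMul G X]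
    {d : X → ℕ → Bool} (hd : Dig (Eo G (X := X)) univ d) (μ : Measure X)
    [IsProbabilityMeasure μ] (hμ : ∀ t, MeasurePreserving (fl G d t) μ μ)
    (n : ℕ) (ℓ : X → ℕ) (hℓm : Measurable ℓ) (hℓ : ∀ x, ℓ x < 2 ^ n)
    (hℓi : ∀ x y, Lv G d n x y → ℓ x = ℓ y → x = y)
    {U : Set X} (hU : MeasurableSet U) {ε : ℝ} (hε : 0 < ε) :
    ∃ (n' : ℕ) (ℓ' : X → ℕ) (ι : X → ℕ) (ψ : ℕ → ℕ → Prop), n < n' ∧ Measurable ℓ' ∧
      (∀ x, ℓ' x < 2 ^ n') ∧ (∀ x y, Lv G d n' x y → ℓ' x = ℓ' y → x = y) ∧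
      (∀ x, ℓ' x % 2 ^ n = ℓ x) ∧
      (∀ x y, Lv G d n x y → ℓ' x / 2 ^ n = ℓ' y / 2 ^ n) ∧
      Measurable ι ∧ (∀ x y, Eo G x y → ι x = ι y) ∧
      μ.real {x | ¬ (x ∈ U ↔ ψ (ι x) (ℓ' x))} ≤ ε := by
  classical
  -- the parameter `r`
  obtain ⟨r, hr⟩ := pow_unbounded_of_one_lt (4 * (Fintype.card (Fin (2 ^ n) → Bool) : ℝ) / ε)
    (one_lt_two : (1 : ℝ) < 2)
  have hr' : 2 * (Fintype.card (Fin (2 ^ n) → Bool) : ℝ) / 2 ^ r ≤ ε / 2 := by
    rw [div_lt_iff₀ hε] at hr
    rw [div_le_iff₀ (by positivity)]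
    linarith
  -- a level where most classes are good
  obtain ⟨N, hnN, hN⟩ : ∃ N, n + r < N ∧ μ.real (Gd G d n r N ℓ U)ᶜ ≤ ε / 2 := by
    let C : ℕ → Set X := fun M => ⋃ N, ⋃ _ : M ≤ N, (Gd G d n r N ℓ U)ᶜ
    have hCm : ∀ M, MeasurableSet (C M) := fun M => MeasurableSet.iUnion fun N =>
      MeasurableSet.iUnion fun _ => (measurableSet_Gd hd hℓm hU).compl
    have hCa : Antitone C := by
      intro M M' hMM x hx
      simp only [C, mem_iUnion] at hx ⊢
      obtain ⟨N, hN, h⟩ := hx
      exact ⟨N, hMM.trans hN, h⟩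
    have hC0 : μ (⋂ M, C M) = 0 := by
      have hsub : (⋂ M, C M) ⊆ ⋃ w : Fin (2 ^ n) → Bool, {x | ¬ ∃ L : ℝ,
          Tendsto (fun N => dens G d N (tp G d n ℓ U ⁻¹' {w}) x) atTop (𝓝 L)} := by
        intro x hx
        by_contra hcon
        simp only [mem_iUnion, mem_ofPred_eq, not_exists, not_not, not_forall] at hcon
        obtain ⟨M, hM⟩ := Filter.eventually_atTop.1 (eventually_Gd hd (r := r) ℓ U x hcon)
        have := mem_iInter.1 hx M
        simp only [C, mem_iUnion, mem_compl_iff] at this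
        obtain ⟨N, hN, h⟩ := this
        exact h (hM N hN)
      refine measure_mono_null hsub (measure_iUnion_null fun w => ?_)
      obtain ⟨h1, h2, h3⟩ := comprOn_nonconv hd
        (measurable_tp hd n hℓm hU (measurableSet_singleton w))
      exact null_of_comprOn hd μ hμ h1 h2 h3
    have hlim := tendsto_measure_iInter_atTop (μ := μ) (fun M => (hCm M).nullMeasurableSet) hCa
      ⟨0, measure_ne_top _ _⟩
    rw [hC0] at hlim
    have hlim2 : Tendsto (fun M => μ.real (C M)) atTop (𝓝 0) := by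
      have := (ENNReal.tendsto_toReal ENNReal.zero_ne_top).comp hlim
      rw [ENNReal.toReal_zero] at this
      exact this
    obtain ⟨M, hM⟩ := Filter.eventually_atTop.1 (hlim2.eventually_lt_const (half_pos hε))
    refine ⟨max M (n + r + 1), by omega, ?_⟩
    refine le_trans ?_ (hM (max M (n + r + 1)) (le_max_left _ _)).le
    refine measureReal_mono ?_ (measure_ne_top _ _)
    intro x hx
    simp only [C, mem_iUnion]
    exact ⟨_, le_rfl, hx⟩
  have hn : n ≤ N := by omega
  have hNr : n + r ≤ N := by omega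
  have hpow : 2 ^ n * 2 ^ (N - n) = 2 ^ N := by
    rw [← pow_add]
    congr 1
    omega
  obtain ⟨enc, henc⟩ := Countable.exists_injective_nat ((Fin (2 ^ n) → Bool) → ℕ)
  have hmod : ∀ x, (ℓ x + 2 ^ n * (rnk G d n r N ℓ U x : ℕ)) % 2 ^ n = ℓ x := by
    intro x
    rw [Nat.add_mul_mod_self_left, Nat.mod_eq_of_lt (hℓ x)]
  have hdiv : ∀ x, (ℓ x + 2 ^ n * (rnk G d n r N ℓ U x : ℕ)) / 2 ^ n = rnk G d n r N ℓ U x := by
    intro x
    rw [Nat.add_mul_div_left _ _ (by positivity), Nat.div_eq_of_lt (hℓ x), zero_add]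
  refine ⟨N, fun x => ℓ x + 2 ^ n * (rnk G d n r N ℓ U x : ℕ), fun x => enc (qq G d n r ℓ U x),
    fun i l => ∃ (q : (Fin (2 ^ n) → Bool) → ℕ) (ρ : Fin (2 ^ (N - n))) (j : Fin (2 ^ n))
      (w : Fin (2 ^ n) → Bool), enc q = i ∧ l = j + 2 ^ n * ρ ∧ gg n N r q ρ = some w ∧ w j = true,
    by omega, ?_, ?_, ?_, hmod, ?_, ?_, ?_, ?_⟩
  · exact hℓm.add (((measurable_of_countable fun c : Fin (2 ^ (N - n)) => (c : ℕ)).comp
      (measurable_rnk hd hn hℓm hU)).const_mul _)
  · intro x
    have h1 := hℓ x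
    have h2 : (rnk G d n r N ℓ U x : ℕ) + 1 ≤ 2 ^ (N - n) := (rnk G d n r N ℓ U x).2
    have h3 := Nat.mul_le_mul_left (2 ^ n) h2
    rw [hpow, mul_add, mul_one] at h3
    show ℓ x + 2 ^ n * (rnk G d n r N ℓ U x : ℕ) < 2 ^ N
    omega
  · intro x y hxy he
    change ℓ x + 2 ^ n * (rnk G d n r N ℓ U x : ℕ) = ℓ y + 2 ^ n * (rnk G d n r N ℓ U y : ℕ) at he
    have h1 : ℓ x = ℓ y := by rw [← hmod x, ← hmod y, he]
    have h2 : rnk G d n r N ℓ U x = rnk G d n r N ℓ U y := by
      apply Fin.ext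
      rw [← hdiv x, ← hdiv y, he]
    exact hℓi x y ((rnk_inj hd hn ℓ U hxy).1 h2) h1
  · intro x y hxy
    show (ℓ x + 2 ^ n * (rnk G d n r N ℓ U x : ℕ)) / 2 ^ n =
      (ℓ y + 2 ^ n * (rnk G d n r N ℓ U y : ℕ)) / 2 ^ n
    rw [hdiv, hdiv, (rnk_inj hd hn ℓ U (Lv_mono hn hxy)).2 hxy]
  · exact (measurable_of_countable enc).comp (measurable_qq hd hℓm hU)
  · intro x y hxy
    show enc _ = enc _
    rw [qq_congr hd ℓ U hxy]
  · -- the measure of the bad set
    let Bad : Set X := {y | y ∈ Gd G d n r N ℓ U ∧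
      gg n N r (qq G d n r ℓ U y) (rnk G d n r N ℓ U y) = none}
    have hBadm : MeasurableSet Bad := by
      have h1 : MeasurableSet {y | gg n N r (qq G d n r ℓ U y) (rnk G d n r N ℓ U y) = none} := by
        have h2 := measurable_fun3 (δ := Bool) (fun (_ : Unit) q ρ => decide (gg n N r q ρ = none))
          (measurable_const (a := ())) (measurable_qq hd (r := r) hℓm hU)
          (measurable_rnk hd (r := r) hn hℓm hU)
        have h3 := h2 (measurableSet_singleton true)
        convert h3 using 1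
        ext y
        simp
      exact (measurableSet_Gd hd hℓm hU).inter h1
    have hsub : {x | ¬ (x ∈ U ↔ ∃ (q : (Fin (2 ^ n) → Bool) → ℕ) (ρ : Fin (2 ^ (N - n)))
        (j : Fin (2 ^ n)) (w : Fin (2 ^ n) → Bool), enc q = enc (qq G d n r ℓ U x) ∧
        ℓ x + 2 ^ n * (rnk G d n r N ℓ U x : ℕ) = j + 2 ^ n * ρ ∧ gg n N r q ρ = some w ∧
        w j = true)} ⊆ (Gd G d n r N ℓ U)ᶜ ∪ Bad := by
      intro x hx
      by_contra hcon
      simp only [mem_union, mem_compl_iff, not_or, not_not] at hcon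
      obtain ⟨hg, hb⟩ := hcon
      have hb' : gg n N r (qq G d n r ℓ U x) (rnk G d n r N ℓ U x) ≠ none := fun h => hb ⟨hg, h⟩
      obtain ⟨w, hw⟩ := Option.ne_none_iff_exists'.1 hb'
      have htp := good_spec hd hNr hℓ hℓi hg w hw
      apply hx
      rw [← tp_self hd hℓ hℓi U x, htp]
      constructor
      · intro h
        exact ⟨qq G d n r ℓ U x, rnk G d n r N ℓ U x, ⟨ℓ x, hℓ x⟩, w, rfl, rfl, hw, h⟩
      · rintro ⟨q, ρ, j, w', hq, hl, hw', hj⟩
        have e1 := henc hq
        have e2 : j = ⟨ℓ x, hℓ x⟩ := by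
          apply Fin.ext
          have := congrArg (· % 2 ^ n) hl
          simp only [hmod] at this
          rw [Nat.add_mul_mod_self_left, Nat.mod_eq_of_lt j.2] at this
          exact this.symm
        have e3 : ρ = rnk G d n r N ℓ U x := by
          apply Fin.ext
          have := congrArg (· / 2 ^ n) hl
          simp only [hdiv] at this
          rw [Nat.add_mul_div_left _ _ (by positivity), Nat.div_eq_of_lt j.2, zero_add] at this
          exact this.symm
        rw [e1, e3, hw] at hw'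
        rw [e2, ← Option.some.inj hw'] at hj
        exact hj
    calc μ.real _ ≤ μ.real ((Gd G d n r N ℓ U)ᶜ ∪ Bad) := measureReal_mono hsub (measure_ne_top _ _)
      _ ≤ μ.real (Gd G d n r N ℓ U)ᶜ + μ.real Bad := measureReal_union_le _ _
      _ ≤ ε / 2 + ε / 2 := add_le_add hN
          ((measure_le_of_dens hd μ hμ N hBadm fun x => dens_bad hd hNr hℓ hℓi x).trans hr')
      _ = ε := add_halves ε

end Pool.Agent.CAR
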