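import Pool.Agent.CAR.M12a

/-!
# M12b: an invariant probability measure implies condition (A)
-/

set_option autoImplicit false
set_option linter.unusedVariables false
set_option linter.unusedSectionVars false

namespace Pool.Agent.CAR

open Set MeasureTheory Filter Topology

namespace M12b

variable {G X : Type} [Group G] [Countable G] [MeasurableSpace X] [StandardBorelSpace X]
  [MulAction G X] [MeasurableConstSMul G X] {d : X → ℕ → Bool}

/-- labels of level `n` -/
structure Lab (G : Type) {X : Type} [Group G] [MeasurableSpace X] [MulAction G X]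
    (d : X → ℕ → Bool) where
  /-- level -/
  n : ℕ
  /-- label -/
  l : X → ℕ
  meas : Measurable l
  lt : ∀ x, l x < 2 ^ n
  inj : ∀ x y, Lv G d n x y → l x = l y → x = y

/-- relation between consecutive labels -/
structure Nxt (d : X → ℕ → Bool) (μ : Measure X) (U : Set X) (ε : ℝ) (L L' : Lab G d) (ι : X → ℕ)
    (ψ : ℕ → ℕ → Prop) : Prop where
  lt : L.n < L'.n
  mod : ∀ x, L'.l x % 2 ^ L.n = L.l x
  div : ∀ x y, Lv G d L.n x y → L'.l x / 2 ^ L.n = L'.l y / 2 ^ L.n
  meas : Measurable ι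
  inv : ∀ x y, Eo G x y → ι x = ι y
  small : μ.real {x | ¬ (x ∈ U ↔ ψ (ι x) (L'.l x))} ≤ ε

theorem exists_seq (hd : Dig (Eo G (X := X)) univ d) (μ : Measure X)
    [IsProbabilityMeasure μ] (hμ : ∀ t, MeasurePreserving (fl G d t) μ μ) (U : ℕ → Set X)
    (hU : ∀ m, MeasurableSet (U m)) :
    ∃ (L : ℕ → Lab G d) (ι : ℕ → X → ℕ) (ψ : ℕ → ℕ → ℕ → Prop),
      ∀ m, Nxt d μ (U m) ((1 / 2) ^ m) (L m) (L (m + 1)) (ι m) (ψ m) := by
  have step : ∀ (m : ℕ) (L : Lab G d), ∃ (L' : Lab G d) (ι : X → ℕ) (ψ : ℕ → ℕ → Prop),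
      Nxt d μ (U m) ((1 / 2) ^ m) L L' ι ψ := by
    intro m L
    obtain ⟨n', l', ι, ψ, h1, h2, h3, h4, h5, h6, h7, h8, h9⟩ :=
      dye_step hd μ hμ L.n L.l L.meas L.lt L.inj (hU m) (ε := (1 / 2) ^ m) (by positivity)
    exact ⟨⟨n', l', h2, h3, h4⟩, ι, ψ, ⟨h1, h5, h6, h7, h8, h9⟩⟩
  choose f ι ψ h using step
  let L0 : Lab G d := ⟨0, fun _ => 0, measurable_const, fun _ => by simp, fun x y hxy _ =>
    dig_inj hd hxy.1 (funext fun j => hxy.2 j (Nat.zero_le j))⟩
  let L : ℕ → Lab G d := fun m => Nat.rec L0 (fun m L => f m L) m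
  exact ⟨L, fun m => ι m (L m), fun m => ψ m (L m), fun m => h m (L m)⟩

section Limit

variable {μ : Measure X} {U : ℕ → Set X} {e : ℕ → ℝ} {L : ℕ → Lab G d} {ι : ℕ → X → ℕ}
  {ψ : ℕ → ℕ → ℕ → Prop} (h : ∀ m, Nxt d μ (U m) (e m) (L m) (L (m + 1)) (ι m) (ψ m))

/-- the limit of the labels -/
def dd (L : ℕ → Lab G d) (x : X) (j : ℕ) : Bool := ((L (j + 1)).l x).testBit j

include h

theorem le_n (m : ℕ) : m ≤ (L m).n := by
  induction m with
  | zero => exact Nat.zero_le _
  | succ m ih => exact lt_of_le_of_lt ih (h m).lt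

theorem n_mono {m m' : ℕ} (hm : m ≤ m') : (L m).n ≤ (L m').n := by
  induction m', hm using Nat.le_induction with
  | base => exact le_refl _
  | succ m' _ ih => exact ih.trans (h m').lt.le

theorem testBit_step {m j : ℕ} (hj : j < (L m).n) (x : X) :
    ((L (m + 1)).l x).testBit j = ((L m).l x).testBit j := by
  rw [← (h m).mod x, Nat.testBit_mod_two_pow]
  simp [hj]

theorem stab {m m' j : ℕ} (hj : j < (L m).n) (hm : m ≤ m') (x : X) :
    ((L m').l x).testBit j = ((L m).l x).testBit j := by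
  induction m', hm using Nat.le_induction with
  | base => rfl
  | succ m' hmm' ih => rw [testBit_step h (hj.trans_le (n_mono h hmm')), ih]

theorem dd_eq {m j : ℕ} (hj : j < (L m).n) (x : X) : dd L x j = ((L m).l x).testBit j := by
  have h1 : j < (L (j + 1)).n := lt_of_lt_of_le (Nat.lt_succ_self j) (le_n h (j + 1))
  unfold dd
  rw [← stab h h1 (le_max_left (j + 1) m), stab h hj (le_max_right (j + 1) m)]

theorem testBit_tail {m m' j : ℕ} (hm : m ≤ m') (hj : (L m).n ≤ j) {x y : X}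
    (hxy : Lv G d (L m).n x y) : ((L m').l x).testBit j = ((L m').l y).testBit j := by
  induction m', hm using Nat.le_induction with
  | base =>
    rw [Nat.testBit_lt_two_pow ((L m).lt x |>.trans_le (Nat.pow_le_pow_right (by norm_num) hj)),
      Nat.testBit_lt_two_pow ((L m).lt y |>.trans_le (Nat.pow_le_pow_right (by norm_num) hj))]
  | succ m' hmm' ih =>
    by_cases hj' : j < (L m').n
    · rw [testBit_step h hj', testBit_step h hj', ih]
    · push Not at hj'
      have h1 := (h m').div x y (Lv_mono (n_mono h hmm') hxy)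
      have h2 : ∀ a : ℕ, a.testBit j = (a / 2 ^ (L m').n).testBit (j - (L m').n) := by
        intro a
        rw [Nat.testBit_div_two_pow]
        congr 1
        omega
      rw [h2, h2 ((L (m' + 1)).l y), h1]

theorem dd_tail {m j : ℕ} (hj : (L m).n ≤ j) {x y : X} (hxy : Lv G d (L m).n x y) :
    dd L x j = dd L y j := by
  have h1 : j < (L (max m (j + 1))).n :=
    lt_of_lt_of_le (Nat.lt_succ_self j) ((le_max_right m (j + 1)).trans (le_n h _))
  rw [dd_eq h h1, dd_eq h h1]
  exact testBit_tail h (le_max_left _ _) hj hxy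

theorem l_eq {m : ℕ} {x y : X} (hxy : ∀ j < (L m).n, dd L x j = dd L y j) :
    (L m).l x = (L m).l y := by
  refine Nat.eq_of_testBit_eq fun j => ?_
  by_cases hj : j < (L m).n
  · rw [← dd_eq h hj, ← dd_eq h hj, hxy j hj]
  · push Not at hj
    rw [Nat.testBit_lt_two_pow ((L m).lt x |>.trans_le (Nat.pow_le_pow_right (by norm_num) hj)),
      Nat.testBit_lt_two_pow ((L m).lt y |>.trans_le (Nat.pow_le_pow_right (by norm_num) hj))]

omit h in
theorem measurable_dd (L : ℕ → Lab G d) : Measurable (dd L) := by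
  refine measurable_pi_lambda _ fun j => ?_
  exact (measurable_of_countable fun k : ℕ => k.testBit j).comp (L (j + 1)).meas

/-- every label occurs in every class -/
theorem exists_label (hd : Dig (Eo G (X := X)) univ d) (m : ℕ) (x : X) {v : ℕ}
    (hv : v < 2 ^ (L m).n) : ∃ y, Lv G d (L m).n x y ∧ (L m).l y = v := by
  have h1 : (L m).l '' {y | Lv G d (L m).n x y} ⊆ Iio (2 ^ (L m).n) := by
    rintro _ ⟨y, -, rfl⟩
    exact (L m).lt y
  have hinj : InjOn (L m).l {y | Lv G d (L m).n x y} := by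
    intro y hy z hz hyz
    exact (L m).inj y z ((Lv_equiv hd _).trans ((Lv_equiv hd _).symm hy) hz) hyz
  have h2 := hinj.ncard_image
  rw [ncard_Lv hd] at h2
  have h3 : (L m).l '' {y | Lv G d (L m).n x y} = Iio (2 ^ (L m).n) := by
    refine Set.eq_of_subset_of_ncard_le h1 ?_ (Set.finite_Iio _)
    rw [h2, ← Finset.coe_Iio, Set.ncard_coe_finset, Nat.card_Iio]
  have : v ∈ (L m).l '' {y | Lv G d (L m).n x y} := by
    rw [h3]
    exact hv
  obtain ⟨y, hy, hr⟩ := this
  exact ⟨y, hy, hr⟩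

theorem dig_dd (hd : Dig (Eo G (X := X)) univ d) : Dig (Eo G (X := X)) univ (dd L) where
  meas := measurable_dd L
  fwd := by
    intro x _ y hxy
    obtain ⟨n, hn⟩ := exists_Lv hd hxy
    have h1 : Lv G d (L n).n x y := Lv_mono (le_n h n) hn
    refine (Set.finite_Iio (L n).n).subset fun j hj => ?_
    by_contra hc
    exact hj (dd_tail h (not_lt.mp hc) h1)
  bij := by
    intro x _ s hs
    obtain ⟨N, hN⟩ := hs.bddAbove
    have hN' : ∀ j, (L (N + 1)).n ≤ j → dd L x j = s j := by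
      intro j hj
      by_contra hc
      have h1 := hN hc
      have h2 := le_n h (N + 1)
      omega
    set m := N + 1 with hm
    -- the value of the first digits
    obtain ⟨v, hv, hvb⟩ : ∃ v < 2 ^ (L m).n, ∀ j < (L m).n, v.testBit j = s j := by
      refine ⟨Nat.ofBits (n := (L m).n) fun i => s i, Nat.ofBits_lt_two_pow _, fun j hj => ?_⟩
      rw [Nat.testBit_ofBits_lt _ _ hj]
    obtain ⟨y, hy, hyv⟩ := exists_label h hd m x hv
    have hys : dd L y = s := by
      funext j
      by_cases hj : j < (L m).n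
      · rw [dd_eq h hj, hyv, hvb j hj]
      · push Not at hj
        rw [← dd_tail h hj hy, hN' j hj]
    refine ⟨y, ⟨hy.1, hys⟩, fun z hz => ?_⟩
    have hzy : Eo G z y := hz.1.symm.trans hy.1
    obtain ⟨n, hn⟩ := exists_Lv hd hzy
    refine (L n).inj z y (Lv_mono (le_n h n) hn) (l_eq h fun j _ => ?_)
    rw [hz.2, hys]

end Limit

section Invariance

variable {μ : Measure X}

/-- Borel automorphisms inside the classes preserve the measure -/
theorem full_mp (hd : Dig (Eo G (X := X)) univ d) (hμ : ∀ t, MeasurePreserving (fl G d t) μ μ)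
    {T : X → X} (hT : Measurable T) (hTb : Function.Bijective T) (hTo : ∀ x, Eo G x (T x)) :
    MeasurePreserving T μ μ := by
  refine ⟨hT, ?_⟩
  ext B hB
  rw [Measure.map_apply hT hB]
  set A : Finset ℕ → Set X := fun u => {x | T x = fl G d u x} with hA
  have hAm : ∀ u, MeasurableSet (A u) := fun u => measurableSet_eq' hT (measurable_fl hd u)
  have e1 : T ⁻¹' B = ⋃ u, (A u ∩ fl G d u ⁻¹' B) := by
    ext x
    simp only [mem_preimage, mem_iUnion, mem_inter_iff, hA, mem_ofPred_eq]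
    constructor
    · intro hx
      obtain ⟨u, hu⟩ := (Eo_iff_fl hd x (T x)).1 (hTo x)
      exact ⟨u, hu.symm, by rw [hu]; exact hx⟩
    · rintro ⟨u, hu, hx⟩
      rw [hu]
      exact hx
  have e2 : B = ⋃ u, (fl G d u ⁻¹' (A u) ∩ B) := by
    ext y
    simp only [mem_preimage, mem_iUnion, mem_inter_iff, hA, mem_ofPred_eq]
    constructor
    · intro hy
      obtain ⟨x, rfl⟩ := hTb.2 y
      obtain ⟨u, hu⟩ := (Eo_iff_fl hd x (T x)).1 (hTo x)
      refine ⟨u, ?_, hy⟩
      rw [fl_self hd, ← hu, fl_self hd, hu]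
    · rintro ⟨u, _, hy⟩
      exact hy
  have hmeas1 : ∀ u, MeasurableSet (A u ∩ fl G d u ⁻¹' B) := fun u =>
    (hAm u).inter (measurable_fl hd u hB)
  have hmeas2 : ∀ u, MeasurableSet (fl G d u ⁻¹' (A u) ∩ B) := fun u =>
    (measurable_fl hd u (hAm u)).inter hB
  have hdis1 : Pairwise (Function.onFun Disjoint fun u => A u ∩ fl G d u ⁻¹' B) := by
    intro u v huv
    rw [Function.onFun, Set.disjoint_left]
    rintro x ⟨hx, _⟩ ⟨hx', _⟩
    exact huv (fl_inj_left hd ((show T x = fl G d u x from hx).symm.trans hx'))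
  have hdis2 : Pairwise (Function.onFun Disjoint fun u => fl G d u ⁻¹' (A u) ∩ B) := by
    intro u v huv
    rw [Function.onFun, Set.disjoint_left]
    rintro y ⟨hy, _⟩ ⟨hy', _⟩
    have h1 : T (fl G d u y) = fl G d u (fl G d u y) := hy
    have h2 : T (fl G d v y) = fl G d v (fl G d v y) := hy'
    rw [fl_self hd] at h1 h2
    exact huv (fl_inj_left hd (hTb.1 (h1.trans h2.symm)))
  rw [e1, measure_iUnion hdis1 hmeas1]
  conv_rhs => rw [e2]
  rw [measure_iUnion hdis2 hmeas2]
  refine tsum_congr fun u => ?_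
  have h3 := (hμ u).measure_preimage (hmeas1 u).nullMeasurableSet
  rw [← h3]
  congr 1
  ext y
  simp only [mem_preimage, mem_inter_iff, fl_self hd]

theorem fl_full (hd : Dig (Eo G (X := X)) univ d) (hμ : ∀ t, MeasurePreserving (fl G d t) μ μ)
    {d' : X → ℕ → Bool} (hd' : Dig (Eo G (X := X)) univ d') (t : Finset ℕ) :
    MeasurePreserving (fl G d' t) μ μ :=
  full_mp hd hμ (measurable_fl hd' t)
    (Function.Involutive.bijective (fun x => fl_self hd' t x)) fun x => (fl_spec hd' t x).1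

/-- cylinders -/
def Cyl (s : ℕ → Bool) (n : ℕ) : Set (ℕ → Bool) := {t | ∀ j < n, t j = s j}

theorem measurableSet_Cyl (s : ℕ → Bool) (n : ℕ) : MeasurableSet (Cyl s n) := by
  have : Cyl s n = ⋂ j : ℕ, ⋂ _ : j < n, {t | t j = s j} := by
    ext t
    simp [Cyl]
  rw [this]
  exact MeasurableSet.iInter fun j => MeasurableSet.iInter fun _ =>
    measurableSet_eq' (measurable_pi_apply j) measurable_const

theorem cyl_half (hd : Dig (Eo G (X := X)) univ d) (hμ : ∀ t, MeasurePreserving (fl G d t) μ μ)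
    {I : Set X} (hI : MeasurableSet I) (hIi : Inv G I) (s : ℕ → Bool) (n : ℕ) :
    μ (I ∩ d ⁻¹' Cyl s n) = 2 * μ (I ∩ d ⁻¹' Cyl s (n + 1)) := by
  set s' : ℕ → Bool := flipSeq {n} s with hs'
  have hm : ∀ s n, MeasurableSet (I ∩ d ⁻¹' Cyl s n) := fun s n =>
    hI.inter (hd.meas (measurableSet_Cyl s n))
  have e1 : I ∩ d ⁻¹' Cyl s n = (I ∩ d ⁻¹' Cyl s (n + 1)) ∪ (I ∩ d ⁻¹' Cyl s' (n + 1)) := by
    ext x
    simp only [mem_inter_iff, mem_preimage, Cyl, mem_ofPred_eq, mem_union, Nat.lt_succ_iff_lt_or_eq,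
      hs', flipSeq, Finset.mem_singleton]
    constructor
    · rintro ⟨h1, h2⟩
      by_cases hn : d x n = s n
      · left
        refine ⟨h1, ?_⟩
        rintro j (hj | rfl)
        · exact h2 j hj
        · exact hn
      · right
        refine ⟨h1, ?_⟩
        rintro j (hj | rfl)
        · rw [h2 j hj]
          simp [hj.ne]
        · simp only [decide_true, Bool.xor_true]
          revert hn
          cases d x j <;> cases s j <;> simp
    · rintro (⟨h1, h2⟩ | ⟨h1, h2⟩)
      · exact ⟨h1, fun j hj => h2 j (Or.inl hj)⟩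
      · refine ⟨h1, fun j hj => ?_⟩
        rw [h2 j (Or.inl hj)]
        simp [hj.ne]
  have hdis : Disjoint (I ∩ d ⁻¹' Cyl s (n + 1)) (I ∩ d ⁻¹' Cyl s' (n + 1)) := by
    rw [Set.disjoint_left]
    rintro x ⟨_, h1⟩ ⟨_, h2⟩
    have h3 := h1 n (Nat.lt_succ_self n)
    have h4 := h2 n (Nat.lt_succ_self n)
    rw [h3] at h4
    simp [hs', flipSeq] at h4
  have e2 : μ (I ∩ d ⁻¹' Cyl s' (n + 1)) = μ (I ∩ d ⁻¹' Cyl s (n + 1)) := by
    have h3 := (hμ {n}).measure_preimage (hm s' (n + 1)).nullMeasurableSet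
    rw [← h3]
    congr 1
    ext x
    simp only [mem_preimage, mem_inter_iff, Cyl, mem_ofPred_eq]
    rw [(fl_spec hd {n} x).2, ← hIi.mem_iff (fl_spec hd {n} x).1]
    refine and_congr_right fun _ => forall_congr' fun j => forall_congr' fun _ => ?_
    simp only [hs', flipSeq]
    cases d x j <;> cases s j <;> simp
  rw [e1, measure_union hdis (hm s' (n + 1)), e2, two_mul]

theorem cyl_measure (hd : Dig (Eo G (X := X)) univ d) (hμ : ∀ t, MeasurePreserving (fl G d t) μ μ)
    {I : Set X} (hI : MeasurableSet I) (hIi : Inv G I) (s : ℕ → Bool) (n : ℕ) :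
    μ (I ∩ d ⁻¹' Cyl s n) = μ I * (2 ^ n : ENNReal)⁻¹ := by
  have key : μ I = 2 ^ n * μ (I ∩ d ⁻¹' Cyl s n) := by
    induction n with
    | zero =>
      have : d ⁻¹' Cyl s 0 = univ := by
        ext x
        simp [Cyl]
      rw [this, inter_univ, pow_zero, one_mul]
    | succ n ih =>
      rw [ih, cyl_half hd hμ hI hIi s n, pow_succ]
      ring
  have h0 : (2 ^ n : ENNReal) ≠ 0 := by positivity
  have h1 : (2 ^ n : ENNReal) ≠ ⊤ := ENNReal.pow_ne_top (by norm_num)
  rw [key, mul_comm (2 ^ n) _, mul_assoc, ENNReal.mul_inv_cancel h0 h1, mul_one]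

/-- the family of cylinders -/
def CC : Set (Set (ℕ → Bool)) := {A | ∃ s n, A = Cyl s n}

theorem isPiSystem_CC : IsPiSystem CC := by
  have key : ∀ s n s' m, n ≤ m → (Cyl s n ∩ Cyl s' m).Nonempty → Cyl s n ∩ Cyl s' m = Cyl s' m := by
    rintro s n s' m hnm ⟨z, hz1, hz2⟩
    refine inter_eq_self_of_subset_right fun t ht j hj => ?_
    rw [ht j (hj.trans_le hnm), ← hz2 j (hj.trans_le hnm), hz1 j hj]
  rintro _ ⟨s, n, rfl⟩ _ ⟨s', m, rfl⟩ hne
  rcases le_total n m with h | h
  · exact ⟨s', m, key s n s' m h hne⟩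
  · refine ⟨s, n, ?_⟩
    rw [inter_comm] at hne ⊢
    exact key s' m s n h hne

theorem generateFrom_CC : MeasurableSpace.generateFrom CC = (inferInstance :
    MeasurableSpace (ℕ → Bool)) := by
  apply le_antisymm
  · refine MeasurableSpace.generateFrom_le ?_
    rintro _ ⟨s, n, rfl⟩
    exact measurableSet_Cyl s n
  · refine iSup_le fun j => ?_
    have h1 : ∀ b : Bool, MeasurableSet[MeasurableSpace.generateFrom CC]
        {t : ℕ → Bool | t j = b} := by
      intro b
      have h2 : {t : ℕ → Bool | t j = b} =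
          ⋃ u : {u : Finset ℕ // decide (j ∈ u) = b}, Cyl (fun i => decide (i ∈ u.1)) (j + 1) := by
        ext t
        simp only [mem_ofPred_eq, mem_iUnion, Cyl]
        constructor
        · intro ht
          refine ⟨⟨(Finset.range (j + 1)).filter fun i => t i = true, ?_⟩, ?_⟩
          · rw [← ht]
            simp
          · intro i hi
            simp [hi]
        · rintro ⟨⟨u, hu⟩, h3⟩
          rw [h3 j (Nat.lt_succ_self j)]
          exact hu
      rw [h2]
      exact @MeasurableSet.iUnion _ _ (MeasurableSpace.generateFrom CC) _ _ fun u =>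
        MeasurableSpace.measurableSet_generateFrom ⟨_, _, rfl⟩
    rintro _ ⟨B, _, rfl⟩
    have h3 : (fun t : ℕ → Bool => t j) ⁻¹' B = ⋃ b : B, {t : ℕ → Bool | t j = b.1} := by
      ext t
      simp
    rw [h3]
    exact @MeasurableSet.iUnion _ _ (MeasurableSpace.generateFrom CC) _ _ fun b => h1 b.1

theorem indep (hd : Dig (Eo G (X := X)) univ d) [IsProbabilityMeasure μ]
    (hμ : ∀ t, MeasurePreserving (fl G d t) μ μ)
    {I : Set X} (hI : MeasurableSet I) (hIi : Inv G I) {B : Set (ℕ → Bool)}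
    (hB : MeasurableSet B) : μ (I ∩ d ⁻¹' B) = μ I * μ (d ⁻¹' B) := by
  set m1 : Measure (ℕ → Bool) := (μ.restrict I).map d with hm1
  set m2 : Measure (ℕ → Bool) := μ I • μ.map d with hm2
  have hfin : IsFiniteMeasure m1 := by
    rw [hm1]
    infer_instance
  have h1 : ∀ {B : Set (ℕ → Bool)}, MeasurableSet B → m1 B = μ (I ∩ d ⁻¹' B) := by
    intro B hB
    rw [hm1, Measure.map_apply hd.meas hB, Measure.restrict_apply (hd.meas hB), inter_comm]
  have h2 : ∀ {B : Set (ℕ → Bool)}, MeasurableSet B → m2 B = μ I * μ (d ⁻¹' B) := by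
    intro B hB
    rw [hm2, Measure.smul_apply, Measure.map_apply hd.meas hB, smul_eq_mul]
  have h3 : m1 = m2 := by
    refine ext_of_generate_finite CC generateFrom_CC.symm isPiSystem_CC ?_ ?_
    · rintro _ ⟨s, n, rfl⟩
      rw [h1 (measurableSet_Cyl s n), h2 (measurableSet_Cyl s n), cyl_measure hd hμ hI hIi]
      have h4 := cyl_measure hd hμ MeasurableSet.univ (I := univ) (fun _ _ _ => mem_univ _) s n
      rw [univ_inter, measure_univ, one_mul] at h4
      rw [h4]
    · rw [h1 MeasurableSet.univ, h2 MeasurableSet.univ]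
      simp
  rw [← h1 hB, ← h2 hB, h3]

end Invariance

/-- a countable separating sequence of Borel sets, each repeated infinitely often -/
theorem exists_sep (X : Type) [MeasurableSpace X] [StandardBorelSpace X] :
    ∃ U : ℕ → Set X, (∀ m, MeasurableSet (U m)) ∧
      ∀ x y : X, (∀ᶠ m in atTop, (x ∈ U m ↔ y ∈ U m)) → x = y := by
  obtain ⟨f, hf⟩ := exists_surjective_nat ℚ
  refine ⟨fun m => {x | nu x < (f (Nat.unpair m).1 : ℝ)}, fun m =>
    measurableSet_lt measurable_nu measurable_const, fun x y h => ?_⟩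
  have key : ∀ q : ℚ, (nu x < (q : ℝ) ↔ nu y < (q : ℝ)) := by
    intro q
    obtain ⟨i, rfl⟩ := hf q
    obtain ⟨N, hN⟩ := eventually_atTop.mp h
    have h1 := hN (Nat.pair i N) (Nat.right_le_pair i N)
    simpa using h1
  refine nu_inj (le_antisymm ?_ ?_)
  · by_contra hc
    push Not at hc
    obtain ⟨q, h1, h2⟩ := exists_rat_btwn hc
    exact lt_asymm ((key q).2 h1) h2
  · by_contra hc
    push Not at hc
    obtain ⟨q, h1, h2⟩ := exists_rat_btwn hc
    exact lt_asymm ((key q).1 h1) h2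

end M12b

open M12b in
/-- M12b: an invariant probability measure implies condition (A) -/
theorem condA_of_measure {Γ X : Type} [Group Γ] [Countable Γ] [MeasurableSpace X]
    [StandardBorelSpace X] [MulAction Γ X] [MeasurableConstSMul Γ X] {d : X → ℕ → Bool}
    (hd : Dig (Eo Γ (X := X)) univ d) (μ : Measure X)
    [IsProbabilityMeasure μ] (hμ : ∀ t, MeasurePreserving (fl Γ d t) μ μ) : CondA Γ := by
  obtain ⟨U, hU, hsep⟩ := exists_sep X
  obtain ⟨L, ι, ψ, h⟩ := exists_seq hd μ hμ U hU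
  set e : X → ℕ → Bool := dd L with he
  have hde : Dig (Eo Γ (X := X)) univ e := dig_dd h hd
  have hμe : ∀ t, MeasurePreserving (fl Γ e t) μ μ := fl_full hd hμ hde
  have hXne : Nonempty X := nonempty_of_isProbabilityMeasure μ
  -- the invariant
  let κ : X → ℕ → ℕ := fun x m => ι m x
  have hκm : Measurable κ := measurable_pi_lambda _ fun m => (h m).meas
  have hκi : ∀ x y, Eo Γ x y → κ x = κ y := fun x y hxy => funext fun m => (h m).inv x y hxy
  -- good points
  let N : ℕ → Set X := fun m => {x | ¬ (x ∈ U m ↔ ψ m (ι m x) ((L (m + 1)).l x))}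
  have hNm : ∀ m, MeasurableSet (N m) := by
    intro m
    have h1 : MeasurableSet {x | ψ m (ι m x) ((L (m + 1)).l x)} := by
      have h2 : Measurable fun x => (ι m x, (L (m + 1)).l x) :=
        (h m).meas.prodMk (L (m + 1)).meas
      exact h2 (MeasurableSet.of_discrete (s := {p : ℕ × ℕ | ψ m p.1 p.2}))
    have h3 : N m = (U m \ {x | ψ m (ι m x) ((L (m + 1)).l x)}) ∪
        ({x | ψ m (ι m x) ((L (m + 1)).l x)} \ U m) := by
      ext x
      simp only [N, mem_ofPred_eq, mem_union, Set.mem_sdiff]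
      tauto
    rw [h3]
    exact ((hU m).diff h1).union (h1.diff (hU m))
  let G0 : Set X := {x | ∀ᶠ m in atTop, x ∉ N m}
  have hG0e : G0 = ⋃ n : ℕ, ⋂ m : ℕ, ⋂ _ : n ≤ m, (N m)ᶜ := by
    ext x
    simp [G0, eventually_atTop]
  have hG0m : MeasurableSet G0 := by
    rw [hG0e]
    exact MeasurableSet.iUnion fun n => MeasurableSet.iInter fun m => MeasurableSet.iInter fun _ =>
      (hNm m).compl
  have hG0μ : μ G0ᶜ = 0 := by
    have h1 : ∑' m, μ (N m) ≠ ⊤ := by
      have h2 : ∀ m, μ (N m) ≤ (2⁻¹ : ENNReal) ^ m := by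
        intro m
        have h3 := (h m).small
        have h4 : μ (N m) = ENNReal.ofReal (μ.real (N m)) := (ofReal_measureReal).symm
        rw [h4]
        refine (ENNReal.ofReal_le_ofReal h3).trans ?_
        rw [ENNReal.ofReal_pow (by norm_num)]
        refine pow_le_pow_left₀ zero_le ?_ m
        rw [one_div, ENNReal.ofReal_inv_of_pos (by norm_num)]
        simp
      refine ne_top_of_le_ne_top ?_ (ENNReal.tsum_le_tsum h2)
      rw [ENNReal.tsum_geometric]
      simp
    have h5 := measure_limsup_atTop_eq_zero h1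
    refine measure_mono_null ?_ h5
    intro x hx
    rw [mem_limsup_iff_frequently_mem]
    intro hc
    exact hx hc
  let X1 : Set X := {x | ∀ t : Finset ℕ, fl Γ d t x ∈ G0}
  have hX1e : X1 = ⋂ t : Finset ℕ, fl Γ d t ⁻¹' G0 := by
    ext x
    simp [X1]
  have hX1m : MeasurableSet X1 := by
    rw [hX1e]
    exact MeasurableSet.iInter fun t => measurable_fl hd t hG0m
  have hX1μ : μ X1ᶜ = 0 := by
    rw [hX1e, compl_iInter]
    refine measure_iUnion_null fun t => ?_
    rw [← preimage_compl, (hμ t).measure_preimage hG0m.compl.nullMeasurableSet, hG0μ]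
  have hX1i : Inv Γ X1 := by
    intro g x hx t
    obtain ⟨u, hu⟩ := (Eo_iff_fl hd x (g • x)).1 ⟨g, rfl⟩
    rw [← hu, fl_fl hd]
    exact hx _
  have hX1G : ∀ x ∈ X1, x ∈ G0 := by
    intro x hx
    have := hx ∅
    rwa [fl_empty hd] at this
  -- the embedding
  let Φ : X → (ℕ → ℕ) × (ℕ → Bool) := fun x => (κ x, e x)
  have hΦm : Measurable Φ := hκm.prodMk hde.meas
  have hΦi : InjOn Φ X1 := by
    intro x hx y hy hxy
    have h1 : κ x = κ y := congrArg Prod.fst hxy
    have h2 : e x = e y := congrArg Prod.snd hxy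
    refine hsep x y ?_
    filter_upwards [hX1G x hx, hX1G y hy] with m hmx hmy
    simp only [N, mem_ofPred_eq, not_not] at hmx hmy
    rw [hmx, hmy, show ι m x = ι m y from congrFun h1 m, l_eq h fun j _ => congrFun h2 j]
  let S : Set ((ℕ → ℕ) × (ℕ → Bool)) := Φ '' X1
  have hS : MeasurableSet S := hX1m.image_of_measurable_injOn hΦm hΦi
  have hprod : (μ.map κ).prod (μ.map e) = μ.map Φ := by
    have i1 : IsProbabilityMeasure (μ.map κ) := Measure.isProbabilityMeasure_map hκm.aemeasurable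
    have i2 : IsProbabilityMeasure (μ.map e) :=
      Measure.isProbabilityMeasure_map hde.meas.aemeasurable
    refine Measure.prod_eq fun A B hA hB => ?_
    rw [Measure.map_apply hΦm (hA.prod hB), Measure.map_apply hκm hA,
      Measure.map_apply hde.meas hB]
    have h1 : Φ ⁻¹' (A ×ˢ B) = κ ⁻¹' A ∩ e ⁻¹' B := rfl
    rw [h1]
    refine indep hde hμe (hκm hA) ?_ hB
    intro g x hx
    change κ (g • x) ∈ A
    rw [← hκi x (g • x) ⟨g, rfl⟩]
    exact hx
  have i1 : IsProbabilityMeasure (μ.map κ) := Measure.isProbabilityMeasure_map hκm.aemeasurable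
  have i2 : IsProbabilityMeasure (μ.map e) :=
    Measure.isProbabilityMeasure_map hde.meas.aemeasurable
  have hnull : (μ.map κ).prod (μ.map e) Sᶜ = 0 := by
    rw [hprod, Measure.map_apply hΦm hS.compl]
    refine measure_mono_null ?_ hX1μ
    intro x hx hx1
    exact hx ⟨x, hx1, rfl⟩
  have hae := (Measure.measure_prod_null hS.compl).1 hnull
  obtain ⟨i, hi⟩ := hae.exists
  let X0 : Set (ℕ → Bool) := Prod.mk i ⁻¹' S
  have hX0m : MeasurableSet X0 := measurable_prodMk_left hS
  have hX0 : ∀ s, s ∈ X0 ↔ ∃ x, (x ∈ X1 ∧ κ x = i) ∧ e x = s := by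
    intro s
    constructor
    · rintro ⟨x, hx, hxs⟩
      exact ⟨x, ⟨hx, congrArg Prod.fst hxs⟩, congrArg Prod.snd hxs⟩
    · rintro ⟨x, ⟨hx, hxi⟩, rfl⟩
      exact ⟨x, hx, by simp only [Φ, hxi]⟩
  let X2 : Set X := {x | x ∈ X1 ∧ κ x = i}
  have hX2m : MeasurableSet X2 := hX1m.inter (measurableSet_eq' hκm measurable_const)
  have hX2g : ∀ x ∈ X2, ∀ g : Γ, g • x ∈ X2 := fun x hx g =>
    ⟨hX1i g x hx.1, (hκi x (g • x) ⟨g, rfl⟩).symm.trans hx.2⟩
  have : StandardBorelSpace X2 := hX2m.standardBorel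
  have hemb : MeasurableEmbedding (fun x : X2 => e x.1) := by
    refine (hde.meas.comp measurable_subtype_coe).measurableEmbedding ?_
    intro x y hxy
    refine Subtype.ext (hΦi x.2.1 y.2.1 ?_)
    simp only [Φ]
    rw [x.2.2, y.2.2]
    exact Prod.ext rfl hxy
  obtain ⟨r, hrm, hr⟩ := hemb.exists_measurable_extend (g := fun x : X2 => (x.1 : X))
    measurable_subtype_coe (fun _ => hXne)
  have hr' : ∀ x ∈ X2, r (e x) = x := fun x hx => congrFun hr ⟨x, hx⟩
  refine ⟨μ.map e, X0, fun g s => e (g • r s), i2, ?_, hX0m, hi, ?_, ?_, ?_, ?_, ?_⟩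
  · intro s n
    have h1 := cyl_measure hde hμe MeasurableSet.univ (I := univ) (fun _ _ _ => mem_univ _) s n
    rw [univ_inter, measure_univ, one_mul] at h1
    have h2 := Measure.map_apply (μ := μ) hde.meas (measurableSet_Cyl s n)
    rw [h1] at h2
    exact h2
  · intro s hs t hst
    obtain ⟨x, hx, rfl⟩ := (hX0 s).1 hs
    obtain ⟨y, ⟨⟨g, rfl⟩, hy⟩, -⟩ := hde.bij x (mem_univ x) t hst
    exact (hX0 t).2 ⟨g • x, hX2g x hx g, hy⟩
  · intro s hs
    obtain ⟨x, hx, rfl⟩ := (hX0 s).1 hs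
    simp only [hr' x hx, one_smul]
  · intro g g' s hs
    obtain ⟨x, hx, rfl⟩ := (hX0 s).1 hs
    simp only [hr' x hx, hr' (g' • x) (hX2g x hx g'), mul_smul]
  · intro g
    exact hde.meas.comp ((measurable_const_smul g).comp hrm)
  · intro s hs t
    obtain ⟨x, hx, rfl⟩ := (hX0 s).1 hs
    simp only [hr' x hx]
    constructor
    · intro hst
      obtain ⟨y, ⟨⟨g, rfl⟩, hy⟩, -⟩ := hde.bij x (mem_univ x) t hst
      exact ⟨g, hy⟩
    · rintro ⟨g, rfl⟩
      exact hde.fwd x (mem_univ x) (g • x) ⟨g, rfl⟩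

end Pool.Agent.CAR
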