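import Pool.Agent.CAR.Tool

/-!
# Module M2: the matching lemma
-/

set_option autoImplicit false

namespace Pool.Agent.CAR

open Set MeasureTheory

/-! ### ranks in finite sets -/

section rank

variable {α β : Type} [LinearOrder β] {f : α → β} {s : Set α}

theorem m2_rank_lt (hs : s.Finite) {a : α} (ha : a ∈ s) :
    {b | b ∈ s ∧ f b < f a}.ncard < s.ncard := by
  refine Set.ncard_lt_ncard ?_ hs
  exact ⟨fun z hz => hz.1, fun hsub => lt_irrefl _ (hsub ha).2⟩

theorem m2_rank_mono (hs : s.Finite) {a b : α} (ha : a ∈ s) (h : f a < f b) :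
    {c | c ∈ s ∧ f c < f a}.ncard < {c | c ∈ s ∧ f c < f b}.ncard := by
  refine Set.ncard_lt_ncard ?_ (hs.subset fun z hz => hz.1)
  refine ⟨fun z hz => ⟨hz.1, hz.2.trans h⟩, fun hsub => ?_⟩
  exact lt_irrefl _ (hsub ⟨ha, h⟩ : a ∈ {c | c ∈ s ∧ f c < f a}).2

theorem m2_rank_inj (hf : Function.Injective f) (hs : s.Finite) {a b : α} (ha : a ∈ s)
    (hb : b ∈ s) (h : {c | c ∈ s ∧ f c < f a}.ncard = {c | c ∈ s ∧ f c < f b}.ncard) : a = b := by
  rcases lt_trichotomy (f a) (f b) with h1 | h1 | h1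
  · exact absurd h (m2_rank_mono hs ha h1).ne
  · exact hf h1
  · exact absurd h (m2_rank_mono hs hb h1).ne'

theorem m2_exists_rank (hf : Function.Injective f) (hs : s.Finite) {j : ℕ} (hj : j < s.ncard) :
    ∃ a ∈ s, {c | c ∈ s ∧ f c < f a}.ncard = j := by
  have h1 : (fun a => {c | c ∈ s ∧ f c < f a}.ncard) '' s ⊆ Iio s.ncard := by
    rintro _ ⟨y, hy, rfl⟩
    exact m2_rank_lt hs hy
  have hinj : InjOn (fun a => {c | c ∈ s ∧ f c < f a}.ncard) s := by
    intro y hy z hz h
    exact m2_rank_inj hf hs hy hz h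
  have h2 : ((fun a => {c | c ∈ s ∧ f c < f a}.ncard) '' s).ncard = s.ncard := hinj.ncard_image
  have h3 : (fun a => {c | c ∈ s ∧ f c < f a}.ncard) '' s = Iio s.ncard := by
    refine Set.eq_of_subset_of_ncard_le h1 ?_ (Set.finite_Iio _)
    rw [h2, ← Finset.coe_Iio, Set.ncard_coe_finset, Nat.card_Iio]
  have : j ∈ (fun a => {c | c ∈ s ∧ f c < f a}.ncard) '' s := by
    rw [h3]
    exact hj
  obtain ⟨y, hy, hr⟩ := this
  exact ⟨y, hy, hr⟩

end rank

/-! ### measurability tools -/

/-- measurability of counting functions, for relations to another space -/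
theorem m2_measurable_ncard {X Z κ : Type} [MeasurableSpace X] [MeasurableSpace Z]
    [StandardBorelSpace Z] [Countable κ] (f : κ → X → Z) (hf : ∀ k, Measurable (f k))
    (P : X → Z → Prop) (hsub : ∀ x z, P x z → ∃ k, f k x = z)
    (hfin : ∀ x, {z | P x z}.Finite) (hm : ∀ k, MeasurableSet {x | P x (f k x)}) :
    Measurable fun x => {z | P x z}.ncard := by
  have key : ∀ n : ℕ, MeasurableSet {x | n ≤ {z | P x z}.ncard} := by
    intro n
    have h : {x | n ≤ {z | P x z}.ncard} =
        ⋃ k : Fin n → κ, ({x | ∀ i, P x (f (k i) x)} ∩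
          {x | ∀ i j, i ≠ j → f (k i) x ≠ f (k j) x}) := by
      ext x
      simp only [mem_ofPred_eq, mem_iUnion, mem_inter_iff]
      constructor
      · intro hn
        obtain ⟨t, ht, hc⟩ := Set.exists_subset_card_eq hn
        have htf : t.Finite := (hfin x).subset ht
        have e : Nonempty (Fin n ≃ t) := by
          rw [← hc]
          have := htf.fintype
          exact ⟨(Fintype.equivFinOfCardEq
            (by rw [← Nat.card_coe_set_eq, Nat.card_eq_fintype_card])).symm⟩
        obtain ⟨e⟩ := e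
        have hg : ∀ i : Fin n, ∃ k : κ, f k x = (e i : Z) := fun i => hsub x _ (ht (e i).2)
        choose k hk using hg
        refine ⟨k, fun i => ?_, fun i j hij h => hij ?_⟩
        · rw [hk i]
          exact ht (e i).2
        · rw [hk i, hk j] at h
          exact e.injective (Subtype.ext h)
      · rintro ⟨k, h1, h2⟩
        have hinj : Function.Injective fun i => f (k i) x := by
          intro i j hij
          by_contra h
          exact h2 i j h hij
        have hr : range (fun i => f (k i) x) ⊆ {z | P x z} := by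
          rintro _ ⟨i, rfl⟩
          exact h1 i
        calc n = (range fun i => f (k i) x).ncard := by
                rw [← Nat.card_coe_set_eq, Nat.card_range_of_injective hinj, Nat.card_fin]
          _ ≤ _ := Set.ncard_le_ncard hr (hfin x)
    rw [h]
    refine MeasurableSet.iUnion fun k => MeasurableSet.inter ?_ ?_
    · rw [Set.ofPred_forall]
      exact MeasurableSet.iInter fun i => hm (k i)
    · simp only [Set.ofPred_forall]
      refine MeasurableSet.iInter fun i => MeasurableSet.iInter fun j =>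
        MeasurableSet.iInter fun _ => ?_
      exact (measurableSet_eq' (hf (k i)) (hf (k j))).compl
  refine measurable_to_countable' fun n => ?_
  have h : (fun x => {z | P x z}.ncard) ⁻¹' {n} =
      {x | n ≤ {z | P x z}.ncard} \ {x | n + 1 ≤ {z | P x z}.ncard} := by
    ext x
    simp only [mem_preimage, mem_singleton_iff, mem_sdiff, mem_ofPred_eq]
    omega
  rw [h]
  exact (key n).diff (key (n + 1))

open Classical in
/-- an element related to `x` (or `x`) -/
noncomputable def m2pick {X : Type} (R : X → X → Prop) (x : X) : X :=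
  if h : ∃ y, R x y then h.choose else x

theorem m2pick_eq {X : Type} {R : X → X → Prop} (hu : ∀ x y z, R x y → R x z → y = z) {x y : X}
    (h : R x y) : m2pick R x = y := by
  have h' : ∃ y, R x y := ⟨y, h⟩
  unfold m2pick
  rw [dif_pos h']
  exact hu x _ _ h'.choose_spec h

variable {G X : Type} [Group G] [Countable G] [MeasurableSpace X] [StandardBorelSpace X]
  [MulAction G X] [MeasurableConstSMul G X]

omit [StandardBorelSpace X] in
theorem m2pick_meas (R : X → X → Prop) (hu : ∀ x y z, R x y → R x z → y = z)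
    (hsub : ∀ x y, R x y → ∃ g : G, g • x = y) (hm : ∀ g : G, MeasurableSet {x | R x (g • x)}) :
    Measurable (m2pick R) := by
  intro B hB
  have h : m2pick R ⁻¹' B = (⋃ g : G, {x | R x (g • x)} ∩ {x | g • x ∈ B}) ∪
      ((⋃ g : G, {x | R x (g • x)})ᶜ ∩ B) := by
    ext x
    simp only [mem_preimage, mem_union, mem_iUnion, mem_inter_iff, mem_ofPred_eq, mem_compl_iff]
    constructor
    · intro hx
      by_cases hex : ∃ y, R x y
      · left
        obtain ⟨y, hy⟩ := hex
        obtain ⟨g, rfl⟩ := hsub x y hy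
        rw [m2pick_eq hu hy] at hx
        exact ⟨g, hy, hx⟩
      · right
        refine ⟨fun ⟨g, hg⟩ => hex ⟨_, hg⟩, ?_⟩
        rwa [m2pick, dif_neg hex] at hx
    · rintro (⟨g, h1, h2⟩ | ⟨h1, h2⟩)
      · rwa [m2pick_eq hu h1]
      · have hex : ¬ ∃ y, R x y := by
          rintro ⟨y, hy⟩
          obtain ⟨g, rfl⟩ := hsub x y hy
          exact h1 ⟨g, hy⟩
        rwa [m2pick, dif_neg hex]
  rw [h]
  refine (MeasurableSet.iUnion fun g => (hm g).inter ((measurable_const_smul g) hB)).union ?_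
  exact (MeasurableSet.iUnion hm).compl.inter hB

/-! ### the construction -/

section defs

variable (S : ℕ → X → X → Prop) (A : Set (X × ℕ)) (T : Set X) (st : X → ℕ → ℕ)

/-- key of a demand -/
noncomputable def m2key (p : X × ℕ) : ℝ ×ₗ ℕ := toLex (nu p.1, p.2)

/-- demands of stage `n` in the class of `x` -/
def m2D (n : ℕ) (x : X) : Set (X × ℕ) := {p | p ∈ A ∧ S n x p.1 ∧ st p.1 p.2 = n}

/-- free targets in the class of `x`; `U` is the set of used targets -/
def m2F (U : Set X) (n : ℕ) (x : X) : Set X := {y | S n x y ∧ y ∈ T ∧ y ∉ U}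

/-- rank of a free target -/
noncomputable def m2rho (U : Set X) (n : ℕ) (y : X) : ℕ :=
  {z | z ∈ m2F S T U n y ∧ nu z < nu y}.ncard

/-- rank of a demand -/
noncomputable def m2r (n : ℕ) (p : X × ℕ) : ℕ :=
  {q | q ∈ m2D S A st n p.1 ∧ m2key q < m2key p}.ncard

/-- targets used before stage `n` -/
noncomputable def m2U : ℕ → Set X
  | 0 => ∅
  | n + 1 => m2U n ∪ {y | y ∈ T ∧ y ∉ m2U n ∧ m2rho S T (m2U n) n y < (m2D S A st n y).ncard}

/-- target `y` is assigned to the demand `(x, l)` -/
def m2R (l : ℕ) (x y : X) : Prop :=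
  y ∈ m2F S T (m2U S A T st (st x l)) (st x l) x ∧
    m2rho S T (m2U S A T st (st x l)) (st x l) y = m2r S A st (st x l) (x, l)

end defs

theorem m2key_inj : Function.Injective (m2key (X := X)) := by
  rintro ⟨x, l⟩ ⟨y, m⟩ h
  unfold m2key at h
  have h' := toLex.injective h
  simp only [Prod.mk.injEq] at h'
  exact Prod.ext (nu_inj h'.1) h'.2

section
variable {S : ℕ → X → X → Prop} {A : Set (X × ℕ)} {T : Set X} {st : X → ℕ → ℕ}

theorem m2key_lt (p q : X × ℕ) : m2key p < m2key q ↔ nu p.1 < nu q.1 ∨ nu p.1 = nu q.1 ∧ p.2 < q.2 := by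
  unfold m2key
  exact Prod.Lex.toLex_lt_toLex

theorem m2U_mono : Monotone (m2U S A T st) := monotone_nat_of_le_succ fun n => by
  rw [m2U]
  exact subset_union_left

end

section main

variable {S : ℕ → X → X → Prop} {A : Set (X × ℕ)} {T : Set X} {st : X → ℕ → ℕ}
variable (hS : ∀ n, FBR G (S n))
include hS

omit [Countable G] [StandardBorelSpace X] [MeasurableConstSMul G X] in
theorem m2D_congr {n : ℕ} {x y : X} (h : S n x y) : m2D S A st n x = m2D S A st n y := by
  ext p
  refine and_congr_right fun _ => and_congr_left fun _ => ?_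
  exact ⟨fun hp => (hS n).equiv.trans ((hS n).equiv.symm h) hp,
    fun hp => (hS n).equiv.trans h hp⟩

omit [Countable G] [StandardBorelSpace X] [MeasurableConstSMul G X] in
theorem m2F_congr {U : Set X} {n : ℕ} {x y : X} (h : S n x y) :
    m2F S T U n x = m2F S T U n y := by
  ext z
  refine and_congr_left fun _ => ?_
  exact ⟨fun hp => (hS n).equiv.trans ((hS n).equiv.symm h) hp,
    fun hp => (hS n).equiv.trans h hp⟩

omit [Countable G] [StandardBorelSpace X] [MeasurableConstSMul G X] in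
theorem m2F_fin (U : Set X) (n : ℕ) (x : X) : (m2F S T U n x).Finite :=
  ((hS n).fin x).subset fun _ hy => hy.1

omit [Countable G] [MeasurableConstSMul G X] in
theorem m2R_unique (l : ℕ) (x y z : X) (hy : m2R S A T st l x y) (hz : m2R S A T st l x z) :
    y = z := by
  obtain ⟨h1, h2⟩ := hy
  obtain ⟨h3, h4⟩ := hz
  have h5 := h2.trans h4.symm
  unfold m2rho at h5
  rw [← m2F_congr hS h1.1, ← m2F_congr hS h3.1] at h5
  exact m2_rank_inj nu_inj (m2F_fin hS _ _ _) h1 h3 h5

variable (hmono : ∀ n x y, S n x y → S (n + 1) x y)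
include hmono

omit [Countable G] [MeasurableSpace X] [StandardBorelSpace X] [MeasurableConstSMul G X] hS in
theorem m2_mono {m n : ℕ} (h : m ≤ n) {x y : X} (hxy : S m x y) : S n x y := by
  induction n, h using Nat.le_induction with
  | base => exact hxy
  | succ n _ ih => exact hmono n x y ih

variable (hcount : ∀ n x, ({p : X × ℕ | p ∈ A ∧ S n x p.1 ∧ st p.1 p.2 ≤ n}).encard ≤
      ({y | y ∈ T ∧ S n x y}).encard)
include hcount

omit [Countable G] [StandardBorelSpace X] [MeasurableConstSMul G X] hmono in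
theorem m2_fin (n : ℕ) (x : X) : {p : X × ℕ | p ∈ A ∧ S n x p.1 ∧ st p.1 p.2 ≤ n}.Finite := by
  rw [← Set.encard_lt_top_iff]
  refine (hcount n x).trans_lt ?_
  rw [Set.encard_lt_top_iff]
  exact ((hS n).fin x).subset fun _ hy => hy.2

omit [Countable G] [StandardBorelSpace X] [MeasurableConstSMul G X] hmono in
theorem m2D_fin (n : ℕ) (x : X) : (m2D S A st n x).Finite :=
  (m2_fin hS hcount n x).subset fun _ hp => ⟨hp.1, hp.2.1, hp.2.2.le⟩

omit [Countable G] [StandardBorelSpace X] [MeasurableConstSMul G X] hmono in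
theorem m2_count (n : ℕ) (x : X) : {p : X × ℕ | p ∈ A ∧ S n x p.1 ∧ st p.1 p.2 ≤ n}.ncard ≤
    {y | y ∈ T ∧ S n x y}.ncard := by
  have hf : {y | y ∈ T ∧ S n x y}.Finite := ((hS n).fin x).subset fun _ hy => hy.2
  have h := hcount n x
  rw [← (m2_fin hS hcount n x).cast_ncard_eq, ← hf.cast_ncard_eq] at h
  exact_mod_cast h

omit [Countable G] [MeasurableConstSMul G X] in
theorem m2_main (n : ℕ) :
    (∀ p ∈ A, st p.1 p.2 < n → m2R S A T st p.2 p.1 (m2pick (m2R S A T st p.2) p.1) ∧
      m2pick (m2R S A T st p.2) p.1 ∈ m2U S A T st n) ∧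
    ∀ y ∈ m2U S A T st n, y ∈ T ∧ ∃ p ∈ A, st p.1 p.2 < n ∧
      m2pick (m2R S A T st p.2) p.1 = y := by
  induction n with
  | zero =>
    refine ⟨fun p _ h => absurd h (Nat.not_lt_zero _), fun y hy => ?_⟩
    rw [m2U] at hy
    exact absurd hy (notMem_empty y)
  | succ n ih =>
    obtain ⟨ih1, ih2⟩ := ih
    have hle : ∀ x, (m2D S A st n x).ncard ≤ (m2F S T (m2U S A T st n) n x).ncard := by
      intro x
      set Dl : Set (X × ℕ) := {p | p ∈ A ∧ S n x p.1 ∧ st p.1 p.2 < n} with hDl
      have hDlf : Dl.Finite := (m2_fin hS hcount n x).subset fun p hp => ⟨hp.1, hp.2.1, hp.2.2.le⟩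
      have h1 : {p : X × ℕ | p ∈ A ∧ S n x p.1 ∧ st p.1 p.2 ≤ n} = m2D S A st n x ∪ Dl := by
        ext p
        constructor
        · rintro ⟨ha, hb, hc⟩
          rcases hc.lt_or_eq with hc | hc
          · exact Or.inr ⟨ha, hb, hc⟩
          · exact Or.inl ⟨ha, hb, hc⟩
        · rintro (⟨ha, hb, hc⟩ | ⟨ha, hb, hc⟩)
          · exact ⟨ha, hb, hc.le⟩
          · exact ⟨ha, hb, hc.le⟩
      have h2 : (m2D S A st n x ∪ Dl).ncard = (m2D S A st n x).ncard + Dl.ncard := by
        refine Set.ncard_union_eq ?_ (m2D_fin hS hcount n x) hDlf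
        rw [Set.disjoint_left]
        rintro p ⟨-, -, h3⟩ ⟨-, -, h4⟩
        omega
      have h3 : {y | y ∈ T ∧ S n x y} ⊆ m2F S T (m2U S A T st n) n x ∪
          (fun p : X × ℕ => m2pick (m2R S A T st p.2) p.1) '' Dl := by
        rintro y ⟨hyT, hy⟩
        by_cases hyU : y ∈ m2U S A T st n
        · right
          obtain ⟨p, hpA, hpn, hpy⟩ := (ih2 y hyU).2
          have h4 := (ih1 p hpA hpn).1.1.1
          rw [hpy] at h4
          have h5 : S n p.1 y := m2_mono hmono hpn.le h4
          exact ⟨p, ⟨hpA, (hS n).equiv.trans hy ((hS n).equiv.symm h5), hpn⟩, hpy⟩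
        · left
          exact ⟨hy, hyT, hyU⟩
      have h4 := m2_count hS hcount n x
      have h5 := Set.ncard_le_ncard h3 ((m2F_fin hS _ n x).union (hDlf.image _))
      have h6 := Set.ncard_union_le (m2F S T (m2U S A T st n) n x)
        ((fun p : X × ℕ => m2pick (m2R S A T st p.2) p.1) '' Dl)
      have h7 := Set.ncard_image_le (f := fun p : X × ℕ => m2pick (m2R S A T st p.2) p.1) hDlf
      rw [h1, h2] at h4
      omega
    constructor
    · intro p hp hpn
      rcases (Nat.lt_succ_iff.1 hpn).lt_or_eq with h | h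
      · exact ⟨(ih1 p hp h).1, m2U_mono (Nat.le_succ n) (ih1 p hp h).2⟩
      · have hpD : p ∈ m2D S A st n p.1 := ⟨hp, (hS n).equiv.refl _, h⟩
        have h1 : m2r S A st n p < (m2D S A st n p.1).ncard :=
          m2_rank_lt (m2D_fin hS hcount n p.1) hpD
        obtain ⟨y, hy, hyr⟩ := m2_exists_rank (f := nu) nu_inj (m2F_fin hS (m2U S A T st n) n p.1)
          (h1.trans_le (hle p.1))
        have hrho : m2rho S T (m2U S A T st n) n y = m2r S A st n p := by
          unfold m2rho
          rw [← m2F_congr hS hy.1]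
          exact hyr
        have hR : m2R S A T st p.2 p.1 y := by
          unfold m2R
          rw [h]
          exact ⟨hy, hrho⟩
        rw [m2pick_eq (fun x y z => m2R_unique hS p.2 x y z) hR]
        refine ⟨hR, ?_⟩
        rw [m2U]
        refine Or.inr ⟨hy.2.1, hy.2.2, ?_⟩
        rw [hrho, ← m2D_congr hS hy.1]
        exact h1
    · intro y hy
      rw [m2U] at hy
      rcases hy with hy | ⟨hyT, hyU, hyr⟩
      · obtain ⟨h1, p, hp, hpn, hpy⟩ := ih2 y hy
        exact ⟨h1, p, hp, hpn.trans (Nat.lt_succ_self n), hpy⟩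
      · refine ⟨hyT, ?_⟩
        obtain ⟨p, hp, hpr⟩ := m2_exists_rank m2key_inj (m2D_fin hS hcount n y) hyr
        have hSp : S n p.1 y := (hS n).equiv.symm hp.2.1
        refine ⟨p, hp.1, by rw [hp.2.2]; exact Nat.lt_succ_self n, ?_⟩
        apply m2pick_eq (fun x y z => m2R_unique hS p.2 x y z)
        unfold m2R
        rw [hp.2.2]
        refine ⟨⟨hSp, hyT, hyU⟩, ?_⟩
        unfold m2r
        rw [m2D_congr hS hSp]
        exact hpr.symm

end main

section meas

variable {S : ℕ → X → X → Prop} {A : Set (X × ℕ)} {T : Set X} {st : X → ℕ → ℕ}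
variable (hS : ∀ n, FBR G (S n))
  (hcount : ∀ n x, ({p : X × ℕ | p ∈ A ∧ S n x p.1 ∧ st p.1 p.2 ≤ n}).encard ≤
      ({y | y ∈ T ∧ S n x y}).encard)
  (hA : ∀ l, MeasurableSet {x | (x, l) ∈ A}) (hst : ∀ l, Measurable fun x => st x l)
include hS hcount hA hst

omit [Countable G] [StandardBorelSpace X] hS hcount in
theorem m2_meas_aux (hS : ∀ n, FBR G (S n)) (n : ℕ) (k : G × ℕ) :
    MeasurableSet {x | (k.1 • x, k.2) ∈ m2D S A st n x} := by
  have h : {x | (k.1 • x, k.2) ∈ m2D S A st n x} = ((fun x => k.1 • x) ⁻¹' {x | (x, k.2) ∈ A}) ∩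
      ({x | S n x (k.1 • x)} ∩ ((fun x => st (k.1 • x) k.2) ⁻¹' {n})) := by
    ext x
    rfl
  rw [h]
  refine ((measurable_const_smul k.1) (hA k.2)).inter (((hS n).meas k.1).inter ?_)
  exact ((hst k.2).comp (measurable_const_smul k.1)) (measurableSet_singleton n)

theorem m2D_meas (n : ℕ) : Measurable fun x => (m2D S A st n x).ncard := by
  refine m2_measurable_ncard (κ := G × ℕ) (fun k x => (k.1 • x, k.2)) ?_
    (fun x p => p ∈ m2D S A st n x) ?_ (m2D_fin hS hcount n) ?_
  · intro k
    exact (measurable_const_smul k.1).prodMk measurable_const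
  · rintro x p hp
    obtain ⟨g, hg⟩ := (hS n).sub _ _ hp.2.1
    exact ⟨(g, p.2), Prod.ext hg rfl⟩
  · exact m2_meas_aux hA hst hS n

theorem m2r_meas (n l : ℕ) : Measurable fun x => m2r S A st n (x, l) := by
  unfold m2r
  refine m2_measurable_ncard (κ := G × ℕ) (fun k x => (k.1 • x, k.2)) ?_
    (fun x p => p ∈ m2D S A st n x ∧ m2key p < m2key (x, l)) ?_
    (fun x => (m2D_fin hS hcount n x).subset fun p hp => hp.1) ?_
  · intro k
    exact (measurable_const_smul k.1).prodMk measurable_const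
  · rintro x p hp
    obtain ⟨g, hg⟩ := (hS n).sub _ _ hp.1.2.1
    exact ⟨(g, p.2), Prod.ext hg rfl⟩
  · intro k
    refine (m2_meas_aux hA hst hS n k).inter ?_
    have h : {x : X | m2key (k.1 • x, k.2) < m2key (x, l)} =
        {x | nu (k.1 • x) < nu x} ∪ ({x | nu (k.1 • x) = nu x} ∩ {_x | k.2 < l}) := by
      ext x
      exact m2key_lt _ _
    show MeasurableSet {x : X | m2key (k.1 • x, k.2) < m2key (x, l)}
    rw [h]
    refine (measurableSet_lt (measurable_nu.comp (measurable_const_smul k.1)) measurable_nu).union ?_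
    refine (measurableSet_eq_fun (measurable_nu.comp (measurable_const_smul k.1))
      measurable_nu).inter ?_
    exact MeasurableSet.const _

omit hcount hA hst in
theorem m2rho_meas (hT : MeasurableSet T) {U : Set X} (hU : MeasurableSet U) (n : ℕ) :
    Measurable (m2rho S T U n) := by
  refine measurable_ncard (G := G) (fun y z => z ∈ m2F S T U n y ∧ nu z < nu y)
    (fun x y h => (hS n).sub x y h.1.1) (fun x => (m2F_fin hS U n x).subset fun y h => h.1)
    fun g => ?_
  refine MeasurableSet.inter ?_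
    (measurableSet_lt (measurable_nu.comp (measurable_const_smul g)) measurable_nu)
  exact ((hS n).meas g).inter (((measurable_const_smul g) hT).inter
    ((measurable_const_smul g) hU.compl))

theorem m2U_meas (hT : MeasurableSet T) (n : ℕ) : MeasurableSet (m2U S A T st n) := by
  induction n with
  | zero => rw [m2U]; exact MeasurableSet.empty
  | succ n ih =>
    rw [m2U]
    refine ih.union (hT.inter (ih.compl.inter ?_))
    exact measurableSet_lt (m2rho_meas hS hT ih n) (m2D_meas hS hcount hA hst n)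

theorem m2R_meas (hT : MeasurableSet T) (l : ℕ) (g : G) :
    MeasurableSet {x | m2R S A T st l x (g • x)} := by
  have h : {x | m2R S A T st l x (g • x)} = ⋃ n, ({x | st x l = n} ∩
      ({x | g • x ∈ m2F S T (m2U S A T st n) n x} ∩
        {x | m2rho S T (m2U S A T st n) n (g • x) = m2r S A st n (x, l)})) := by
    ext x
    simp only [mem_ofPred_eq, mem_iUnion, mem_inter_iff]
    constructor
    · intro h
      exact ⟨st x l, rfl, h.1, h.2⟩
    · rintro ⟨n, rfl, h1, h2⟩
      exact ⟨h1, h2⟩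
  rw [h]
  refine MeasurableSet.iUnion fun n => ((hst l) (measurableSet_singleton n)).inter
    (MeasurableSet.inter ?_ ?_)
  · exact ((hS n).meas g).inter (((measurable_const_smul g) hT).inter
      ((measurable_const_smul g) (m2U_meas hS hcount hA hst hT n).compl))
  · exact measurableSet_eq_fun ((m2rho_meas hS hT (m2U_meas hS hcount hA hst hT n) n).comp
      (measurable_const_smul g)) (m2r_meas hS hcount hA hst n l)

end meas

/-- M2: the matching lemma -/
theorem matching (S : ℕ → X → X → Prop) (hS : ∀ n, FBR G (S n))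
    (hmono : ∀ n x y, S n x y → S (n + 1) x y) {A : Set (X × ℕ)}
    (hA : ∀ l, MeasurableSet {x | (x, l) ∈ A}) {T : Set X} (hT : MeasurableSet T)
    (st : X → ℕ → ℕ) (hst : ∀ l, Measurable fun x => st x l)
    (hcount : ∀ n x, ({p : X × ℕ | p ∈ A ∧ S n x p.1 ∧ st p.1 p.2 ≤ n}).encard ≤
      ({y | y ∈ T ∧ S n x y}).encard) :
    ∃ φ : X → ℕ → X, (∀ l, Measurable fun x => φ x l) ∧
      (∀ p ∈ A, φ p.1 p.2 ∈ T ∧ S (st p.1 p.2) p.1 (φ p.1 p.2)) ∧
      ∀ p ∈ A, ∀ q ∈ A, φ p.1 p.2 = φ q.1 q.2 → p = q := by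
  have hR : ∀ p ∈ A, m2R S A T st p.2 p.1 (m2pick (m2R S A T st p.2) p.1) ∧
      m2pick (m2R S A T st p.2) p.1 ∈ m2U S A T st (st p.1 p.2 + 1) :=
    fun p hp => (m2_main hS hmono hcount (st p.1 p.2 + 1)).1 p hp (Nat.lt_succ_self _)
  refine ⟨fun x l => m2pick (m2R S A T st l) x, fun l => ?_, fun p hp => ?_, ?_⟩
  · exact m2pick_meas _ (m2R_unique hS l) (fun x y h => (hS _).sub x y h.1.1)
      (m2R_meas hS hcount hA hst hT l)
  · exact ⟨(hR p hp).1.1.2.1, (hR p hp).1.1.1⟩
  · intro p hp q hq h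
    simp only at h
    obtain ⟨h1, h2⟩ := hR p hp
    obtain ⟨h3, h4⟩ := hR q hq
    have key : ¬ st p.1 p.2 < st q.1 q.2 ∧ ¬ st q.1 q.2 < st p.1 p.2 := by
      constructor
      · intro hlt
        apply h3.1.2.2
        rw [← h]
        exact m2U_mono (Nat.succ_le_of_lt hlt) h2
      · intro hlt
        apply h1.1.2.2
        rw [h]
        exact m2U_mono (Nat.succ_le_of_lt hlt) h4
    have hn : st q.1 q.2 = st p.1 p.2 := by omega
    rw [← h] at h3
    set y := m2pick (m2R S A T st p.2) p.1 with hy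
    set n := st p.1 p.2 with hnn
    unfold m2R at h1 h3
    rw [hn] at h3
    rw [← hnn] at h1
    have hS1 : S n p.1 y := h1.1.1
    have hS2 : S n q.1 y := h3.1.1
    have hSpq : S n p.1 q.1 := (hS n).equiv.trans hS1 ((hS n).equiv.symm hS2)
    have hpD : p ∈ m2D S A st n p.1 := ⟨hp, (hS n).equiv.refl _, rfl⟩
    have hqD : q ∈ m2D S A st n p.1 := ⟨hq, hSpq, hn⟩
    refine m2_rank_inj m2key_inj (m2D_fin hS hcount n p.1) hpD hqD ?_
    have h5 : m2r S A st n p = m2r S A st n q := h1.2.symm.trans h3.2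
    unfold m2r at h5
    rw [← m2D_congr hS hSpq] at h5
    exact h5

end Pool.Agent.CAR
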