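import Mathlib

/-!
# Module M5: a compact free space with finite models of all large sizes
-/

set_option autoImplicit false
set_option linter.unusedVariables false

namespace Pool.Agent.CAR

open Set Filter Topology Uniformity

namespace M5aux

variable {Γ : Type} [Group Γ]

theorem exists_chi (γ : Γ) :
    ∃ χ : Subgroup.zpowers γ → UnitAddCircle, (∀ a b, χ (a * b) = χ a + χ b) ∧
      (γ ≠ 1 → χ ⟨γ, Subgroup.mem_zpowers γ⟩ ≠ 0) := by
  by_cases h1 : γ = 1
  · exact ⟨fun _ => 0, by simp, fun h => absurd h1 h⟩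
  let : CommGroup (Subgroup.zpowers γ) :=
    { (inferInstance : Group (Subgroup.zpowers γ)) with
      mul_comm := fun a b => (Subgroup.zpowers_isMulCommutative γ).is_comm.comm a b }
  have hne : (Additive.ofMul (⟨γ, Subgroup.mem_zpowers γ⟩ : Subgroup.zpowers γ)) ≠ 0 := by
    intro h
    apply h1
    have := congrArg (fun z : Additive (Subgroup.zpowers γ) => ((Additive.toMul z : _) : Γ)) h
    simpa using this
  obtain ⟨c, hc⟩ := CharacterModule.exists_character_apply_ne_zero_of_ne_zero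
    (A := Additive (Subgroup.zpowers γ)) hne
  have hle : AddSubgroup.zmultiples (1 : ℚ) ≤
      (AddSubgroup.zmultiples (1 : ℝ)).comap (algebraMap ℚ ℝ).toAddMonoidHom := by
    intro x hx
    obtain ⟨n, rfl⟩ := AddSubgroup.mem_zmultiples_iff.mp hx
    rw [AddSubgroup.mem_comap, AddSubgroup.mem_zmultiples_iff]
    exact ⟨n, by simp⟩
  let m : AddCircle (1 : ℚ) →+ UnitAddCircle := QuotientAddGroup.map
    (AddSubgroup.zmultiples (1 : ℚ)) (AddSubgroup.zmultiples (1 : ℝ))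
    (algebraMap ℚ ℝ).toAddMonoidHom hle
  have hm : ∀ z : AddCircle (1 : ℚ), m z = 0 → z = 0 := by
    intro z
    induction z using QuotientAddGroup.induction_on with
    | H x =>
      intro h
      have h' : ((x : ℝ) : UnitAddCircle) = 0 := h
      rw [AddCircle.coe_eq_zero_iff] at h'
      obtain ⟨n, hn⟩ := h'
      have hx : (n : ℚ) = x := by
        have : ((n : ℚ) : ℝ) = (x : ℝ) := by
          rw [← hn]
          simp
        exact_mod_cast this
      change ((x : ℚ) : AddCircle (1 : ℚ)) = 0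
      rw [AddCircle.coe_eq_zero_iff]
      exact ⟨n, by simp [hx]⟩
  refine ⟨fun a => m (c (Additive.ofMul a)), ?_, ?_⟩
  · intro a b
    change m (c (Additive.ofMul a + Additive.ofMul b)) =
      m (c (Additive.ofMul a)) + m (c (Additive.ofMul b))
    rw [map_add, map_add]
  · intro _ h
    exact hc (hm _ h)

/-- the chosen character -/
noncomputable def chi (γ : Γ) : Subgroup.zpowers γ → UnitAddCircle := (exists_chi γ).choose

theorem chi_mul (γ : Γ) (a b : Subgroup.zpowers γ) : chi γ (a * b) = chi γ a + chi γ b :=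
  (exists_chi γ).choose_spec.1 a b

theorem chi_ne (γ : Γ) (h : γ ≠ 1) : chi γ ⟨γ, Subgroup.mem_zpowers γ⟩ ≠ 0 :=
  (exists_chi γ).choose_spec.2 h

/-- index set -/
abbrev Idx (Γ : Type) [Group Γ] : Type := Σ γ : Γ, Γ ⧸ Subgroup.zpowers γ

/-- section of the quotient map -/
noncomputable def sec (γ : Γ) (q : Γ ⧸ Subgroup.zpowers γ) : Γ := Quotient.out q

theorem sec_spec (γ : Γ) (q : Γ ⧸ Subgroup.zpowers γ) :
    (QuotientGroup.mk (sec γ q) : Γ ⧸ Subgroup.zpowers γ) = q := QuotientGroup.out_eq' q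

theorem coc_mem (γ β : Γ) (q : Γ ⧸ Subgroup.zpowers γ) :
    (sec γ q)⁻¹ * (β * sec γ (β⁻¹ • q)) ∈ Subgroup.zpowers γ := by
  rw [← QuotientGroup.eq]
  rw [sec_spec]
  have h : (QuotientGroup.mk (β * sec γ (β⁻¹ • q)) : Γ ⧸ Subgroup.zpowers γ) =
      β • (QuotientGroup.mk (sec γ (β⁻¹ • q)) : Γ ⧸ Subgroup.zpowers γ) := rfl
  rw [h, sec_spec, smul_inv_smul]

/-- the cocycle -/
noncomputable def coc (β : Γ) (i : Idx Γ) : UnitAddCircle := chi i.1 ⟨_, coc_mem i.1 β i.2⟩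

/-- action on indices -/
def act (β : Γ) (i : Idx Γ) : Idx Γ := ⟨i.1, β • i.2⟩

theorem act_one (i : Idx Γ) : act 1 i = i := by
  simp [act]

theorem act_mul (a b : Γ) (i : Idx Γ) : act (a * b) i = act a (act b i) := by
  unfold act
  rw [mul_smul]

theorem act_inj (a : Γ) {i j : Idx Γ} (h : act a i = act a j) : i = j := by
  have := congrArg (act a⁻¹) h
  rwa [← act_mul, ← act_mul, inv_mul_cancel, act_one, act_one] at this

theorem coc_mul (a b : Γ) (i : Idx Γ) : coc (a * b) i = coc a i + coc b (act a⁻¹ i) := by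
  have h : coc b (act a⁻¹ i) = chi i.1 ⟨(sec i.1 (a⁻¹ • i.2))⁻¹ *
      (b * sec i.1 (b⁻¹ • (a⁻¹ • i.2))), coc_mem i.1 b (a⁻¹ • i.2)⟩ := rfl
  rw [h]
  unfold coc
  rw [← chi_mul]
  congr 1
  apply Subtype.ext
  change (sec i.1 i.2)⁻¹ * (a * b * sec i.1 ((a * b)⁻¹ • i.2)) =
    ((sec i.1 i.2)⁻¹ * (a * sec i.1 (a⁻¹ • i.2))) *
      ((sec i.1 (a⁻¹ • i.2))⁻¹ * (b * sec i.1 (b⁻¹ • (a⁻¹ • i.2))))
  rw [mul_inv_rev, mul_smul]
  group

theorem coc_one (i : Idx Γ) : coc 1 i = 0 := by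
  have h := coc_mul (1 : Γ) 1 i
  rw [mul_one, inv_one, act_one] at h
  exact (left_eq_add.mp h)

/-- the space -/
abbrev Kt (Γ : Type) [Group Γ] : Type := Idx Γ → UnitAddCircle

/-- the action -/
@[reducible] noncomputable def mulAct : MulAction Γ (Kt Γ) where
  smul β z := fun i => coc β i + z (act β⁻¹ i)
  one_smul z := by
    funext i
    change coc 1 i + z (act 1⁻¹ i) = z i
    rw [coc_one, inv_one, act_one, zero_add]
  mul_smul a b z := by
    funext i
    change coc (a * b) i + z (act (a * b)⁻¹ i) =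
      coc a i + (coc b (act a⁻¹ i) + z (act b⁻¹ (act a⁻¹ i)))
    rw [coc_mul, mul_inv_rev, act_mul, add_assoc]

theorem smul_apply (β : Γ) (z : Kt Γ) (i : Idx Γ) :
    (mulAct.toSMul.smul β z) i = coc β i + z (act β⁻¹ i) := rfl

theorem free (g : Γ) (z : Kt Γ) (h : mulAct.toSMul.smul g z = z) : g = 1 := by
  by_contra hg
  let i : Idx Γ := ⟨g, (QuotientGroup.mk (1 : Γ))⟩
  have hfix : g⁻¹ • (QuotientGroup.mk (1 : Γ) : Γ ⧸ Subgroup.zpowers g) = QuotientGroup.mk 1 := by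
    change (QuotientGroup.mk (g⁻¹ * 1) : Γ ⧸ Subgroup.zpowers g) = QuotientGroup.mk 1
    rw [mul_one, QuotientGroup.eq]
    simp
  have hi : act g⁻¹ i = i := by
    simp only [act, i, hfix]
  have h1 := congrFun h i
  rw [smul_apply, hi] at h1
  have h2 : coc g i = 0 := by
    simpa using h1
  have h3 : coc g i = chi g ⟨g, Subgroup.mem_zpowers g⟩ := by
    unfold coc
    congr 1
    apply Subtype.ext
    change (sec g (QuotientGroup.mk (1 : Γ)))⁻¹ *
      (g * sec g (g⁻¹ • (QuotientGroup.mk (1 : Γ) : Γ ⧸ Subgroup.zpowers g))) = g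
    rw [hfix]
    have hs : sec g (QuotientGroup.mk (1 : Γ)) ∈ Subgroup.zpowers g := by
      have := sec_spec g (QuotientGroup.mk (1 : Γ))
      rw [eq_comm, QuotientGroup.eq] at this
      simpa using this
    obtain ⟨n, hn⟩ := Subgroup.mem_zpowers_iff.mp hs
    rw [← hn]
    group
  rw [h3] at h2
  exact chi_ne g hg h2

/-- a model of type `P` -/
def Mod (F : Finset Γ) (V : Set (Kt Γ × Kt Γ)) (P : Type) : Prop :=
  ∃ (π : P → Kt Γ) (σ : Γ → Equiv.Perm P), ∀ g ∈ F, ∀ p, (π (σ g p), mulAct.toSMul.smul g (π p)) ∈ V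

theorem Mod.equiv {F : Finset Γ} {V : Set (Kt Γ × Kt Γ)} {P Q : Type} (e : P ≃ Q)
    (h : Mod F V P) : Mod F V Q := by
  obtain ⟨π, σ, hh⟩ := h
  refine ⟨fun q => π (e.symm q), fun g => e.symm.trans ((σ g).trans e), ?_⟩
  intro g hg q
  simpa using hh g hg (e.symm q)

theorem Mod.sigma {F : Finset Γ} {V : Set (Kt Γ × Kt Γ)} {ι : Type} {P : ι → Type}
    (h : ∀ i, Mod F V (P i)) : Mod F V (Σ i, P i) := by
  choose π σ hh using h
  refine ⟨fun q => π q.1 q.2, fun g => Equiv.sigmaCongrRight fun i => σ i g, ?_⟩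
  intro g hg q
  exact hh q.1 g hg q.2

theorem exists_basic {V : Set (Kt Γ × Kt Γ)} (hV : V ∈ 𝓤 (Kt Γ)) :
    ∃ (J : Set (Idx Γ)) (ε : ℝ), J.Finite ∧ 0 < ε ∧
      ∀ z w : Kt Γ, (∀ i ∈ J, dist (z i) (w i) < ε) → (z, w) ∈ V := by
  rw [Pi.uniformity, Filter.mem_iInf] at hV
  obtain ⟨J, hJ, U, hU, rfl⟩ := hV
  have h1 : ∀ i : J, ∃ ε > 0, ∀ z w : Kt Γ, dist (z i) (w i) < ε → (z, w) ∈ U i := by
    intro i
    obtain ⟨t, ht, htU⟩ := Filter.mem_comap.mp (hU i)
    obtain ⟨ε, hε, hεt⟩ := Metric.mem_uniformity_dist.mp ht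
    exact ⟨ε, hε, fun z w hzw => htU (hεt hzw)⟩
  choose ε hε h2 using h1
  have := hJ.fintype
  by_cases hne : Nonempty J
  · refine ⟨J, Finset.univ.inf' Finset.univ_nonempty ε, hJ, ?_, ?_⟩
    · rw [Finset.lt_inf'_iff]
      exact fun i _ => hε i
    · intro z w h
      rw [Set.mem_iInter]
      intro i
      exact h2 i z w (lt_of_lt_of_le (h i.1 i.2) (Finset.inf'_le _ (Finset.mem_univ i)))
  · refine ⟨J, 1, hJ, one_pos, ?_⟩
    intro z w _
    rw [Set.mem_iInter]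
    intro i
    exact absurd ⟨i⟩ hne

theorem exists_zmod (M : ℕ) [NeZero M] (t : UnitAddCircle) :
    ∃ u : ZMod M, dist (ZMod.toAddCircle u) t ≤ 1 / M := by
  induction t using QuotientAddGroup.induction_on with
  | H x =>
    refine ⟨((⌊x * M⌋ : ℤ) : ZMod M), ?_⟩
    rw [ZMod.toAddCircle_intCast]
    change dist (((⌊x * M⌋ : ℝ) / M : ℝ) : UnitAddCircle) ((x : ℝ) : UnitAddCircle) ≤ 1 / M
    have hM : (0 : ℝ) < M := by
      have := NeZero.pos M
      exact_mod_cast this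
    rw [dist_eq_norm, ← AddCircle.coe_sub]
    refine (QuotientAddGroup.norm_mk_le_norm (S := AddSubgroup.zmultiples (1 : ℝ))).trans ?_
    rw [Real.norm_eq_abs, abs_sub_comm, abs_le]
    have h1 := Int.floor_le (x * M)
    have h2 := Int.lt_floor_add_one (x * M)
    have h3 : (⌊x * M⌋ : ℝ) / M ≤ x := by
      rw [div_le_iff₀ hM]
      exact h1
    have h4 : x ≤ (⌊x * M⌋ : ℝ) / M + 1 / M := by
      rw [← add_div, le_div_iff₀ hM]
      exact h2.le
    have h5 : 0 ≤ 1 / (M : ℝ) := by positivity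
    constructor <;> linarith

theorem mod_pow (F : Finset Γ) {V : Set (Kt Γ × Kt Γ)} {J0 : Set (Idx Γ)} (hJ0 : J0.Finite)
    {ε : ℝ} (hε : 0 < ε) (hV : ∀ z w : Kt Γ, (∀ i ∈ J0, dist (z i) (w i) < ε) → (z, w) ∈ V) :
    ∃ (J : Finset (Idx Γ)) (M0 : ℕ), 1 ≤ M0 ∧ ∀ M, M0 ≤ M → Mod F V (J → ZMod M) := by
  classical
  let S : Finset (Idx Γ) := hJ0.toFinset
  let J : Finset (Idx Γ) := S ∪ F.biUnion fun g => S.image (act g⁻¹)
  obtain ⟨M0, hM0⟩ := exists_nat_gt (1 / ε)
  refine ⟨J, M0 + 1, by omega, ?_⟩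
  intro M hM
  have : NeZero M := ⟨by omega⟩
  have hMε : 1 / (M : ℝ) < ε := by
    have hMpos : (0 : ℝ) < M := by
      have := NeZero.pos M
      exact_mod_cast this
    rw [div_lt_iff₀ hMpos]
    have h1 : 1 / ε < M := lt_of_lt_of_le hM0 (by exact_mod_cast (by omega : M0 ≤ M))
    rw [div_lt_iff₀ hε] at h1
    linarith
  let π : (J → ZMod M) → Kt Γ := fun p i => if h : i ∈ J then ZMod.toAddCircle (p ⟨i, h⟩) else 0
  have hσ : ∀ g ∈ F, ∃ σ : Equiv.Perm (J → ZMod M), ∀ p,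
      (π (σ p), mulAct.toSMul.smul g (π p)) ∈ V := by
    intro g hg
    have hcard : Fintype.card J = J.card := Fintype.card_coe J
    have himg : Finset.image (fun j : J => act g⁻¹ j.1)
        (Finset.univ.filter fun j : J => j.1 ∈ S) ⊆ J := by
      intro i hi
      obtain ⟨j, hj, rfl⟩ := Finset.mem_image.mp hi
      rw [Finset.mem_filter] at hj
      refine Finset.mem_union_right _ (Finset.mem_biUnion.mpr ⟨g, hg, ?_⟩)
      exact Finset.mem_image.mpr ⟨j.1, hj.2, rfl⟩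
    have hinj : Set.InjOn (fun j : J => act g⁻¹ j.1)
        (Finset.univ.filter fun j : J => j.1 ∈ S : Finset J) := by
      intro a _ b _ hab
      exact Subtype.ext (act_inj _ hab)
    obtain ⟨τ, hτ⟩ := Finset.exists_equiv_extend_of_card_eq hcard himg hinj
    choose u hu using fun i : J => exists_zmod M (coc g i.1)
    refine ⟨(Equiv.arrowCongr τ.symm (Equiv.refl (ZMod M))).trans (Equiv.addRight u), ?_⟩
    intro p
    apply hV
    intro i hi
    have hiS : i ∈ S := hJ0.mem_toFinset.mpr hi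
    have hiJ : i ∈ J := Finset.mem_union_left _ hiS
    have hτi : ((τ ⟨i, hiJ⟩ : J) : Idx Γ) = act g⁻¹ i :=
      hτ ⟨i, hiJ⟩ (Finset.mem_filter.mpr ⟨Finset.mem_univ _, hiS⟩)
    have hgJ : act g⁻¹ i ∈ J := hτi ▸ (τ ⟨i, hiJ⟩).2
    have e1 : π (((Equiv.arrowCongr τ.symm (Equiv.refl (ZMod M))).trans (Equiv.addRight u)) p) i =
        ZMod.toAddCircle (p (τ ⟨i, hiJ⟩)) + ZMod.toAddCircle (u ⟨i, hiJ⟩) := by
      simp only [π, dif_pos hiJ]
      rw [← map_add]
      rfl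
    have e2 : (mulAct.toSMul.smul g (π p)) i = coc g i + ZMod.toAddCircle (p (τ ⟨i, hiJ⟩)) := by
      have e3 : (⟨act g⁻¹ i, hgJ⟩ : J) = τ ⟨i, hiJ⟩ := Subtype.ext hτi.symm
      rw [smul_apply, ← e3]
      simp only [π, dif_pos hgJ]
    rw [e1, e2, add_comm (ZMod.toAddCircle (p (τ ⟨i, hiJ⟩))), dist_add_right]
    exact lt_of_le_of_lt (hu ⟨i, hiJ⟩) hMε
  refine ⟨π, fun g => if h : g ∈ F then (hσ g h).choose else 1, ?_⟩
  intro g hg p
  simp only [dif_pos hg]
  exact (hσ g hg).choose_spec p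

theorem mod_all (F : Finset Γ) {V : Set (Kt Γ × Kt Γ)} (hV : V ∈ 𝓤 (Kt Γ)) :
    ∃ c : ℕ, ∀ N ≥ c, Mod F V (Fin N) := by
  classical
  obtain ⟨J0, ε, hJ0, hε, hV'⟩ := exists_basic hV
  obtain ⟨J, M0, hM0, hmod⟩ := mod_pow F hJ0 hε hV'
  set a : ℕ := M0 ^ J.card with ha
  set b : ℕ := (M0 + 1) ^ J.card with hb
  have : NeZero M0 := ⟨by omega⟩
  have hab : a.gcd b = 1 := by
    have : Nat.Coprime M0 (M0 + 1) := by simp
    exact Nat.Coprime.pow _ _ this
  have hma : Mod F V (Fin a) := by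
    refine (hmod M0 le_rfl).equiv (Fintype.equivFinOfCardEq ?_)
    simp [ha, ZMod.card]
  have hmb : Mod F V (Fin b) := by
    refine (hmod (M0 + 1) (by omega)).equiv (Fintype.equivFinOfCardEq ?_)
    simp [hb, ZMod.card]
  refine ⟨a.pred * b.pred, ?_⟩
  intro N hN
  obtain ⟨x, y, hxy⟩ := Nat.exists_add_mul_eq_of_gcd_dvd_of_mul_pred_le a b N
    (by rw [hab]; exact one_dvd _) hN
  have h1 : Mod F V (Σ i : Fin x ⊕ Fin y, Fin (Sum.elim (fun _ => a) (fun _ => b) i)) := by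
    refine Mod.sigma ?_
    rintro (i | i)
    · exact hma
    · exact hmb
  refine h1.equiv (Fintype.equivFinOfCardEq ?_)
  rw [Fintype.card_sigma]
  simp [Fintype.card_fin, Fintype.sum_sum_type, hxy]

end M5aux

/-- M5: a compact free `Γ`-space with finite models of all large sizes -/
theorem exists_K (Γ : Type) [Group Γ] [Countable Γ] :
    ∃ (K : Type) (_ : UniformSpace K) (_ : CompactSpace K) (_ : T2Space K)
      (_ : (uniformity K).IsCountablyGenerated) (_ : MulAction Γ K) (_ : ContinuousConstSMul Γ K),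
      (∀ (g : Γ) (z : K), g • z = z → g = 1) ∧
      ∀ (F : Finset Γ), ∀ V ∈ uniformity K, ∃ c : ℕ, ∀ N ≥ c,
        ∃ (π : Fin N → K) (σ : Γ → Equiv.Perm (Fin N)), ∀ g ∈ F, ∀ p, (π (σ g p), g • π p) ∈ V := by
  have : ∀ γ : Γ, Countable (Γ ⧸ Subgroup.zpowers γ) := fun γ =>
    Function.Surjective.countable (QuotientGroup.mk_surjective (s := Subgroup.zpowers γ))
  have : Countable (M5aux.Idx Γ) := inferInstance
  refine ⟨M5aux.Kt Γ, inferInstance, inferInstance, inferInstance, inferInstance,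
    M5aux.mulAct, ?_, ?_, ?_⟩
  · let := M5aux.mulAct (Γ := Γ)
    refine ⟨fun g => ?_⟩
    refine continuous_pi fun i => ?_
    exact continuous_const.add (continuous_apply _)
  · intro g z h
    exact M5aux.free g z h
  · intro F V hV
    exact M5aux.mod_all F hV

end Pool.Agent.CAR
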