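import Pool.Agent.CAR.DigTool
import Pool.Agent.CAR.M1
import Pool.Agent.CAR.M2

/-!
# Module M6: good part with depth function and blocks, compressible hyperfinite bad part
-/

set_option autoImplicit false
set_option linter.unusedVariables false
set_option linter.unusedSectionVars false
set_option linter.style.haveILetI false

namespace Pool.Agent.CAR

open Set MeasureTheory
open scoped Pointwise

namespace GB

variable {Γ X : Type} [Group Γ] [MulAction Γ X]

/-- `y` is at `A`-distance at most `r` from `x` -/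
def Nb (A : Set Γ) (r : ℕ) (x y : X) : Prop := ∃ g ∈ A ^ r, g • x = y

theorem Nb.refl {A : Set Γ} (h1 : (1 : Γ) ∈ A) (r : ℕ) (x : X) : Nb A r x x :=
  ⟨1, Set.one_mem_pow h1, one_smul _ _⟩

theorem Nb.trans {A : Set Γ} {r s : ℕ} {x y z : X} (h : Nb A r x y) (h' : Nb A s y z) :
    Nb A (r + s) x z := by
  obtain ⟨g, hg, rfl⟩ := h
  obtain ⟨g', hg', rfl⟩ := h'
  refine ⟨g' * g, ?_, mul_smul _ _ _⟩
  rw [add_comm, pow_add]
  exact Set.mul_mem_mul hg' hg

theorem pow_inv_mem {A : Set Γ} (hs : ∀ a ∈ A, a⁻¹ ∈ A) {r : ℕ} {g : Γ} (hg : g ∈ A ^ r) :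
    g⁻¹ ∈ A ^ r := by
  have h : A⁻¹ = A := by
    ext a
    rw [Set.mem_inv]
    refine ⟨fun h => ?_, fun h => hs a h⟩
    have := hs _ h
    rwa [inv_inv] at this
  have h2 : (A ^ r)⁻¹ = A ^ r := by
    rw [← inv_pow, h]
  rw [← h2, Set.mem_inv, inv_inv]
  exact hg

theorem Nb.symm {A : Set Γ} (hs : ∀ a ∈ A, a⁻¹ ∈ A) {r : ℕ} {x y : X} (h : Nb A r x y) :
    Nb A r y x := by
  obtain ⟨g, hg, rfl⟩ := h
  exact ⟨g⁻¹, pow_inv_mem hs hg, inv_smul_smul _ _⟩

theorem Nb.mono {A : Set Γ} (h1 : (1 : Γ) ∈ A) {r s : ℕ} (hrs : r ≤ s) {x y : X}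
    (h : Nb A r x y) : Nb A s x y := by
  obtain ⟨g, hg, rfl⟩ := h
  exact ⟨g, Set.pow_subset_pow_right h1 hrs hg, rfl⟩

theorem Nb.mono' {A B : Set Γ} (hAB : A ⊆ B) {r : ℕ} {x y : X}
    (h : Nb A r x y) : Nb B r x y := by
  obtain ⟨g, hg, rfl⟩ := h
  exact ⟨g, Set.pow_subset_pow_left hAB hg, rfl⟩

theorem Nb.one {A : Set Γ} {a : Γ} (ha : a ∈ A) (x : X) : Nb A 1 x (a • x) :=
  ⟨a, by rwa [pow_one], rfl⟩

theorem finite_pow {A : Set Γ} (hf : A.Finite) (r : ℕ) : (A ^ r).Finite := by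
  induction r with
  | zero => rw [pow_zero]; exact Set.finite_one
  | succ n ih => rw [pow_succ]; exact ih.mul hf

theorem Nb.finite {A : Set Γ} (hf : A.Finite) (r : ℕ) (x : X) : {y | Nb A r x y}.Finite := by
  have : {y | Nb A r x y} = (fun g : Γ => g • x) '' (A ^ r) := by
    ext y
    simp [Nb]
  rw [this]
  exact (finite_pow hf r).image _

theorem Nb.card_le {A : Set Γ} (hf : A.Finite) (r : ℕ) (x : X) :
    {y | Nb A r x y}.ncard ≤ (A ^ r).ncard := by
  have : {y | Nb A r x y} = (fun g : Γ => g • x) '' (A ^ r) := by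
    ext y
    simp [Nb]
  rw [this]
  exact Set.ncard_image_le (finite_pow hf r)

/-- points of infinite `⟨A (i-1)⟩`-orbit -/
def Lo (A : ℕ → Set Γ) : ℕ → Set X
  | 0 => ∅
  | i + 1 => {x | {y | ∃ g ∈ Subgroup.closure (A i), g • x = y}.Infinite}

theorem Lo_mono {A : ℕ → Set Γ} (hAm : ∀ n, A n ⊆ A (n + 1)) (i : ℕ) :
    (Lo A i : Set X) ⊆ Lo A (i + 1) := by
  cases i with
  | zero => exact empty_subset _
  | succ i =>
    intro x hx
    refine Set.Infinite.mono ?_ hx
    rintro y ⟨g, hg, rfl⟩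
    exact ⟨g, Subgroup.closure_mono (hAm i) hg, rfl⟩

theorem Lo_inv {A : ℕ → Set Γ} {i : ℕ} {x : X} (hx : x ∈ (Lo A (i + 1) : Set X)) {g : Γ}
    (hg : g ∈ Subgroup.closure (A i)) : g • x ∈ (Lo A (i + 1) : Set X) := by
  refine Set.Infinite.mono ?_ hx
  rintro y ⟨h, hh, rfl⟩
  refine ⟨h * g⁻¹, Subgroup.mul_mem _ hh (Subgroup.inv_mem _ hg), ?_⟩
  rw [mul_smul, inv_smul_smul]

theorem pow_mem_closure {A : Set Γ} {r : ℕ} {g : Γ} (hg : g ∈ A ^ r) : g ∈ Subgroup.closure A := by
  induction r generalizing g with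
  | zero =>
    rw [pow_zero, Set.mem_one] at hg
    rw [hg]
    exact Subgroup.one_mem _
  | succ n ih =>
    rw [pow_succ] at hg
    obtain ⟨a, ha, b, hb, rfl⟩ := Set.mem_mul.1 hg
    exact Subgroup.mul_mem _ (ih ha) (Subgroup.subset_closure hb)

theorem Lo_nb {A : ℕ → Set Γ} {i r : ℕ} {x y : X} (hx : x ∈ (Lo A (i + 1) : Set X))
    (h : Nb (A i) r x y) : y ∈ (Lo A (i + 1) : Set X) := by
  obtain ⟨g, hg, rfl⟩ := h
  exact Lo_inv hx (pow_mem_closure hg)

/-- balls grow strictly as long as the orbit is infinite -/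
theorem Lo_grow {A : Set Γ} (hf : A.Finite) (h1 : (1 : Γ) ∈ A) (hs : ∀ a ∈ A, a⁻¹ ∈ A) {x : X}
    (hx : {y | ∃ g ∈ Subgroup.closure A, g • x = y}.Infinite) (r : ℕ) :
    r + 1 ≤ {y | Nb A r x y}.ncard := by
  by_contra hlt
  push Not at hlt
  have h1' : 1 ≤ {y | Nb A 0 x y}.ncard := by
    exact (Set.ncard_pos (Nb.finite hf 0 x)).2 ⟨x, Nb.refl h1 0 x⟩
  -- there is `s < r` with equal balls
  have hex : ∃ s, {y | Nb A (s + 1) x y} = {y | Nb A s x y} := by
    by_contra hne
    push Not at hne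
    have hgrow : ∀ s, s + 1 ≤ {y | Nb A s x y}.ncard := by
      intro s
      induction s with
      | zero => exact h1'
      | succ s ih =>
        have hss : {y | Nb A s x y} ⊂ {y | Nb A (s + 1) x y} := by
          refine (Set.ssubset_iff_subset_ne).2 ⟨fun y hy => hy.mono h1 (Nat.le_succ s), (hne s).symm⟩
        have := Set.ncard_lt_ncard hss (Nb.finite hf _ x)
        omega
    have := hgrow r
    omega
  obtain ⟨s, hs'⟩ := hex
  apply hx
  refine (Nb.finite hf s x).subset ?_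
  rintro y ⟨g, hg, rfl⟩
  have key : ∀ z : X, Nb A s x z → ∀ a ∈ A, Nb A s x (a • z) := by
    intro z hz a ha
    have : a • z ∈ {y | Nb A (s + 1) x y} := hz.trans (Nb.one ha z)
    rw [hs'] at this
    exact this
  have : ∀ z : X, Nb A s x z → Nb A s x (g • z) := by
    refine Subgroup.closure_induction (p := fun g _ => ∀ z : X, Nb A s x z → Nb A s x (g • z))
      ?_ ?_ ?_ ?_ hg
    · intro a ha z hz
      exact key z hz a ha
    · intro z hz
      rwa [one_smul]
    · intro a b _ _ iha ihb z hz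
      rw [mul_smul]
      exact iha _ (ihb _ hz)
    · intro a ha iha z hz
      -- `a` permutes the finite ball
      have hinj : Set.InjOn (fun y : X => a • y) {y | Nb A s x y} := fun u _ v _ h =>
        MulAction.injective a h
      have hmaps : Set.MapsTo (fun y : X => a • y) {y | Nb A s x y} {y | Nb A s x y} := iha
      have hsurj : Set.SurjOn (fun y : X => a • y) {y | Nb A s x y} {y | Nb A s x y} := by
        have himg : (fun y : X => a • y) '' {y | Nb A s x y} = {y | Nb A s x y} := by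
          refine Set.eq_of_subset_of_ncard_le hmaps.image_subset ?_ (Nb.finite hf s x)
          rw [hinj.ncard_image]
        rw [Set.SurjOn, himg]
      obtain ⟨w, hw, hwz⟩ := hsurj hz
      have : a⁻¹ • z = w := by
        rw [← hwz]
        exact inv_smul_smul a w
      rw [this]
      exact hw
  exact this x (Nb.refl h1 s x)

section Meas

variable [Countable Γ] [MeasurableSpace X] [StandardBorelSpace X] [MeasurableConstSMul Γ X]

theorem Nb.meas (A : Set Γ) (r : ℕ) (g : Γ) : MeasurableSet {x : X | Nb A r x (g • x)} := by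
  have h : {x : X | Nb A r x (g • x)} = ⋃ k ∈ A ^ r, {x : X | k • x = g • x} := by
    ext x
    simp only [Nb, mem_ofPred_eq, mem_iUnion, exists_prop]
  rw [h]
  exact MeasurableSet.biUnion (Set.to_countable _) fun k _ =>
    measurableSet_eq' (measurable_const_smul k) (measurable_const_smul g)

theorem Lo_eq {A : Set Γ} (hf : A.Finite) (h1 : (1 : Γ) ∈ A) (hs : ∀ a ∈ A, a⁻¹ ∈ A) :
    {x : X | {y | ∃ g ∈ Subgroup.closure A, g • x = y}.Infinite} =
      ⋂ r : ℕ, {x | r + 1 ≤ {y | Nb A r x y}.ncard} := by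
  ext x
  simp only [mem_ofPred_eq, mem_iInter]
  refine ⟨fun hx r => Lo_grow hf h1 hs hx r, fun h hfin => ?_⟩
  have h2 := h ({y | ∃ g ∈ Subgroup.closure A, g • x = y}.ncard)
  have h3 : {y | Nb A ({y | ∃ g ∈ Subgroup.closure A, g • x = y}.ncard) x y}.ncard ≤
      {y | ∃ g ∈ Subgroup.closure A, g • x = y}.ncard := by
    refine Set.ncard_le_ncard ?_ hfin
    rintro y ⟨g, hg, rfl⟩
    exact ⟨g, pow_mem_closure hg, rfl⟩
  omega

/-- standing assumptions on the finite symmetric sets -/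
structure Hyp (A : ℕ → Set Γ) : Prop where
  one : ∀ n, 1 ∈ A n
  inv : ∀ n, ∀ a ∈ A n, a⁻¹ ∈ A n
  mono : ∀ n, A n ⊆ A (n + 1)
  fin : ∀ n, (A n).Finite

theorem Lo_meas {A : ℕ → Set Γ} (hA : Hyp A) (i : ℕ) : MeasurableSet (Lo A i : Set X) := by
  cases i with
  | zero => exact MeasurableSet.empty
  | succ i =>
    show MeasurableSet {x : X | {y | ∃ g ∈ Subgroup.closure (A i), g • x = y}.Infinite}
    rw [Lo_eq (hA.fin i) (hA.one i) (hA.inv i)]
    refine MeasurableSet.iInter fun r => ?_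
    have hm : Measurable fun x : X => {y | Nb (A i) r x y}.ncard := by
      refine measurable_ncard (G := Γ) (fun x y => Nb (A i) r x y) ?_ ?_ ?_
      · rintro x y ⟨g, _, hg⟩
        exact ⟨g, hg⟩
      · intro x
        exact Nb.finite (hA.fin i) r x
      · intro g
        exact Nb.meas (A i) r g
    exact measurableSet_le measurable_const hm

omit [Group Γ] [MulAction Γ X] [StandardBorelSpace X] [MeasurableConstSMul Γ X] in
/-- measurable selection from a countable family -/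
theorem exists_select [One Γ] (Q : Γ → Set X) (hQ : ∀ g, MeasurableSet (Q g)) :
    ∃ f : X → Γ, (∀ g, MeasurableSet {x | f x = g}) ∧ (∀ x g, x ∈ Q g → x ∈ Q (f x)) ∧
      ∀ x, (∀ g, x ∉ Q g) → f x = 1 := by
  classical
  obtain ⟨e, he⟩ := exists_injective_nat Γ
  -- least code
  let P : X → Γ → Prop := fun x g => x ∈ Q g ∧ ∀ k, x ∈ Q k → e g ≤ e k
  have hP : ∀ x g, x ∈ Q g → ∃ k, P x k := by
    intro x g hg
    have hne : ∃ n, ∃ k, e k = n ∧ x ∈ Q k := ⟨e g, g, rfl, hg⟩
    obtain ⟨k, hk, hkQ⟩ := Nat.find_spec hne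
    refine ⟨k, hkQ, fun l hl => ?_⟩
    rw [hk]
    exact Nat.find_min' hne ⟨l, rfl, hl⟩
  have huniq : ∀ x g k, P x g → P x k → g = k := by
    intro x g k hg hk
    exact he (le_antisymm (hg.2 k hk.1) (hk.2 g hg.1))
  have hPm : ∀ g, MeasurableSet {x | P x g} := by
    intro g
    have : {x | P x g} = Q g ∩ ⋂ k : Γ, {x | x ∈ Q k → e g ≤ e k} := by
      ext x
      simp only [P, mem_ofPred_eq, mem_inter_iff, mem_iInter]
    rw [this]
    refine (hQ g).inter (MeasurableSet.iInter fun k => ?_)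
    by_cases hk : e g ≤ e k
    · have : {x | x ∈ Q k → e g ≤ e k} = univ := by
        ext x
        simp [hk]
      rw [this]
      exact MeasurableSet.univ
    · have : {x | x ∈ Q k → e g ≤ e k} = (Q k)ᶜ := by
        ext x
        simp [hk]
      rw [this]
      exact (hQ k).compl
  refine ⟨fun x => if h : ∃ g, P x g then h.choose else 1, ?_, ?_, ?_⟩
  · intro g
    have : {x | (if h : ∃ g, P x g then h.choose else 1) = g} =
        {x | P x g} ∪ (if g = 1 then ⋂ k : Γ, {x | P x k}ᶜ else ∅) := by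
      ext x
      simp only [mem_ofPred_eq, mem_union]
      constructor
      · intro h
        by_cases hx : ∃ g, P x g
        · rw [dif_pos hx] at h
          left
          rw [← h]
          exact hx.choose_spec
        · rw [dif_neg hx] at h
          right
          rw [if_pos h.symm]
          simp only [mem_iInter, mem_compl_iff, mem_ofPred_eq]
          exact fun k hk => hx ⟨k, hk⟩
      · rintro (h | h)
        · have hx : ∃ g, P x g := ⟨g, h⟩
          rw [dif_pos hx]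
          exact huniq x _ _ hx.choose_spec h
        · split_ifs at h with hg
          · simp only [mem_iInter, mem_compl_iff, mem_ofPred_eq] at h
            have hx : ¬ ∃ g, P x g := fun ⟨k, hk⟩ => h k hk
            rw [dif_neg hx]
            exact hg.symm
          · exact absurd h (Set.notMem_empty x)
    rw [this]
    refine (hPm g).union ?_
    split_ifs
    · exact MeasurableSet.iInter fun k => (hPm k).compl
    · exact MeasurableSet.empty
  · intro x g hg
    have hx : ∃ g, P x g := hP x g hg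
    show x ∈ Q (if h : ∃ g, P x g then h.choose else 1)
    rw [dif_pos hx]
    exact hx.choose_spec.1
  · intro x hx
    have hx' : ¬ ∃ g, P x g := fun ⟨k, hk⟩ => hx k hk.1
    show (if h : ∃ g, P x g then h.choose else 1) = 1
    rw [dif_neg hx']

theorem measurable_sel {f : X → Γ} (hf : ∀ g, MeasurableSet {x | f x = g}) :
    Measurable fun x => f x • x := by
  intro B hB
  have h : (fun x => f x • x) ⁻¹' B = ⋃ g : Γ, {x | f x = g} ∩ {x | g • x ∈ B} := by
    ext x
    simp only [mem_preimage, mem_iUnion, mem_inter_iff, mem_ofPred_eq]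
    refine ⟨fun h => ⟨f x, rfl, h⟩, ?_⟩
    rintro ⟨g, rfl, h⟩
    exact h
  rw [h]
  exact MeasurableSet.iUnion fun g => (hf g).inter ((measurable_const_smul g) hB)

end Meas

section Param

/-- radius of the sets `VV` -/
def TT (c : ℕ → ℕ) (i R : ℕ) : ℕ := c i + i + 2 * (i + 1) * R

/-- half of the discreteness scale -/
noncomputable def hh (A : ℕ → Set Γ) (c : ℕ → ℕ) (i R : ℕ) : ℕ :=
  TT c i R + 1 + R + 2 ^ (i + 1) * ((A i) ^ (TT c i R)).ncard

/-- radius of the cells -/
noncomputable def RR (A : ℕ → Set Γ) (c : ℕ → ℕ) : ℕ → ℕ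
  | 0 => 0
  | i + 1 => RR A c i + 2 * hh A c i (RR A c i)

end Param

section Stage

variable [Countable Γ] [MeasurableSpace X] [StandardBorelSpace X] [MeasurableConstSMul Γ X]

/-- the data of the `i`-th stage of the construction -/
structure Stage (A : ℕ → Set Γ) (c : ℕ → ℕ) (X : Type) [MulAction Γ X] [MeasurableSpace X]
    (i : ℕ) where
  M : Set X
  rep : X → X
  hM : MeasurableSet M
  hMLo : M ⊆ Lo A i
  hrep : Measurable rep
  hout : ∀ x ∉ (Lo A i : Set X), rep x = x
  hin : ∀ x ∈ (Lo A i : Set X), rep x ∈ M ∧ Nb (A i) (RR A c i) x (rep x)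
  hfix : ∀ x ∈ M, rep x = x

/-- the relation between consecutive stages -/
structure StRel {A : ℕ → Set Γ} {c : ℕ → ℕ} {i : ℕ} (s : Stage A c X i)
    (s' : Stage A c X (i + 1)) : Prop where
  cell : ∀ z ∈ s'.M, ∀ r y, Nb (A i) r z y → r + RR A c i ≤ hh A c i (RR A c i) →
    y ∈ (Lo A (i + 1) : Set X) ∧ s'.rep y = z
  mono : ∀ x y, s.rep x = s.rep y → s'.rep x = s'.rep y

theorem exists_step {A : ℕ → Set Γ} (hA : Hyp A) {c : ℕ → ℕ} {i : ℕ} (s : Stage A c X i) :
    ∃ s' : Stage A c X (i + 1), StRel s s' := by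
  classical
  set h := hh A c i (RR A c i) with hhdef
  set S : Set X := s.M ∪ (Lo A (i + 1) \ Lo A i) with hS
  have hSm : MeasurableSet S := s.hM.union ((Lo_meas hA (i + 1)).diff (Lo_meas hA i))
  have hSLo : S ⊆ Lo A (i + 1) := by
    rintro x (hx | hx)
    · exact Lo_mono hA.mono i (s.hMLo hx)
    · exact hx.1
  have hsym : ∀ r, ∀ g ∈ (A i) ^ r, g⁻¹ ∈ (A i) ^ r := fun r g hg => pow_inv_mem (hA.inv i) hg
  have hone : ∀ r, (1 : Γ) ∈ (A i) ^ r := fun r => Set.one_mem_pow (hA.one i)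
  haveI : Finite ((A i) ^ (2 * h) : Set Γ) := (finite_pow (hA.fin i) (2 * h)).to_subtype
  obtain ⟨M', hM'S, hM'm, hdisc, hmax⟩ := exists_maxDisc
    (fun (g : ((A i) ^ (2 * h) : Set Γ)) (x : X) => (g : Γ) • x)
    (fun g => measurable_const_smul (g : Γ))
    (fun g => ⟨⟨(g : Γ)⁻¹, hsym _ _ g.2⟩, fun x => inv_smul_smul _ _⟩) hSm
  have hdisc' : ∀ x ∈ M', ∀ g ∈ (A i) ^ (2 * h), g • x ∈ M' → g • x = x :=
    fun x hx g hg => hdisc x hx ⟨g, hg⟩
  have hmax' : ∀ x ∈ S, ∃ g ∈ (A i) ^ (2 * h), g • x ∈ M' := by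
    intro x hx
    rcases hmax x hx with h1 | ⟨g, hg⟩
    · exact ⟨1, hone _, by rwa [one_smul]⟩
    · exact ⟨g.1, g.2, hg⟩
  have hpre : ∀ g : Γ, MeasurableSet {x : X | g • x ∈ M'} := fun g =>
    (measurable_const_smul g) hM'm
  let N : Set X := {x | ∃ g ∈ (A i) ^ h, g • x ∈ M'}
  have hN : MeasurableSet N := by
    have : N = ⋃ g ∈ (A i) ^ h, {x : X | g • x ∈ M'} := by
      ext x
      simp only [N, mem_ofPred_eq, mem_iUnion, exists_prop]
    rw [this]
    exact MeasurableSet.biUnion (Set.to_countable _) fun g _ => hpre g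
  let Q : Γ → Set X := fun g =>
    if g ∈ (A i) ^ h then S ∩ {x | g • x ∈ M'}
    else if g ∈ (A i) ^ (2 * h) then (S ∩ {x | g • x ∈ M'}) \ N else ∅
  have hQ : ∀ g, MeasurableSet (Q g) := by
    intro g
    show MeasurableSet (if g ∈ (A i) ^ h then S ∩ {x | g • x ∈ M'}
      else if g ∈ (A i) ^ (2 * h) then (S ∩ {x | g • x ∈ M'}) \ N else ∅)
    split_ifs
    · exact hSm.inter (hpre g)
    · exact (hSm.inter (hpre g)).diff hN
    · exact MeasurableSet.empty
  obtain ⟨f, hf, hf1, hf2⟩ := exists_select Q hQ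
  have hQS : ∀ x g, x ∈ Q g → x ∈ S := by
    intro x g hx
    simp only [Q] at hx
    split_ifs at hx
    · exact hx.1
    · exact hx.1.1
    · exact absurd hx (Set.notMem_empty x)
  have hQ2 : ∀ x g, x ∈ Q g → g ∈ (A i) ^ (2 * h) ∧ g • x ∈ M' ∧ (x ∈ N → g ∈ (A i) ^ h) := by
    intro x g hx
    simp only [Q] at hx
    split_ifs at hx with h1 h2
    · exact ⟨Set.pow_subset_pow_right (hA.one i) (by omega) h1, hx.2, fun _ => h1⟩
    · exact ⟨h2, hx.1.2, fun hN => absurd hN hx.2⟩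
    · exact absurd hx (Set.notMem_empty x)
  have hfS : ∀ x ∈ S, x ∈ Q (f x) := by
    intro x hx
    by_cases hxN : x ∈ N
    · obtain ⟨g, hg, hgM⟩ := hxN
      refine hf1 x g ?_
      simp only [Q, if_pos hg]
      exact ⟨hx, hgM⟩
    · obtain ⟨g, hg, hgM⟩ := hmax' x hx
      refine hf1 x g ?_
      have hg' : g ∉ (A i) ^ h := fun hg' => hxN ⟨g, hg', hgM⟩
      simp only [Q, if_neg hg', if_pos hg]
      exact ⟨⟨hx, hgM⟩, hxN⟩
  have hfout : ∀ x ∉ S, f x = 1 := fun x hx => hf2 x fun g hg => hx (hQS x g hg)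
  let par : X → X := fun x => f x • x
  have hparm : Measurable par := measurable_sel hf
  have hparout : ∀ x ∉ S, par x = x := by
    intro x hx
    show f x • x = x
    rw [hfout x hx, one_smul]
  have hparin : ∀ x ∈ S, par x ∈ M' ∧ Nb (A i) (2 * h) x (par x) := by
    intro x hx
    have := hQ2 x _ (hfS x hx)
    exact ⟨this.2.1, f x, this.1, rfl⟩
  have hparN : ∀ x ∈ S, x ∈ N → Nb (A i) h x (par x) := by
    intro x hx hxN
    exact ⟨f x, (hQ2 x _ (hfS x hx)).2.2 hxN, rfl⟩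
  have hparfix : ∀ x ∈ M', par x = x := by
    intro x hx
    have := hQ2 x _ (hfS x (hM'S hx))
    exact hdisc' x hx _ this.1 this.2.1
  have hrepS : ∀ x ∈ (Lo A (i + 1) : Set X), s.rep x ∈ S ∧ Nb (A i) (RR A c i) x (s.rep x) := by
    intro x hx
    by_cases hx' : x ∈ (Lo A i : Set X)
    · exact ⟨Or.inl (s.hin x hx').1, (s.hin x hx').2⟩
    · rw [s.hout x hx']
      exact ⟨Or.inr ⟨hx, hx'⟩, Nb.refl (hA.one i) _ x⟩
  refine ⟨⟨M', fun x => par (s.rep x), hM'm, fun x hx => hSLo (hM'S hx), hparm.comp s.hrep,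
    ?_, ?_, ?_⟩, ?_, ?_⟩
  · intro x hx
    have hx' : x ∉ (Lo A i : Set X) := fun h => hx (Lo_mono hA.mono i h)
    rw [s.hout x hx']
    exact hparout x fun h => hx (hSLo h)
  · intro x hx
    obtain ⟨h1, h2⟩ := hrepS x hx
    refine ⟨(hparin _ h1).1, ?_⟩
    have h3 := h2.trans (hparin _ h1).2
    exact h3.mono' (hA.mono i)
  · intro x hx
    have hrx : s.rep x = x := by
      rcases hM'S hx with h1 | h1
      · exact s.hfix x h1
      · exact s.hout x h1.2
    show par (s.rep x) = x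
    rw [hrx]
    exact hparfix x hx
  · intro z hz r y hzy hr
    have hy : y ∈ (Lo A (i + 1) : Set X) := Lo_nb (hSLo (hM'S hz)) hzy
    refine ⟨hy, ?_⟩
    obtain ⟨h1, h2⟩ := hrepS y hy
    have h3 : Nb (A i) h z (s.rep y) := (hzy.trans h2).mono (hA.one i) hr
    have h4 := h3.symm (hA.inv i)
    have h5 : s.rep y ∈ N := by
      obtain ⟨g, hg, hgz⟩ := h4
      exact ⟨g, hg, by rw [hgz]; exact hz⟩
    have h6 := hparN _ h1 h5
    have h7 : Nb (A i) (2 * h) z (par (s.rep y)) := by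
      rw [two_mul]
      exact h3.trans h6
    obtain ⟨g, hg, hgz⟩ := h7
    have := hdisc' z hz g hg (by rw [hgz]; exact (hparin _ h1).1)
    show par (s.rep y) = z
    rw [← hgz, this]
  · intro x y hxy
    show par (s.rep x) = par (s.rep y)
    rw [hxy]

/-- the zeroth stage -/
def stage0 (A : ℕ → Set Γ) (c : ℕ → ℕ) : Stage A c X 0 where
  M := ∅
  rep := fun x => x
  hM := MeasurableSet.empty
  hMLo := empty_subset _
  hrep := measurable_id
  hout := fun _ _ => rfl
  hin := fun x hx => absurd hx (Set.notMem_empty x)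
  hfix := fun x hx => absurd hx (Set.notMem_empty x)

theorem exists_stages {A : ℕ → Set Γ} (hA : Hyp A) (c : ℕ → ℕ) :
    ∃ s : ∀ i, Stage A c X i, ∀ i, StRel (s i) (s (i + 1)) := by
  classical
  choose F hF using fun (i : ℕ) (s : Stage A c X i) => exists_step hA s
  refine ⟨fun i => Nat.rec (stage0 A c) (fun i s => F i s) i, fun i => hF i _⟩

end Stage

section Rel

variable {A : ℕ → Set Γ} {c : ℕ → ℕ}

theorem A_mono (hA : ∀ n, A n ⊆ A (n + 1)) {i j : ℕ} (h : i ≤ j) : A i ⊆ A j :=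
  monotone_nat_of_le_succ hA h

theorem RR_mono {i j : ℕ} (h : i ≤ j) : RR A c i ≤ RR A c j := by
  have : Monotone (RR A c) := monotone_nat_of_le_succ fun n => by
    show RR A c n ≤ RR A c n + 2 * hh A c n (RR A c n)
    exact Nat.le_add_right _ _
  exact this h

variable [Countable Γ] [MeasurableSpace X] [StandardBorelSpace X] [MeasurableConstSMul Γ X]

/-- the finite relations -/
def FF (s : ∀ i, Stage A c X i) (i : ℕ) (x y : X) : Prop :=
  x = y ∨ (x ∈ (Lo A i : Set X) ∧ y ∈ (Lo A i : Set X) ∧ (s i).rep x = (s i).rep y)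

/-- saturation -/
def sat (F : X → X → Prop) (U : Set X) : Set X := {y | ∃ z ∈ U, F y z}

/-- neighbourhood -/
def nbd (B : Set Γ) (r : ℕ) (U : Set X) : Set X := {y | ∃ z ∈ U, Nb B r z y}

theorem sat_meas {F : X → X → Prop} (hF : FBR Γ F) {U : Set X} (hU : MeasurableSet U) :
    MeasurableSet (sat F U) := by
  have h : sat F U = ⋃ g : Γ, {y | F y (g • y)} ∩ {y | g • y ∈ U} := by
    ext y
    simp only [sat, mem_ofPred_eq, mem_iUnion, mem_inter_iff]
    constructor
    · rintro ⟨z, hz, hyz⟩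
      obtain ⟨g, rfl⟩ := hF.sub _ _ hyz
      exact ⟨g, hyz, hz⟩
    · rintro ⟨g, h1, h2⟩
      exact ⟨_, h2, h1⟩
  rw [h]
  exact MeasurableSet.iUnion fun g => (hF.meas g).inter ((measurable_const_smul g) hU)

theorem nbd_meas (B : Set Γ) (r : ℕ) {U : Set X} (hU : MeasurableSet U) :
    MeasurableSet (nbd B r U) := by
  have h : nbd B r U = ⋃ g ∈ B ^ r, {y : X | g⁻¹ • y ∈ U} := by
    ext y
    simp only [nbd, Nb, mem_ofPred_eq, mem_iUnion, exists_prop]
    constructor
    · rintro ⟨z, hz, g, hg, rfl⟩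
      exact ⟨g, hg, by rwa [inv_smul_smul]⟩
    · rintro ⟨g, hg, h⟩
      exact ⟨_, h, g, hg, smul_inv_smul _ _⟩
  rw [h]
  exact MeasurableSet.biUnion (Set.to_countable _) fun g _ => (measurable_const_smul g⁻¹) hU

variable (s : ∀ i, Stage A c X i)

theorem FF_equiv (i : ℕ) : Equivalence (FF s i) where
  refl := fun x => Or.inl rfl
  symm := by
    rintro x y (h | ⟨h1, h2, h3⟩)
    · exact Or.inl h.symm
    · exact Or.inr ⟨h2, h1, h3.symm⟩
  trans := by
    rintro x y z (h | ⟨h1, h2, h3⟩) (h' | ⟨h1', h2', h3'⟩)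
    · exact Or.inl (h.trans h')
    · rw [h]
      exact Or.inr ⟨h1', h2', h3'⟩
    · rw [← h']
      exact Or.inr ⟨h1, h2, h3⟩
    · exact Or.inr ⟨h1, h2', h3.trans h3'⟩

variable (hA : Hyp A)

include hA

theorem FF_nb {i : ℕ} {x y : X} (h : FF s i x y) : Nb (A i) (2 * RR A c i) x y := by
  rcases h with h | ⟨h1, h2, h3⟩
  · rw [h]
    exact Nb.refl (hA.one i) _ y
  · rw [two_mul]
    have h4 := ((s i).hin x h1).2
    have h5 := ((s i).hin y h2).2
    rw [h3] at h4
    exact h4.trans (h5.symm (hA.inv i))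

theorem FF_fbr (i : ℕ) : FBR Γ (FF s i) where
  equiv := FF_equiv s i
  sub := fun x y h => by
    obtain ⟨g, _, hg⟩ := FF_nb s hA h
    exact ⟨g, hg⟩
  fin := fun x => (Nb.finite (hA.fin i) (2 * RR A c i) x).subset fun y h => FF_nb s hA h
  meas := fun g => by
    have h : {x : X | FF s i x (g • x)} = {x | x = g • x} ∪ ((Lo A i ∩ {x | g • x ∈ Lo A i}) ∩
        {x | (s i).rep x = (s i).rep (g • x)}) := by
      ext x
      simp only [FF, mem_ofPred_eq, mem_union, mem_inter_iff, and_assoc]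
    rw [h]
    refine (measurableSet_eq' measurable_id (measurable_const_smul g)).union ?_
    refine ((Lo_meas hA i).inter ((measurable_const_smul g) (Lo_meas hA i))).inter ?_
    exact measurableSet_eq' (s i).hrep ((s i).hrep.comp (measurable_const_smul g))

variable (hs : ∀ i, StRel (s i) (s (i + 1)))

include hs in
theorem FF_mono (i : ℕ) (x y : X) (h : FF s i x y) : FF s (i + 1) x y := by
  rcases h with h | ⟨h1, h2, h3⟩
  · exact Or.inl h
  · exact Or.inr ⟨Lo_mono hA.mono i h1, Lo_mono hA.mono i h2, (hs i).mono x y h3⟩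

include hs in
theorem FF_mono_le {i j : ℕ} (hij : i ≤ j) {x y : X} (h : FF s i x y) : FF s j x y := by
  induction hij with
  | refl => exact h
  | step _ ih => exact FF_mono s hA hs _ _ _ ih

omit hA in
/-- the sets `V` -/
def VV (i : ℕ) : ℕ → Set X
  | 0 => sat (FF s i) (nbd (A i) (c i) (s (i + 1)).M)
  | j + 1 => sat (FF s (i - (j + 1))) (nbd (A (i - (j + 1))) 1 (VV i j))

theorem VV_meas (i j : ℕ) : MeasurableSet (VV s i j) := by
  induction j with
  | zero => exact sat_meas (FF_fbr s hA i) (nbd_meas _ _ (s (i + 1)).hM)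
  | succ j ih => exact sat_meas (FF_fbr s hA _) (nbd_meas _ _ ih)

omit hA in
theorem sat_inv {F : X → X → Prop} (hF : Equivalence F) {U : Set X} {x y : X}
    (hx : x ∈ sat F U) (h : F x y) : y ∈ sat F U := by
  obtain ⟨z, hz, hxz⟩ := hx
  exact ⟨z, hz, hF.trans (hF.symm h) hxz⟩

omit hA in
theorem VV_inv {i j : ℕ} {x y : X} (hx : x ∈ VV s i j) (h : FF s (i - j) x y) : y ∈ VV s i j := by
  cases j with
  | zero => exact sat_inv (FF_equiv s i) hx h
  | succ j => exact sat_inv (FF_equiv s _) hx h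

omit hA in
theorem VV_step {i j : ℕ} {x : X} (hx : x ∈ VV s i j) {a : Γ} (ha : a ∈ A (i - (j + 1))) :
    a • x ∈ VV s i (j + 1) :=
  ⟨a • x, ⟨x, hx, Nb.one ha x⟩, Or.inl rfl⟩

theorem VV_mono {i j k : ℕ} (hjk : j ≤ k) {x : X} (hx : x ∈ VV s i j) : x ∈ VV s i k := by
  induction hjk with
  | refl => exact hx
  | step _ ih =>
    have := VV_step s ih (hA.one _)
    rwa [one_smul] at this

theorem VV_ball {i j : ℕ} (hj : j ≤ i) {y : X} (hy : y ∈ VV s i j) :
    ∃ z ∈ (s (i + 1)).M, Nb (A i) (c i + j + 2 * (j + 1) * RR A c i) z y := by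
  induction j generalizing y with
  | zero =>
    obtain ⟨w, ⟨z, hz, hzw⟩, hyw⟩ := hy
    have h1 := hzw.trans ((FF_nb s hA hyw).symm (hA.inv i))
    exact ⟨z, hz, h1.mono (hA.one i) (by omega)⟩
  | succ j ih =>
    obtain ⟨w, ⟨v, hv, hvw⟩, hyw⟩ := hy
    obtain ⟨z, hz, hzv⟩ := ih (by omega) hv
    have hle : i - (j + 1) ≤ i := Nat.sub_le _ _
    have h1 := (hvw.trans ((FF_nb s hA hyw).symm (hA.inv _))).mono' (A_mono hA.mono hle)
    have h2 := hzv.trans h1
    refine ⟨z, hz, h2.mono (hA.one i) ?_⟩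
    have h3 : RR A c (i - (j + 1)) ≤ RR A c i := RR_mono hle
    nlinarith

theorem VV_TT {i j : ℕ} (hj : j ≤ i) {y : X} (hy : y ∈ VV s i j) :
    ∃ z ∈ (s (i + 1)).M, Nb (A i) (TT c i (RR A c i)) z y := by
  obtain ⟨z, hz, h⟩ := VV_ball s hA hj hy
  refine ⟨z, hz, h.mono (hA.one i) ?_⟩
  unfold TT
  have : 2 * (j + 1) * RR A c i ≤ 2 * (i + 1) * RR A c i :=
    Nat.mul_le_mul_right _ (by omega)
  omega

omit hA [Countable Γ] [MeasurableSpace X] [StandardBorelSpace X] [MeasurableConstSMul Γ X]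
  [MulAction Γ X] in
theorem TT_lt (i : ℕ) : TT c i (RR A c i) + 1 + RR A c i ≤ hh A c i (RR A c i) := by
  unfold hh
  exact Nat.le_add_right _ _

include hs in
theorem VV_cell {i j : ℕ} (hj : j ≤ i) {y : X} (hy : y ∈ VV s i j) :
    y ∈ (Lo A (i + 1) : Set X) ∧ (s (i + 1)).rep y ∈ (s (i + 1)).M ∧
      Nb (A i) (TT c i (RR A c i)) ((s (i + 1)).rep y) y := by
  obtain ⟨z, hz, h⟩ := VV_TT s hA hj hy
  have h1 := (hs i).cell z hz _ y h (by have := TT_lt (A := A) (c := c) i; omega)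
  rw [h1.2]
  exact ⟨h1.1, hz, h⟩

include hs in
theorem VV_cell' {i j : ℕ} (hj : j ≤ i) {y : X} (hy : y ∈ VV s i j) {a : Γ} (ha : a ∈ A i) :
    FF s (i + 1) y (a • y) := by
  obtain ⟨z, hz, h⟩ := VV_TT s hA hj hy
  have h1 := (hs i).cell z hz _ y h (by have := TT_lt (A := A) (c := c) i; omega)
  have h2 := (hs i).cell z hz _ _ (h.trans (Nb.one ha y)) (TT_lt i)
  exact Or.inr ⟨h1.1, h2.1, h1.2.trans h2.2.symm⟩

omit hA in
/-- the decreasing sets `Z` -/
def ZZ (k : ℕ) : Set X := (Lo A k)ᶜ ∪ ⋃ i : ℕ, {x | k ≤ i ∧ x ∈ VV s i (i - k)}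

theorem ZZ_meas (k : ℕ) : MeasurableSet (ZZ s k) := by
  refine (Lo_meas hA k).compl.union (MeasurableSet.iUnion fun i => ?_)
  by_cases h : k ≤ i
  · simp only [h, true_and]
    exact VV_meas s hA i (i - k)
  · simp only [h, false_and]
    exact MeasurableSet.empty

omit hA in
theorem mem_ZZ {k : ℕ} {x : X} :
    x ∈ ZZ s k ↔ x ∉ (Lo A k : Set X) ∨ ∃ i, k ≤ i ∧ x ∈ VV s i (i - k) := by
  simp only [ZZ, mem_union, mem_compl_iff, mem_iUnion, mem_ofPred_eq]

omit hA in
theorem ZZ_zero (x : X) : x ∈ ZZ s 0 := (mem_ZZ s).2 (Or.inl (Set.notMem_empty x))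

theorem ZZ_step {k : ℕ} {x : X} (hx : x ∈ ZZ s (k + 1)) {a : Γ} (ha : a ∈ A k) :
    a • x ∈ ZZ s k := by
  rw [mem_ZZ] at hx ⊢
  rcases hx with hx | ⟨i, hi, hx⟩
  · left
    intro h
    apply hx
    have h1 : a • x ∈ (Lo A (k + 1) : Set X) := Lo_mono hA.mono k h
    have h2 := Lo_inv h1 (Subgroup.inv_mem _ (Subgroup.subset_closure ha))
    rwa [inv_smul_smul] at h2
  · right
    refine ⟨i, by omega, ?_⟩
    have h1 : i - (i - (k + 1) + 1) = k := by omega
    have h2 := VV_step s hx (a := a) (by rw [h1]; exact ha)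
    have h3 : i - (k + 1) + 1 = i - k := by omega
    rwa [h3] at h2

theorem ZZ_anti {k l : ℕ} (hkl : k ≤ l) {x : X} (hx : x ∈ ZZ s l) : x ∈ ZZ s k := by
  induction hkl with
  | refl => exact hx
  | step _ ih =>
    apply ih
    have := ZZ_step s hA hx (hA.one _)
    rwa [one_smul] at this

omit hA in
theorem ZZ_inv {k : ℕ} {x y : X} (hx : x ∈ ZZ s k) (h : FF s k x y) : y ∈ ZZ s k := by
  rw [mem_ZZ] at hx ⊢
  rcases hx with hx | ⟨i, hi, hx⟩
  · left
    rcases h with h | h
    · rwa [← h]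
    · exact absurd h.1 hx
  · right
    refine ⟨i, hi, VV_inv s hx ?_⟩
    have : i - (i - k) = k := by omega
    rwa [this]

omit hA in
/-- the bad set -/
def Bd : Set X := ⋂ k, ZZ s k

theorem Bd_meas : MeasurableSet (Bd s) := MeasurableSet.iInter fun k => ZZ_meas s hA k

theorem Bd_inv (hAu : ∀ g, ∃ n, g ∈ A n) : Inv Γ (Bd s) := by
  intro g x hx
  obtain ⟨m, hm⟩ := hAu g
  refine Set.mem_iInter.2 fun k => ?_
  have h1 : x ∈ ZZ s (max k m + 1) := Set.mem_iInter.1 hx _
  have h2 := ZZ_step s hA h1 (A_mono hA.mono (le_max_right k m) hm)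
  exact ZZ_anti s hA (le_max_left k m) h2

end Rel

section Aux

/-- least witnesses are measurable -/
theorem measurable_sInf_nat {Y : Type} [MeasurableSpace Y] (P : Y → ℕ → Prop)
    (hP : ∀ n, MeasurableSet {x | P x n}) : Measurable fun x => sInf {n | P x n} := by
  classical
  refine measurable_to_countable' fun n => ?_
  have h : (fun x => sInf {n | P x n}) ⁻¹' {n} =
      ({x | P x n} ∩ ⋂ j : ℕ, {x | j < n → ¬ P x j}) ∪
        (if n = 0 then ⋂ j : ℕ, {x | P x j}ᶜ else ∅) := by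
    ext x
    simp only [mem_preimage, mem_singleton_iff, mem_union, mem_inter_iff, mem_ofPred_eq, mem_iInter]
    constructor
    · intro hx
      by_cases hne : {n | P x n}.Nonempty
      · left
        refine ⟨?_, fun j hj => ?_⟩
        · have := Nat.sInf_mem hne
          rwa [hx] at this
        · rw [← hx] at hj
          exact Nat.notMem_of_lt_sInf hj
      · right
        rw [Set.not_nonempty_iff_eq_empty] at hne
        rw [hne, Nat.sInf_empty] at hx
        rw [if_pos hx.symm]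
        simp only [mem_iInter, mem_compl_iff, mem_ofPred_eq]
        intro j hj
        have : j ∈ {n | P x n} := hj
        rw [hne] at this
        exact this
    · rintro (⟨h1, h2⟩ | h)
      · refine le_antisymm (Nat.sInf_le h1) ?_
        by_contra hlt
        push Not at hlt
        exact h2 _ hlt (Nat.sInf_mem ⟨n, h1⟩)
      · split_ifs at h with hn
        · simp only [mem_iInter, mem_compl_iff, mem_ofPred_eq] at h
          have : {n | P x n} = ∅ := by
            ext j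
            simp only [mem_ofPred_eq, mem_empty_iff_false, iff_false]
            exact h j
          rw [this, Nat.sInf_empty, hn]
        · exact absurd h (Set.notMem_empty x)
  rw [h]
  refine MeasurableSet.union ((hP n).inter (MeasurableSet.iInter fun j => ?_)) ?_
  · by_cases hj : j < n
    · simp only [hj, true_imp_iff]
      exact (hP j).compl
    · simp only [hj, false_imp_iff]
      exact MeasurableSet.univ
  · split_ifs
    · exact MeasurableSet.iInter fun j => (hP j).compl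
    · exact MeasurableSet.empty

/-- the geometric count -/
theorem sum_le_of_geom {p : ℕ → ℕ} {q n : ℕ} (h : ∀ i < n, p i * 2 ^ (i + 1) ≤ q) :
    ∑ i ∈ Finset.range n, p i ≤ q := by
  have key : ∀ m ≤ n, (∑ i ∈ Finset.range m, p i) * 2 ^ m + q ≤ q * 2 ^ m := by
    intro m hm
    induction m with
    | zero => simp
    | succ m ih =>
      have h1 := ih (by omega)
      have h2 := h m (by omega)
      rw [Finset.sum_range_succ, add_mul]
      have h3 : (∑ i ∈ Finset.range m, p i) * 2 ^ (m + 1) =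
          2 * ((∑ i ∈ Finset.range m, p i) * 2 ^ m) := by ring
      have h4 : q * 2 ^ (m + 1) = 2 * (q * 2 ^ m) := by ring
      rw [h3, h4]
      omega
  have h1 := key n le_rfl
  have h2 : (∑ i ∈ Finset.range n, p i) * 2 ^ n ≤ q * 2 ^ n := by omega
  exact Nat.le_of_mul_le_mul_right h2 (by positivity)

end Aux

section Good

variable {A : ℕ → Set Γ} {c : ℕ → ℕ}

variable [Countable Γ] [MeasurableSpace X] [StandardBorelSpace X] [MeasurableConstSMul Γ X]
  (s : ∀ i, Stage A c X i)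

/-- the depth -/
noncomputable def DD (x : X) : ℕ := sInf {k | x ∉ ZZ s (k + 1)}

variable (hA : Hyp A)

theorem DD_spec {x : X} (hx : x ∉ Bd s) : x ∈ ZZ s (DD s x) ∧ x ∉ ZZ s (DD s x + 1) := by
  have h1 : ∃ k, x ∉ ZZ s k := by
    by_contra h
    push Not at h
    exact hx (Set.mem_iInter.2 h)
  obtain ⟨k, hk⟩ := h1
  have h2 : {k | x ∉ ZZ s (k + 1)}.Nonempty := by
    cases k with
    | zero => exact absurd (ZZ_zero s x) hk
    | succ k => exact ⟨k, hk⟩
  have h3 : x ∉ ZZ s (DD s x + 1) := Nat.sInf_mem h2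
  refine ⟨?_, h3⟩
  rcases Nat.eq_zero_or_pos (DD s x) with h0 | h0
  · rw [h0]
    exact ZZ_zero s x
  · obtain ⟨m, hm⟩ := Nat.exists_eq_succ_of_ne_zero h0.ne'
    have h4 : m ∉ {k | x ∉ ZZ s (k + 1)} := Nat.notMem_of_lt_sInf (by
      show m < DD s x
      omega)
    rw [hm]
    simpa using h4

include hA in
theorem DD_eq {x : X} {k : ℕ} (h1 : x ∈ ZZ s k) (h2 : x ∉ ZZ s (k + 1)) :
    x ∉ Bd s ∧ DD s x = k := by
  have h3 : x ∉ Bd s := fun h => h2 (Set.mem_iInter.1 h _)
  refine ⟨h3, ?_⟩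
  obtain ⟨h4, h5⟩ := DD_spec s h3
  rcases lt_trichotomy (DD s x) k with h | h | h
  · exact absurd (ZZ_anti s hA (by omega) h1) h5
  · exact h
  · exact absurd (ZZ_anti s hA (by omega) h4) h2

include hA in
theorem DD_meas : Measurable (DD s) :=
  measurable_sInf_nat (fun x k => x ∉ ZZ s (k + 1)) fun n => (ZZ_meas s hA (n + 1)).compl

/-- the blocks -/
def BB (x y : X) : Prop :=
  x = y ∨ ((x ∉ Bd s ∧ y ∉ Bd s) ∧ DD s x = DD s y ∧ FF s (DD s x + 1) x y)

include hA in
theorem BB_fbr : FBR Γ (BB s) where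
  equiv := {
    refl := fun x => Or.inl rfl
    symm := by
      rintro x y (h | ⟨⟨h1, h2⟩, h3, h4⟩)
      · exact Or.inl h.symm
      · refine Or.inr ⟨⟨h2, h1⟩, h3.symm, ?_⟩
        rw [← h3]
        exact (FF_equiv s _).symm h4
    trans := by
      rintro x y z (h | ⟨⟨h1, h2⟩, h3, h4⟩) (h' | ⟨⟨h1', h2'⟩, h3', h4'⟩)
      · exact Or.inl (h.trans h')
      · rw [h]
        exact Or.inr ⟨⟨h1', h2'⟩, h3', h4'⟩
      · rw [← h']
        exact Or.inr ⟨⟨h1, h2⟩, h3, h4⟩
      · refine Or.inr ⟨⟨h1, h2'⟩, h3.trans h3', ?_⟩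
        rw [← h3] at h4'
        exact (FF_equiv s _).trans h4 h4' }
  sub := by
    rintro x y (h | ⟨_, _, h4⟩)
    · exact ⟨1, by rw [one_smul, h]⟩
    · exact (FF_fbr s hA _).sub x y h4
  fin := by
    intro x
    refine ((FF_fbr s hA (DD s x + 1)).fin x).subset ?_
    rintro y (h | ⟨_, _, h4⟩)
    · exact Or.inl h
    · exact h4
  meas := by
    intro g
    have h : {x : X | BB s x (g • x)} = {x | x = g • x} ∪ (((Bd s)ᶜ ∩ {x | g • x ∈ (Bd s)ᶜ}) ∩
        ({x | DD s x = DD s (g • x)} ∩ ⋃ k : ℕ, ({x | DD s x = k} ∩ {x | FF s (k + 1) x (g • x)}))) := by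
      ext x
      simp only [BB, mem_ofPred_eq, mem_union, mem_inter_iff, mem_iUnion, mem_compl_iff]
      constructor
      · rintro (h | ⟨h1, h2, h3⟩)
        · exact Or.inl h
        · exact Or.inr ⟨h1, h2, _, rfl, h3⟩
      · rintro (h | ⟨h1, h2, k, hk, h3⟩)
        · exact Or.inl h
        · rw [← hk] at h3
          exact Or.inr ⟨h1, h2, h3⟩
    rw [h]
    have hB := (Bd_meas s hA).compl
    refine (measurableSet_eq' measurable_id (measurable_const_smul g)).union ?_
    refine (hB.inter ((measurable_const_smul g) hB)).inter ?_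
    refine (measurableSet_eq_fun (DD_meas s hA)
      ((DD_meas s hA).comp (measurable_const_smul g))).inter ?_
    refine MeasurableSet.iUnion fun k => ?_
    exact ((DD_meas s hA) (measurableSet_singleton k)).inter ((FF_fbr s hA (k + 1)).meas g)

variable (hs : ∀ i, StRel (s i) (s (i + 1)))

theorem DD_lo {x : X} (hx : x ∉ Bd s) : x ∈ (Lo A (DD s x + 1) : Set X) := by
  by_contra h
  exact (DD_spec s hx).2 ((mem_ZZ s).2 (Or.inl h))

include hA hs in
theorem BB_sz {x : X} (hx : x ∉ Bd s) : c (DD s x) ≤ sz (BB s) x := by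
  set k := DD s x with hk
  obtain ⟨h1, h2⟩ := DD_spec s hx
  rw [← hk] at h1 h2
  have h3 : x ∈ (Lo A (k + 1) : Set X) := DD_lo s hx
  obtain ⟨hz, -⟩ := (s (k + 1)).hin x h3
  set z := (s (k + 1)).rep x with hzdef
  have hzLo : z ∈ (Lo A (k + 1) : Set X) := (s (k + 1)).hMLo hz
  have h4 := Lo_grow (hA.fin k) (hA.one k) (hA.inv k) hzLo (c k)
  have h5 : {y | Nb (A k) (c k) z y} ⊆ {y | BB s x y} := by
    intro y hy
    have h6 := (hs k).cell z hz _ y hy (by
      have h7 := TT_lt (A := A) (c := c) k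
      have h8 : c k ≤ TT c k (RR A c k) := by
        unfold TT
        omega
      omega)
    have h7 : FF s (k + 1) x y := Or.inr ⟨h3, h6.1, h6.2.symm⟩
    have h8 : y ∈ VV s k 0 := ⟨y, ⟨z, hz, hy⟩, Or.inl rfl⟩
    have h9 : y ∈ ZZ s k := (mem_ZZ s).2 (Or.inr ⟨k, le_rfl, by rwa [Nat.sub_self]⟩)
    have h10 : y ∉ ZZ s (k + 1) := fun h => h2 (ZZ_inv s h ((FF_equiv s _).symm h7))
    obtain ⟨h11, h12⟩ := DD_eq s hA h9 h10
    exact Or.inr ⟨⟨hx, h11⟩, by rw [h12], h7⟩
  have h6 := Set.ncard_le_ncard h5 ((BB_fbr s hA).fin x)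
  unfold sz
  omega

include hA in
theorem DD_smul {m k : ℕ} {g : Γ} (hg : g ∈ A m) {x : X} (hx : x ∉ Bd s) (hk : DD s x ≤ k) :
    DD s (g • x) ≤ max m (k + 1) := by
  refine Nat.sInf_le ?_
  show g • x ∉ ZZ s (max m (k + 1) + 1)
  intro h
  have h1 := ZZ_step s hA h (a := g⁻¹) (hA.inv _ _ (A_mono hA.mono (le_max_left _ _) hg))
  rw [inv_smul_smul] at h1
  refine (DD_spec s hx).2 (ZZ_anti s hA ?_ h1)
  have := le_max_right m (k + 1)
  omega

theorem Lo_mono_le (hAm : ∀ n, A n ⊆ A (n + 1)) {i j : ℕ} (h : i ≤ j) :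
    (Lo A i : Set X) ⊆ Lo A j := by
  induction h with
  | refl => exact subset_rfl
  | step _ ih => exact ih.trans (Lo_mono hAm _)

variable (hX : ∀ x : X, ∃ n, {y | ∃ g ∈ Subgroup.closure (A n), g • x = y}.Infinite)

include hA hX in
theorem Bd_deep {x : X} (hx : x ∈ Bd s) (m : ℕ) : ∃ i k, m ≤ k ∧ k ≤ i ∧ x ∈ VV s i (i - k) := by
  obtain ⟨n, hn⟩ := hX x
  have h1 : x ∈ (Lo A (max (n + 1) m) : Set X) := Lo_mono_le hA.mono (le_max_left _ _) hn
  have h2 : x ∈ ZZ s (max (n + 1) m) := Set.mem_iInter.1 hx _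
  rcases (mem_ZZ s).1 h2 with h3 | ⟨i, hi, h3⟩
  · exact absurd h1 h3
  · exact ⟨i, _, le_max_right _ _, hi, h3⟩

include hA hX hs in
theorem Bd_hyp (hAu : ∀ g, ∃ n, g ∈ A n) : HypOn Γ (Bd s) := by
  refine ⟨FF s, FF_fbr s hA, FF_mono s hA hs, fun x hx g => ?_⟩
  obtain ⟨m, hm⟩ := hAu g
  obtain ⟨i, k, hmk, hki, hi⟩ := Bd_deep s hA hX hx m
  exact ⟨i + 1, VV_cell' s hA hs (Nat.sub_le _ _) hi (A_mono hA.mono (by omega) hm)⟩

open Classical in
include hA hs in
theorem fiber_count {i n : ℕ} (hin : i < n) (x : X) (Q : Finset X) (hQ : ∀ y, y ∈ Q ↔ FF s n x y) :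
    (Q.filter fun y => y ∈ VV s i i).card * 2 ^ (i + 1) ≤ Q.card := by
  set T := TT c i (RR A c i) with hT
  set a := ((A i) ^ T).ncard with ha
  set rep := (s (i + 1)).rep with hrep
  set P := Q.filter fun y => y ∈ VV s i i with hP
  have hz : ∀ z ∈ P.image rep, ∃ y ∈ Q, y ∈ VV s i i ∧ rep y = z := by
    intro z hz
    obtain ⟨y, hy, hyz⟩ := Finset.mem_image.1 hz
    rw [hP, Finset.mem_filter] at hy
    exact ⟨y, hy.1, hy.2, hyz⟩
  have hup : P.card ≤ a * (P.image rep).card := by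
    refine Finset.card_le_mul_card_image P a fun z hz => ?_
    have h1 : ((P.filter fun y => rep y = z : Finset X) : Set X) ⊆ {y | Nb (A i) T z y} := by
      intro y hy
      rw [Finset.mem_coe, Finset.mem_filter, hP, Finset.mem_filter] at hy
      have h2 := (VV_cell s hA hs le_rfl hy.1.2).2.2
      rw [← hrep, hy.2] at h2
      exact h2
    have h2 := Set.ncard_le_ncard h1 (Nb.finite (hA.fin i) T z)
    rw [Set.ncard_coe_finset] at h2
    exact h2.trans (Nb.card_le (hA.fin i) T z)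
  have hlow : (2 ^ (i + 1) * a) * (P.image rep).card ≤
      (Q.filter fun y => rep y ∈ P.image rep).card := by
    refine Finset.mul_card_image_le_card_of_maps_to (f := rep) ?_ _ ?_
    · intro y hy
      exact (Finset.mem_filter.1 hy).2
    · intro z hz'
      obtain ⟨y, hyQ, hyV, hyz⟩ := hz z hz'
      obtain ⟨h1, h2, -⟩ := VV_cell s hA hs le_rfl hyV
      rw [← hrep, hyz] at h2
      have hzLo : z ∈ (Lo A (i + 1) : Set X) := (s (i + 1)).hMLo h2
      have h3 := Lo_grow (hA.fin i) (hA.one i) (hA.inv i) hzLo (2 ^ (i + 1) * a)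
      have h4 : {w | Nb (A i) (2 ^ (i + 1) * a) z w} ⊆
          ((((Q.filter fun y => rep y ∈ P.image rep).filter fun y => rep y = z : Finset X)) :
            Set X) := by
        intro w hw
        have h5 := (hs i).cell z h2 _ w hw (by
          show 2 ^ (i + 1) * a + RR A c i ≤ T + 1 + RR A c i + 2 ^ (i + 1) * a
          omega)
        rw [Finset.mem_coe, Finset.mem_filter, Finset.mem_filter]
        refine ⟨⟨(hQ w).2 ?_, ?_⟩, h5.2⟩
        · have h6 : FF s (i + 1) y w := Or.inr ⟨h1, h5.1, by rw [h5.2]; exact hyz⟩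
          exact (FF_equiv s n).trans ((hQ y).1 hyQ) (FF_mono_le s hA hs (by omega) h6)
        · rw [hrep, h5.2]
          exact hz'
      have h5 := Set.ncard_le_ncard h4 (Finset.finite_toSet _)
      rw [Set.ncard_coe_finset] at h5
      omega
  have h6 : (Q.filter fun y => rep y ∈ P.image rep).card ≤ Q.card :=
    Finset.card_le_card (Finset.filter_subset _ _)
  calc P.card * 2 ^ (i + 1) ≤ (a * (P.image rep).card) * 2 ^ (i + 1) :=
        Nat.mul_le_mul_right _ hup
    _ = (2 ^ (i + 1) * a) * (P.image rep).card := by ring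
    _ ≤ _ := hlow.trans h6

open Classical in
include hA hX hs in
theorem Bd_compr (hAu : ∀ g, ∃ n, g ∈ A n) : ComprOn Γ (Bd s) := by
  let J : X → ℕ → Prop := fun x i => x ∈ VV s i i
  let st : X → ℕ → ℕ := fun x l => sInf {n | l < Nat.count (J x) n}
  have hBm := Bd_meas s hA
  have hBi := Bd_inv s hA hAu
  have hcm : ∀ n, Measurable fun x => Nat.count (J x) n := by
    intro n
    induction n with
    | zero => simp only [Nat.count_zero]; exact measurable_const
    | succ n ih =>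
      simp only [Nat.count_succ]
      exact ih.add (Measurable.ite (VV_meas s hA n n) measurable_const measurable_const)
  have hst : ∀ l, Measurable fun x => st x l := by
    intro l
    exact measurable_sInf_nat (fun x n => l < Nat.count (J x) n) fun n =>
      measurableSet_lt measurable_const (hcm n)
  have hJinf : ∀ x ∈ Bd s, (Set.ofPred (J x)).Infinite := by
    intro x hx
    refine Set.infinite_of_not_bddAbove ?_
    rintro ⟨b, hb⟩
    obtain ⟨i, k, h1, h2, h3⟩ := Bd_deep s hA hX hx (b + 1)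
    have h4 : i ∈ Set.ofPred (J x) := VV_mono s hA (Nat.sub_le i k) h3
    have := hb h4
    omega
  have hstle : ∀ x ∈ Bd s, ∀ l n, st x l ≤ n ↔ l < Nat.count (J x) n := by
    intro x hx l n
    constructor
    · intro h
      have hne : {n | l < Nat.count (J x) n}.Nonempty := by
        refine ⟨Nat.nth (J x) l + 1, ?_⟩
        show l < Nat.count (J x) (Nat.nth (J x) l + 1)
        rw [Nat.count_nth_succ_of_infinite (hJinf x hx)]
        exact Nat.lt_succ_self l
      have h1 : l < Nat.count (J x) (st x l) := Nat.sInf_mem hne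
      exact h1.trans_le (Nat.count_monotone _ h)
    · intro h
      exact Nat.sInf_le h
  obtain ⟨φ, hφm, hφ1, hφ2⟩ := matching (FF s) (FF_fbr s hA) (FF_mono s hA hs)
    (A := {p : X × ℕ | p.1 ∈ Bd s}) (fun l => hBm) (T := Bd s) hBm st hst (by
      intro n x
      by_cases hx : x ∈ Bd s
      · set Q : Finset X := ((FF_fbr s hA n).fin x).toFinset with hQdef
        have hQ : ∀ y, y ∈ Q ↔ FF s n x y := by
          intro y
          rw [hQdef, Set.Finite.mem_toFinset]
          rfl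
        have hQB : ∀ y ∈ Q, y ∈ Bd s := by
          intro y hy
          obtain ⟨g, rfl⟩ := (FF_fbr s hA n).sub _ _ ((hQ y).1 hy)
          exact hBi g x hx
        have hR : {y | y ∈ Bd s ∧ FF s n x y} = (Q : Set X) := by
          ext y
          rw [Finset.mem_coe, mem_ofPred_eq]
          exact ⟨fun h => (hQ y).2 h.2, fun h => ⟨hQB y h, (hQ y).1 h⟩⟩
        rw [hR, Set.encard_coe_eq_coe_finsetCard]
        have hL : {p : X × ℕ | p ∈ {p : X × ℕ | p.1 ∈ Bd s} ∧ FF s n x p.1 ∧ st p.1 p.2 ≤ n} ⊆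
            ((Q.sigma fun y => Finset.range (Nat.count (J y) n)).image
              fun p : (_ : X) × ℕ => (p.1, p.2) : Finset (X × ℕ)) := by
          rintro ⟨y, l⟩ ⟨h1, h2, h3⟩
          rw [Finset.mem_coe, Finset.mem_image]
          refine ⟨⟨y, l⟩, ?_, rfl⟩
          rw [Finset.mem_sigma]
          exact ⟨(hQ y).2 h2, Finset.mem_range.2 ((hstle y h1 l n).1 h3)⟩
        refine (Set.encard_le_encard hL).trans ?_
        rw [Set.encard_coe_eq_coe_finsetCard]
        have h1 := Finset.card_image_le (s := Q.sigma fun y => Finset.range (Nat.count (J y) n))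
          (f := fun p : (_ : X) × ℕ => (p.1, p.2))
        rw [Finset.card_sigma] at h1
        simp only [Finset.card_range] at h1
        have h2 : ∑ y ∈ Q, Nat.count (J y) n =
            ∑ i ∈ Finset.range n, (Q.filter fun y => y ∈ VV s i i).card := by
          simp only [Nat.count_eq_card_filter_range, Finset.card_filter]
          rw [Finset.sum_comm]
        have h3 : ∑ i ∈ Finset.range n, (Q.filter fun y => y ∈ VV s i i).card ≤ Q.card :=
          sum_le_of_geom fun i hi => fiber_count s hA hs hi x Q hQ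
        rw [← h2] at h3
        exact_mod_cast h1.trans h3
      · have hL : {p : X × ℕ | p ∈ {p : X × ℕ | p.1 ∈ Bd s} ∧ FF s n x p.1 ∧ st p.1 p.2 ≤ n} =
            ∅ := by
          ext ⟨y, l⟩
          simp only [mem_ofPred_eq, mem_empty_iff_false, iff_false, not_and]
          intro hy hxy
          exfalso
          obtain ⟨g, hg⟩ := (FF_fbr s hA n).sub _ _ ((FF_equiv s n).symm hxy)
          exact hx (hg ▸ hBi g y hy)
        rw [hL, Set.encard_empty]
        exact zero_le)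
  refine ⟨φ, hφm, fun x hx l => ?_, fun x hx y hy m n h => ?_⟩
  · exact (FF_fbr s hA _).sub _ _ (hφ1 (x, l) hx).2
  · have := hφ2 (x, m) hx (y, n) hy h
    exact ⟨congrArg Prod.fst this, congrArg Prod.snd this⟩

end Good

end GB

/-- M6: good part with depth function and blocks, bad part compressible and hyperfinite -/
theorem good_bad {Γ X : Type} [Group Γ] [Countable Γ] [MeasurableSpace X] [StandardBorelSpace X]
    [MulAction Γ X] [MeasurableConstSMul Γ X] (A : ℕ → Finset Γ) (hA1 : ∀ n, 1 ∈ A n)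
    (hAs : ∀ n, ∀ a ∈ A n, a⁻¹ ∈ A n) (hAm : ∀ n, A n ⊆ A (n + 1)) (hAu : ∀ g, ∃ n, g ∈ A n)
    (hX : ∀ x : X, ∃ n,
      {y | ∃ g ∈ Subgroup.closure (A n : Set Γ), g • x = y}.Infinite) (c : ℕ → ℕ) :
    ∃ (Bad : Set X) (D : X → ℕ) (B : X → X → Prop), MeasurableSet Bad ∧ Inv Γ Bad ∧
      ComprOn Γ Bad ∧ HypOn Γ Bad ∧ Measurable D ∧ FBR Γ B ∧
      (∀ (g : Γ) k, ∃ m, ∀ x ∉ Bad, D x ≤ k → D (g • x) ≤ m) ∧
      (∀ x ∉ Bad, ∀ y, B x y → D y = D x) ∧
      (∀ x ∉ Bad, c (D x) ≤ sz B x) ∧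
      (∀ k, ∃ S : Finset Γ, ∀ x ∉ Bad, D x = k → ∀ y, B x y → ∃ g ∈ S, g • x = y) ∧
      (∀ k l, ∃ S : Finset Γ, ∀ x ∉ Bad, D x = k → l ≤ ((fun g : Γ => g • x) '' S).ncard) := by
  let A' : ℕ → Set Γ := fun n => (A n : Set Γ)
  have hA : GB.Hyp A' :=
    { one := fun n => Finset.mem_coe.2 (hA1 n)
      inv := fun n a ha => Finset.mem_coe.2 (hAs n a (Finset.mem_coe.1 ha))
      mono := fun n => Finset.coe_subset.2 (hAm n)
      fin := fun n => Finset.finite_toSet _ }
  have hAu' : ∀ g, ∃ n, g ∈ A' n := hAu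
  obtain ⟨s, hs⟩ := GB.exists_stages (X := X) hA c
  refine ⟨GB.Bd s, GB.DD s, GB.BB s, GB.Bd_meas s hA, GB.Bd_inv s hA hAu',
    GB.Bd_compr s hA hs hX hAu', GB.Bd_hyp s hA hs hX hAu', GB.DD_meas s hA, GB.BB_fbr s hA,
    ?_, ?_, ?_, ?_, ?_⟩
  · intro g k
    obtain ⟨m, hm⟩ := hAu' g
    exact ⟨max m (k + 1), fun x hx hk => GB.DD_smul s hA hm hx hk⟩
  · rintro x hx y (h | ⟨_, h, _⟩)
    · rw [h]
    · exact h.symm
  · intro x hx
    exact GB.BB_sz s hA hs hx
  · intro k
    refine ⟨(GB.finite_pow (hA.fin (k + 1)) (2 * GB.RR A' c (k + 1))).toFinset,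
      fun x hx hk y hy => ?_⟩
    have h : GB.Nb (A' (k + 1)) (2 * GB.RR A' c (k + 1)) x y := by
      rcases hy with hy | ⟨_, _, hy⟩
      · rw [hy]
        exact GB.Nb.refl (hA.one _) _ y
      · rw [hk] at hy
        exact GB.FF_nb s hA hy
    obtain ⟨g, hg, hgx⟩ := h
    exact ⟨g, (Set.Finite.mem_toFinset _).2 hg, hgx⟩
  · intro k l
    refine ⟨(GB.finite_pow (hA.fin k) l).toFinset, fun x hx hk => ?_⟩
    have h1 := GB.DD_lo s hx
    rw [hk] at h1
    have h2 := GB.Lo_grow (hA.fin k) (hA.one k) (hA.inv k) h1 l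
    have h3 : {y | GB.Nb (A' k) l x y} =
        (fun g : Γ => g • x) '' ((GB.finite_pow (hA.fin k) l).toFinset : Set Γ) := by
      rw [Set.Finite.coe_toFinset]
      rfl
    rw [← h3]
    omega

end Pool.Agent.CAR
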