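import Pool.Agent.CAR.M7bF
import Pool.Agent.CAR.M1
import Pool.Agent.CAR.M5

/-!
# Module M7b: the gluing theorem and its corollary for uniformly aperiodic spaces
-/

set_option autoImplicit false
set_option linter.unusedVariables false

namespace Pool.Agent.CAR

open Set MeasureTheory Filter Topology Uniformity

namespace M7b

section sep

variable {Γ : Type} [Group Γ] {X : Type} [MulAction Γ X] {K σ : Type} [UniformSpace K] {α : Type}
  {D : X → ℕ} {π : X → K} {A : σ → Set X}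

theorem FD.shift {F : X → α} (hF : FD Γ (BB D A) F) (y : YS Γ D π A) {g g' : Γ}
    (e : sh g y.1.1 = sh g' y.1.1) : ∀ᶠ x in FF y, F (g • x) = F (g' • x) := by
  obtain ⟨J, hJ⟩ := hF
  have h1 : ∀ g : Γ, ∀ᶠ x in FF y, ∀ j ∈ J, ee Γ (BB D A) (g • x) j = sh g y.1.1 j := by
    intro g
    refine (Finset.eventually_all J).2 fun j _ => ?_
    filter_upwards [ev_code y (g⁻¹ * j.1, j.2)] with x hx
    rw [ee_smul]
    exact hx
  filter_upwards [h1 g, h1 g'] with x hx hx'
  refine hJ _ _ fun j hj => ?_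
  rw [hx j hj, hx' j hj, e]

variable [MeasurableSpace X] [StandardBorelSpace X]

theorem sep (h : CD Γ D π A) (y : YS Γ D π A) {k : ℕ} (hk : ∀ᶠ x in FF y, D x = k)
    (S : Finset Γ) (c : X → ℕ) {C : ℕ} (hC : ∀ x, c x ≤ C)
    (hcA : ∀ j, ∃ s, A s = {x | c x = j})
    (hc : ∀ g ∈ S, ∀ g' ∈ S, ∀ x : X, g • x ≠ g' • x → c (g • x) ≠ c (g' • x)) :
    ∀ᶠ x in FF y, ∀ g ∈ S, ∀ g' ∈ S, sh g y.1.1 = sh g' y.1.1 → g • x = g' • x := by
  refine (Finset.eventually_all S).2 fun g hg => (Finset.eventually_all S).2 fun g' hg' => ?_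
  by_cases e : sh g y.1.1 = sh g' y.1.1
  · obtain ⟨m1, hm1⟩ := h.beta g k
    obtain ⟨m2, hm2⟩ := h.beta g' k
    have hp : ∀ k', PFD Γ D A k' c := by
      intro k'
      refine PFD.of_values h ((finite_le_nat C).subset ?_) (fun x _ => hcA (c x))
      rintro _ ⟨x, _, rfl⟩
      exact hC x
    have h2 : FD Γ (BB D A) (fun x => if D x ≤ max m1 m2 then some (c x) else none) := by
      refine FD.of_PFD (max m1 m2) none (fun k' hk' => ?_) (fun x hx => if_neg (by omega))
      refine ((hp k').comp some).congr fun x hx => ?_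
      rw [if_pos (by omega)]
    filter_upwards [FD.shift h2 y e, hk] with x hx hkx _
    have d1 : D (g • x) ≤ max m1 m2 := (hm1 x hkx.le).trans (le_max_left _ _)
    have d2 : D (g' • x) ≤ max m1 m2 := (hm2 x hkx.le).trans (le_max_right _ _)
    rw [if_pos d1, if_pos d2] at hx
    by_contra hne
    exact hc g hg g' hg' x hne (Option.some.inj hx)
  · exact Eventually.of_forall fun x he => absurd he e

theorem ncard_le_of_factor {ι α β : Type} (S : Finset ι) (f : ι → α) (f' : ι → β)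
    (h : ∀ g ∈ S, ∀ g' ∈ S, f' g = f' g' → f g = f g') :
    (f '' (S : Set ι)).ncard ≤ (f' '' (S : Set ι)).ncard := by
  classical
  rcases isEmpty_or_nonempty ι with hι | hι
  · have hS : (S : Set ι) = ∅ := by
      ext i
      exact hι.elim i
    rw [hS]
    simp
  · have h1 : ∀ p ∈ f '' (S : Set ι), Function.invFunOn f (S : Set ι) p ∈ (S : Set ι) ∧
        f (Function.invFunOn f (S : Set ι) p) = p := by
      rintro p ⟨i, hi, rfl⟩
      exact ⟨Function.invFunOn_mem ⟨i, hi, rfl⟩, Function.invFunOn_eq ⟨i, hi, rfl⟩⟩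
    refine Set.ncard_le_ncard_of_injOn (fun p => f' (Function.invFunOn f (S : Set ι) p)) ?_ ?_
      (S.finite_toSet.image f')
    · intro p hp
      exact ⟨_, (h1 p hp).1, rfl⟩
    · intro p hp p' hp' hpp
      have h2 := h _ (Finset.mem_coe.1 (h1 p hp).1) _ (Finset.mem_coe.1 (h1 p' hp').1) hpp
      rw [(h1 p hp).2, (h1 p' hp').2] at h2
      exact h2

end sep

end M7b

open M7b in
/-- M7b: the gluing theorem -/
theorem gluing {Γ : Type} [Group Γ] [Countable Γ] [Infinite Γ]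
    {K : Type} [UniformSpace K] [CompactSpace K] [T2Space K] [(uniformity K).IsCountablyGenerated]
    [MulAction Γ K] [ContinuousConstSMul Γ K] (hfree : ∀ (g : Γ) (z : K), g • z = z → g = 1)
    {X : Type} [MeasurableSpace X] [StandardBorelSpace X] [MulAction Γ X] [MeasurableConstSMul Γ X]
    (D : X → ℕ) (hD : Measurable D) (π : X → K) (t : Γ → X ≃ X)
    (hβ : ∀ (g : Γ) k, ∃ m, ∀ x, D x ≤ k → D (g • x) ≤ m)
    (hDt : ∀ g x, D (t g x) = D x)
    (htm : ∀ g h : Γ, MeasurableSet {x | t g x = h • x})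
    (htp : ∀ (g : Γ) k, ∃ S : Finset Γ, ∀ x, D x = k → ∃ h ∈ S, t g x = h • x)
    (hπ1 : ∀ k, (π '' {x | D x = k}).Finite)
    (hπ2 : ∀ z, MeasurableSet {x | π x = z})
    (hasym : ∀ g : Γ, ∀ V ∈ uniformity K, ∃ k0, ∀ x, k0 ≤ D x → (π (t g x), g • π x) ∈ V)
    (hap : ∀ k l, ∃ S : Finset Γ, ∀ x, D x = k → l ≤ ((fun g : Γ => g • x) '' S).ncard) :
    Realizable Γ (Eo Γ (X := X)) := by
  classical
  choose S hS using hap
  -- the colourings
  have hcol : ∀ k l, ∃ c : X → ℕ, Measurable c ∧ (∃ C, ∀ x, c x ≤ C) ∧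
      ∀ g ∈ S k l, ∀ g' ∈ S k l, ∀ x : X, g • x ≠ g' • x → c (g • x) ≠ c (g' • x) := by
    intro k l
    obtain ⟨c, hc1, hc2, hc3⟩ := exists_coloring
      (fun (p : {p : Γ × Γ // p ∈ S k l ×ˢ S k l}) (x : X) => (p.1.1 * p.1.2⁻¹) • x)
      (fun p => measurable_const_smul _) (by
        intro p
        refine ⟨⟨(p.1.2, p.1.1), ?_⟩, fun x => ?_⟩
        · have := Finset.mem_product.1 p.2
          exact Finset.mem_product.2 ⟨this.2, this.1⟩
        · show (p.1.2 * p.1.1⁻¹) • ((p.1.1 * p.1.2⁻¹) • x) = x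
          rw [smul_smul]
          have : p.1.2 * p.1.1⁻¹ * (p.1.1 * p.1.2⁻¹) = 1 := by group
          rw [this, one_smul])
    refine ⟨c, hc1, ⟨_, hc2⟩, fun g hg g' hg' x hne => ?_⟩
    have h1 := hc3 (g' • x) ⟨(g, g'), Finset.mem_product.2 ⟨hg, hg'⟩⟩
    have h2 : (g * g'⁻¹) • (g' • x) = g • x := by
      rw [smul_smul, inv_mul_cancel_right]
    simp only [h2] at h1
    exact h1 hne
  choose c hc1 hc2 hc3 using hcol
  -- the coding family
  let AA : Set (Set X) := {univ} ∪ (range (fun q : ℚ => {x : X | nu x < q}) ∪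
    ((fun z => {x : X | π x = z}) '' range π ∪
    (range (fun p : Γ × Γ => {x : X | t p.1 x = p.2 • x}) ∪
    range (fun p : ℕ × ℕ × ℕ => {x : X | c p.1 p.2.1 x = p.2.2}))))
  have hcr : (range π).Countable := by
    have e : range π = ⋃ k, π '' {x | D x = k} := by
      ext z
      simp
    rw [e]
    exact countable_iUnion fun k => (hπ1 k).countable
  have hAAc : AA.Countable := (countable_singleton _).union ((countable_range _).union
    ((hcr.image _).union ((countable_range _).union (countable_range _))))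
  have hAAm : ∀ s ∈ AA, MeasurableSet s := by
    rintro s (hs | ⟨q, rfl⟩ | ⟨z, _, rfl⟩ | ⟨p, rfl⟩ | ⟨p, rfl⟩)
    · rw [hs]
      exact MeasurableSet.univ
    · exact measurableSet_lt measurable_nu measurable_const
    · exact hπ2 z
    · exact htm _ _
    · exact hc1 _ _ (measurableSet_singleton _)
  have _ : Countable AA := hAAc.to_subtype
  let A : AA → Set X := Subtype.val
  have hex : ∀ s ∈ AA, ∃ s', A s' = s := fun s hs => ⟨⟨s, hs⟩, rfl⟩
  have h : CD Γ D π A :=
    { beta := hβ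
      fin := hπ1
      mD := hD
      mA := fun s => hAAm s.1 s.2
      mP := hπ2
      all := hex _ (Or.inl rfl)
      piz := fun x => hex _ (Or.inr (Or.inr (Or.inl ⟨π x, mem_range_self x, rfl⟩)))
      nuq := fun q => hex _ (Or.inr (Or.inl ⟨q, rfl⟩)) }
  have htA : ∀ g h : Γ, ∃ s, A s = {x | t g x = h • x} := fun g h =>
    hex _ (Or.inr (Or.inr (Or.inr (Or.inl ⟨(g, h), rfl⟩))))
  have hcA : ∀ k l j, ∃ s, A s = {x | c k l x = j} := fun k l j =>
    hex _ (Or.inr (Or.inr (Or.inr (Or.inr ⟨(k, l, j), rfl⟩))))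
  -- the homeomorphisms
  have n1 : ∀ g : Γ, Nice D π A (t g) g := fun g =>
    nice_t h (t g) g (hDt g) (htA g) (htp g) (hasym g)
  have n2 : ∀ g : Γ, Nice D π A (t g).symm g⁻¹ := fun g =>
    nice_t_symm h (t g) g (hDt g) (htA g) (htp g) (hasym g)
  have e1 : ∀ g : Γ, ∃ H : YS Γ D π A ≃ₜ YS Γ D π A, ∀ x, H (em Γ D π A x) =
      em Γ D π A (t g x) := fun g => Nice.homeo h (t g) (n1 g) (n2 g)
  choose H1 hH1 using e1
  have e2 : ∀ q : ℕ × (Γ × (ℕ × AA)) × Bool × Γ, ∃ H : YS Γ D π A ≃ₜ YS Γ D π A,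
      ∀ x, H (em Γ D π A x) = em Γ D π A (TO (OO Γ D A q) q.2.2.2 x) := by
    intro q
    obtain ⟨H, hH⟩ := Nice.homeo h ((TO_TO (OO_disj (Γ := Γ) (D := D) (A := A) q)).toPerm)
      (nice_TO h q) (nice_TO h q)
    exact ⟨H, hH⟩
  choose H2 hH2 using e2
  let H : Γ ⊕ (ℕ × (Γ × (ℕ × AA)) × Bool × Γ) → (YS Γ D π A ≃ₜ YS Γ D π A) := Sum.elim H1 H2
  have hE : ∀ (g : Γ) y, Rel g y y ∨ ∃ q, Rel g y (H q y) := by
    intro g y
    by_cases hy : y.1.1 = zr
    · right
      have h1 := (n1 g).eval_zr h (H1 g).continuous (hH1 g) hy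
      exact ⟨Sum.inl g, Or.inl ⟨hy, h1.1, h1.2⟩⟩
    · by_cases hs : sh g y.1.1 = y.1.1
      · left
        exact Or.inr ⟨hy, hs.symm⟩
      · right
        obtain ⟨j, hj⟩ : ∃ j, sh g y.1.1 j ≠ y.1.1 j := by
          by_contra hcon
          push Not at hcon
          exact hs (funext hcon)
        obtain ⟨k, hk⟩ := ex_lev h hy
        refine ⟨Sum.inr (k, j, y.1.1 j, g), Or.inr ⟨hy, ?_⟩⟩
        refine eval_of_ev (H2 (k, j, y.1.1 j, g)).continuous (hH2 _) y ?_
        filter_upwards [hk, ev_code y j, ev_code y (g⁻¹ * j.1, j.2)] with x hx1 hx2 hx3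
        have hmem : x ∈ OO Γ D A (k, j, y.1.1 j, g) := by
          refine ⟨hx1, hx2, ?_⟩
          show ee Γ (BB D A) (g • x) j = !(y.1.1 j)
          rw [ee_smul]
          show ee Γ (BB D A) x (g⁻¹ * j.1, j.2) = !(y.1.1 j)
          rw [hx3]
          have hj' : y.1.1 (g⁻¹ * j.1, j.2) ≠ y.1.1 j := hj
          revert hj'
          cases y.1.1 (g⁻¹ * j.1, j.2) <;> cases y.1.1 j <;> simp
        show TO (OO Γ D A (k, j, y.1.1 j, g)) g x = g • x
        unfold TO
        rw [if_pos hmem]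
  refine core h H ?_ hE ?_
  · intro q y
    cases q with
    | inl g =>
      by_cases hy : y.1.1 = zr
      · have h1 := (n1 g).eval_zr h (H1 g).continuous (hH1 g) hy
        exact ⟨g, Or.inl ⟨hy, h1.1, h1.2⟩⟩
      · obtain ⟨g', hg'⟩ := (n1 g).eval_ne h (H1 g).continuous (hH1 g) hy
        exact ⟨g', Or.inr ⟨hy, hg'⟩⟩
    | inr q =>
      by_cases hy : y.1.1 = zr
      · have h1 := (nice_TO h q).eval_zr h (H2 q).continuous (hH2 q) hy
        exact ⟨1, Or.inl ⟨hy, h1.1, h1.2⟩⟩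
      · obtain ⟨g', hg'⟩ := (nice_TO h q).eval_ne h (H2 q).continuous (hH2 q) hy
        exact ⟨g', Or.inr ⟨hy, hg'⟩⟩
  · intro y
    have hex : ∀ g : Γ, ∃ y', Rel g y y' := by
      intro g
      rcases hE g y with h1 | ⟨q, hq⟩
      · exact ⟨y, h1⟩
      · exact ⟨_, hq⟩
    choose f hf using hex
    have hsub : range f ⊆ {y' | ∃ g : Γ, Rel g y y'} := by
      rintro _ ⟨g, rfl⟩
      exact ⟨g, hf g⟩
    refine Set.Infinite.mono hsub ?_
    by_cases hy : y.1.1 = zr
    · refine Set.infinite_range_of_injective fun g g' hgg => ?_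
      have h1 : ∀ g, (f g).1.2 = g • y.1.2 := by
        intro g
        rcases hf g with ⟨_, _, h3⟩ | ⟨h3, _⟩
        · exact h3
        · exact absurd hy h3
      have h2 : g • y.1.2 = g' • y.1.2 := by rw [← h1, ← h1, hgg]
      have h3 : (g'⁻¹ * g) • y.1.2 = y.1.2 := by rw [mul_smul, h2, inv_smul_smul]
      have h4 := hfree _ _ h3
      exact (inv_mul_eq_one.1 h4).symm
    · intro hfin
      have h1 : ∀ g, (f g).1.1 = sh g y.1.1 := by
        intro g
        rcases hf g with ⟨h3, _⟩ | ⟨_, h3⟩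
        · exact absurd h3 hy
        · exact h3
      have hfin2 : (range fun g : Γ => sh g y.1.1).Finite := by
        refine (hfin.image (fun y => y.1.1)).subset ?_
        rintro _ ⟨g, rfl⟩
        exact ⟨f g, mem_range_self g, h1 g⟩
      obtain ⟨k, hk⟩ := ex_lev h hy
      set N := (range fun g : Γ => sh g y.1.1).ncard with hN
      obtain ⟨C, hC⟩ := hc2 k (N + 1)
      obtain ⟨x, hx1, hx2⟩ := (hk.and (sep h y hk (S k (N + 1)) (c k (N + 1)) hC
        (hcA k (N + 1)) (hc3 k (N + 1)))).exists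
      have h2 := hS k (N + 1) x hx1
      have h3 := ncard_le_of_factor (S k (N + 1)) (fun g : Γ => g • x) (fun g => sh g y.1.1) hx2
      have h4 : ((fun g => sh g y.1.1) '' (S k (N + 1) : Set Γ)).ncard ≤ N :=
        Set.ncard_le_ncard (image_subset_range _ _) hfin2
      omega

/-- M7c: uniformly aperiodic spaces are realizable (corollary of the gluing theorem) -/
theorem realizable_of_unif {Γ : Type} [Group Γ] [Countable Γ] [Infinite Γ]
    {X : Type} [MeasurableSpace X] [StandardBorelSpace X] [MulAction Γ X] [MeasurableConstSMul Γ X]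
    (h : ∀ l : ℕ, ∃ S : Finset Γ, ∀ x : X, l ≤ ((fun g : Γ => g • x) '' S).ncard) :
    Realizable Γ (Eo Γ (X := X)) := by
  obtain ⟨K, uK, cK, tK, gK, aK, sK, hfree, hmod⟩ := exists_K Γ
  obtain ⟨c, hc⟩ := hmod ∅ univ Filter.univ_mem
  obtain ⟨p, _, _⟩ := hc (max c 1) (le_max_left _ _)
  have z0 : K := p ⟨0, lt_of_lt_of_le Nat.zero_lt_one (le_max_right _ _)⟩
  refine gluing hfree (fun _ : X => 0) measurable_const (fun _ => z0) (fun _ => Equiv.refl X)
    (fun g k => ⟨0, fun _ _ => le_refl _⟩) (fun _ _ => rfl) (fun g h => ?_) (fun g k => ?_)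
    (fun k => ?_) (fun z => ?_) (fun g V hV => ⟨1, fun x hx => absurd hx (by simp)⟩)
    (fun k l => ?_)
  · exact measurableSet_eq' measurable_id (measurable_const_smul h)
  · exact ⟨{1}, fun x _ => ⟨1, Finset.mem_singleton_self _, (one_smul _ _).symm⟩⟩
  · refine (finite_singleton z0).subset ?_
    rintro _ ⟨x, _, rfl⟩
    rfl
  · exact MeasurableSet.const _
  · obtain ⟨S, hS⟩ := h l
    exact ⟨S, fun x _ => hS x⟩

end Pool.Agent.CAR
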