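import Pool.Agent.CAR.M5
import Pool.Agent.CAR.M7b

/-!
# Module M7a: spaces with a depth function and large blocks are realizable
-/

set_option autoImplicit false

namespace Pool.Agent.CAR

open Set MeasureTheory Filter Topology

theorem exists_blockSize (Γ : Type) [Group Γ] [Countable Γ] [Infinite Γ] :
    ∃ c : ℕ → ℕ, ∀ (X : Type) [MeasurableSpace X] [StandardBorelSpace X] [MulAction Γ X]
      [MeasurableConstSMul Γ X] (D : X → ℕ) (B : X → X → Prop), Measurable D → FBR Γ B →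
      (∀ (g : Γ) k, ∃ m, ∀ x, D x ≤ k → D (g • x) ≤ m) →
      (∀ x y, B x y → D y = D x) →
      (∀ x, c (D x) ≤ sz B x) →
      (∀ k, ∃ S : Finset Γ, ∀ x, D x = k → ∀ y, B x y → ∃ g ∈ S, g • x = y) →
      (∀ k l, ∃ S : Finset Γ, ∀ x, D x = k → l ≤ ((fun g : Γ => g • x) '' S).ncard) →
      Realizable Γ (Eo Γ (X := X)) := by
  classical
  obtain ⟨K, uK, cK, tK, gK, aK, sK, hfree, hmod⟩ := exists_K Γ
  obtain ⟨V, hV⟩ := (uniformity K).exists_antitone_basis
  obtain ⟨e, he⟩ := exists_surjective_nat Γ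
  choose c hc using fun k : ℕ =>
    hmod ((Finset.range (k + 1)).image e) (V k) (hV.toHasBasis.mem_of_mem trivial)
  choose P hP using hc
  choose Q hQ using hP
  -- P k N hN : Fin N → K, Q k N hN : Γ → Perm (Fin N)
  have z0 : K := P 0 (c 0 + 1) (Nat.le_succ _) 0
  set Pn : ℕ × ℕ × ℕ → K := fun v =>
    if h : c v.1 ≤ v.2.1 ∧ v.2.2 < v.2.1 then P v.1 v.2.1 h.1 ⟨v.2.2, h.2⟩ else z0 with hPn
  set Qn : Γ → ℕ × ℕ × ℕ → ℕ := fun g v =>
    if h : c v.1 ≤ v.2.1 ∧ v.2.2 < v.2.1 then (Q v.1 v.2.1 h.1 g ⟨v.2.2, h.2⟩ : ℕ) else 0 with hQn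
  set Qi : Γ → ℕ × ℕ × ℕ → ℕ := fun g v =>
    if h : c v.1 ≤ v.2.1 ∧ v.2.2 < v.2.1 then ((Q v.1 v.2.1 h.1 g).symm ⟨v.2.2, h.2⟩ : ℕ) else 0
    with hQi
  refine ⟨c, ?_⟩
  intro X _ _ _ _ D B hD hB hβ hBD hcs hS hap
  set dt : X → ℕ × ℕ × ℕ := fun x => (D x, sz B x, rk B x) with hdt
  have hdtm : Measurable dt := hD.prodMk (hB.measurable_sz.prodMk hB.measurable_rk)
  have hval : ∀ x : X, c (dt x).1 ≤ (dt x).2.1 ∧ (dt x).2.2 < (dt x).2.1 := fun x =>
    ⟨hcs x, hB.rk_lt_sz x⟩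
  -- the maps
  have hQlt : ∀ g x, Qn g (dt x) < sz B x := by
    intro g x
    simp only [hQn]
    rw [dif_pos (hval x)]
    exact (Q _ _ _ g _).2
  have hQilt : ∀ g x, Qi g (dt x) < sz B x := by
    intro g x
    simp only [hQi]
    rw [dif_pos (hval x)]
    exact ((Q _ _ _ g).symm _).2
  set t : Γ → X → X := fun g x => el B x (Qn g (dt x)) with ht
  set ti : Γ → X → X := fun g x => el B x (Qi g (dt x)) with hti
  have hdt1 : ∀ g x, dt (t g x) = (D x, sz B x, Qn g (dt x)) := by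
    intro g x
    have h1 := hB.el_cls x (Qn g (dt x))
    have h2 := hBD _ _ h1
    have h3 := hB.sz_eq h1
    have h4 := hB.rk_el x (hQlt g x)
    simp only [hdt, ht] at h2 h3 h4 ⊢
    rw [h2, ← h3, h4]
  have hdt2 : ∀ g x, dt (ti g x) = (D x, sz B x, Qi g (dt x)) := by
    intro g x
    have h1 := hB.el_cls x (Qi g (dt x))
    have h2 := hBD _ _ h1
    have h3 := hB.sz_eq h1
    have h4 := hB.rk_el x (hQilt g x)
    simp only [hdt, hti] at h2 h3 h4 ⊢
    rw [h2, ← h3, h4]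
  have hl : ∀ g x, ti g (t g x) = x := by
    intro g x
    have h1 := hB.el_cls x (Qn g (dt x))
    have h5 : Qi g (dt (t g x)) = rk B x := by
      rw [hdt1]
      have hlt := hQlt g x
      simp only [hQi]
      rw [dif_pos ⟨hcs x, hlt⟩]
      have h6 : (⟨Qn g (dt x), hlt⟩ : Fin (sz B x)) =
          Q (D x) (sz B x) (hcs x) g ⟨rk B x, hB.rk_lt_sz x⟩ := by
        apply Fin.ext
        simp only [hQn]
        rw [dif_pos (hval x)]
      rw [h6, Equiv.symm_apply_apply]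
    show el B (t g x) (Qi g (dt (t g x))) = x
    rw [h5]
    exact hB.el_rk (hB.equiv.symm h1)
  have hr : ∀ g x, t g (ti g x) = x := by
    intro g x
    have h1 := hB.el_cls x (Qi g (dt x))
    have h5 : Qn g (dt (ti g x)) = rk B x := by
      rw [hdt2]
      have hlt := hQilt g x
      simp only [hQn]
      rw [dif_pos ⟨hcs x, hlt⟩]
      have h6 : (⟨Qi g (dt x), hlt⟩ : Fin (sz B x)) =
          (Q (D x) (sz B x) (hcs x) g).symm ⟨rk B x, hB.rk_lt_sz x⟩ := by
        apply Fin.ext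
        simp only [hQi]
        rw [dif_pos (hval x)]
      rw [h6, Equiv.apply_symm_apply]
    show el B (ti g x) (Qn g (dt (ti g x))) = x
    rw [h5]
    exact hB.el_rk (hB.equiv.symm h1)
  have hBt : ∀ g x, B x (t g x) := fun g x => hB.el_cls x _
  refine gluing (K := K) hfree D hD (fun x => Pn (dt x)) (fun g => ⟨t g, ti g, hl g, hr g⟩) hβ
    (fun g x => hBD _ _ (hBt g x)) ?_ ?_ ?_ ?_ ?_ hap
  · intro g h
    have e1 : {x | t g x = h • x} =
        ⋃ j : ℕ, {x | Qn g (dt x) = j} ∩ {x | el B x j = h • x} := by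
      ext x
      simp only [mem_ofPred_eq, mem_iUnion, mem_inter_iff]
      exact ⟨fun hx => ⟨_, rfl, hx⟩, fun ⟨j, h1, h2⟩ => by rw [ht]; simp only; rw [h1]; exact h2⟩
    show MeasurableSet {x | t g x = h • x}
    rw [e1]
    refine MeasurableSet.iUnion fun j => MeasurableSet.inter ?_ ?_
    · exact hdtm (Set.to_countable {v | Qn g v = j}).measurableSet
    · exact measurableSet_eq' (hB.measurable_el j) (measurable_const_smul h)
  · intro g k
    obtain ⟨S, hS'⟩ := hS k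
    refine ⟨S, fun x hx => ?_⟩
    obtain ⟨h, hh, hx2⟩ := hS' x hx _ (hBt g x)
    exact ⟨h, hh, hx2.symm⟩
  · intro k
    obtain ⟨S, hS'⟩ := hS k
    have hfin : ((fun v : ℕ × ℕ => Pn (k, v.1, v.2)) ''
        ((Iic S.card) ×ˢ (Iic S.card))).Finite :=
      ((Set.finite_Iic _).prod (Set.finite_Iic _)).image _
    refine hfin.subset ?_
    rintro _ ⟨x, hx, rfl⟩
    have hx' : D x = k := hx
    have h1 : sz B x ≤ S.card := by
      have h2 : {y | B x y} ⊆ (fun g : Γ => g • x) '' (S : Set Γ) := by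
        intro y hy
        obtain ⟨g, hg, hgy⟩ := hS' x hx' y hy
        exact ⟨g, hg, hgy⟩
      calc sz B x ≤ ((fun g : Γ => g • x) '' (S : Set Γ)).ncard :=
            Set.ncard_le_ncard h2 (S.finite_toSet.image _)
        _ ≤ (S : Set Γ).ncard := Set.ncard_image_le S.finite_toSet
        _ = S.card := Set.ncard_coe_finset S
    refine ⟨(sz B x, rk B x), ⟨h1, (hB.rk_lt_sz x).le.trans h1⟩, ?_⟩
    simp only [hdt, hx']
  · intro z
    have : {x | Pn (dt x) = z} = dt ⁻¹' {v | Pn v = z} := rfl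
    rw [this]
    exact hdtm (Set.to_countable _).measurableSet
  · intro g W hW
    obtain ⟨j, -, hj⟩ := hV.toHasBasis.mem_iff.1 hW
    obtain ⟨i, rfl⟩ := he g
    refine ⟨max i j, fun x hx => hj (hV.antitone (le_trans (le_max_right i j) hx) ?_)⟩
    have h1 := hQ (D x) (sz B x) (hcs x) (e i)
      (Finset.mem_image_of_mem e (Finset.mem_range.2
        (Nat.lt_succ_of_le (le_trans (le_max_left i j) hx)))) ⟨rk B x, hB.rk_lt_sz x⟩
    have h2 : Pn (dt x) = P (D x) (sz B x) (hcs x) ⟨rk B x, hB.rk_lt_sz x⟩ := by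
      simp only [hPn]
      rw [dif_pos (hval x)]
    have h3 : Pn (dt (t (e i) x)) = P (D x) (sz B x) (hcs x)
        (Q (D x) (sz B x) (hcs x) (e i) ⟨rk B x, hB.rk_lt_sz x⟩) := by
      rw [hdt1]
      have hlt := hQlt (e i) x
      simp only [hPn]
      rw [dif_pos ⟨hcs x, hlt⟩]
      congr 1
      apply Fin.ext
      simp only [hQn]
      rw [dif_pos (hval x)]
    show (Pn (dt (t (e i) x)), e i • Pn (dt x)) ∈ V (D x)
    rw [h2, h3]
    exact h1

end Pool.Agent.CAR
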