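import Pool.Agent.CAR.Tool

/-!
# Module M7b, part A: codes, finitely determined functions, extension of bijections
-/

set_option autoImplicit false
set_option linter.unusedVariables false

namespace Pool.Agent.CAR.M7b

open Set MeasureTheory Filter Topology Uniformity

section ext

variable {X Y : Type} [UniformSpace Y] [CompleteSpace Y] [T2Space Y]

theorem ext_map (i : X → Y) (hd : DenseRange i) (f : X → Y)
    (hf : @UniformContinuous X Y (UniformSpace.comap i inferInstance) _ f) :
    ∃ F : Y → Y, Continuous F ∧ ∀ x, F (i x) = f x := by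
  letI : UniformSpace X := UniformSpace.comap i inferInstance
  have hu : IsUniformInducing i := ⟨rfl⟩
  have hi := hu.isDenseInducing hd
  refine ⟨hi.extend f, (uniformContinuous_uniformly_extend hu hd hf).continuous, fun x => ?_⟩
  exact uniformly_extend_of_ind hu hd hf x

theorem ext_homeo (i : X → Y) (hd : DenseRange i) (T : X ≃ X)
    (h1 : @UniformContinuous X Y (UniformSpace.comap i inferInstance) _ (fun x => i (T x)))
    (h2 : @UniformContinuous X Y (UniformSpace.comap i inferInstance) _ (fun x => i (T.symm x))) :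
    ∃ H : Y ≃ₜ Y, ∀ x, H (i x) = i (T x) := by
  obtain ⟨F, hF, hF'⟩ := ext_map i hd _ h1
  obtain ⟨G, hG, hG'⟩ := ext_map i hd _ h2
  have e1 : G ∘ F = id := by
    refine hd.equalizer (hG.comp hF) continuous_id ?_
    funext x
    simp only [Function.comp_apply, id]
    rw [hF', hG', Equiv.symm_apply_apply]
  have e2 : F ∘ G = id := by
    refine hd.equalizer (hF.comp hG) continuous_id ?_
    funext x
    simp only [Function.comp_apply, id]
    rw [hG', hF', Equiv.apply_symm_apply]
  exact ⟨⟨⟨F, G, fun y => congrFun e1 y, fun y => congrFun e2 y⟩, hF, hG⟩, hF'⟩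

end ext

section codes

variable {Γ : Type} [Group Γ] {X : Type} [MulAction Γ X] {ι : Type}

open Classical in
/-- the code of a point -/
noncomputable def ee (Γ : Type) [Group Γ] {X : Type} [MulAction Γ X] {ι : Type} (B : ι → Set X)
    (x : X) : Γ × ι → Bool := fun j => decide (j.1⁻¹ • x ∈ B j.2)

/-- the shift -/
def sh (g : Γ) (w : Γ × ι → Bool) : Γ × ι → Bool := fun j => w (g⁻¹ * j.1, j.2)

/-- the zero code -/
def zr : Γ × ι → Bool := fun _ => false

theorem sh_one (w : Γ × ι → Bool) : sh 1 w = w := by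
  funext j
  simp [sh]

theorem sh_mul (g h : Γ) (w : Γ × ι → Bool) : sh (g * h) w = sh g (sh h w) := by
  funext j
  simp [sh, mul_assoc]

theorem sh_zr (g : Γ) : sh g (zr : Γ × ι → Bool) = zr := rfl

theorem sh_ne_zr {g : Γ} {w : Γ × ι → Bool} (h : w ≠ zr) : sh g w ≠ zr := by
  intro hc
  apply h
  rw [← sh_one w, ← inv_mul_cancel g, sh_mul, hc, sh_zr]

theorem ee_smul (B : ι → Set X) (g : Γ) (x : X) : ee Γ B (g • x) = sh g (ee Γ B x) := by
  funext j
  simp only [ee, sh]
  rw [mul_inv_rev, inv_inv, mul_smul]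

theorem ee_true (B : ι → Set X) (x : X) (j : Γ × ι) : ee Γ B x j = true ↔ j.1⁻¹ • x ∈ B j.2 := by
  simp [ee]

/-- functions determined by finitely many coordinates of the code -/
def FD (Γ : Type) [Group Γ] {X : Type} [MulAction Γ X] {ι : Type} (B : ι → Set X) {α : Type}
    (F : X → α) : Prop :=
  ∃ J : Finset (Γ × ι), ∀ x y, (∀ j ∈ J, ee Γ B x j = ee Γ B y j) → F x = F y

variable {B : ι → Set X} {α β : Type}

theorem FD.comp {F : X → α} (h : FD Γ B F) (f : α → β) : FD Γ B (fun x => f (F x)) := by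
  obtain ⟨J, hJ⟩ := h
  exact ⟨J, fun x y hxy => congrArg f (hJ x y hxy)⟩

theorem FD.const (a : α) : FD Γ B (fun _ : X => a) := ⟨∅, fun _ _ _ => rfl⟩

theorem FD.prod {F : X → α} {G : X → β} (hF : FD Γ B F) (hG : FD Γ B G) :
    FD Γ B (fun x => (F x, G x)) := by
  classical
  obtain ⟨J, hJ⟩ := hF
  obtain ⟨J', hJ'⟩ := hG
  refine ⟨J ∪ J', fun x y hxy => ?_⟩
  exact Prod.ext (hJ x y (fun j hj => hxy j (Finset.mem_union_left _ hj)))
    (hJ' x y (fun j hj => hxy j (Finset.mem_union_right _ hj)))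

theorem FD.finset {σ : Type} (S : Finset σ) {F : σ → X → α} (h : ∀ s ∈ S, FD Γ B (F s)) :
    ∃ J : Finset (Γ × ι), ∀ x y, (∀ j ∈ J, ee Γ B x j = ee Γ B y j) → ∀ s ∈ S, F s x = F s y := by
  classical
  induction S using Finset.induction_on with
  | empty => exact ⟨∅, fun _ _ _ s hs => absurd hs (Finset.notMem_empty s)⟩
  | insert a S ha ih =>
    obtain ⟨J, hJ⟩ := ih (fun s hs => h s (Finset.mem_insert_of_mem hs))
    obtain ⟨J', hJ'⟩ := h a (Finset.mem_insert_self a S)
    refine ⟨J ∪ J', fun x y hxy s hs => ?_⟩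
    rcases Finset.mem_insert.1 hs with rfl | hs
    · exact hJ' x y (fun j hj => hxy j (Finset.mem_union_right _ hj))
    · exact hJ x y (fun j hj => hxy j (Finset.mem_union_left _ hj)) s hs

theorem FD.smul {F : X → α} (h : FD Γ B F) (g : Γ) : FD Γ B (fun x => F (g • x)) := by
  classical
  obtain ⟨J, hJ⟩ := h
  refine ⟨J.image (fun j => (g⁻¹ * j.1, j.2)), fun x y hxy => hJ _ _ fun j hj => ?_⟩
  rw [ee_smul, ee_smul]
  exact hxy (g⁻¹ * j.1, j.2) (Finset.mem_image_of_mem _ hj)

theorem FD.mem (i : ι) : FD Γ B (fun x => x ∈ B i) := by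
  refine ⟨{(1, i)}, fun x y hxy => ?_⟩
  have h := hxy (1, i) (Finset.mem_singleton_self _)
  have h1 := ee_true (Γ := Γ) B x (1, i)
  have h2 := ee_true (Γ := Γ) B y (1, i)
  simp only [inv_one, one_smul] at h1 h2
  rw [h] at h1
  exact propext (h1.symm.trans h2)

theorem FD.coord (j : Γ × ι) : FD Γ B (fun x => ee Γ B x j) :=
  ⟨{j}, fun x y hxy => hxy j (Finset.mem_singleton_self _)⟩

theorem FD.range_finite {F : X → α} (h : FD Γ B F) : (range F).Finite := by
  classical
  obtain ⟨J, hJ⟩ := h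
  let c : X → (J → Bool) := fun x j => ee Γ B x j.1
  have hc : ∀ x y, c x = c y → F x = F y := by
    intro x y hxy
    refine hJ x y fun j hj => ?_
    exact congrFun hxy ⟨j, hj⟩
  rcases isEmpty_or_nonempty X with hX | ⟨⟨x0⟩⟩
  · rw [range_eq_empty]; exact finite_empty
  · let f : (J → Bool) → α := fun v => if hv : ∃ x, c x = v then F hv.choose else F x0
    have hsub : range F ⊆ range f := by
      rintro _ ⟨x, rfl⟩
      refine ⟨c x, ?_⟩
      have hv : ∃ x', c x' = c x := ⟨x, rfl⟩
      simp only [f]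
      rw [dif_pos hv]
      exact hc _ _ hv.choose_spec
    exact (Set.finite_range f).subset hsub

/-- application of a finitely determined family of functions -/
theorem FD.bind {F : X → α} (hF : FD Γ B F) {G : α → X → β} (hG : ∀ a, FD Γ B (G a)) :
    FD Γ B (fun x => G (F x) x) := by
  classical
  obtain ⟨J', hJ'⟩ := FD.finset hF.range_finite.toFinset (F := G) (fun a _ => hG a)
  obtain ⟨J, hJ⟩ := hF
  refine ⟨J ∪ J', fun x y hxy => ?_⟩
  have h1 := hJ x y (fun j hj => hxy j (Finset.mem_union_left _ hj))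
  have h2 := hJ' x y (fun j hj => hxy j (Finset.mem_union_right _ hj)) (F x) (by simp)
  show G (F x) x = G (F y) y
  rw [h2, h1]

end codes

end Pool.Agent.CAR.M7b
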