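import Pool.Agent.CAR.M7bA

/-!
# Module M7b, part B: coding data, functions determined on levels, nice bijections
-/

set_option autoImplicit false
set_option linter.unusedVariables false

namespace Pool.Agent.CAR.M7b

open Set MeasureTheory Filter Topology Uniformity

/-- the coding sets -/
def BB {X σ : Type} (D : X → ℕ) (A : σ → Set X) : ℕ × σ → Set X :=
  fun p => {x | D x = p.1 ∧ x ∈ A p.2}

/-- the coding data -/
structure CD (Γ : Type) [Group Γ] {X K σ : Type} [MulAction Γ X] [MeasurableSpace X]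
    [StandardBorelSpace X] (D : X → ℕ) (π : X → K) (A : σ → Set X) : Prop where
  beta : ∀ (g : Γ) k, ∃ m, ∀ x, D x ≤ k → D (g • x) ≤ m
  fin : ∀ k, (π '' {x | D x = k}).Finite
  mD : Measurable D
  mA : ∀ s, MeasurableSet (A s)
  mP : ∀ z, MeasurableSet {x | π x = z}
  all : ∃ s, A s = univ
  piz : ∀ x, ∃ s, A s = {y | π y = π x}
  nuq : ∀ q : ℚ, ∃ s, A s = {x | nu x < q}

section

variable {Γ : Type} [Group Γ] {X : Type} [MulAction Γ X] {K σ : Type} {α β : Type}
  {D : X → ℕ} {π : X → K} {A : σ → Set X}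

/-- functions which are finitely determined on the level `k` -/
def PFD (Γ : Type) [Group Γ] {X : Type} [MulAction Γ X] {σ α : Type}
    (D : X → ℕ) (A : σ → Set X) (k : ℕ) (F : X → α) : Prop :=
  FD Γ (BB D A) (fun x => if D x = k then some (F x) else none)

theorem FD.pfd {F : X → α} (hF : FD Γ (BB D A) F) (hl : FD Γ (BB D A) (fun x => D x)) (k : ℕ) :
    PFD Γ D A k F := by
  exact (hF.prod hl).comp (fun p => if p.2 = k then some p.1 else none)

theorem PFD.congr {k : ℕ} {F G : X → α} (hF : PFD Γ D A k F) (h : ∀ x, D x = k → F x = G x) :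
    PFD Γ D A k G := by
  unfold PFD at hF ⊢
  convert hF using 2 with x
  by_cases hx : D x = k
  · rw [if_pos hx, if_pos hx, h x hx]
  · rw [if_neg hx, if_neg hx]

theorem PFD.comp {k : ℕ} {F : X → α} (hF : PFD Γ D A k F) (f : α → β) :
    PFD Γ D A k (fun x => f (F x)) := by
  unfold PFD at hF ⊢
  convert hF.comp (Option.map f) using 2 with x
  by_cases hx : D x = k
  · rw [if_pos hx, if_pos hx]
    rfl
  · rw [if_neg hx, if_neg hx]
    rfl

theorem PFD.bind {k : ℕ} {b : X → β} (hb : PFD Γ D A k b) {G : β → X → α}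
    (hG : ∀ a, PFD Γ D A k (G a)) : PFD Γ D A k (fun x => G (b x) x) := by
  unfold PFD at hb hG ⊢
  have h := FD.bind hb (G := fun (o : Option β) x =>
    Option.rec (motive := fun _ => Option α) none
      (fun a => if D x = k then some (G a x) else none) o) (fun o => by
        cases o with
        | none => exact FD.const _
        | some a => exact hG a)
  convert h using 2 with x
  by_cases hx : D x = k
  · simp only [if_pos hx]
  · simp only [if_neg hx]

end

section

variable {Γ : Type} [Group Γ] {X : Type} [MulAction Γ X] [MeasurableSpace X]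
  [StandardBorelSpace X] {K σ : Type} {α β : Type}
  {D : X → ℕ} {π : X → K} {A : σ → Set X}

theorem CD.lev (h : CD Γ D π A) (k : ℕ) : FD Γ (BB D A) (fun x => D x = k) := by
  obtain ⟨s, hs⟩ := h.all
  convert FD.mem (Γ := Γ) (B := BB D A) (k, s) using 2 with x
  simp [BB, hs]

theorem PFD.intro (h : CD Γ D π A) {k : ℕ} {F : X → α} (J : Finset (Γ × (ℕ × σ)))
    (hJ : ∀ x y, D x = k → D y = k →
      (∀ j ∈ J, ee Γ (BB D A) x j = ee Γ (BB D A) y j) → F x = F y) : PFD Γ D A k F := by
  classical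
  obtain ⟨J', hJ'⟩ := h.lev k
  refine ⟨J ∪ J', fun x y hxy => ?_⟩
  have h1 : (D x = k) = (D y = k) := hJ' x y (fun j hj => hxy j (Finset.mem_union_right _ hj))
  beta_reduce
  by_cases hx : D x = k
  · have hy : D y = k := h1 ▸ hx
    rw [if_pos hx, if_pos hy, hJ x y hx hy (fun j hj => hxy j (Finset.mem_union_left _ hj))]
  · have hy : ¬ D y = k := h1 ▸ hx
    rw [if_neg hx, if_neg hy]

theorem PFD.elim {k : ℕ} {F : X → α} (hF : PFD Γ D A k F) : ∃ J : Finset (Γ × (ℕ × σ)),
    ∀ x y, D x = k → D y = k →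
      (∀ j ∈ J, ee Γ (BB D A) x j = ee Γ (BB D A) y j) → F x = F y := by
  obtain ⟨J, hJ⟩ := hF
  refine ⟨J, fun x y hx hy hxy => ?_⟩
  have h1 := hJ x y hxy
  beta_reduce at h1
  rw [if_pos hx, if_pos hy] at h1
  exact Option.some.inj h1

/-- gluing over the levels -/
theorem FD.of_PFD {F : X → α} (m : ℕ) (a : α) (hF : ∀ k ≤ m, PFD Γ D A k F)
    (h' : ∀ x, m < D x → F x = a) : FD Γ (BB D A) F := by
  classical
  obtain ⟨J, hJ⟩ := FD.finset (Γ := Γ) (B := BB D A) (Finset.range (m + 1))
    (F := fun k x => if D x = k then some (F x) else none)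
    (fun k hk => hF k (by have := Finset.mem_range.1 hk; omega))
  have key : ∀ x y, (∀ j ∈ J, ee Γ (BB D A) x j = ee Γ (BB D A) y j) → D x ≤ m →
      D y = D x ∧ F x = F y := by
    intro x y hxy hx
    have h1 := hJ x y hxy (D x) (Finset.mem_range.2 (by omega))
    beta_reduce at h1
    rw [if_pos rfl] at h1
    by_cases hy : D y = D x
    · rw [if_pos hy] at h1
      exact ⟨hy, Option.some.inj h1⟩
    · rw [if_neg hy] at h1
      exact absurd h1 (by simp)
  refine ⟨J, fun x y hxy => ?_⟩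
  rcases Nat.lt_or_ge m (D x) with hx | hx
  · rcases Nat.lt_or_ge m (D y) with hy | hy
    · rw [h' x hx, h' y hy]
    · exact ((key y x (fun j hj => (hxy j hj).symm) hy).2).symm
  · exact (key x y hxy hx).2

theorem CD.level (h : CD Γ D π A) (k : ℕ) (F : X → α) (hF : FD Γ (BB D A) F) :
    PFD Γ D A k F := by
  obtain ⟨J, hJ⟩ := hF
  exact PFD.intro h J (fun x y _ _ hxy => hJ x y hxy)

theorem PFD.mem (h : CD Γ D π A) (k : ℕ) (s : σ) : PFD Γ D A k (fun x => x ∈ A s) := by
  refine PFD.intro h {(1, (k, s))} fun x y hx hy hxy => ?_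
  have h0 := hxy (1, (k, s)) (Finset.mem_singleton_self _)
  have h1 := ee_true (Γ := Γ) (BB D A) x (1, (k, s))
  have h2 := ee_true (Γ := Γ) (BB D A) y (1, (k, s))
  simp only [inv_one, one_smul] at h1 h2
  rw [h0] at h1
  have h3 := h1.symm.trans h2
  simp only [BB, mem_ofPred_eq, hx, hy, true_and] at h3
  exact propext h3

theorem PFD.pattern (h : CD Γ D π A) {k : ℕ} {τ : Type} (S : Finset τ) {P : τ → X → Prop}
    (hP : ∀ s ∈ S, PFD Γ D A k (P s)) :
    ∃ J : Finset (Γ × (ℕ × σ)), ∀ x y, D x = k → D y = k →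
      (∀ j ∈ J, ee Γ (BB D A) x j = ee Γ (BB D A) y j) → ∀ s ∈ S, (P s x ↔ P s y) := by
  obtain ⟨J, hJ⟩ := FD.finset (Γ := Γ) (B := BB D A) S
    (F := fun s x => if D x = k then some (P s x) else none) hP
  refine ⟨J, fun x y hx hy hxy s hs => ?_⟩
  have h1 := hJ x y hxy s hs
  beta_reduce at h1
  rw [if_pos hx, if_pos hy] at h1
  rw [Option.some.inj h1]

theorem PFD.of_values (h : CD Γ D π A) {k : ℕ} {F : X → α} (hf : (F '' {x | D x = k}).Finite)
    (hs : ∀ x, D x = k → ∃ s, A s = {y | F y = F x}) : PFD Γ D A k F := by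
  classical
  obtain ⟨J, hJ⟩ := PFD.pattern h (k := k) hf.toFinset (P := fun v x => F x = v) (by
    intro v hv
    rw [Set.Finite.mem_toFinset] at hv
    obtain ⟨x0, hx0, rfl⟩ := hv
    obtain ⟨s, hs⟩ := hs x0 hx0
    have := PFD.mem h k s
    rw [hs] at this
    exact this)
  refine PFD.intro h J fun x y hx hy hxy => ?_
  have h1 := hJ x y hx hy hxy (F x) (by rw [Set.Finite.mem_toFinset]; exact ⟨x, hx, rfl⟩)
  exact (h1.1 rfl).symm

theorem CD.pfd_pi (h : CD Γ D π A) (k : ℕ) : PFD Γ D A k π :=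
  PFD.of_values h (h.fin k) fun x _ => h.piz x

theorem PFD.smul (h : CD Γ D π A) {F : X → α} (hF : ∀ k, PFD Γ D A k F) (g : Γ) (k : ℕ) :
    PFD Γ D A k (fun x => F (g • x)) := by
  obtain ⟨m, hm⟩ := h.beta g k
  have h1 : FD Γ (BB D A) (fun x => if D x ≤ m then some (F x) else none) := by
    refine FD.of_PFD m none (fun k' hk' => ?_) (fun x hx => if_neg (by omega))
    refine ((hF k').comp some).congr fun x hx => ?_
    rw [if_pos (by omega)]
  obtain ⟨J, hJ⟩ := h1.smul g
  refine PFD.intro h J fun x y hx hy hxy => ?_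
  have h2 := hJ x y hxy
  beta_reduce at h2
  rw [if_pos (hm x hx.le), if_pos (hm y hy.le)] at h2
  exact Option.some.inj h2

open Classical in
/-- an element of a finite set (or `1`) -/
noncomputable def pick {Γ : Type} [Group Γ] (S : Finset Γ) : Γ :=
  if h : S.Nonempty then h.choose else 1

theorem pick_mem {S : Finset Γ} (h : S.Nonempty) : pick S ∈ S := by
  unfold pick
  rw [dif_pos h]
  exact h.choose_spec

/-- measurable choice of the translating elements -/
theorem exists_b (h : CD Γ D π A) (T : X → X) (S : ℕ → Finset Γ)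
    (hS : ∀ x, ∃ g ∈ S (D x), T x = g • x)
    (hP : ∀ k, ∀ g ∈ S k, PFD Γ D A k (fun x => T x = g • x)) :
    ∃ b : X → Γ, (∀ x, T x = b x • x) ∧ ∀ k, PFD Γ D A k b := by
  classical
  refine ⟨fun x => pick ((S (D x)).filter fun g => T x = g • x), fun x => ?_, fun k => ?_⟩
  · have hne : ((S (D x)).filter fun g => T x = g • x).Nonempty := by
      obtain ⟨g, hg, hg'⟩ := hS x
      exact ⟨g, Finset.mem_filter.2 ⟨hg, hg'⟩⟩
    exact (Finset.mem_filter.1 (pick_mem hne)).2
  · obtain ⟨J, hJ⟩ := PFD.pattern h (k := k) (S k) (hP k)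
    refine PFD.intro h J fun x y hx hy hxy => ?_
    show pick ((S (D x)).filter fun g => T x = g • x) = pick ((S (D y)).filter fun g => T y = g • y)
    rw [hx, hy]
    congr 1
    refine Finset.filter_congr fun g hg => ?_
    exact hJ x y hx hy hxy g hg

end

end Pool.Agent.CAR.M7b
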