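import Pool.Agent.CAR.M7bB

/-!
# Module M7b, part C: the compactification and the extension of nice bijections
-/

set_option autoImplicit false
set_option linter.unusedVariables false

namespace Pool.Agent.CAR.M7b

open Set MeasureTheory Filter Topology Uniformity

section nice

variable {Γ : Type} [Group Γ] {X : Type} [MulAction Γ X] [MeasurableSpace X]
  [StandardBorelSpace X] {K σ : Type} [UniformSpace K] [MulAction Γ K] {α : Type}
  {D : X → ℕ} {π : X → K} {A : σ → Set X}

/-- the bijections which extend to the compactification -/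
structure Nice (D : X → ℕ) (π : X → K) (A : σ → Set X) (T : X → X) (g0 : Γ) : Prop where
  tr : ∃ b : X → Γ, (∀ x, T x = b x • x) ∧ ∀ k, PFD Γ D A k b
  proper : ∀ m, ∃ N, ∀ x, D (T x) ≤ m → D x ≤ N
  asym : ∀ V ∈ 𝓤 K, ∃ k0, ∀ x, k0 ≤ D x → (π (T x), g0 • π x) ∈ V

theorem Nice.pfd (h : CD Γ D π A) {T : X → X} {g0 : Γ} (hT : Nice D π A T g0) {F : X → α}
    (hF : ∀ k, PFD Γ D A k F) (k : ℕ) : PFD Γ D A k (fun x => F (T x)) := by
  obtain ⟨b, hb, hb'⟩ := hT.tr
  have h1 := PFD.bind (hb' k) (G := fun g x => F (g • x)) (fun g => PFD.smul h hF g k)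
  exact h1.congr (fun x _ => by rw [hb x])

theorem Nice.code (h : CD Γ D π A) {T : X → X} {g0 : Γ} (hT : Nice D π A T g0)
    (j : Γ × (ℕ × σ)) : FD Γ (BB D A) (fun x => ee Γ (BB D A) (T x) j) := by
  obtain ⟨m, hm⟩ := h.beta j.1 j.2.1
  obtain ⟨N, hN⟩ := hT.proper m
  refine FD.of_PFD N false (fun k hk => hT.pfd h (fun k => h.level k _ (FD.coord j)) k)
    (fun x hx => ?_)
  by_contra hc
  have hc' : ee Γ (BB D A) (T x) j = true := by simpa using hc
  rw [ee_true] at hc'
  have h1 : D (j.1⁻¹ • T x) = j.2.1 := hc'.1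
  have h2 := hm (j.1⁻¹ • T x) h1.le
  rw [smul_inv_smul] at h2
  have := hN x h2
  omega

variable (Γ D π A)

/-- the compactification -/
def YS : Set ((Γ × (ℕ × σ) → Bool) × K) := closure (range fun x => (ee Γ (BB D A) x, π x))

/-- the embedding in the compactification -/
noncomputable def em (x : X) : YS Γ D π A :=
  ⟨(ee Γ (BB D A) x, π x), subset_closure (mem_range_self x)⟩

/-- the uniformity induced by the embedding -/
noncomputable abbrev UX : UniformSpace X := UniformSpace.comap (em Γ D π A) inferInstance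

omit [MeasurableSpace X] [StandardBorelSpace X] [MulAction Γ K] in
theorem em_dense : DenseRange (em Γ D π A) := by
  intro y
  rw [closure_subtype, ← range_comp]
  exact y.2

omit [MeasurableSpace X] [StandardBorelSpace X] [MulAction Γ K] in
theorem uc_em : @UniformContinuous X (YS Γ D π A) (UX Γ D π A) _ (em Γ D π A) :=
  @uniformContinuous_comap _ _ _ _

omit [MeasurableSpace X] [StandardBorelSpace X] [MulAction Γ K] in
theorem uc_coord (j : Γ × (ℕ × σ)) :
    @UniformContinuous X Bool (UX Γ D π A) _ (fun x => ee Γ (BB D A) x j) := by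
  let _ : UniformSpace X := UX Γ D π A
  have h1 : UniformContinuous (em Γ D π A) := uc_em Γ D π A
  exact (Pi.uniformContinuous_proj _ j).comp
    (uniformContinuous_fst.comp (uniformContinuous_subtype_val.comp h1))

omit [MeasurableSpace X] [StandardBorelSpace X] [MulAction Γ K] in
theorem uc_pi : @UniformContinuous X K (UX Γ D π A) _ π := by
  let _ : UniformSpace X := UX Γ D π A
  have h1 : UniformContinuous (em Γ D π A) := uc_em Γ D π A
  exact uniformContinuous_snd.comp (uniformContinuous_subtype_val.comp h1)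

omit [MeasurableSpace X] [StandardBorelSpace X] [MulAction Γ K] in
theorem FD_mem {F : X → α} (hF : FD Γ (BB D A) F) :
    {p : X × X | F p.1 = F p.2} ∈ @uniformity X (UX Γ D π A) := by
  obtain ⟨J, hJ⟩ := hF
  have h1 : ∀ j ∈ J, {p : X × X | ee Γ (BB D A) p.1 j = ee Γ (BB D A) p.2 j} ∈
      @uniformity X (UX Γ D π A) := by
    intro j _
    have h2 : {p : Bool × Bool | p.1 = p.2} ∈ 𝓤 Bool := eventually_iff.mp fun ⦃a⦄ a_1 => a_1
    exact uc_coord Γ D π A j h2
  have h3 := (Filter.biInter_finset_mem J).2 h1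
  refine Filter.mem_of_superset h3 fun p hp => ?_
  simp only [mem_iInter, mem_ofPred_eq] at hp
  exact hJ p.1 p.2 hp

omit [MeasurableSpace X] [StandardBorelSpace X] [MulAction Γ K] in
theorem FD_uc {F : X → Bool} (hF : FD Γ (BB D A) F) :
    @UniformContinuous X Bool (UX Γ D π A) _ F := by
  intro V hV
  refine Filter.mem_map.2 (Filter.mem_of_superset (FD_mem Γ D π A hF) fun p hp => ?_)
  have hp' : F p.1 = F p.2 := hp
  show (F p.1, F p.2) ∈ V
  rw [hp']
  exact refl_mem_uniformity hV

variable {Γ D π A}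

theorem Nice.uc [CompactSpace K] [ContinuousConstSMul Γ K] (h : CD Γ D π A) {T : X → X} {g0 : Γ}
    (hT : Nice D π A T g0) :
    @UniformContinuous X (YS Γ D π A) (UX Γ D π A) _ (fun x => em Γ D π A (T x)) := by
  let _ : UniformSpace X := UX Γ D π A
  rw [isUniformEmbedding_subtype_val.isUniformInducing.uniformContinuous_iff]
  refine UniformContinuous.prodMk ?_ ?_
  · rw [uniformContinuous_pi]
    intro j
    exact FD_uc Γ D π A (hT.code h j)
  · intro V hV
    obtain ⟨W, hW, hWs, hWV⟩ := comp_comp_symm_mem_uniformity_sets hV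
    obtain ⟨k0, hk0⟩ := hT.asym W hW
    have hg : UniformContinuous (fun z : K => g0 • z) :=
      CompactSpace.uniformContinuous_of_continuous (continuous_const_smul g0)
    have h1 : {p : X × X | (g0 • π p.1, g0 • π p.2) ∈ W} ∈ 𝓤 X := (hg.comp (uc_pi Γ D π A)) hW
    have h2 : FD Γ (BB D A) (fun x => if D x < k0 then some (π (T x)) else none) := by
      refine FD.of_PFD k0 none (fun k hk => ?_) (fun x hx => if_neg (by omega))
      rcases Nat.lt_or_ge k k0 with hk' | hk'
      · refine ((hT.pfd h h.pfd_pi k).comp some).congr fun x hx => ?_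
        rw [if_pos (by omega)]
      · refine (h.level k _ (FD.const none)).congr fun x hx => ?_
        rw [if_neg (by omega)]
    refine Filter.mem_map.2
      (Filter.mem_of_superset (Filter.inter_mem h1 (FD_mem Γ D π A h2)) fun p hp => ?_)
    obtain ⟨hp1, hp2⟩ := hp
    simp only [mem_ofPred_eq] at hp1 hp2
    show (π (T p.1), π (T p.2)) ∈ V
    by_cases hx : D p.1 < k0
    · by_cases hy : D p.2 < k0
      · rw [if_pos hx, if_pos hy] at hp2
        rw [Option.some.inj hp2]
        exact refl_mem_uniformity hV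
      · rw [if_pos hx, if_neg hy] at hp2
        exact absurd hp2 (by simp)
    · by_cases hy : D p.2 < k0
      · rw [if_neg hx, if_pos hy] at hp2
        exact absurd hp2 (by simp)
      · refine hWV ⟨g0 • π p.2, ⟨g0 • π p.1, hk0 _ (by omega), hp1⟩, ?_⟩
        exact hWs.symm _ _ (hk0 _ (by omega))

theorem Nice.homeo [CompactSpace K] [T2Space K] [ContinuousConstSMul Γ K] (h : CD Γ D π A)
    (T : X ≃ X) {g0 g1 : Γ} (hT : Nice D π A T g0) (hT' : Nice D π A T.symm g1) :
    ∃ H : YS Γ D π A ≃ₜ YS Γ D π A, ∀ x, H (em Γ D π A x) = em Γ D π A (T x) := by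
  have hc : CompactSpace (YS Γ D π A) := isCompact_iff_compactSpace.1 isClosed_closure.isCompact
  exact ext_homeo (em Γ D π A) (em_dense Γ D π A) T (hT.uc h) (hT'.uc h)

end nice

end Pool.Agent.CAR.M7b
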