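import Pool.Agent.CAR.M7bC

/-!
# Module M7b, part D: evaluation of the extensions
-/

set_option autoImplicit false
set_option linter.unusedVariables false

namespace Pool.Agent.CAR.M7b

open Set MeasureTheory Filter Topology Uniformity

section eval

variable {Γ : Type} [Group Γ] {X : Type} [MulAction Γ X] {K σ : Type} [UniformSpace K] {α : Type}
  {D : X → ℕ} {π : X → K} {A : σ → Set X}

/-- the filter of the approximations of a point -/
noncomputable def FF (y : YS Γ D π A) : Filter X := comap (em Γ D π A) (𝓝 y)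

instance (y : YS Γ D π A) : (FF y).NeBot := by
  refine comap_neBot_iff.2 fun t ht => ?_
  obtain ⟨z, hz, x, rfl⟩ := mem_closure_iff_nhds.1 (em_dense Γ D π A y) t ht
  exact ⟨x, hz⟩

theorem tendsto_em (y : YS Γ D π A) : Tendsto (em Γ D π A) (FF y) (𝓝 y) := tendsto_comap

theorem ev_code (y : YS Γ D π A) (j : Γ × (ℕ × σ)) :
    ∀ᶠ x in FF y, ee Γ (BB D A) x j = y.1.1 j := by
  have h1 : Continuous fun y : YS Γ D π A => y.1.1 j :=
    (continuous_apply j).comp (continuous_fst.comp continuous_subtype_val)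
  have h2 := (h1.tendsto y).comp (tendsto_em y)
  have h3 : {y.1.1 j} ∈ 𝓝 (y.1.1 j) := mem_nhds_discrete.2 rfl
  have h4 := h2 h3
  filter_upwards [Filter.mem_map.1 h4] with x hx
  exact hx

theorem ev_codes (y : YS Γ D π A) (J : Finset (Γ × (ℕ × σ))) :
    ∀ᶠ x in FF y, ∀ j ∈ J, ee Γ (BB D A) x j = y.1.1 j :=
  (Finset.eventually_all J).2 fun j _ => ev_code y j

theorem tendsto_pi (y : YS Γ D π A) : Tendsto π (FF y) (𝓝 y.1.2) := by
  have h1 : Continuous fun y : YS Γ D π A => y.1.2 := continuous_snd.comp continuous_subtype_val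
  exact (h1.tendsto y).comp (tendsto_em y)

theorem tendsto_T {T : X → X} {H : YS Γ D π A → YS Γ D π A} (hc : Continuous H)
    (hH : ∀ x, H (em Γ D π A x) = em Γ D π A (T x)) (y : YS Γ D π A) :
    Tendsto T (FF y) (FF (H y)) := by
  refine tendsto_comap_iff.2 ?_
  have h1 := (hc.tendsto y).comp (tendsto_em y)
  refine h1.congr fun x => ?_
  exact hH x

theorem FD.ev {F : X → α} (hF : FD Γ (BB D A) F) (y : YS Γ D π A) :
    ∃ a, ∀ᶠ x in FF y, F x = a := by
  obtain ⟨J, hJ⟩ := hF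
  have h1 := ev_codes y J
  obtain ⟨x0, hx0⟩ := h1.exists
  refine ⟨F x0, ?_⟩
  filter_upwards [h1] with x hx
  exact hJ x x0 fun j hj => (hx j hj).trans (hx0 j hj).symm

theorem PFD.ev {k : ℕ} {F : X → α} (hF : PFD Γ D A k F) (y : YS Γ D π A)
    (hk : ∀ᶠ x in FF y, D x = k) : ∃ a, ∀ᶠ x in FF y, F x = a := by
  obtain ⟨a, ha⟩ := FD.ev hF y
  obtain ⟨x0, hx0, hx0'⟩ := (hk.and ha).exists
  refine ⟨F x0, ?_⟩
  filter_upwards [hk, ha] with x hx hx'
  rw [if_pos hx] at hx'
  rw [if_pos hx0] at hx0'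
  exact Option.some.inj (hx'.trans hx0'.symm)

end eval

section eval2

variable {Γ : Type} [Group Γ] {X : Type} [MulAction Γ X] [MeasurableSpace X]
  [StandardBorelSpace X] {K σ : Type} [UniformSpace K] {α : Type}
  {D : X → ℕ} {π : X → K} {A : σ → Set X}

theorem lev_large (h : CD Γ D π A) {y : YS Γ D π A} (hy : y.1.1 = zr) (k0 : ℕ) :
    ∀ᶠ x in FF y, k0 ≤ D x := by
  obtain ⟨s, hs⟩ := h.all
  have h1 : ∀ᶠ x in FF y, ∀ k ∈ Finset.range k0, ee Γ (BB D A) x (1, (k, s)) = false := by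
    refine (Finset.eventually_all _).2 fun k _ => ?_
    have := ev_code y (1, (k, s))
    rw [hy] at this
    exact this
  filter_upwards [h1] with x hx
  by_contra hc
  have h2 := hx (D x) (Finset.mem_range.2 (by omega))
  have h3 : ee Γ (BB D A) x (1, (D x, s)) = true := by
    rw [ee_true]
    refine ⟨by simp, ?_⟩
    rw [hs]
    exact mem_univ _
  rw [h3] at h2
  exact absurd h2 (by simp)

theorem exists_true {ι : Type} {w : Γ × ι → Bool} (h : w ≠ zr) : ∃ j, w j = true := by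
  by_contra hc
  push Not at hc
  apply h
  funext j
  have := hc j
  simpa [zr] using this

theorem ex_lev (h : CD Γ D π A) {y : YS Γ D π A} (hy : y.1.1 ≠ zr) :
    ∃ k, ∀ᶠ x in FF y, D x = k := by
  obtain ⟨j, hj⟩ := exists_true hy
  obtain ⟨m, hm⟩ := h.beta j.1 j.2.1
  have h1 : ∀ᶠ x in FF y, D x ≤ m := by
    filter_upwards [ev_code y j] with x hx
    rw [hj, ee_true] at hx
    have h2 := hm (j.1⁻¹ • x) (le_of_eq hx.1)
    rwa [smul_inv_smul] at h2
  have h2 : FD Γ (BB D A) (fun x => if D x ≤ m then some (D x) else none) := by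
    refine FD.of_PFD m none (fun k hk => ?_) (fun x hx => if_neg (by omega))
    refine (h.level k _ (FD.const (some k))).congr fun x hx => ?_
    rw [if_pos (by omega), hx]
  obtain ⟨a, ha⟩ := FD.ev h2 y
  obtain ⟨x0, hx0, hx0'⟩ := (h1.and ha).exists
  refine ⟨D x0, ?_⟩
  filter_upwards [h1, ha] with x hx hx'
  rw [if_pos hx] at hx'
  rw [if_pos hx0] at hx0'
  exact Option.some.inj (hx'.trans hx0'.symm)

/-- the code determines the point -/
theorem fiber [T2Space K] (h : CD Γ D π A) {y y' : YS Γ D π A} (he : y.1.1 = y'.1.1)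
    (hy : y.1.1 ≠ zr) : y = y' := by
  obtain ⟨k, hk⟩ := ex_lev h hy
  obtain ⟨z, hz⟩ := (h.pfd_pi k).ev y hk
  have h1 : y.1.2 = z := by
    have h2 : Tendsto π (FF y) (𝓝 z) := tendsto_const_nhds.congr' (by
      filter_upwards [hz] with x hx
      exact hx.symm)
    exact tendsto_nhds_unique (tendsto_pi y) h2
  obtain ⟨x0, hx0, hx0'⟩ := (hk.and hz).exists
  obtain ⟨s, hs⟩ := h.piz x0
  rw [hx0'] at hs
  have h3 : ∀ᶠ x in FF y, ee Γ (BB D A) x (1, (k, s)) = true := by
    filter_upwards [hk, hz] with x hx hx'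
    rw [ee_true]
    refine ⟨by simpa using hx, ?_⟩
    rw [hs]
    simpa using hx'
  have h4 : y.1.1 (1, (k, s)) = true := by
    obtain ⟨x1, hx1, hx1'⟩ := (h3.and (ev_code y (1, (k, s)))).exists
    rw [← hx1', hx1]
  rw [he] at h4
  have h5 : ∀ᶠ x in FF y', π x = z := by
    filter_upwards [ev_code y' (1, (k, s))] with x hx
    rw [h4, ee_true] at hx
    have h6 := hx.2
    rw [hs] at h6
    simpa using h6
  have h7 : y'.1.2 = z := by
    have h2 : Tendsto π (FF y') (𝓝 z) := tendsto_const_nhds.congr' (by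
      filter_upwards [h5] with x hx
      exact hx.symm)
    exact tendsto_nhds_unique (tendsto_pi y') h2
  exact Subtype.ext (Prod.ext he (h1.trans h7.symm))

/-- translations of the codes are recognised -/
theorem eval_of_ev {T : X → X} {H : YS Γ D π A → YS Γ D π A} (hc : Continuous H)
    (hH : ∀ x, H (em Γ D π A x) = em Γ D π A (T x)) (y : YS Γ D π A) {g : Γ}
    (hg : ∀ᶠ x in FF y, T x = g • x) : (H y).1.1 = sh g y.1.1 := by
  funext j
  obtain ⟨x, hx1, hx2, hx3⟩ := (hg.and (((tendsto_T hc hH y).eventually (ev_code (H y) j)).and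
    (ev_code y (g⁻¹ * j.1, j.2)))).exists
  rw [← hx2, hx1, ee_smul]
  exact hx3

variable [MulAction Γ K]

theorem Nice.eval_ne (h : CD Γ D π A) {T : X → X} {g0 : Γ} (hT : Nice D π A T g0)
    {H : YS Γ D π A → YS Γ D π A} (hc : Continuous H)
    (hH : ∀ x, H (em Γ D π A x) = em Γ D π A (T x)) {y : YS Γ D π A} (hy : y.1.1 ≠ zr) :
    ∃ g : Γ, (H y).1.1 = sh g y.1.1 := by
  obtain ⟨k, hk⟩ := ex_lev h hy
  obtain ⟨b, hb, hb'⟩ := hT.tr
  obtain ⟨g, hg⟩ := (hb' k).ev y hk
  refine ⟨g, eval_of_ev hc hH y ?_⟩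
  filter_upwards [hg] with x hx
  rw [hb x, hx]

theorem Nice.eval_zr [T2Space K] [ContinuousConstSMul Γ K] (h : CD Γ D π A) {T : X → X} {g0 : Γ}
    (hT : Nice D π A T g0) {H : YS Γ D π A → YS Γ D π A} (hc : Continuous H)
    (hH : ∀ x, H (em Γ D π A x) = em Γ D π A (T x)) {y : YS Γ D π A} (hy : y.1.1 = zr) :
    (H y).1.1 = zr ∧ (H y).1.2 = g0 • y.1.2 := by
  constructor
  · by_contra hne
    obtain ⟨j, hj⟩ := exists_true hne
    obtain ⟨m, hm⟩ := h.beta j.1 j.2.1
    obtain ⟨N, hN⟩ := hT.proper m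
    obtain ⟨x, hx1, hx2⟩ := (((tendsto_T hc hH y).eventually (ev_code (H y) j)).and
      (lev_large h hy (N + 1))).exists
    rw [hj, ee_true] at hx1
    have h2 := hm (j.1⁻¹ • T x) (le_of_eq hx1.1)
    rw [smul_inv_smul] at h2
    have := hN x h2
    omega
  · have h1 : Tendsto (fun x => π (T x)) (FF y) (𝓝 (H y).1.2) :=
      (tendsto_pi (H y)).comp (tendsto_T hc hH y)
    have h2 : Tendsto (fun x => g0 • π x) (FF y) (𝓝 (g0 • y.1.2)) :=
      ((continuous_const_smul g0).tendsto _).comp (tendsto_pi y)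
    have h3 : Tendsto (fun x => (π (T x), g0 • π x)) (FF y) (𝓤 K) := by
      intro V hV
      obtain ⟨k0, hk0⟩ := hT.asym V hV
      refine Filter.mem_map.2 ?_
      filter_upwards [lev_large h hy k0] with x hx
      exact hk0 x hx
    exact tendsto_nhds_unique (h1.congr_uniformity h3) h2

end eval2

end Pool.Agent.CAR.M7b
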