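import Pool.Agent.CAR.M7bD

/-!
# Module M7b, part E: the nice bijections
-/

set_option autoImplicit false
set_option linter.unusedVariables false

namespace Pool.Agent.CAR.M7b

open Set MeasureTheory Filter Topology Uniformity

section maps

variable {Γ : Type} [Group Γ] {X : Type} [MulAction Γ X] [MeasurableSpace X]
  [StandardBorelSpace X] {K σ : Type} [UniformSpace K] [MulAction Γ K] {α : Type}
  {D : X → ℕ} {π : X → K} {A : σ → Set X}

theorem nice_t (h : CD Γ D π A) (T : X ≃ X) (g : Γ) (hD : ∀ x, D (T x) = D x)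
    (hA : ∀ h : Γ, ∃ s, A s = {x | T x = h • x})
    (hp : ∀ k, ∃ S : Finset Γ, ∀ x, D x = k → ∃ h ∈ S, T x = h • x)
    (ha : ∀ V ∈ 𝓤 K, ∃ k0, ∀ x, k0 ≤ D x → (π (T x), g • π x) ∈ V) : Nice D π A T g := by
  choose S hS using hp
  refine ⟨exists_b h T S (fun x => hS (D x) x rfl) (fun k g' _ => ?_), fun m => ⟨m, fun x hx => ?_⟩,
    ha⟩
  · obtain ⟨s, hs⟩ := hA g'
    have h1 := PFD.mem h k s
    rw [hs] at h1
    exact h1
  · rw [← hD x]
    exact hx

theorem nice_t_symm [CompactSpace K] [ContinuousConstSMul Γ K] (h : CD Γ D π A) (T : X ≃ X)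
    (g : Γ) (hD : ∀ x, D (T x) = D x)
    (hA : ∀ h : Γ, ∃ s, A s = {x | T x = h • x})
    (hp : ∀ k, ∃ S : Finset Γ, ∀ x, D x = k → ∃ h ∈ S, T x = h • x)
    (ha : ∀ V ∈ 𝓤 K, ∃ k0, ∀ x, k0 ≤ D x → (π (T x), g • π x) ∈ V) :
    Nice D π A T.symm g⁻¹ := by
  classical
  have hD' : ∀ x, D (T.symm x) = D x := by
    intro x
    have h1 := hD (T.symm x)
    rw [Equiv.apply_symm_apply] at h1
    exact h1.symm
  choose S hS using hp
  refine ⟨exists_b h T.symm (fun k => (S k).image (fun g => g⁻¹)) (fun x => ?_) (fun k g' _ => ?_),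
    fun m => ⟨m, fun x hx => ?_⟩, fun V hV => ?_⟩
  · obtain ⟨h', hh', e⟩ := hS (D x) (T.symm x) (hD' x)
    rw [Equiv.apply_symm_apply] at e
    refine ⟨h'⁻¹, Finset.mem_image_of_mem _ hh', ?_⟩
    rw [eq_inv_smul_iff]
    exact e.symm
  · obtain ⟨s, hs⟩ := hA g'⁻¹
    have h1 := PFD.smul h (fun k => PFD.mem h k s) g' k
    refine h1.congr fun x hx => ?_
    rw [hs]
    apply propext
    show T (g' • x) = g'⁻¹ • g' • x ↔ T.symm x = g' • x
    rw [inv_smul_smul, ← Equiv.eq_symm_apply]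
    exact eq_comm
  · rw [← hD' x]
    exact hx
  · have hg : UniformContinuous (fun z : K => g⁻¹ • z) :=
      CompactSpace.uniformContinuous_of_continuous (continuous_const_smul g⁻¹)
    have h1 : {p : K × K | (g⁻¹ • p.2, g⁻¹ • p.1) ∈ V} ∈ 𝓤 K :=
      tendsto_swap_uniformity (hg hV)
    obtain ⟨k0, hk0⟩ := ha _ h1
    refine ⟨k0, fun x hx => ?_⟩
    have h2 := hk0 (T.symm x) (by rw [hD' x]; exact hx)
    simp only [mem_ofPred_eq, Equiv.apply_symm_apply, inv_smul_smul] at h2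
    exact h2

open Classical in
/-- the involution of a set and a group element -/
noncomputable def TO (O : Set X) (g : Γ) (x : X) : X :=
  if x ∈ O then g • x else if g⁻¹ • x ∈ O then g⁻¹ • x else x

omit [MeasurableSpace X] [StandardBorelSpace X] in
theorem TO_TO {O : Set X} {g : Γ} (hO : ∀ x ∈ O, g • x ∉ O) :
    Function.Involutive (TO O g) := by
  intro x
  by_cases h1 : x ∈ O
  · have e : TO O g x = g • x := if_pos h1
    rw [e]
    unfold TO
    rw [if_neg (hO x h1), inv_smul_smul, if_pos h1]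
  · by_cases h2 : g⁻¹ • x ∈ O
    · have e : TO O g x = g⁻¹ • x := by
        unfold TO
        rw [if_neg h1, if_pos h2]
      rw [e]
      unfold TO
      rw [if_pos h2, smul_inv_smul]
    · have e : TO O g x = x := by
        unfold TO
        rw [if_neg h1, if_neg h2]
      rw [e, e]

variable (Γ D A) in
/-- the sets used for the involutions -/
def OO (q : ℕ × (Γ × (ℕ × σ)) × Bool × Γ) : Set X :=
  {x | D x = q.1 ∧ ee Γ (BB D A) x q.2.1 = q.2.2.1 ∧ ee Γ (BB D A) (q.2.2.2 • x) q.2.1 = !q.2.2.1}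

omit [MeasurableSpace X] [StandardBorelSpace X] in
theorem OO_disj (q : ℕ × (Γ × (ℕ × σ)) × Bool × Γ) : ∀ x ∈ OO Γ D A q, q.2.2.2 • x ∉ OO Γ D A q := by
  intro x hx hx'
  have h1 := hx.2.2
  rw [hx'.2.1] at h1
  cases h : q.2.2.1 <;> simp [h] at h1

theorem FD_OO (h : CD Γ D π A) (q : ℕ × (Γ × (ℕ × σ)) × Bool × Γ) :
    FD Γ (BB D A) (fun x => x ∈ OO Γ D A q) := by
  have h1 := (h.lev q.1).prod ((FD.coord (Γ := Γ) (B := BB D A) q.2.1).prod
    ((FD.coord (Γ := Γ) (B := BB D A) q.2.1).smul q.2.2.2))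
  exact h1.comp (fun p => p.1 ∧ p.2.1 = q.2.2.1 ∧ p.2.2 = !q.2.2.1)

theorem nice_TO (h : CD Γ D π A) (q : ℕ × (Γ × (ℕ × σ)) × Bool × Γ) :
    Nice D π A (TO (OO Γ D A q) q.2.2.2) (1 : Γ) := by
  classical
  refine ⟨⟨fun x => if x ∈ OO Γ D A q then q.2.2.2 else
    if q.2.2.2⁻¹ • x ∈ OO Γ D A q then q.2.2.2⁻¹ else 1, fun x => ?_, fun k => ?_⟩,
    fun m => ?_, fun V hV => ?_⟩
  · unfold TO
    by_cases h1 : x ∈ OO Γ D A q
    · simp only [if_pos h1]
    · by_cases h2 : q.2.2.2⁻¹ • x ∈ OO Γ D A q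
      · simp only [if_neg h1, if_pos h2]
      · simp only [if_neg h1, if_neg h2, one_smul]
  · refine h.level k _ ?_
    exact ((FD_OO h q).prod ((FD_OO h q).smul q.2.2.2⁻¹)).comp
      (fun p => if p.1 then q.2.2.2 else if p.2 then q.2.2.2⁻¹ else 1)
  · obtain ⟨N1, h1⟩ := h.beta q.2.2.2⁻¹ m
    obtain ⟨N2, h2⟩ := h.beta q.2.2.2 m
    refine ⟨max m (max N1 N2), fun x hx => ?_⟩
    unfold TO at hx
    by_cases h3 : x ∈ OO Γ D A q
    · rw [if_pos h3] at hx
      have h4 := h1 _ hx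
      rw [inv_smul_smul] at h4
      exact h4.trans ((le_max_left _ _).trans (le_max_right _ _))
    · by_cases h4 : q.2.2.2⁻¹ • x ∈ OO Γ D A q
      · rw [if_neg h3, if_pos h4] at hx
        have h5 := h2 _ hx
        rw [smul_inv_smul] at h5
        exact h5.trans ((le_max_right _ _).trans (le_max_right _ _))
      · rw [if_neg h3, if_neg h4] at hx
        exact hx.trans (le_max_left _ _)
  · obtain ⟨m1, h1⟩ := h.beta q.2.2.2 q.1
    refine ⟨max (q.1 + 1) (m1 + 1), fun x hx => ?_⟩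
    have hx1 : q.1 + 1 ≤ D x := (le_max_left _ _).trans hx
    have hx2 : m1 + 1 ≤ D x := (le_max_right _ _).trans hx
    have h3 : x ∉ OO Γ D A q := by
      intro hc
      have := hc.1
      omega
    have h4 : q.2.2.2⁻¹ • x ∉ OO Γ D A q := by
      intro hc
      have h5 := h1 _ hc.1.le
      rw [smul_inv_smul] at h5
      omega
    unfold TO
    rw [if_neg h3, if_neg h4, one_smul]
    exact refl_mem_uniformity hV

end maps

end Pool.Agent.CAR.M7b
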