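import Pool.Agent.CAR.M7bE

/-!
# Module M7b, part F: the group of homeomorphisms and the Borel action
-/

set_option autoImplicit false
set_option linter.unusedVariables false

namespace Pool.Agent.CAR.M7b

open Set MeasureTheory Filter Topology Uniformity

section rel

variable {Γ : Type} [Group Γ] {X : Type} [MulAction Γ X] {K σ : Type} [UniformSpace K]
  [MulAction Γ K] {D : X → ℕ} {π : X → K} {A : σ → Set X}

/-- the graph of the Borel action on the compactification -/
def Rel (g : Γ) (y y' : YS Γ D π A) : Prop :=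
  (y.1.1 = zr ∧ y'.1.1 = zr ∧ y'.1.2 = g • y.1.2) ∨ (y.1.1 ≠ zr ∧ y'.1.1 = sh g y.1.1)

theorem Rel.one (y : YS Γ D π A) : Rel (1 : Γ) y y := by
  by_cases h : y.1.1 = zr
  · exact Or.inl ⟨h, h, (one_smul _ _).symm⟩
  · exact Or.inr ⟨h, (sh_one _).symm⟩

theorem Rel.mul {g h : Γ} {y y' y'' : YS Γ D π A} (h1 : Rel h y y') (h2 : Rel g y' y'') :
    Rel (g * h) y y'' := by
  rcases h1 with ⟨a1, a2, a3⟩ | ⟨a1, a2⟩
  · rcases h2 with ⟨b1, b2, b3⟩ | ⟨b1, b2⟩
    · exact Or.inl ⟨a1, b2, by rw [b3, a3, mul_smul]⟩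
    · exact absurd a2 b1
  · rcases h2 with ⟨b1, b2, b3⟩ | ⟨b1, b2⟩
    · rw [a2] at b1
      exact absurd b1 (sh_ne_zr a1)
    · exact Or.inr ⟨a1, by rw [b2, a2, sh_mul]⟩

theorem Rel.inv {g : Γ} {y y' : YS Γ D π A} (h1 : Rel g y y') : Rel g⁻¹ y' y := by
  rcases h1 with ⟨a1, a2, a3⟩ | ⟨a1, a2⟩
  · exact Or.inl ⟨a2, a1, by rw [a3, inv_smul_smul]⟩
  · refine Or.inr ⟨?_, ?_⟩
    · rw [a2]
      exact sh_ne_zr a1
    · rw [a2, ← sh_mul, inv_mul_cancel, sh_one]

end rel

section rel2

variable {Γ : Type} [Group Γ] {X : Type} [MulAction Γ X] [MeasurableSpace X]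
  [StandardBorelSpace X] {K σ : Type} [UniformSpace K] [MulAction Γ K]
  {D : X → ℕ} {π : X → K} {A : σ → Set X}

theorem Rel.unique [T2Space K] (h : CD Γ D π A) {g : Γ} {y y' y'' : YS Γ D π A}
    (h1 : Rel g y y') (h2 : Rel g y y'') : y' = y'' := by
  rcases h1 with ⟨a1, a2, a3⟩ | ⟨a1, a2⟩
  · rcases h2 with ⟨b1, b2, b3⟩ | ⟨b1, b2⟩
    · exact Subtype.ext (Prod.ext (a2.trans b2.symm) (a3.trans b3.symm))
    · exact absurd a1 b1
  · rcases h2 with ⟨b1, b2, b3⟩ | ⟨b1, b2⟩
    · exact absurd b1 a1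
    · refine fiber h (a2.trans b2.symm) ?_
      rw [a2]
      exact sh_ne_zr a1

theorem ee_ne_zr (h : CD Γ D π A) (x : X) : ee Γ (BB D A) x ≠ zr := by
  intro hc
  obtain ⟨s, hs⟩ := h.all
  have h1 : ee Γ (BB D A) x (1, (D x, s)) = true := by
    rw [ee_true]
    refine ⟨by simp, ?_⟩
    rw [hs]
    exact mem_univ _
  rw [hc] at h1
  exact absurd h1 (by simp [zr])

theorem ee_inj (h : CD Γ D π A) {x x' : X} (he : ee Γ (BB D A) x = ee Γ (BB D A) x') : x = x' := by
  have key : ∀ p : ℕ × σ, x ∈ BB D A p ↔ x' ∈ BB D A p := by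
    intro p
    have h1 := ee_true (Γ := Γ) (BB D A) x (1, p)
    have h2 := ee_true (Γ := Γ) (BB D A) x' (1, p)
    simp only [inv_one, one_smul] at h1 h2
    rw [he] at h1
    exact h1.symm.trans h2
  have hD : D x' = D x := by
    obtain ⟨s, hs⟩ := h.all
    exact ((key (D x, s)).1 ⟨rfl, by rw [hs]; exact mem_univ _⟩).1
  apply nu_inj
  by_contra hne
  rcases lt_or_gt_of_ne hne with hlt | hlt
  · obtain ⟨q, hq1, hq2⟩ := exists_rat_btwn hlt
    obtain ⟨s, hs⟩ := h.nuq q
    have h1 := (key (D x, s)).1 ⟨rfl, by rw [hs]; exact hq1⟩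
    have h2 := h1.2
    rw [hs] at h2
    exact absurd h2 (not_lt.2 hq2.le)
  · obtain ⟨q, hq1, hq2⟩ := exists_rat_btwn hlt
    obtain ⟨s, hs⟩ := h.nuq q
    have h1 := (key (D x', s)).2 ⟨rfl, by rw [hs]; exact hq1⟩
    have h2 := h1.2
    rw [hs] at h2
    exact absurd h2 (not_lt.2 hq2.le)

theorem rel_em (x : X) (g : Γ) (h : CD Γ D π A) :
    Rel g (em Γ D π A x) (em Γ D π A (g • x)) :=
  Or.inr ⟨ee_ne_zr h x, ee_smul _ g x⟩

theorem measurable_em [Countable Γ] [MeasurableConstSMul Γ X] (h : CD Γ D π A)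
    [MeasurableSpace K] : Measurable (em Γ D π A) := by
  refine Measurable.subtype_mk (Measurable.prodMk ?_ ?_)
  · rw [measurable_pi_iff]
    intro j
    have hB : MeasurableSet (BB D A j.2) := (h.mD (measurableSet_singleton j.2.1)).inter (h.mA j.2.2)
    have h1 : MeasurableSet {x : X | ee Γ (BB D A) x j = true} := by
      have e : {x : X | ee Γ (BB D A) x j = true} = (fun x => j.1⁻¹ • x) ⁻¹' (BB D A j.2) := by
        ext x
        exact ee_true _ _ _
      rw [e]
      exact (measurable_const_smul j.1⁻¹) hB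
    refine measurable_to_countable' fun b => ?_
    cases b with
    | true => exact h1
    | false =>
      have e : (fun x => ee Γ (BB D A) x j) ⁻¹' {false} =
          {x : X | ee Γ (BB D A) x j = true}ᶜ := by
        ext x
        simp
      rw [e]
      exact h1.compl
  · intro U _
    have hc : (range π).Countable := by
      have e : range π = ⋃ k, π '' {x | D x = k} := by
        ext z
        simp
      rw [e]
      exact countable_iUnion fun k => (h.fin k).countable
    have e : π ⁻¹' U = ⋃ z ∈ range π ∩ U, {x | π x = z} := by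
      ext x
      simp only [mem_preimage, mem_iUnion, mem_ofPred_eq]
      constructor
      · intro hx
        exact ⟨π x, ⟨mem_range_self x, hx⟩, rfl⟩
      · rintro ⟨z, hz, hxz⟩
        rw [hxz]
        exact hz.2
    rw [e]
    exact MeasurableSet.biUnion (hc.mono inter_subset_left) fun z _ => h.mP z

end rel2

section core

variable {Γ : Type} [Group Γ] [Countable Γ] {X : Type} [MulAction Γ X] [MeasurableSpace X]
  [StandardBorelSpace X] [MeasurableConstSMul Γ X] {K σ : Type} [Countable σ] [UniformSpace K]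
  [CompactSpace K] [T2Space K] [(uniformity K).IsCountablyGenerated]
  [MulAction Γ K] [ContinuousConstSMul Γ K]
  {D : X → ℕ} {π : X → K} {A : σ → Set X}

theorem continuous_sh {ι : Type} (g : Γ) : Continuous (sh g : (Γ × ι → Bool) → (Γ × ι → Bool)) :=
  continuous_pi fun j => continuous_apply _

/-- the abstract final step -/
theorem core (h : CD Γ D π A) {Q : Type} [Countable Q] (H : Q → YS Γ D π A ≃ₜ YS Γ D π A)
    (hH : ∀ q y, ∃ g : Γ, Rel g y (H q y))
    (hE : ∀ (g : Γ) y, Rel g y y ∨ ∃ q, Rel g y (H q y))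
    (hinf : ∀ y : YS Γ D π A, {y' | ∃ g : Γ, Rel g y y'}.Infinite) :
    Realizable Γ (Eo Γ (X := X)) := by
  classical
  have hc : CompactSpace (YS Γ D π A) := isCompact_iff_compactSpace.1 isClosed_closure.isCompact
  have _ : SecondCountableTopology K := by
    let _ := TopologicalSpace.metrizableSpaceMetric K
    infer_instance
  let mK : MeasurableSpace K := borel K
  have bK : BorelSpace K := ⟨rfl⟩
  -- all the maps
  let HO : Option Q → (YS Γ D π A ≃ₜ YS Γ D π A) := fun o => Option.elim o 1 H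
  have hE' : ∀ (g : Γ) y, ∃ o, Rel g y (HO o y) := by
    intro g y
    rcases hE g y with h1 | ⟨q, hq⟩
    · exact ⟨none, h1⟩
    · exact ⟨some q, hq⟩
  choose o ho using hE'
  let a : Γ → YS Γ D π A → YS Γ D π A := fun g y => HO (o g y) y
  have ha : ∀ g y, Rel g y (a g y) := ho
  -- the group
  let φ : FreeGroup Q →* (YS Γ D π A ≃ₜ YS Γ D π A) := FreeGroup.lift H
  have hφ : ∀ (δ : FreeGroup Q) y, ∃ g : Γ, Rel g y (φ δ y) := by
    intro δ
    induction δ using FreeGroup.induction_on with
    | C1 => exact fun y => ⟨1, by rw [map_one]; exact Rel.one y⟩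
    | of q =>
      intro y
      obtain ⟨g, hg⟩ := hH q y
      refine ⟨g, ?_⟩
      have e : φ (FreeGroup.of q) = H q := FreeGroup.lift_apply_of
      rw [e]
      exact hg
    | inv_of q ih =>
      intro y
      obtain ⟨g, hg⟩ := ih ((φ (FreeGroup.of q))⁻¹ y)
      refine ⟨g⁻¹, ?_⟩
      rw [map_inv]
      have e : φ (FreeGroup.of q) ((φ (FreeGroup.of q))⁻¹ y) = y :=
        Homeomorph.apply_symm_apply _ _
      rw [e] at hg
      exact hg.inv
    | mul x y hx hy =>
      intro z
      obtain ⟨g, hg⟩ := hy z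
      obtain ⟨g', hg'⟩ := hx (φ y z)
      refine ⟨g' * g, ?_⟩
      rw [map_mul]
      exact hg.mul hg'
  let aΔ : MulAction (FreeGroup Q) (YS Γ D π A) :=
    { smul := fun δ y => φ δ y
      one_smul := fun y => by
        show φ 1 y = y
        rw [map_one]
        rfl
      mul_smul := fun δ δ' y => by
        show φ (δ * δ') y = φ δ (φ δ' y)
        rw [map_mul]
        rfl }
  have orb : ∀ y z : YS Γ D π A, (∃ δ : FreeGroup Q, δ • y = z) ↔ ∃ g : Γ, Rel g y z := by
    intro y z
    constructor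
    · rintro ⟨δ, rfl⟩
      exact hφ δ y
    · rintro ⟨g, hg⟩
      rcases hE g y with h1 | ⟨q, hq⟩
      · exact ⟨1, (one_smul _ y).trans (h1.unique h hg)⟩
      · refine ⟨FreeGroup.of q, ?_⟩
        have e : φ (FreeGroup.of q) = H q := FreeGroup.lift_apply_of
        show φ (FreeGroup.of q) y = z
        rw [e]
        exact hq.unique h hg
  refine ⟨YS Γ D π A, inferInstance, inferInstance, hc, inferInstance, inferInstance,
    FreeGroup Q, inferInstance, aΔ, inferInstance, ⟨fun δ => (φ δ).continuous⟩,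
    ⟨em Γ D π A, measurable_em h, fun x x' hx => ee_inj h (congrArg (fun y => y.1.1) hx), ?_, ?_⟩,
    a, fun y => ?_, fun g g' y => ?_, fun g => ?_, fun y => ?_, fun y z => ?_⟩
  · intro x x'
    refine Iff.trans ?_ (orb _ _).symm
    constructor
    · rintro ⟨g, rfl⟩
      exact ⟨g, rel_em x g h⟩
    · rintro ⟨g, hg⟩
      refine ⟨g, ?_⟩
      have h1 := (rel_em x g h).unique h hg
      exact ee_inj h (congrArg (fun y => y.1.1) h1)
  · intro x y hy
    obtain ⟨g, hg⟩ := (orb _ _).1 hy
    exact ⟨g • x, (rel_em x g h).unique h hg⟩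
  · exact (ha 1 y).unique h (Rel.one y)
  · exact (ha (g * g') y).unique h ((ha g' y).mul (ha g _))
  · -- measurability
    intro U hU
    have e : a g ⁻¹' U = ⋃ o' : Option Q, ({y | Rel g y (HO o' y)} ∩ (HO o') ⁻¹' U) := by
      ext y
      simp only [mem_preimage, mem_iUnion, mem_inter_iff, mem_ofPred_eq]
      constructor
      · intro hy
        exact ⟨o g y, ho g y, hy⟩
      · rintro ⟨o', h1, h2⟩
        rw [(ha g y).unique h h1]
        exact h2
    rw [e]
    refine MeasurableSet.iUnion fun o' => MeasurableSet.inter ?_ ((HO o').continuous.measurable hU)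
    have c1 : Continuous fun y : YS Γ D π A => y.1.1 := continuous_fst.comp continuous_subtype_val
    have c2 : Continuous fun y : YS Γ D π A => y.1.2 := continuous_snd.comp continuous_subtype_val
    have c3 : Continuous fun y : YS Γ D π A => (HO o' y).1.1 := c1.comp (HO o').continuous
    have c4 : Continuous fun y : YS Γ D π A => (HO o' y).1.2 := c2.comp (HO o').continuous
    have m1 : MeasurableSet {y : YS Γ D π A | y.1.1 = zr} :=
      (isClosed_eq c1 continuous_const).measurableSet
    have m2 : MeasurableSet {y : YS Γ D π A | (HO o' y).1.1 = zr} :=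
      (isClosed_eq c3 continuous_const).measurableSet
    have m3 : MeasurableSet {y : YS Γ D π A | (HO o' y).1.2 = g • y.1.2} :=
      (isClosed_eq c4 ((continuous_const_smul g).comp c2)).measurableSet
    have m4 : MeasurableSet {y : YS Γ D π A | (HO o' y).1.1 = sh g y.1.1} :=
      (isClosed_eq c3 ((continuous_sh g).comp c1)).measurableSet
    exact (m1.inter (m2.inter m3)).union (m1.compl.inter m4)
  · refine (hinf y).mono ?_
    rintro y' ⟨g, hg⟩
    exact ⟨g, (ha g y).unique h hg⟩
  · refine (orb y z).trans ?_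
    constructor
    · rintro ⟨g, hg⟩
      exact ⟨g, (ha g y).unique h hg⟩
    · rintro ⟨g, rfl⟩
      exact ⟨g, ha g y⟩

end core

end Pool.Agent.CAR.M7b
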