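import Pool.Agent.CAR.M1
import Pool.Agent.CAR.M3

/-!
# Intervals of controlled sizes (module M8)
-/

set_option autoImplicit false
set_option linter.unusedSectionVars false

namespace Pool.Agent.CAR

open Set MeasureTheory

variable {G X : Type} [Group G] [Countable G] [MeasurableSpace X] [StandardBorelSpace X]
  [MulAction G X] [MeasurableConstSMul G X]

/-! ### Measurable choices inside an orbit -/

/-- pick a point of the orbit satisfying a Borel condition -/
theorem M8_pick (Q : X → X → Prop) (hQ : ∀ g : G, MeasurableSet {x | Q x (g • x)}) :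
    ∃ f : X → X, Measurable f ∧ ∀ x, (∃ g : G, Q x (g • x)) → Q x (f x) ∧ Eo G x (f x) := by
  classical
  obtain ⟨e, he⟩ := exists_surjective_nat G
  have h : ∀ x, ∃ n, Q x (e n • x) ∨ ¬ ∃ m, Q x (e m • x) := by
    intro x
    by_cases h : ∃ m, Q x (e m • x)
    · obtain ⟨m, hm⟩ := h
      exact ⟨m, Or.inl hm⟩
    · exact ⟨0, Or.inr h⟩
  refine ⟨fun x => e (Nat.find (h x)) • x, ?_, ?_⟩
  · refine Measurable.find (f := fun n x => e n • x)
      (p := fun n x => Q x (e n • x) ∨ ¬ ∃ m, Q x (e m • x))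
      (fun n => measurable_const_smul (e n)) (fun n => ?_) h
    refine (hQ (e n)).union (MeasurableSet.compl ?_)
    have : {x | ∃ m, Q x (e m • x)} = ⋃ m, {x | Q x (e m • x)} := by
      ext x
      simp
    show MeasurableSet {x | ∃ m, Q x (e m • x)}
    rw [this]
    exact MeasurableSet.iUnion fun m => hQ (e m)
  · rintro x ⟨g, hg⟩
    obtain ⟨n, rfl⟩ := he g
    rcases Nat.find_spec (h x) with h1 | h1
    · exact ⟨h1, ⟨_, rfl⟩⟩
    · exact absurd ⟨n, hg⟩ h1

/-! ### Positions -/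

/-- number of elements of the `F (n+1)`-class in the `F n`-classes before that of `x` -/
noncomputable def M8cnt (F : ℕ → X → X → Prop) (n : ℕ) (x : X) : ℕ :=
  {y | F (n + 1) x y ∧ nu (el (F n) y 0) < nu (el (F n) x 0)}.ncard

/-- position of `x` in its `F n`-class -/
noncomputable def M8pos (F : ℕ → X → X → Prop) : ℕ → X → ℕ
  | 0 => rk (F 0)
  | n + 1 => fun x => M8cnt F n x + M8pos F n x

section Pos

variable {F : ℕ → X → X → Prop} (hF : ∀ n, FBR G (F n)) (hm : ∀ n x y, F n x y → F (n + 1) x y)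

include hF

theorem M8_measurable_cnt (n : ℕ) : Measurable (M8cnt F n) := by
  refine measurable_ncard (G := G)
    (fun x y => F (n + 1) x y ∧ nu (el (F n) y 0) < nu (el (F n) x 0))
    (fun x y h => (hF (n + 1)).sub x y h.1) (fun x => ((hF (n + 1)).fin x).subset fun y h => h.1)
    fun g => ?_
  have h0 : Measurable fun x => nu (el (F n) x 0) := measurable_nu.comp ((hF n).measurable_el 0)
  exact ((hF (n + 1)).meas g).inter
    (measurableSet_lt (h0.comp (measurable_const_smul g)) h0)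

theorem M8_measurable_pos (n : ℕ) : Measurable (M8pos F n) := by
  induction n with
  | zero => exact (hF 0).measurable_rk
  | succ n ih => exact (M8_measurable_cnt hF n).add ih

theorem M8_min_eq {n : ℕ} {x y : X} (h : F n x y) : el (F n) x 0 = el (F n) y 0 :=
  (hF n).el_congr h ((hF n).sz_pos x)

theorem M8_of_min_eq {n : ℕ} {x y : X} (h : el (F n) x 0 = el (F n) y 0) : F n x y := by
  have h1 := (hF n).el_cls x 0
  have h2 := (hF n).el_cls y 0
  rw [← h] at h2
  exact (hF n).equiv.trans h1 ((hF n).equiv.symm h2)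

include hm

theorem M8_cnt_inv {n : ℕ} {x y : X} (h : F n x y) : M8cnt F n x = M8cnt F n y := by
  unfold M8cnt
  rw [M8_min_eq hF h]
  congr 1
  ext z
  have h1 := hm n x y h
  constructor
  · rintro ⟨h2, h3⟩
    exact ⟨(hF (n + 1)).equiv.trans ((hF (n + 1)).equiv.symm h1) h2, h3⟩
  · rintro ⟨h2, h3⟩
    exact ⟨(hF (n + 1)).equiv.trans h1 h2, h3⟩

theorem M8_cnt_add {n : ℕ} {x y : X} (h : F (n + 1) x y)
    (hlt : nu (el (F n) x 0) < nu (el (F n) y 0)) :
    M8cnt F n x + sz (F n) x ≤ M8cnt F n y := by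
  have hd : Disjoint {z | F (n + 1) x z ∧ nu (el (F n) z 0) < nu (el (F n) x 0)}
      {z | F n x z} := by
    rw [Set.disjoint_left]
    rintro z ⟨_, h2⟩ h3
    rw [M8_min_eq hF h3] at h2
    exact lt_irrefl _ h2
  have hf1 : {z | F (n + 1) x z ∧ nu (el (F n) z 0) < nu (el (F n) x 0)}.Finite :=
    ((hF (n + 1)).fin x).subset fun z hz => hz.1
  have hf2 : {z | F (n + 1) y z ∧ nu (el (F n) z 0) < nu (el (F n) y 0)}.Finite :=
    ((hF (n + 1)).fin y).subset fun z hz => hz.1
  unfold M8cnt sz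
  rw [← Set.ncard_union_eq hd hf1 ((hF n).fin x)]
  refine Set.ncard_le_ncard ?_ hf2
  rintro z (⟨h1, h2⟩ | h1)
  · exact ⟨(hF (n + 1)).equiv.trans ((hF (n + 1)).equiv.symm h) h1, h2.trans hlt⟩
  · have h1' : F n x z := h1
    refine ⟨(hF (n + 1)).equiv.trans ((hF (n + 1)).equiv.symm h) (hm n x z h1'), ?_⟩
    rw [← M8_min_eq hF h1']
    exact hlt

theorem M8_cnt_sz (n : ℕ) (x : X) : M8cnt F n x + sz (F n) x ≤ sz (F (n + 1)) x := by
  have hd : Disjoint {z | F (n + 1) x z ∧ nu (el (F n) z 0) < nu (el (F n) x 0)}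
      {z | F n x z} := by
    rw [Set.disjoint_left]
    rintro z ⟨_, h2⟩ h3
    rw [M8_min_eq hF h3] at h2
    exact lt_irrefl _ h2
  have hf1 : {z | F (n + 1) x z ∧ nu (el (F n) z 0) < nu (el (F n) x 0)}.Finite :=
    ((hF (n + 1)).fin x).subset fun z hz => hz.1
  unfold M8cnt sz
  rw [← Set.ncard_union_eq hd hf1 ((hF n).fin x)]
  refine Set.ncard_le_ncard ?_ ((hF (n + 1)).fin x)
  rintro z (⟨h1, _⟩ | h1)
  · exact h1
  · exact hm n x z h1

theorem M8_pos_lt (n : ℕ) (x : X) : M8pos F n x < sz (F n) x := by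
  induction n with
  | zero => exact (hF 0).rk_lt_sz x
  | succ n ih =>
    have := M8_cnt_sz hF hm n x
    show M8cnt F n x + M8pos F n x < _
    omega

theorem M8_pos_inj (n : ℕ) {x y : X} (h : F n x y) (he : M8pos F n x = M8pos F n y) :
    x = y := by
  induction n with
  | zero => exact (hF 0).rk_inj h he
  | succ n ih =>
    have he' : M8cnt F n x + M8pos F n x = M8cnt F n y + M8pos F n y := he
    rcases lt_trichotomy (nu (el (F n) x 0)) (nu (el (F n) y 0)) with h1 | h1 | h1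
    · have h2 := M8_cnt_add hF hm h h1
      have h3 := M8_pos_lt hF hm n x
      omega
    · have h2 := M8_of_min_eq hF (nu_inj h1)
      have h3 := M8_cnt_inv hF hm h2
      exact ih h2 (by omega)
    · have h2 := M8_cnt_add hF hm ((hF (n + 1)).equiv.symm h) h1
      have h3 := M8_pos_lt hF hm n y
      omega

theorem M8_pos_surj (n : ℕ) (x : X) {j : ℕ} (hj : j < sz (F n) x) :
    ∃ y, F n x y ∧ M8pos F n y = j := by
  have h1 : M8pos F n '' {y | F n x y} ⊆ Iio (sz (F n) x) := by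
    rintro _ ⟨y, hy, rfl⟩
    rw [mem_Iio, (hF n).sz_eq hy]
    exact M8_pos_lt hF hm n y
  have hinj : InjOn (M8pos F n) {y | F n x y} := by
    intro y hy z hz h
    exact M8_pos_inj hF hm n ((hF n).equiv.trans ((hF n).equiv.symm hy) hz) h
  have h2 : (M8pos F n '' {y | F n x y}).ncard = sz (F n) x := hinj.ncard_image
  have h3 : M8pos F n '' {y | F n x y} = Iio (sz (F n) x) := by
    refine Set.eq_of_subset_of_ncard_le h1 ?_ (Set.finite_Iio _)
    rw [h2, ← Finset.coe_Iio, Set.ncard_coe_finset, Nat.card_Iio]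
  have : j ∈ M8pos F n '' {y | F n x y} := by
    rw [h3]
    exact hj
  obtain ⟨y, hy, hr⟩ := this
  exact ⟨y, hy, hr⟩

theorem M8_mono {n m : ℕ} (h : n ≤ m) {x y : X} (hxy : F n x y) : F m x y := by
  induction m, h using Nat.le_induction with
  | base => exact hxy
  | succ m _ ih => exact hm m x y ih

theorem M8_sz_gt (hA : Aper G X) (hu : ∀ x : X, ∀ g : G, ∃ n, F n x (g • x)) (x : X) (N : ℕ) :
    ∃ n, N < sz (F n) x := by
  obtain ⟨t, ht, hc⟩ := (hA x).exists_subset_card_eq (N + 1)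
  have h1 : ∀ y ∈ t, ∃ n, F n x y := by
    intro y hy
    obtain ⟨g, rfl⟩ := ht hy
    exact hu x g
  choose! f hf using h1
  refine ⟨t.sup f, ?_⟩
  have h2 : (t : Set X) ⊆ {y | F (t.sup f) x y} := by
    intro y hy
    exact M8_mono hF hm (Finset.le_sup (f := f) hy) (hf y hy)
  have := Set.ncard_le_ncard h2 ((hF _).fin x)
  rw [Set.ncard_coe_finset, hc] at this
  exact this

end Pos

/-! ### Classes of order type `ω` -/

theorem M8_compr_of_pos {F : ℕ → X → X → Prop} (hF : ∀ n, FBR G (F n))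
    (hm : ∀ n x y, F n x y → F (n + 1) x y) (hu : ∀ x : X, ∀ g : G, ∃ n, F n x (g • x))
    (hA : Aper G X) (r : ℕ → X → ℕ) (hr : ∀ n, Measurable (r n))
    (hi : ∀ n x y, F n x y → r n x = r n y → x = y)
    (hs : ∀ n x j, j < sz (F n) x → ∃ y, F n x y ∧ r n y = j)
    (hc : ∀ n x y, F n x y → r (n + 1) y + r n x = r (n + 1) x + r n y)
    (hmono : ∀ n x, r n x ≤ r (n + 1) x) :
    MeasurableSet {x | ∃ B, ∀ n, r n x ≤ B} ∧ Inv G {x | ∃ B, ∀ n, r n x ≤ B} ∧
      ComprOn G {x | ∃ B, ∀ n, r n x ≤ B} := by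
  have hc' : ∀ n m x y, n ≤ m → F n x y → r m y + r n x = r m x + r n y := by
    intro n m x y hnm h
    induction m, hnm using Nat.le_induction with
    | base => omega
    | succ m hnm' ih =>
      have := hc m x y (M8_mono hF hm hnm' h)
      omega
  have hmono' : ∀ x, Monotone fun n => r n x := fun x => monotone_nat_of_le_succ fun n => hmono n x
  -- stabilisation
  have hst : ∀ x, (∃ B, ∀ n, r n x ≤ B) → ∃ n, ∀ m ≥ n, r m x = r n x := by
    intro x hx
    obtain ⟨B, hB⟩ := hx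
    by_contra hcon
    push Not at hcon
    have : ∀ b : ℕ, ∃ n, b ≤ r n x := by
      intro b
      induction b with
      | zero => exact ⟨0, Nat.zero_le _⟩
      | succ b ih =>
        obtain ⟨n, hn⟩ := ih
        obtain ⟨m, hm1, hm2⟩ := hcon n
        have := hmono' x hm1
        simp only at this
        exact ⟨m, by omega⟩
    obtain ⟨n, hn⟩ := this (B + 1)
    have := hB n
    omega
  set Q : ℕ → X → X → Prop := fun m x y => ∃ n, F n x y ∧ (∀ k ≥ n, r k x = r n x) ∧
    r n y = Nat.pair (r n x) m with hQdef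
  have hQm : ∀ m (g : G), MeasurableSet {x | Q m x (g • x)} := by
    intro m g
    have : {x | Q m x (g • x)} = ⋃ n, ({x | F n x (g • x)} ∩ (⋂ k ≥ n, {x | r k x = r n x})) ∩
        {x | r n (g • x) = Nat.pair (r n x) m} := by
      ext x
      simp only [hQdef, mem_ofPred_eq, mem_iUnion, mem_inter_iff, mem_iInter, and_assoc]
    rw [this]
    refine MeasurableSet.iUnion fun n => (((hF n).meas g).inter ?_).inter ?_
    · exact MeasurableSet.iInter fun k => MeasurableSet.iInter fun _ =>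
        measurableSet_eq_fun (hr k) (hr n)
    · exact measurableSet_eq_fun ((hr n).comp (measurable_const_smul g))
        ((measurable_of_countable fun a : ℕ => Nat.pair a m).comp (hr n))
  choose f hfm hf using fun m => M8_pick (G := G) (Q m) (hQm m)
  have key : ∀ x, (∃ B, ∀ n, r n x ≤ B) → ∀ m, Q m x (f m x) ∧ Eo G x (f m x) := by
    intro x hx m
    refine hf m x ?_
    obtain ⟨n, hn⟩ := hst x hx
    obtain ⟨n', hn'⟩ := M8_sz_gt hF hm hA hu x (Nat.pair (r n x) m)
    obtain ⟨y, hy1, hy2⟩ := hs (max n n') x (Nat.pair (r n x) m) (lt_of_lt_of_le hn' (by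
      refine Set.ncard_le_ncard ?_ ((hF _).fin x)
      intro z hz
      exact M8_mono hF hm (le_max_right _ _) hz))
    obtain ⟨g, hg⟩ := (hF _).sub x y hy1
    refine ⟨g, max n n', ?_, ?_, ?_⟩
    · rw [hg]
      exact hy1
    · intro k hk
      rw [hn k (by omega), hn (max n n') (le_max_left _ _)]
    · rw [hg, hy2, hn (max n n') (le_max_left _ _)]
  refine ⟨?_, ?_, fun x m => f m x, fun m => hfm m, ?_, ?_⟩
  · have : {x | ∃ B, ∀ n, r n x ≤ B} = ⋃ B, ⋂ n, {x | r n x ≤ B} := by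
      ext x
      simp
    rw [this]
    exact MeasurableSet.iUnion fun B => MeasurableSet.iInter fun n =>
      measurableSet_le (hr n) measurable_const
  · rintro g x ⟨B, hB⟩
    obtain ⟨n, hn⟩ := hu x g
    refine ⟨B + r n (g • x), fun m => ?_⟩
    rcases le_total n m with h | h
    · have h1 := hc' n m x (g • x) h hn
      have h2 := hB m
      omega
    · have := hmono' (g • x) h
      simp only at this
      omega
  · intro x hx m
    exact (key x hx m).2
  · intro x hx y hy m m' h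
    obtain ⟨n1, ha1, ha2, ha3⟩ := (key x hx m).1
    obtain ⟨n2, hb1, hb2, hb3⟩ := (key y hy m').1
    have h' : f m x = f m' y := h
    rw [← h'] at hb1 hb3
    set N := max n1 n2
    have e1 := hc' n1 N x _ (le_max_left _ _) ha1
    have e2 := hc' n2 N y _ (le_max_right _ _) hb1
    have e3 := ha2 N (le_max_left _ _)
    have e4 := hb2 N (le_max_right _ _)
    have e5 : Nat.pair (r n1 x) m = Nat.pair (r n2 y) m' := by omega
    rw [Nat.pair_eq_pair] at e5
    refine ⟨hi N x y ((hF N).equiv.trans (M8_mono hF hm (le_max_left _ _) ha1)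
      ((hF N).equiv.symm (M8_mono hF hm (le_max_right _ _) hb1))) (by omega), e5.2⟩

/-! ### The shift -/

/-- `y` is `j` places after `x` -/
def M8D (F : ℕ → X → X → Prop) (j : ℤ) (x y : X) : Prop :=
  ∃ n, F n x y ∧ (M8pos F n y : ℤ) = M8pos F n x + j

section Shift

variable {F : ℕ → X → X → Prop} (hF : ∀ n, FBR G (F n)) (hm : ∀ n x y, F n x y → F (n + 1) x y)

include hF hm

theorem M8_pos_diff {n m : ℕ} (h : n ≤ m) {x y : X} (hxy : F n x y) :
    M8pos F m y + M8pos F n x = M8pos F m x + M8pos F n y := by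
  induction m, h using Nat.le_induction with
  | base => omega
  | succ m hnm ih =>
    have h1 := M8_cnt_inv hF hm (M8_mono hF hm hnm hxy)
    show M8cnt F m y + M8pos F m y + _ = M8cnt F m x + M8pos F m x + _
    omega

theorem M8D_iff {n : ℕ} {x y : X} (h : F n x y) (j : ℤ) :
    M8D F j x y ↔ (M8pos F n y : ℤ) = M8pos F n x + j := by
  constructor
  · rintro ⟨m, h1, h2⟩
    have e1 := M8_pos_diff hF hm (le_max_left n m) h
    have e2 := M8_pos_diff hF hm (le_max_right n m) h1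
    omega
  · intro h1
    exact ⟨n, h, h1⟩

theorem M8D_refl (x : X) : M8D F 0 x x := ⟨0, (hF 0).equiv.refl x, by simp⟩

theorem M8D_symm {j : ℤ} {x y : X} (h : M8D F j x y) : M8D F (-j) y x := by
  obtain ⟨n, h1, h2⟩ := h
  exact ⟨n, (hF n).equiv.symm h1, by omega⟩

theorem M8D_trans {i j : ℤ} {x y z : X} (h : M8D F i x y) (h' : M8D F j y z) :
    M8D F (i + j) x z := by
  obtain ⟨n, h1, h2⟩ := h
  obtain ⟨m, h3, h4⟩ := h'
  have e1 := M8_pos_diff hF hm (le_max_left n m) h1
  have e2 := M8_pos_diff hF hm (le_max_right n m) h3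
  refine ⟨max n m, (hF _).equiv.trans (M8_mono hF hm (le_max_left n m) h1)
    (M8_mono hF hm (le_max_right n m) h3), ?_⟩
  omega

theorem M8D_unique {j : ℤ} {x y z : X} (h : M8D F j x y) (h' : M8D F j x z) : y = z := by
  have h1 := M8D_trans hF hm (M8D_symm hF hm h) h'
  rw [neg_add_cancel] at h1
  obtain ⟨n, h2, h3⟩ := h1
  exact M8_pos_inj hF hm n h2 (by omega)

theorem M8D_eq {i j : ℤ} {x y : X} (h : M8D F i x y) (h' : M8D F j x y) : i = j := by
  obtain ⟨n, h2, h3⟩ := h
  have := (M8D_iff hF hm h2 j).1 h'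
  omega

theorem M8D_orb {j : ℤ} {x y : X} (h : M8D F j x y) : Eo G x y := by
  obtain ⟨n, h2, _⟩ := h
  exact (hF n).sub x y h2

theorem M8D_meas (j : ℤ) (g : G) : MeasurableSet {x | M8D F j x (g • x)} := by
  have : {x | M8D F j x (g • x)} = ⋃ n, {x | F n x (g • x)} ∩
      {x | (M8pos F n (g • x) : ℤ) = M8pos F n x + j} := by
    ext x
    simp only [M8D, mem_ofPred_eq, mem_iUnion, mem_inter_iff]
  rw [this]
  refine MeasurableSet.iUnion fun n => ((hF n).meas g).inter ?_
  have h1 := M8_measurable_pos hF n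
  refine measurableSet_eq_fun ?_ ?_
  · exact (measurable_of_countable fun a : ℕ => (a : ℤ)).comp
      (h1.comp (measurable_const_smul g))
  · exact (measurable_of_countable fun a : ℕ => (a : ℤ) + j).comp h1

end Shift

/-- the shift off a compressible set -/
theorem M8_exists_T (hA : Aper G X) (hH : HypOn G (univ : Set X)) :
    ∃ (P : Set X) (T : ℤ → X → X), MeasurableSet P ∧ Inv G P ∧ ComprOn G P ∧
      (∀ j, Measurable (T j)) ∧ (∀ x ∈ P, ∀ j, T j x = x) ∧ (∀ x ∉ P, ∀ j, Eo G x (T j x)) ∧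
      (∀ x ∉ P, T 0 x = x) ∧ (∀ x ∉ P, ∀ i j, T i (T j x) = T (i + j) x) ∧
      (∀ x ∉ P, ∀ i, T i x = x → i = 0) ∧ ∀ x ∉ P, ∀ g : G, ∃ j, g • x = T j x := by
  classical
  obtain ⟨F, hF, hm, hu'⟩ := hH
  have hu : ∀ x : X, ∀ g : G, ∃ n, F n x (g • x) := fun x g => hu' x (mem_univ x) g
  have hlt := fun n x => M8_pos_lt hF hm n x
  have hszm : ∀ n x y, F n x y → sz (F n) x = sz (F n) y := fun n x y h => (hF n).sz_eq h
  obtain ⟨a1, a2, a3⟩ := M8_compr_of_pos hF hm hu hA (M8pos F) (M8_measurable_pos hF)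
    (fun n x y h he => M8_pos_inj hF hm n h he) (fun n x j hj => M8_pos_surj hF hm n x hj)
    (fun n x y h => by
      have h1 := M8_cnt_inv hF hm h
      show M8cnt F n y + M8pos F n y + _ = M8cnt F n x + M8pos F n x + _
      omega)
    (fun n x => by
      show _ ≤ M8cnt F n x + M8pos F n x
      omega)
  obtain ⟨b1, b2, b3⟩ := M8_compr_of_pos hF hm hu hA (fun n x => sz (F n) x - 1 - M8pos F n x)
    (fun n => ((hF n).measurable_sz.sub measurable_const).sub (M8_measurable_pos hF n))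
    (fun n x y h he => by
      have h1 := hlt n x
      have h2 := hlt n y
      have h3 := hszm n x y h
      exact M8_pos_inj hF hm n h (by omega))
    (fun n x j hj => by
      obtain ⟨y, hy1, hy2⟩ := M8_pos_surj hF hm n x (j := sz (F n) x - 1 - j) (by omega)
      refine ⟨y, hy1, ?_⟩
      have h3 := hszm n x y hy1
      omega)
    (fun n x y h => by
      have h1 := M8_cnt_inv hF hm h
      have h2 := hszm n x y h
      have h3 := hszm (n + 1) x y (hm n x y h)
      have h4 := hlt n x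
      have h5 := hlt n y
      have h6 := M8_cnt_sz hF hm n x
      have e1 : M8pos F (n + 1) x = M8cnt F n x + M8pos F n x := rfl
      have e2 : M8pos F (n + 1) y = M8cnt F n y + M8pos F n y := rfl
      omega)
    (fun n x => by
      have h4 := hlt n x
      have h6 := M8_cnt_sz hF hm n x
      have e1 : M8pos F (n + 1) x = M8cnt F n x + M8pos F n x := rfl
      omega)
  set Lo : Set X := {x | ∃ B, ∀ n, M8pos F n x ≤ B} with hLo
  set Up : Set X := {x | ∃ B, ∀ n, sz (F n) x - 1 - M8pos F n x ≤ B} with hUp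
  -- existence of translates
  have hex : ∀ x ∉ Lo ∪ Up, ∀ j : ℤ, ∃ g : G, M8D F j x (g • x) := by
    intro x hx j
    have hx1 : ∀ B, ∃ n, B < M8pos F n x := by
      intro B
      by_contra h
      push Not at h
      exact hx (Or.inl ⟨B, h⟩)
    have hx2 : ∀ B, ∃ n, B < sz (F n) x - 1 - M8pos F n x := by
      intro B
      by_contra h
      push Not at h
      exact hx (Or.inr ⟨B, h⟩)
    obtain ⟨n1, hn1⟩ := hx1 j.natAbs
    obtain ⟨n2, hn2⟩ := hx2 j.natAbs
    have hmon1 : Monotone fun n => M8pos F n x := monotone_nat_of_le_succ fun n => by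
      show _ ≤ M8cnt F n x + M8pos F n x
      omega
    have hmon2 : Monotone fun n => sz (F n) x - 1 - M8pos F n x :=
      monotone_nat_of_le_succ fun n => by
        have h4 := hlt n x
        have h6 := M8_cnt_sz hF hm n x
        have e1 : M8pos F (n + 1) x = M8cnt F n x + M8pos F n x := rfl
        omega
    have h1 := hmon1 (le_max_left n1 n2)
    have h2 := hmon2 (le_max_right n1 n2)
    simp only at h1 h2
    have h3 := hlt (max n1 n2) x
    obtain ⟨y, hy1, hy2⟩ := M8_pos_surj hF hm (max n1 n2) x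
      (j := ((M8pos F (max n1 n2) x : ℤ) + j).toNat) (by omega)
    obtain ⟨g, hg⟩ := (hF _).sub x y hy1
    refine ⟨g, max n1 n2, ?_, ?_⟩
    · rw [hg]
      exact hy1
    · rw [hg, hy2]
      omega
  choose f hfm hf using fun j => M8_pick (G := G) (M8D F j) (M8D_meas hF hm j)
  have hPm : MeasurableSet (Lo ∪ Up) := a1.union b1
  have hPi : Inv G (Lo ∪ Up) := by
    rintro g x (hx | hx)
    · exact Or.inl (a2 g x hx)
    · exact Or.inr (b2 g x hx)
  have hPi' : ∀ x ∉ Lo ∪ Up, ∀ y, Eo G x y → y ∉ Lo ∪ Up := by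
    rintro x hx _ ⟨g, rfl⟩ hy
    apply hx
    have := hPi g⁻¹ _ hy
    rwa [inv_smul_smul] at this
  have hT : ∀ x ∉ Lo ∪ Up, ∀ j, M8D F j x (f j x) := fun x hx j => (hf j x (hex x hx j)).1
  refine ⟨Lo ∪ Up, fun j x => if x ∈ Lo ∪ Up then x else f j x, hPm, hPi, ?_, ?_, ?_, ?_, ?_, ?_,
    ?_, ?_⟩
  · have h1 : Lo ∪ Up = ⋃ n : ℕ, if n = 0 then Lo else Up := by
      ext x
      simp only [mem_union, mem_iUnion]
      constructor
      · rintro (h | h)
        · exact ⟨0, by simpa using h⟩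
        · exact ⟨1, by simpa using h⟩
      · rintro ⟨n, hn⟩
        split_ifs at hn
        · exact Or.inl hn
        · exact Or.inr hn
    rw [h1]
    refine comprOn_iUnion (fun n => ?_) (fun n => ?_) (fun n => ?_)
    · split_ifs
      exacts [a1, b1]
    · split_ifs
      exacts [a2, b2]
    · split_ifs
      exacts [a3, b3]
  · intro j
    exact Measurable.ite hPm measurable_id (hfm j)
  · intro x hx j
    simp only [if_pos hx]
  · intro x hx j
    simp only [if_neg hx]
    exact M8D_orb hF hm (hT x hx j)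
  · intro x hx
    simp only [if_neg hx]
    exact M8D_unique hF hm (hT x hx 0) (M8D_refl hF hm x)
  · intro x hx i j
    have h1 := hPi' x hx _ (M8D_orb hF hm (hT x hx j))
    simp only [if_neg hx, if_neg h1]
    refine M8D_unique hF hm ?_ (hT x hx (i + j))
    have := M8D_trans hF hm (hT x hx j) (hT _ h1 i)
    rwa [add_comm] at this
  · intro x hx i h
    simp only [if_neg hx] at h
    have h1 := hT x hx i
    rw [h] at h1
    exact M8D_eq hF hm h1 (M8D_refl hF hm x)
  · intro x hx g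
    obtain ⟨n, hn⟩ := hu x g
    refine ⟨(M8pos F n (g • x) : ℤ) - M8pos F n x, ?_⟩
    simp only [if_neg hx]
    refine M8D_unique hF hm ⟨n, hn, ?_⟩ (hT x hx _)
    omega

/-! ### Markers -/

section Markers

variable {P : Set X} {T : ℤ → X → X} (hP : MeasurableSet P) (hPi : Inv G P)
  (hTm : ∀ j, Measurable (T j)) (hTP : ∀ x ∈ P, ∀ j, T j x = x)
  (hTo : ∀ x ∉ P, ∀ j, Eo G x (T j x)) (hT0 : ∀ x ∉ P, T 0 x = x)
  (hTadd : ∀ x ∉ P, ∀ i j, T i (T j x) = T (i + j) x) (hTi : ∀ x ∉ P, ∀ i, T i x = x → i = 0)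

omit [Countable G] [MeasurableConstSMul G X] [StandardBorelSpace X] in
theorem M8_notin (hPi : Inv G P) {x y : X} (hx : x ∉ P) (h : Eo G x y) : y ∉ P := by
  obtain ⟨g, rfl⟩ := h
  intro hy
  apply hx
  have := hPi g⁻¹ _ hy
  rwa [inv_smul_smul] at this

include hTm hTP hT0 hTadd hTi in
/-- one marker set -/
theorem M8_marker {S : Set X} (hS : MeasurableSet S) (hSP : S ⊆ Pᶜ) (L : ℕ) :
    ∃ M ⊆ S, MeasurableSet M ∧ (∀ x ∈ M, ∀ i : ℤ, |i| < L → T i x ∈ M → i = 0) ∧
      ∀ x ∈ S, x ∈ M ∨ ∃ i : ℤ, |i| < L ∧ T i x ∈ M := by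
  have hfin : Finite {i : ℤ // |i| < (L : ℤ)} := by
    have : {i : ℤ | |i| < (L : ℤ)}.Finite := by
      refine (Set.finite_Icc (-(L : ℤ)) L).subset fun i hi => ?_
      have hi' : |i| < (L : ℤ) := hi
      rw [abs_lt] at hi'
      exact ⟨hi'.1.le, hi'.2.le⟩
    exact this.to_subtype
  obtain ⟨M, h1, h2, h3, h4⟩ := exists_maxDisc (fun i : {i : ℤ // |i| < (L : ℤ)} => T i.1)
    (fun i => hTm i.1) (fun i => ⟨⟨-i.1, by rw [abs_neg]; exact i.2⟩, fun x => by
      by_cases hx : x ∈ P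
      · simp only [hTP x hx]
      · simp only [hTadd x hx, neg_add_cancel, hT0 x hx]⟩) hS
  refine ⟨M, h1, h2, fun x hx i hi hT => ?_, fun x hx => ?_⟩
  · exact hTi x (hSP (h1 hx)) i (h3 x hx ⟨i, hi⟩ hT)
  · rcases h4 x hx with h | ⟨i, hi⟩
    · exact Or.inl h
    · exact Or.inr ⟨i.1, i.2, hi⟩

include hP hTm hTP hT0 hTadd hTi in
/-- all marker sets -/
theorem M8_markers (L : ℕ → ℕ) :
    ∃ M : ℕ → Set X, (∀ k, MeasurableSet (M k)) ∧ (∀ k, M k ⊆ Pᶜ) ∧ (∀ k, M (k + 1) ⊆ M k) ∧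
      (∀ k, ∀ x ∈ M k, ∀ i : ℤ, |i| < L k → T i x ∈ M k → i = 0) ∧
      (∀ x ∉ P, x ∈ M 0 ∨ ∃ i : ℤ, |i| < L 0 ∧ T i x ∈ M 0) ∧
      ∀ k, ∀ x ∈ M k, x ∈ M (k + 1) ∨ ∃ i : ℤ, |i| < L (k + 1) ∧ T i x ∈ M (k + 1) := by
  have h : ∀ (S : {S : Set X // MeasurableSet S ∧ S ⊆ Pᶜ}) (l : ℕ),
      ∃ M : {S : Set X // MeasurableSet S ∧ S ⊆ Pᶜ}, M.1 ⊆ S.1 ∧
        (∀ x ∈ M.1, ∀ i : ℤ, |i| < l → T i x ∈ M.1 → i = 0) ∧
        ∀ x ∈ S.1, x ∈ M.1 ∨ ∃ i : ℤ, |i| < l ∧ T i x ∈ M.1 := by
    intro S l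
    obtain ⟨M, h1, h2, h3, h4⟩ := M8_marker hTm hTP hT0 hTadd hTi S.2.1 S.2.2 l
    exact ⟨⟨M, h2, h1.trans S.2.2⟩, h1, h3, h4⟩
  choose f hf1 hf2 hf3 using h
  let Q : ℕ → {S : Set X // MeasurableSet S ∧ S ⊆ Pᶜ} := fun k =>
    Nat.rec (f ⟨Pᶜ, hP.compl, subset_rfl⟩ (L 0)) (fun k M => f M (L (k + 1))) k
  refine ⟨fun k => (Q k).1, fun k => (Q k).2.1, fun k => (Q k).2.2, fun k => hf1 _ _, ?_, ?_, ?_⟩
  · intro k
    cases k with
    | zero => exact hf2 _ _
    | succ k => exact hf2 _ _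
  · intro x hx
    exact hf3 ⟨Pᶜ, hP.compl, subset_rfl⟩ (L 0) x hx
  · intro k x hx
    exact hf3 (Q k) (L (k + 1)) x hx

end Markers

/-- M8: intervals of controlled sizes -/
theorem exists_intervals (hA : Aper G X) (hH : HypOn G (univ : Set X)) (L : ℕ → ℕ)
    (hL0 : 1 ≤ L 0) (hL : ∀ k, 3 * L k + 1 ≤ L (k + 1)) :
    ∃ (P : Set X) (S : ℕ → X → X → Prop), MeasurableSet P ∧ Inv G P ∧ ComprOn G P ∧
      (∀ n, FBR G (S n)) ∧ (∀ n x y, S n x y → S (n + 1) x y) ∧
      (∀ x ∉ P, ∀ g : G, ∃ n, S n x (g • x)) ∧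
      ∀ x ∉ P, ∀ k, L k ≤ sz (S k) x ∧ sz (S k) x ≤ 3 * L k := by
  classical
  obtain ⟨P1, T, hP, hPi, hPc, hTm, hTP, hTo, hT0, hTadd, hTi, hTs⟩ := M8_exists_T hA hH
  obtain ⟨M, hMm, hMP, hMs, hMd, hM0, hM1⟩ := M8_markers hP hTm hTP hT0 hTadd hTi L
  have hLk : ∀ k, k + 1 ≤ L k := by
    intro k
    induction k with
    | zero => exact hL0
    | succ k ih =>
      have := hL k
      omega
  have hMs' : ∀ k l, k ≤ l → M l ⊆ M k := by
    intro k l h
    induction l, h using Nat.le_induction with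
    | base => exact subset_rfl
    | succ l _ ih => exact (hMs l).trans ih
  have hnot : ∀ x ∉ P1, ∀ j, T j x ∉ P1 := fun x hx j => M8_notin hPi hx (hTo x hx j)
  have hTinj : ∀ x ∉ P1, ∀ i j, T i x = T j x → i = j := by
    intro x hx i j h
    have h1 : T (-i) (T i x) = T (-i) (T j x) := by rw [h]
    rw [hTadd x hx, hTadd x hx, neg_add_cancel, hT0 x hx] at h1
    have := hTi x hx _ h1.symm
    omega
  -- forward windows
  have hfw : ∀ k, ∀ x ∉ P1, ∃ j : ℤ, 1 ≤ j ∧ j ≤ 3 * L k ∧ T j x ∈ M k := by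
    intro k
    induction k with
    | zero =>
      intro x hx
      rcases hM0 (T (L 0) x) (hnot x hx _) with h | ⟨i, hi, h⟩
      · exact ⟨L 0, by omega, by omega, h⟩
      · rw [hTadd x hx] at h
        rw [abs_lt] at hi
        exact ⟨i + L 0, by omega, by omega, h⟩
    | succ k ih =>
      intro x hx
      have h0 := hL k
      obtain ⟨i, hi1, hi2, hi3⟩ := ih (T ((L (k + 1) : ℤ) - 1) x) (hnot x hx _)
      rw [hTadd x hx] at hi3
      rcases hM1 k _ hi3 with h | ⟨j, hj, h⟩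
      · exact ⟨_, by omega, by omega, h⟩
      · rw [hTadd x hx] at h
        rw [abs_lt] at hj
        exact ⟨_, by omega, by omega, h⟩
  have hbw : ∀ k, ∀ x ∉ P1, ∃ j : ℕ, j < 3 * L k ∧ T (-(j : ℤ)) x ∈ M k := by
    intro k x hx
    obtain ⟨j, h1, h2, h3⟩ := hfw k (T (-(3 * L k : ℤ)) x) (hnot x hx _)
    rw [hTadd x hx] at h3
    refine ⟨(3 * L k - j : ℤ).toNat, by omega, ?_⟩
    have : (-(((3 * L k - j : ℤ).toNat : ℕ) : ℤ)) = j + -(3 * (L k : ℤ)) := by omega
    rw [this]
    exact h3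
  have hex : ∀ k x, ∃ j : ℕ, T (-(j : ℤ)) x ∈ M k ∨ x ∈ P1 := by
    intro k x
    by_cases hx : x ∈ P1
    · exact ⟨0, Or.inr hx⟩
    · obtain ⟨j, _, h⟩ := hbw k x hx
      exact ⟨j, Or.inl h⟩
  let b : ℕ → X → ℕ := fun k x => Nat.find (hex k x)
  let lam : ℕ → X → X := fun k x => T (-(b k x : ℤ)) x
  have hlm : ∀ k, Measurable (lam k) := by
    intro k
    refine Measurable.find (f := fun (n : ℕ) x => T (-(n : ℤ)) x)
      (p := fun (n : ℕ) x => T (-(n : ℤ)) x ∈ M k ∨ x ∈ P1) (fun n => hTm _) (fun n => ?_) (hex k)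
    exact ((hTm _) (hMm k)).union hP
  have hb1 : ∀ k, ∀ x ∉ P1, lam k x ∈ M k := by
    intro k x hx
    rcases Nat.find_spec (hex k x) with h | h
    · exact h
    · exact absurd h hx
  have hb2 : ∀ k x, ∀ j < b k x, T (-(j : ℤ)) x ∉ M k := by
    intro k x j hj h
    exact Nat.find_min (hex k x) hj (Or.inl h)
  have hb3 : ∀ k, ∀ x ∉ P1, b k x < 3 * L k := by
    intro k x hx
    obtain ⟨j, h1, h2⟩ := hbw k x hx
    exact lt_of_le_of_lt (Nat.find_min' (hex k x) (Or.inl h2)) h1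
  have hbu : ∀ k, ∀ x ∉ P1, ∀ j : ℕ, T (-(j : ℤ)) x ∈ M k → (∀ i < j, T (-(i : ℤ)) x ∉ M k) →
      b k x = j := by
    intro k x hx j h1 h2
    refine le_antisymm (Nat.find_min' (hex k x) (Or.inl h1)) ?_
    by_contra hlt
    push Not at hlt
    exact h2 _ hlt (hb1 k x hx)
  have hlo : ∀ k, ∀ x ∉ P1, Eo G x (lam k x) := fun k x hx => hTo x hx _
  have hln : ∀ k, ∀ x ∉ P1, lam k x ∉ P1 := fun k x hx => hnot x hx _
  have hTl : ∀ k, ∀ x ∉ P1, T (b k x) (lam k x) = x := by
    intro k x hx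
    show T (b k x) (T (-(b k x : ℤ)) x) = x
    rw [hTadd x hx, add_neg_cancel, hT0 x hx]
  have hlT : ∀ k, ∀ m ∈ M k, ∀ i < L k, lam k (T (i : ℤ) m) = m := by
    intro k m hmM i hi
    have hmP : m ∉ P1 := hMP k hmM
    have h1 : b k (T (i : ℤ) m) = i := by
      refine hbu k _ (hnot m hmP _) i ?_ ?_
      · rw [hTadd m hmP, neg_add_cancel, hT0 m hmP]
        exact hmM
      · intro j hj h
        rw [hTadd m hmP] at h
        have := hMd k m hmM _ (by rw [abs_lt]; constructor <;> omega) h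
        omega
    show T (-(b k (T (i : ℤ) m) : ℤ)) (T (i : ℤ) m) = m
    rw [h1, hTadd m hmP, neg_add_cancel, hT0 m hmP]
  have hls : ∀ k, ∀ x ∉ P1, lam (k + 1) x = lam (k + 1) (lam k x) := by
    intro k x hx
    have hl := hln k x hx
    have h1 : b (k + 1) x = b k x + b (k + 1) (lam k x) := by
      refine hbu (k + 1) x hx _ ?_ ?_
      · have h2 := hb1 (k + 1) (lam k x) hl
        have h3 : lam (k + 1) (lam k x) =
            T (-(b (k + 1) (lam k x) : ℤ)) (T (-(b k x : ℤ)) x) := rfl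
        rw [h3, hTadd x hx] at h2
        have h4 : -(((b k x + b (k + 1) (lam k x) : ℕ)) : ℤ) =
          -(b (k + 1) (lam k x) : ℤ) + -(b k x : ℤ) := by omega
        rw [h4]
        exact h2
      · intro i hi h
        by_cases hi2 : i < b k x
        · exact hb2 k x i hi2 (hMs k h)
        · have h5 := hb2 (k + 1) (lam k x) (i - b k x) (by omega)
          apply h5
          show T (-((i - b k x : ℕ) : ℤ)) (T (-(b k x : ℤ)) x) ∈ M (k + 1)
          rw [hTadd x hx]
          have h4 : -((i - b k x : ℕ) : ℤ) + -(b k x : ℤ) = -(i : ℤ) := by omega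
          rw [h4]
          exact h
    show T (-(b (k + 1) x : ℤ)) x = T (-(b (k + 1) (lam k x) : ℤ)) (T (-(b k x : ℤ)) x)
    rw [hTadd x hx, h1]
    congr 1
    omega
  -- the second exceptional set
  set Mi : Set X := ⋂ k, M k with hMi
  have hMim : MeasurableSet Mi := MeasurableSet.iInter hMm
  set P2 : Set X := {x | ∃ g : G, g • x ∈ Mi} with hP2
  have hP2m : MeasurableSet P2 := by
    have : P2 = ⋃ g : G, (fun x => g • x) ⁻¹' Mi := by
      ext x
      simp [hP2]
    rw [this]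
    exact MeasurableSet.iUnion fun g => (measurable_const_smul g) hMim
  have hP2i : Inv G P2 := by
    rintro g x ⟨h, hh⟩
    exact ⟨h * g⁻¹, by rwa [mul_smul, inv_smul_smul]⟩
  have hMiP : ∀ x ∈ Mi, x ∉ P1 := fun x hx => hMP 0 (mem_iInter.1 hx 0)
  have hP2c : ComprOn G P2 := by
    refine comprOn_of_section hP2m hP2i hMim (fun x hx => ⟨1, by rwa [one_smul]⟩)
      (fun x hx => hx) (fun x l => T (l : ℤ) x) (fun l => hTm _)
      (fun x hx l => hTo x (hMiP x hx) _) ?_
    intro x hx y hy m n h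
    have hxP := hMiP x hx
    have hyP := hMiP y hy
    have h1 : y = T ((m : ℤ) - n) x := by
      have h2 : T (-(n : ℤ)) (T (m : ℤ) x) = T (-(n : ℤ)) (T (n : ℤ) y) := by rw [h]
      rw [hTadd x hxP, hTadd y hyP, neg_add_cancel, hT0 y hyP] at h2
      rw [← h2]
      congr 1
      ring
    have hk := hLk (m + n)
    have h3 := hMd (m + n) x (mem_iInter.1 hx _) ((m : ℤ) - n)
      (by rw [abs_lt]; constructor <;> omega) (by rw [← h1]; exact mem_iInter.1 hy _)
    have h4 : m = n := by omega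
    subst h4
    rw [h1, sub_self, hT0 x hxP]
    exact ⟨rfl, rfl⟩
  have hPPi : Inv G (P1 ∪ P2) := by
    rintro g x (hx | hx)
    · exact Or.inl (hPi g x hx)
    · exact Or.inr (hP2i g x hx)
  have hPn : ∀ x ∉ P1 ∪ P2, ∀ y, Eo G x y → y ∉ P1 ∪ P2 := fun x hx y h => M8_notin hPPi hx h
  let S : ℕ → X → X → Prop := fun k x y => x = y ∨ (x ∉ P1 ∪ P2 ∧ y ∉ P1 ∪ P2 ∧ lam k x = lam k y)
  have hn1 : ∀ x ∉ P1 ∪ P2, x ∉ P1 := fun x hx h => hx (Or.inl h)
  have hup : ∀ k, ∀ x ∉ P1 ∪ P2, {y | S k x y} ⊆ (fun i : ℕ => T (i : ℤ) (lam k x)) '' Iio (3 * L k) := by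
    rintro k x hx y (rfl | ⟨_, hy, h⟩)
    · exact ⟨b k x, hb3 k x (hn1 x hx), hTl k x (hn1 x hx)⟩
    · refine ⟨b k y, hb3 k y (hn1 y hy), ?_⟩
      simp only
      rw [h]
      exact hTl k y (hn1 y hy)
  have hSfbr : ∀ k, FBR G (S k) := by
    intro k
    refine ⟨⟨fun x => Or.inl rfl, ?_, ?_⟩, ?_, ?_, ?_⟩
    · rintro x y (rfl | ⟨h1, h2, h3⟩)
      · exact Or.inl rfl
      · exact Or.inr ⟨h2, h1, h3.symm⟩
    · rintro x y z (rfl | ⟨h1, h2, h3⟩) h
      · exact h
      · rcases h with rfl | ⟨h4, h5, h6⟩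
        · exact Or.inr ⟨h1, h2, h3⟩
        · exact Or.inr ⟨h1, h5, h3.trans h6⟩
    · rintro x y (rfl | ⟨h1, h2, h3⟩)
      · exact ⟨1, one_smul _ _⟩
      · obtain ⟨g, hg⟩ := hlo k x (hn1 x h1)
        obtain ⟨h, hh⟩ := hlo k y (hn1 y h2)
        refine ⟨h⁻¹ * g, ?_⟩
        rw [mul_smul, hg, h3, ← hh, inv_smul_smul]
    · intro x
      by_cases hx : x ∈ P1 ∪ P2
      · refine (Set.finite_singleton x).subset ?_
        rintro y (rfl | ⟨h1, _, _⟩)
        · rfl
        · exact absurd hx h1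
      · exact ((Set.finite_Iio _).image _).subset (hup k x hx)
    · intro g
      have : {x | S k x (g • x)} = {x | x = g • x} ∪ (((P1 ∪ P2)ᶜ ∩
          (fun x => g • x) ⁻¹' (P1 ∪ P2)ᶜ) ∩ {x | lam k x = lam k (g • x)}) := by
        ext x
        simp only [S, mem_ofPred_eq, mem_union, mem_inter_iff, mem_compl_iff, mem_preimage, and_assoc]
      rw [this]
      refine (measurableSet_eq' measurable_id (measurable_const_smul g)).union
        (((hP.union hP2m).compl.inter ((measurable_const_smul g) (hP.union hP2m).compl)).inter ?_)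
      exact measurableSet_eq' (hlm k) ((hlm k).comp (measurable_const_smul g))
  refine ⟨P1 ∪ P2, S, hP.union hP2m, hPPi, ?_, hSfbr, ?_, ?_, ?_⟩
  · have h1 : P1 ∪ P2 = ⋃ n : ℕ, if n = 0 then P1 else P2 := by
      ext x
      simp only [mem_union, mem_iUnion]
      constructor
      · rintro (h | h)
        · exact ⟨0, by simpa using h⟩
        · exact ⟨1, by simpa using h⟩
      · rintro ⟨n, hn⟩
        split_ifs at hn
        · exact Or.inl hn
        · exact Or.inr hn
    rw [h1]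
    refine comprOn_iUnion (fun n => ?_) (fun n => ?_) (fun n => ?_)
    · split_ifs
      exacts [hP, hP2m]
    · split_ifs
      exacts [hPi, hP2i]
    · split_ifs
      exacts [hPc, hP2c]
  · rintro k x y (rfl | ⟨h1, h2, h3⟩)
    · exact Or.inl rfl
    · refine Or.inr ⟨h1, h2, ?_⟩
      rw [hls k x (hn1 x h1), hls k y (hn1 y h2), h3]
  · -- exhaustion
    have key : ∀ x ∉ P1 ∪ P2, ∀ j : ℕ, ∃ n, S n x (T (j : ℤ) x) := by
      intro x hx j
      have hx1 := hn1 x hx
      by_contra hcon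
      push Not at hcon
      have h1 : ∀ k, ∃ i : ℕ, i < j ∧ T (((j - i : ℕ)) : ℤ) x ∈ M k := by
        intro k
        by_contra hno
        push Not at hno
        apply hcon k
        refine Or.inr ⟨hx, hPn x hx _ (hTo x hx1 _), ?_⟩
        have h2 : b k (T (j : ℤ) x) = b k x + j := by
          refine hbu k _ (hnot x hx1 _) _ ?_ ?_
          · rw [hTadd x hx1]
            have : -((b k x + j : ℕ) : ℤ) + j = -(b k x : ℤ) := by omega
            rw [this]
            exact hb1 k x hx1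
          · intro i hi h
            rw [hTadd x hx1] at h
            by_cases hij : i < j
            · apply hno i hij
              have : -(i : ℤ) + j = ((j - i : ℕ) : ℤ) := by omega
              rwa [this] at h
            · apply hb2 k x (i - j) (by omega)
              have : -(i : ℤ) + j = -((i - j : ℕ) : ℤ) := by omega
              rwa [this] at h
        show T (-(b k x : ℤ)) x = T (-(b k (T (j : ℤ) x) : ℤ)) (T (j : ℤ) x)
        rw [h2, hTadd x hx1]
        congr 1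
        omega
      -- pigeonhole
      have h2 : ∃ i < j, ∀ k, T (((j - i : ℕ)) : ℤ) x ∈ M k := by
        by_contra hno
        push Not at hno
        choose! f hf using hno
        obtain ⟨i, hi, h⟩ := h1 ((Finset.range j).sup f)
        exact hf i hi (hMs' _ _ (Finset.le_sup (f := f) (Finset.mem_range.2 hi)) h)
      obtain ⟨i, _, hi⟩ := h2
      obtain ⟨g, hg⟩ := hTo x hx1 ((j - i : ℕ) : ℤ)
      apply hx
      refine Or.inr ⟨g, ?_⟩
      rw [hg]
      exact mem_iInter.2 hi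
    intro x hx g
    have hx1 := hn1 x hx
    obtain ⟨j, hj⟩ := hTs x hx1 g
    rcases le_total 0 j with h0 | h0
    · obtain ⟨n, hn⟩ := key x hx j.toNat
      have : (j.toNat : ℤ) = j := by omega
      rw [this, ← hj] at hn
      exact ⟨n, hn⟩
    · have hy := hPn x hx _ ⟨g, rfl⟩
      obtain ⟨n, hn⟩ := key (g • x) hy (-j).toNat
      have : ((-j).toNat : ℤ) = -j := by omega
      have h2 : T (((-j).toNat : ℕ) : ℤ) (g • x) = x := by
        rw [this, hj, hTadd x hx1, neg_add_cancel, hT0 x hx1]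
      rw [h2] at hn
      exact ⟨n, (hSfbr n).equiv.symm hn⟩
  · intro x hx k
    have hx1 := hn1 x hx
    constructor
    · have h1 : (fun i : ℕ => T (i : ℤ) (lam k x)) '' Iio (L k) ⊆ {y | S k x y} := by
        rintro _ ⟨i, hi, rfl⟩
        refine Or.inr ⟨hx, ?_, ?_⟩
        · exact hPn _ (hPn x hx _ (hlo k x hx1)) _ (hTo _ (hln k x hx1) _)
        · exact (hlT k _ (hb1 k x hx1) i hi).symm
      have h2 := Set.ncard_le_ncard h1 ((hSfbr k).fin x)
      have h3 : InjOn (fun i : ℕ => T (i : ℤ) (lam k x)) (Iio (L k)) := by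
        intro i _ j _ h
        have := hTinj _ (hln k x hx1) _ _ h
        omega
      rw [h3.ncard_image, ← Finset.coe_Iio, Set.ncard_coe_finset, Nat.card_Iio] at h2
      exact h2
    · calc sz (S k) x ≤ ((fun i : ℕ => T (i : ℤ) (lam k x)) '' Iio (3 * L k)).ncard :=
            Set.ncard_le_ncard (hup k x hx) ((Set.finite_Iio _).image _)
        _ ≤ (Iio (3 * L k)).ncard := Set.ncard_image_le (Set.finite_Iio _)
        _ = 3 * L k := by rw [← Finset.coe_Iio, Set.ncard_coe_finset, Nat.card_Iio]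

end Pool.Agent.CAR
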