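import Pool.Agent.CAR.M2
import Pool.Agent.CAR.M3

/-!
# M9: digit maps for increasing unions of finite relations
-/

set_option autoImplicit false
set_option linter.unusedSectionVars false

namespace Pool.Agent.CAR

open Set MeasureTheory Filter Topology

namespace M9

variable {G X : Type} [Group G] [Countable G] [MeasurableSpace X] [StandardBorelSpace X]
  [MulAction G X] [MeasurableConstSMul G X]

/-- positions in the classes of `F` -/
structure IsPos (F : X → X → Prop) (p : X → ℕ) : Prop where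
  lt : ∀ x, p x < sz F x
  inj : ∀ x y, F x y → p x = p y → x = y

/-- representative of the class -/
noncomputable def rep (F : X → X → Prop) (x : X) : X := el F x 0

/-- complete elements -/
def cpl (F : X → X → Prop) (p : X → ℕ) (σ : ℕ) (x : X) : Prop := p x < σ * (sz F x / σ)

section
omit [Countable G] [MeasurableConstSMul G X]

theorem rep_cls {F : X → X → Prop} (hF : FBR G F) (x : X) : F x (rep F x) := hF.el_cls x 0

theorem rep_eq_iff {F : X → X → Prop} (hF : FBR G F) (x y : X) : rep F x = rep F y ↔ F x y := by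
  constructor
  · intro h
    exact hF.equiv.trans (rep_cls hF x) (h ▸ hF.equiv.symm (rep_cls hF y))
  · intro h
    exact hF.el_congr h (hF.sz_pos x)

theorem image_pos {F : X → X → Prop} (hF : FBR G F) {p : X → ℕ} (hp : IsPos F p) (x : X) :
    p '' {y | F x y} = Iio (sz F x) := by
  have h1 : p '' {y | F x y} ⊆ Iio (sz F x) := by
    rintro _ ⟨y, hy, rfl⟩
    rw [mem_Iio, hF.sz_eq hy]
    exact hp.lt y
  have hinj : InjOn p {y | F x y} := by
    intro y hy z hz h
    exact hp.inj _ _ (hF.equiv.trans (hF.equiv.symm hy) hz) h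
  have h2 : (p '' {y | F x y}).ncard = sz F x := hinj.ncard_image
  refine Set.eq_of_subset_of_ncard_le h1 ?_ (Set.finite_Iio _)
  rw [h2, ← Finset.coe_Iio, Set.ncard_coe_finset, Nat.card_Iio]

theorem exists_pos {F : X → X → Prop} (hF : FBR G F) {p : X → ℕ} (hp : IsPos F p) (x : X) {j : ℕ}
    (hj : j < sz F x) : ∃ y, F x y ∧ p y = j := by
  have : j ∈ p '' {y | F x y} := by
    rw [image_pos hF hp]
    exact hj
  obtain ⟨y, hy, hr⟩ := this
  exact ⟨y, hy, hr⟩

theorem card_pos_lt {F : X → X → Prop} (hF : FBR G F) {p : X → ℕ} (hp : IsPos F p) (x : X) {c : ℕ}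
    (hc : c ≤ sz F x) : {y | F x y ∧ p y < c}.ncard = c := by
  have hinj : InjOn p {y | F x y ∧ p y < c} := by
    intro y hy z hz h
    exact hp.inj _ _ (hF.equiv.trans (hF.equiv.symm hy.1) hz.1) h
  rw [← hinj.ncard_image]
  have : p '' {y | F x y ∧ p y < c} = Iio c := by
    ext j
    constructor
    · rintro ⟨y, hy, rfl⟩
      exact hy.2
    · intro hj
      obtain ⟨y, hy, rfl⟩ := exists_pos hF hp x (lt_of_lt_of_le hj hc)
      exact ⟨y, ⟨hy, hj⟩, rfl⟩
  rw [this, ← Finset.coe_Iio, Set.ncard_coe_finset, Nat.card_Iio]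

theorem card_cmp {F : X → X → Prop} (hF : FBR G F) {p : X → ℕ} (hp : IsPos F p) (σ : ℕ) (x : X) :
    {y | F x y ∧ cpl F p σ y}.ncard = σ * (sz F x / σ) := by
  rw [← card_pos_lt hF hp x (Nat.mul_div_le (sz F x) σ)]
  congr 1
  ext y
  constructor
  · rintro ⟨h1, h2⟩
    refine ⟨h1, ?_⟩
    unfold cpl at h2
    rwa [← hF.sz_eq h1] at h2
  · rintro ⟨h1, h2⟩
    refine ⟨h1, ?_⟩
    unfold cpl
    rwa [← hF.sz_eq h1]

/-- a finite set whose traces on classes have cardinality divisible by `σ` -/
theorem dvd_ncard {F : X → X → Prop} (hF : FBR G F) (σ : ℕ) {B : Set X} (hB : B.Finite)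
    (h : ∀ y ∈ B, σ ∣ {z | F y z ∧ z ∈ B}.ncard) : σ ∣ B.ncard := by
  classical
  rw [Set.ncard_eq_toFinset_card B hB,
    Finset.card_eq_sum_card_fiberwise (f := rep F) (t := hB.toFinset.image (rep F))
      (fun x hx => Finset.mem_coe.2 (Finset.mem_image_of_mem _ hx))]
  refine Finset.dvd_sum fun b hb => ?_
  obtain ⟨y, hy, rfl⟩ := Finset.mem_image.1 hb
  rw [Set.Finite.mem_toFinset] at hy
  have h1 := h y hy
  have h2 : {z | F y z ∧ z ∈ B} = ↑(hB.toFinset.filter fun z => rep F z = rep F y) := by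
    ext z
    simp only [mem_ofPred_eq, Finset.coe_filter, Set.Finite.mem_toFinset]
    rw [rep_eq_iff hF]
    exact ⟨fun h => ⟨h.2, hF.equiv.symm h.1⟩, fun h => ⟨hF.equiv.symm h.2, h.1⟩⟩
  rwa [h2, Set.ncard_coe_finset] at h1

/-- counting over the classes of a subrelation -/
theorem count_lift {F F' : X → X → Prop} (hF : FBR G F) (hF' : FBR G F')
    (hsub : ∀ x y, F x y → F' x y) (U : Set X) (c : ℕ) (x : X)
    (h : ∀ y, F' x y → c * {z | F y z ∧ z ∈ U}.ncard ≤ sz F y) :
    c * {z | F' x z ∧ z ∈ U}.ncard ≤ sz F' x := by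
  classical
  have hJ := hF'.fin x
  have hU : {z | F' x z ∧ z ∈ U} = ↑(hJ.toFinset.filter fun z => z ∈ U) := by
    ext z
    simp
  unfold sz
  rw [hU, Set.ncard_coe_finset, Set.ncard_eq_toFinset_card _ hJ,
    Finset.card_eq_sum_card_fiberwise (s := hJ.toFinset) (f := rep F)
      (t := hJ.toFinset.image (rep F))
      (fun x hx => Finset.mem_coe.2 (Finset.mem_image_of_mem _ hx)),
    Finset.card_eq_sum_card_fiberwise (s := hJ.toFinset.filter fun z => z ∈ U) (f := rep F)
      (t := hJ.toFinset.image (rep F))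
      (fun x hx => Finset.mem_coe.2 (Finset.mem_image_of_mem _ (Finset.mem_filter.1
        (Finset.mem_coe.1 hx)).1)), Finset.mul_sum]
  refine Finset.sum_le_sum fun b hb => ?_
  obtain ⟨y, hy, rfl⟩ := Finset.mem_image.1 hb
  rw [Set.Finite.mem_toFinset] at hy
  have hy' : F' x y := hy
  have h1 := h y hy
  have h2 : {z | F y z ∧ z ∈ U} =
      ↑((hJ.toFinset.filter fun z => z ∈ U).filter fun z => rep F z = rep F y) := by
    ext z
    simp only [mem_ofPred_eq, Finset.coe_filter, Finset.mem_filter, Set.Finite.mem_toFinset]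
    rw [rep_eq_iff hF]
    exact ⟨fun h => ⟨⟨hF'.equiv.trans hy' (hsub _ _ h.1), h.2⟩, hF.equiv.symm h.1⟩,
      fun h => ⟨hF.equiv.symm h.2, h.1.2⟩⟩
  have h3 : {z | F y z} = ↑(hJ.toFinset.filter fun z => rep F z = rep F y) := by
    ext z
    simp only [mem_ofPred_eq, Finset.coe_filter, Set.Finite.mem_toFinset]
    rw [rep_eq_iff hF]
    exact ⟨fun h => ⟨hF'.equiv.trans hy' (hsub _ _ h), hF.equiv.symm h⟩,
      fun h => hF.equiv.symm h.2⟩
  unfold sz at h1
  rwa [h2, Set.ncard_coe_finset, h3, Set.ncard_coe_finset] at h1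

end

/-- offset of the `F`-class in its `F'`-class -/
noncomputable def off (F F' : X → X → Prop) (p : X → ℕ) (σ : ℕ) (x : X) : ℕ :=
  {y | F' x y ∧ cpl F p σ y ∧ nu (rep F y) < nu (rep F x)}.ncard

open Classical in
/-- the next position function -/
noncomputable def nxt (F F' : X → X → Prop) (p : X → ℕ) (σ : ℕ) (x : X) : ℕ :=
  if cpl F p σ x then off F F' p σ x + p x else
    {y | F' x y ∧ cpl F p σ y}.ncard + {y | F' x y ∧ ¬ cpl F p σ y ∧ nu y < nu x}.ncard

section
variable {F F' : X → X → Prop} (hF : FBR G F) (hF' : FBR G F') (hsub : ∀ x y, F x y → F' x y)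
  {p : X → ℕ} (hp : IsPos F p) (σ : ℕ)
include hF hF' hsub hp

omit [Countable G] [MeasurableConstSMul G X] hp in
theorem off_congr {x y : X} (h : F x y) : off F F' p σ x = off F F' p σ y := by
  unfold off
  rw [(rep_eq_iff hF x y).2 h]
  congr 1
  ext z
  have := hsub _ _ h
  exact ⟨fun hz => ⟨hF'.equiv.trans (hF'.equiv.symm this) hz.1, hz.2⟩,
    fun hz => ⟨hF'.equiv.trans this hz.1, hz.2⟩⟩

omit [Countable G] [MeasurableConstSMul G X] in
theorem dvd_off (x : X) : σ ∣ off F F' p σ x := by
  unfold off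
  refine dvd_ncard hF σ ((hF'.fin x).subset fun y hy => hy.1) fun y hy => ?_
  have : {z | F y z ∧ z ∈ {y | F' x y ∧ cpl F p σ y ∧ nu (rep F y) < nu (rep F x)}} =
      {z | F y z ∧ cpl F p σ z} := by
    ext z
    constructor
    · rintro ⟨h1, h2⟩
      exact ⟨h1, h2.2.1⟩
    · rintro ⟨h1, h2⟩
      refine ⟨h1, hF'.equiv.trans hy.1 (hsub _ _ h1), h2, ?_⟩
      rw [← (rep_eq_iff hF y z).2 h1]
      exact hy.2.2
  rw [this, card_cmp hF hp]
  exact dvd_mul_right _ _

omit [Countable G] [MeasurableConstSMul G X] in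
theorem off_add_le (y : X) : off F F' p σ y + σ * (sz F y / σ) ≤
    {z | F' y z ∧ cpl F p σ z ∧ nu (rep F z) ≤ nu (rep F y)}.ncard := by
  rw [← card_cmp hF hp σ y]
  unfold off
  have hdis : Disjoint {z | F' y z ∧ cpl F p σ z ∧ nu (rep F z) < nu (rep F y)}
      {z | F y z ∧ cpl F p σ z} := by
    rw [Set.disjoint_left]
    intro z hz hz'
    have := hz.2.2
    rw [(rep_eq_iff hF y z).2 hz'.1] at this
    exact lt_irrefl _ this
  rw [← Set.ncard_union_eq hdis ((hF'.fin y).subset fun z hz => hz.1)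
    ((hF.fin y).subset fun z hz => hz.1)]
  refine Set.ncard_le_ncard ?_ ((hF'.fin y).subset fun z hz => hz.1)
  rintro z (hz | hz)
  · exact ⟨hz.1, hz.2.1, hz.2.2.le⟩
  · refine ⟨hsub _ _ hz.1, hz.2, ?_⟩
    rw [(rep_eq_iff hF y z).2 hz.1]

omit [Countable G] [MeasurableConstSMul G X] in
theorem off_add_lt {y : X} (hy : cpl F p σ y) : off F F' p σ y + p y <
    {z | F' y z ∧ cpl F p σ z}.ncard := by
  refine lt_of_lt_of_le (Nat.add_lt_add_left hy _) ((off_add_le hF hF' hsub hp σ y).trans ?_)
  exact Set.ncard_le_ncard (fun z hz => ⟨hz.1, hz.2.1⟩) ((hF'.fin y).subset fun z hz => hz.1)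

omit [Countable G] [MeasurableConstSMul G X] in
theorem nxt_isPos : IsPos F' (nxt F F' p σ) := by
  have hfin : ∀ (x : X) (Q : X → Prop), {y | F' x y ∧ Q y}.Finite := fun x Q =>
    (hF'.fin x).subset fun y hy => hy.1
  have hcls : ∀ {x y : X} (Q : X → Prop), F' x y → {z | F' x z ∧ Q z} = {z | F' y z ∧ Q z} := by
    intro x y Q h
    ext z
    exact ⟨fun hz => ⟨hF'.equiv.trans (hF'.equiv.symm h) hz.1, hz.2⟩,
      fun hz => ⟨hF'.equiv.trans h hz.1, hz.2⟩⟩
  constructor
  · intro x
    unfold nxt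
    split_ifs with h
    · refine (off_add_lt hF hF' hsub hp σ h).trans_le ?_
      exact Set.ncard_le_ncard (fun z hz => hz.1) (hF'.fin x)
    · have h1 : {y | F' x y ∧ ¬ cpl F p σ y ∧ nu y < nu x}.ncard <
          {y | F' x y ∧ ¬ cpl F p σ y}.ncard := by
        refine Set.ncard_lt_ncard ?_ (hfin x _)
        refine ⟨fun y hy => ⟨hy.1, hy.2.1⟩, fun hs => ?_⟩
        have : x ∈ {y | F' x y ∧ ¬ cpl F p σ y} := ⟨hF'.equiv.refl x, h⟩
        exact lt_irrefl _ (hs this).2.2
      have h2 : {y | F' x y ∧ cpl F p σ y}.ncard + {y | F' x y ∧ ¬ cpl F p σ y}.ncard =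
          sz F' x := by
        have hdis : Disjoint {y | F' x y ∧ cpl F p σ y} {y | F' x y ∧ ¬ cpl F p σ y} := by
          rw [Set.disjoint_left]
          intro z hz hz'
          exact hz'.2 hz.2
        rw [← Set.ncard_union_eq hdis (hfin x _) (hfin x _)]
        unfold sz
        congr 1
        ext z
        constructor
        · rintro (hz | hz) <;> exact hz.1
        · intro hz
          by_cases hc : cpl F p σ z
          · exact Or.inl ⟨hz, hc⟩
          · exact Or.inr ⟨hz, hc⟩
      omega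
  · -- the asymmetric comparison for complete elements
    have key : ∀ x y, F' x y → cpl F p σ x → cpl F p σ y → nu (rep F x) < nu (rep F y) →
        off F F' p σ x + p x < off F F' p σ y + p y := by
      intro x y hxy hx hy hlt
      have h1 : off F F' p σ x + p x < off F F' p σ x + σ * (sz F x / σ) :=
        Nat.add_lt_add_left hx _
      have h2 := off_add_le hF hF' hsub hp σ x
      have h3 : {z | F' x z ∧ cpl F p σ z ∧ nu (rep F z) ≤ nu (rep F x)}.ncard ≤
          off F F' p σ y := by
        unfold off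
        refine Set.ncard_le_ncard ?_ (hfin y _)
        rintro z ⟨hz1, hz2, hz3⟩
        exact ⟨hF'.equiv.trans (hF'.equiv.symm hxy) hz1, hz2, hz3.trans_lt hlt⟩
      omega
    have key2 : ∀ x y, F' x y → cpl F p σ x → ¬ cpl F p σ y →
        nxt F F' p σ x ≠ nxt F F' p σ y := by
      intro x y hxy hx hy
      unfold nxt
      rw [if_pos hx, if_neg hy]
      have h1 := off_add_lt hF hF' hsub hp σ hx
      rw [hcls _ hxy] at h1
      omega
    have key3 : ∀ x y, F' x y → ¬ cpl F p σ x → nu x < nu y →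
        {z | F' x z ∧ ¬ cpl F p σ z ∧ nu z < nu x}.ncard <
        {z | F' y z ∧ ¬ cpl F p σ z ∧ nu z < nu y}.ncard := by
      intro x y hxy hx hlt
      refine Set.ncard_lt_ncard ?_ (hfin y _)
      refine ⟨fun z hz => ⟨hF'.equiv.trans (hF'.equiv.symm hxy) hz.1, hz.2.1,
        hz.2.2.trans hlt⟩, fun hs => ?_⟩
      have : x ∈ {z | F' y z ∧ ¬ cpl F p σ z ∧ nu z < nu y} := ⟨hF'.equiv.symm hxy, hx, hlt⟩
      exact lt_irrefl _ (hs this).2.2
    intro x y hxy he
    by_cases hx : cpl F p σ x
    · by_cases hy : cpl F p σ y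
      · have he' : off F F' p σ x + p x = off F F' p σ y + p y := by
          have := he
          unfold nxt at this
          rwa [if_pos hx, if_pos hy] at this
        rcases lt_trichotomy (nu (rep F x)) (nu (rep F y)) with h | h | h
        · exact absurd he' (key x y hxy hx hy h).ne
        · have h1 : F x y := (rep_eq_iff hF x y).1 (nu_inj h)
          refine hp.inj x y h1 ?_
          have := off_congr hF hF' hsub (p := p) σ h1
          omega
        · exact absurd he' (key y x (hF'.equiv.symm hxy) hy hx h).ne'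
      · exact absurd he (key2 x y hxy hx hy)
    · by_cases hy : cpl F p σ y
      · exact absurd he.symm (key2 y x (hF'.equiv.symm hxy) hy hx)
      · unfold nxt at he
        rw [if_neg hx, if_neg hy, hcls _ hxy] at he
        have he' := Nat.add_left_cancel he
        rcases lt_trichotomy (nu x) (nu y) with h | h | h
        · have := key3 x y hxy hx h
          rw [hcls _ hxy] at this
          rw [hcls _ hxy] at he'
          omega
        · exact nu_inj h
        · have := key3 y x (hF'.equiv.symm hxy) hy h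
          rw [hcls _ hxy] at this
          rw [hcls _ hxy] at he'
          omega

end

section
variable {F F' : X → X → Prop} (hF : FBR G F) (hF' : FBR G F')
  {p : X → ℕ} (hpm : Measurable p) (σ : ℕ)
include hF hF' hpm

omit hF' in
theorem measurableSet_cmp : MeasurableSet {x | cpl F p σ x} :=
  measurableSet_lt hpm ((measurable_of_countable fun n : ℕ => σ * (n / σ)).comp hF.measurable_sz)

theorem measurable_off : Measurable (off F F' p σ) := by
  refine measurable_ncard (G := G)
    (fun x y => F' x y ∧ cpl F p σ y ∧ nu (rep F y) < nu (rep F x))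
    (fun x y h => hF'.sub x y h.1) (fun x => (hF'.fin x).subset fun y h => h.1) fun g => ?_
  refine (hF'.meas g).inter (MeasurableSet.inter ?_ ?_)
  · exact (measurable_const_smul g) (measurableSet_cmp hF hpm σ)
  · exact measurableSet_lt ((measurable_nu.comp (hF.measurable_el 0)).comp
      (measurable_const_smul g)) (measurable_nu.comp (hF.measurable_el 0))

theorem measurable_nxt : Measurable (nxt F F' p σ) := by
  classical
  unfold nxt
  refine Measurable.ite (measurableSet_cmp hF hpm σ) ((measurable_off hF hF' hpm σ).add hpm) ?_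
  refine Measurable.add ?_ ?_
  · refine measurable_ncard (G := G) (fun x y => F' x y ∧ cpl F p σ y)
      (fun x y h => hF'.sub x y h.1) (fun x => (hF'.fin x).subset fun y h => h.1) fun g => ?_
    exact (hF'.meas g).inter ((measurable_const_smul g) (measurableSet_cmp hF hpm σ))
  · refine measurable_ncard (G := G) (fun x y => F' x y ∧ ¬ cpl F p σ y ∧ nu y < nu x)
      (fun x y h => hF'.sub x y h.1) (fun x => (hF'.fin x).subset fun y h => h.1) fun g => ?_
    refine (hF'.meas g).inter (MeasurableSet.inter ?_ ?_)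
    · exact ((measurable_const_smul g) (measurableSet_cmp hF hpm σ)).compl
    · exact measurableSet_lt (measurable_nu.comp (measurable_const_smul g)) measurable_nu

end

/-- the class of `x` is cut: it contains a complete element, not the first one, whose new position
is a multiple of `τ` -/
def cut (F : X → X → Prop) (p p' : X → ℕ) (σ τ : ℕ) (x : X) : Prop :=
  ∃ z, F x z ∧ cpl F p σ z ∧ p z ≠ 0 ∧ τ ∣ p' z

/-- exceptional elements -/
def exc (F : X → X → Prop) (p p' : X → ℕ) (σ τ : ℕ) : Set X :=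
  {x | ¬ cpl F p σ x ∨ cut F p p' σ τ x}

theorem measurableSet_exc {F : X → X → Prop} (hF : FBR G F) {p p' : X → ℕ} (hpm : Measurable p)
    (hpm' : Measurable p') (σ τ : ℕ) : MeasurableSet (exc F p p' σ τ) := by
  have h : {x | cut F p p' σ τ x} = ⋃ g : G, {x | F x (g • x)} ∩
      (fun x => g • x) ⁻¹' ({z | cpl F p σ z} ∩ ((p ⁻¹' {0})ᶜ ∩ p' ⁻¹' {n | τ ∣ n})) := by
    ext x
    simp only [mem_iUnion, mem_inter_iff, mem_preimage, mem_ofPred_eq, mem_compl_iff,
      mem_singleton_iff]
    constructor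
    · rintro ⟨z, h1, h2, h3, h4⟩
      obtain ⟨g, rfl⟩ := hF.sub _ _ h1
      exact ⟨g, h1, h2, h3, h4⟩
    · rintro ⟨g, h1, h2, h3, h4⟩
      exact ⟨_, h1, h2, h3, h4⟩
  have e : exc F p p' σ τ = {x | cpl F p σ x}ᶜ ∪ {x | cut F p p' σ τ x} := rfl
  rw [e, h]
  refine (measurableSet_cmp hF hpm σ).compl.union ?_
  refine MeasurableSet.iUnion fun g => (hF.meas g).inter ((measurable_const_smul g) ?_)
  exact (measurableSet_cmp hF hpm σ).inter ((hpm (measurableSet_singleton 0)).compl.inter
    (hpm' (MeasurableSet.of_discrete)))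

omit [Countable G] [MeasurableConstSMul G X] in
/-- the exceptional elements are rare -/
theorem count_exc {F F' : X → X → Prop} (hF : FBR G F) (hF' : FBR G F')
    (hsub : ∀ x y, F x y → F' x y) {p p' : X → ℕ} (hp : IsPos F p) (hp' : IsPos F' p')
    {σ τ c : ℕ} (hpp : ∀ x, cpl F p σ x → p x ≠ 0 → p' x ≠ 0) (hσ : 0 < σ) (hτ : 0 < τ) (x : X)
    (h1 : ∀ y, F' x y → 2 * c * σ ≤ sz F y) (h2 : ∀ y, F' x y → 2 * c * sz F y ≤ τ) :
    c * {y | F' x y ∧ y ∈ exc F p p' σ τ}.ncard ≤ sz F' x := by
  classical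
  -- incomplete elements
  have hA : 2 * c * {y | F' x y ∧ y ∈ {y | ¬ cpl F p σ y}}.ncard ≤ sz F' x := by
    refine count_lift hF hF' hsub _ _ x fun y hy => ?_
    have e1 := card_cmp hF hp σ y
    have e2 : {z | F y z ∧ cpl F p σ z}.ncard + {z | F y z ∧ z ∈ {y | ¬ cpl F p σ y}}.ncard =
        sz F y := by
      have hdis : Disjoint {z | F y z ∧ cpl F p σ z} {z | F y z ∧ z ∈ {y | ¬ cpl F p σ y}} := by
        rw [Set.disjoint_left]
        intro z hz hz'
        exact hz'.2 hz.2
      rw [← Set.ncard_union_eq hdis ((hF.fin y).subset fun z hz => hz.1)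
        ((hF.fin y).subset fun z hz => hz.1)]
      unfold sz
      congr 1
      ext z
      constructor
      · rintro (hz | hz) <;> exact hz.1
      · intro hz
        by_cases hc : cpl F p σ z
        · exact Or.inl ⟨hz, hc⟩
        · exact Or.inr ⟨hz, hc⟩
    have e3 : {z | F y z ∧ z ∈ {y | ¬ cpl F p σ y}}.ncard = sz F y % σ := by
      have := Nat.div_add_mod (sz F y) σ
      omega
    rw [e3]
    exact (Nat.mul_le_mul_left _ (Nat.mod_lt _ hσ).le).trans (h1 y hy)
  -- elements of cut classes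
  have hB : 2 * c * {y | F' x y ∧ cut F p p' σ τ y}.ncard ≤ sz F' x := by
    have hZfin : {z | F' x z ∧ cpl F p σ z ∧ p z ≠ 0 ∧ τ ∣ p' z}.Finite :=
      (hF'.fin x).subset fun z hz => hz.1
    obtain ⟨Z, hZ⟩ := hZfin.exists_finset_coe
    have hZm : ∀ z, z ∈ Z ↔ F' x z ∧ cpl F p σ z ∧ p z ≠ 0 ∧ τ ∣ p' z := by
      intro z
      rw [← Finset.mem_coe, hZ]
      rfl
    have hcard : Z.card * τ ≤ sz F' x := by
      have hinj : Set.InjOn (fun z => p' z / τ) (Z : Set X) := by
        intro z hz w hw h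
        rw [Finset.mem_coe, hZm] at hz hw
        refine hp'.inj _ _ (hF'.equiv.trans (hF'.equiv.symm hz.1) hw.1) ?_
        have h' : p' z / τ = p' w / τ := h
        rw [← Nat.div_mul_cancel hz.2.2.2, ← Nat.div_mul_cancel hw.2.2.2, h']
      have hmaps : ∀ z ∈ Z, (fun z => p' z / τ) z ∈ Finset.Ioc 0 (sz F' x / τ) := by
        intro z hz
        rw [hZm] at hz
        rw [Finset.mem_Ioc]
        constructor
        · exact Nat.div_pos (Nat.le_of_dvd (Nat.pos_of_ne_zero (hpp z hz.2.1 hz.2.2.1)) hz.2.2.2) hτ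
        · refine Nat.div_le_div_right ?_
          rw [hF'.sz_eq hz.1]
          exact (hp'.lt z).le
      have := Finset.card_le_card_of_injOn _ hmaps hinj
      rw [Nat.card_Ioc, Nat.sub_zero] at this
      exact (Nat.mul_le_mul_right τ this).trans (Nat.div_mul_le_self _ _)
    have hsubU : {y | F' x y ∧ cut F p p' σ τ y} ⊆ ↑(Z.biUnion fun z => (hF.fin z).toFinset) := by
      rintro y ⟨hy, z, hz1, hz2⟩
      rw [Finset.coe_biUnion]
      refine mem_biUnion (x := z) ?_ ?_
      · rw [Finset.mem_coe, hZm]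
        exact ⟨hF'.equiv.trans hy (hsub _ _ hz1), hz2⟩
      · rw [Finset.mem_coe, Set.Finite.mem_toFinset]
        exact hF.equiv.symm hz1
    have hle : {y | F' x y ∧ cut F p p' σ τ y}.ncard ≤ ∑ z ∈ Z, sz F z := by
      refine (Set.ncard_le_ncard hsubU (Finset.finite_toSet _)).trans ?_
      rw [Set.ncard_coe_finset]
      refine Finset.card_biUnion_le.trans (Finset.sum_le_sum fun z _ => ?_)
      rw [← Set.ncard_eq_toFinset_card _ (hF.fin z)]
      exact le_rfl
    calc 2 * c * {y | F' x y ∧ cut F p p' σ τ y}.ncard ≤ 2 * c * ∑ z ∈ Z, sz F z :=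
          Nat.mul_le_mul_left _ hle
      _ = ∑ z ∈ Z, 2 * c * sz F z := Finset.mul_sum _ _ _
      _ ≤ ∑ z ∈ Z, τ := Finset.sum_le_sum fun z hz => h2 z ((hZm z).1 hz).1
      _ = Z.card * τ := by rw [Finset.sum_const, smul_eq_mul]
      _ ≤ sz F' x := hcard
  have hU : {y | F' x y ∧ y ∈ exc F p p' σ τ}.ncard ≤
      {y | F' x y ∧ y ∈ {y | ¬ cpl F p σ y}}.ncard + {y | F' x y ∧ cut F p p' σ τ y}.ncard := by
    refine (Set.ncard_le_ncard ?_ ?_).trans (Set.ncard_union_le _ _)
    · rintro y ⟨hy, h | h⟩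
      · exact Or.inl ⟨hy, h⟩
      · exact Or.inr ⟨hy, h⟩
    · exact ((hF'.fin x).subset fun z hz => hz.1).union ((hF'.fin x).subset fun z hz => hz.1)
  have := Nat.mul_le_mul_left (2 * c) hU
  nlinarith

/-! ## the sequence of positions -/

section seq

variable (S : ℕ → X → X → Prop) (m : ℕ → ℕ)

/-- positions at level `k` -/
noncomputable def pos : ℕ → X → ℕ
  | 0 => rk (S 0)
  | k + 1 => nxt (S k) (S (k + 1)) (pos k) (2 ^ m k)

/-- exceptional set at level `k` -/
noncomputable def Ex (k : ℕ) : Set X :=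
  exc (S k) (pos S m k) (pos S m (k + 1)) (2 ^ m k) (2 ^ m (k + 1))

variable {S} {m} (hS : ∀ n, FBR G (S n)) (hmono : ∀ n x y, S n x y → S (n + 1) x y)
include hS

omit [MeasurableConstSMul G X] [Countable G] in
include hmono in
theorem pos_isPos (k : ℕ) : IsPos (S k) (pos S m k) := by
  induction k with
  | zero => exact ⟨fun x => (hS 0).rk_lt_sz x, fun x y h => (hS 0).rk_inj h⟩
  | succ k ih => exact nxt_isPos (hS k) (hS (k + 1)) (hmono k) ih _

theorem measurable_pos (k : ℕ) : Measurable (pos S m k) := by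
  induction k with
  | zero => exact (hS 0).measurable_rk
  | succ k ih => exact measurable_nxt (hS k) (hS (k + 1)) ih _

theorem measurableSet_Ex (k : ℕ) : MeasurableSet (Ex S m k) :=
  measurableSet_exc (hS k) (measurable_pos hS k) (measurable_pos hS (k + 1)) _ _

omit [MeasurableConstSMul G X] [Countable G] hS [StandardBorelSpace X] in
include hmono in
theorem S_le {k n : ℕ} (h : k ≤ n) {x y : X} (hxy : S k x y) : S n x y := by
  induction n, h using Nat.le_induction with
  | base => exact hxy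
  | succ n _ ih => exact hmono n x y ih

omit [MeasurableConstSMul G X] [Countable G] hS in
theorem pos_succ {k : ℕ} {x : X} (hx : x ∉ Ex S m k) :
    pos S m (k + 1) x = off (S k) (S (k + 1)) (pos S m k) (2 ^ m k) x + pos S m k x := by
  have : cpl (S k) (pos S m k) (2 ^ m k) x := by
    by_contra h
    exact hx (Or.inl h)
  rw [pos, nxt, if_pos this]

omit [MeasurableConstSMul G X] [Countable G] in
include hmono in
/-- (F2) quotients of nonexceptional elements in one class agree -/
theorem quot_eq {k : ℕ} {x y : X} (hx : x ∉ Ex S m k) (hy : y ∉ Ex S m k) (hxy : S k x y) :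
    pos S m (k + 1) x / 2 ^ m (k + 1) = pos S m (k + 1) y / 2 ^ m (k + 1) := by
  have key : ∀ z, z ∉ Ex S m k → pos S m (k + 1) z / 2 ^ m (k + 1) =
      off (S k) (S (k + 1)) (pos S m k) (2 ^ m k) z / 2 ^ m (k + 1) := by
    intro z hz
    have hzc : cpl (S k) (pos S m k) (2 ^ m k) z := by
      by_contra h
      exact hz (Or.inl h)
    rw [pos_succ hz]
    set a := off (S k) (S (k + 1)) (pos S m k) (2 ^ m k) z with ha
    set τ := 2 ^ m (k + 1) with hτ
    have hτ0 : 0 < τ := by positivity
    by_contra hne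
    have hlt : a / τ < (a + pos S m k z) / τ :=
      lt_of_le_of_ne (Nat.div_le_div_right (Nat.le_add_right _ _)) (Ne.symm hne)
    set c := (a + pos S m k z) / τ with hc
    have h1 : a < c * τ := (Nat.div_lt_iff_lt_mul hτ0).1 hlt
    have h2 : c * τ ≤ a + pos S m k z := Nat.div_mul_le_self _ _
    have hcz : c * τ - a < sz (S k) z :=
      lt_of_le_of_lt (by omega) ((pos_isPos (m := m) hS hmono k).lt z)
    obtain ⟨w, hw1, hw2⟩ := exists_pos (hS k) (pos_isPos (m := m) hS hmono k) z hcz
    have hwc : cpl (S k) (pos S m k) (2 ^ m k) w := by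
      unfold cpl at hzc ⊢
      rw [← (hS k).sz_eq hw1, hw2]
      omega
    apply hz
    refine Or.inr ⟨w, hw1, hwc, by omega, ?_⟩
    have : pos S m (k + 1) w = c * τ := by
      rw [pos, nxt, if_pos hwc, ← off_congr (hS k) (hS (k + 1)) (hmono k) _ hw1, hw2, ← ha]
      omega
    rw [this]
    exact dvd_mul_left _ _
  rw [key x hx, key y hy, off_congr (hS k) (hS (k + 1)) (hmono k) _ hxy]

omit [MeasurableConstSMul G X] [Countable G] in
include hmono in
/-- (F3) nonexceptionality depends on the class and the quotient of the position only -/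
theorem not_mem_Ex {k : ℕ} {x y : X} (hx : x ∉ Ex S m k) (hxy : S k x y)
    (hq : pos S m k x / 2 ^ m k = pos S m k y / 2 ^ m k) : y ∉ Ex S m k := by
  have hσ : 0 < 2 ^ m k := by positivity
  rintro (h | ⟨z, hz, h⟩)
  · apply h
    have hxc : cpl (S k) (pos S m k) (2 ^ m k) x := by
      by_contra h
      exact hx (Or.inl h)
    unfold cpl at hxc ⊢
    rw [mul_comm, ← Nat.div_lt_iff_lt_mul hσ] at hxc ⊢
    rw [← hq, ← (hS k).sz_eq hxy]
    exact hxc
  · exact hx (Or.inr ⟨z, (hS k).equiv.trans hxy hz, h⟩)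

omit [MeasurableConstSMul G X] [Countable G] in
include hmono in
theorem quot_seq (hm : Monotone m) {K : ℕ} {x y : X} (hx : ∀ k ≥ K, x ∉ Ex S m k) (hxy : S K x y)
    (hq : pos S m K x / 2 ^ m K = pos S m K y / 2 ^ m K) (k : ℕ) (hk : K ≤ k) :
    pos S m k x / 2 ^ m K = pos S m k y / 2 ^ m K ∧ y ∉ Ex S m k := by
  have aux : ∀ k, K ≤ k → pos S m k x / 2 ^ m K = pos S m k y / 2 ^ m K → y ∉ Ex S m k := by
    intro k hk h
    refine not_mem_Ex hS hmono (hx k hk) (S_le hmono hk hxy) ?_
    have : 2 ^ m k = 2 ^ m K * 2 ^ (m k - m K) := by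
      rw [← pow_add]
      congr 1
      have := hm hk
      omega
    rw [this, ← Nat.div_div_eq_div_mul, ← Nat.div_div_eq_div_mul, h]
  induction k, hk using Nat.le_induction with
  | base => exact ⟨hq, aux K le_rfl hq⟩
  | succ k hk ih =>
    have h : pos S m (k + 1) x / 2 ^ m K = pos S m (k + 1) y / 2 ^ m K := by
      rw [pos_succ (hx k hk), pos_succ ih.2,
        off_congr (hS k) (hS (k + 1)) (hmono k) _ (S_le hmono hk hxy)]
      have hd : 2 ^ m K ∣ off (S k) (S (k + 1)) (pos S m k) (2 ^ m k) y :=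
        (pow_dvd_pow 2 (hm hk)).trans (dvd_off (hS k) (hS (k + 1)) (hmono k)
          (pos_isPos hS hmono k) _ y)
      obtain ⟨b, hb⟩ := hd
      rw [hb, Nat.mul_add_div (by positivity), Nat.mul_add_div (by positivity), ih.1]
    exact ⟨h, aux (k + 1) (by omega) h⟩

omit [MeasurableConstSMul G X] [Countable G] in
include hmono in
theorem testBit_succ {k : ℕ} {x : X} (hx : x ∉ Ex S m k) {j : ℕ} (hj : j < m k) :
    (pos S m (k + 1) x).testBit j = (pos S m k x).testBit j := by
  have h1 : pos S m (k + 1) x % 2 ^ m k = pos S m k x % 2 ^ m k := by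
    rw [pos_succ hx]
    obtain ⟨b, hb⟩ := dvd_off (hS k) (hS (k + 1)) (hmono k) (pos_isPos hS hmono k)
      (2 ^ m k) x
    rw [hb, Nat.mul_add_mod]
  have h2 := congrArg (fun n => n.testBit j) h1
  simpa [Nat.testBit_mod_two_pow, hj] using h2

/-! ### counting exceptional levels -/

open Classical in
/-- number of exceptional levels below `n` -/
noncomputable def cnt (S : ℕ → X → X → Prop) (m : ℕ → ℕ) (n : ℕ) (x : X) : ℕ :=
  ((Finset.range n).filter fun k => x ∈ Ex S m k).card

omit [MeasurableConstSMul G X] [Countable G] hS in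
theorem cnt_mono (x : X) : Monotone fun n => cnt S m n x := by
  classical
  intro a b hab
  refine Finset.card_le_card fun k hk => ?_
  rw [Finset.mem_filter, Finset.mem_range] at hk ⊢
  exact ⟨by omega, hk.2⟩

theorem measurable_cnt (n : ℕ) : Measurable (cnt S m n) := by
  classical
  have h : cnt S m n = fun x => ∑ k ∈ Finset.range n, if x ∈ Ex S m k then 1 else 0 := by
    funext x
    unfold cnt
    rw [Finset.card_filter]
  rw [h]
  refine Finset.measurable_sum _ fun k _ => ?_
  exact Measurable.ite (measurableSet_Ex hS k) measurable_const measurable_const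

omit [MeasurableConstSMul G X] [Countable G] hS in
theorem cnt_unbounded {x : X} (hx : ∀ K, ∃ k ≥ K, x ∈ Ex S m k) (l : ℕ) :
    ∃ n, l < cnt S m n x := by
  classical
  induction l with
  | zero =>
    obtain ⟨k, _, hk⟩ := hx 0
    refine ⟨k + 1, Finset.card_pos.2 ⟨k, ?_⟩⟩
    simp [hk]
  | succ l ih =>
    obtain ⟨n, hn⟩ := ih
    obtain ⟨k, hk, hkx⟩ := hx n
    refine ⟨k + 1, ?_⟩
    have h1 : cnt S m n x ≤ cnt S m k x := cnt_mono x hk
    have h2 : cnt S m (k + 1) x = cnt S m k x + 1 := by
      unfold cnt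
      rw [Finset.range_add_one, Finset.filter_insert, if_pos hkx, Finset.card_insert_of_notMem]
      simp
    omega

/-- the set of elements with infinitely many exceptional levels -/
def Q (S : ℕ → X → X → Prop) (m : ℕ → ℕ) (W : Set X) : Set X :=
  W ∩ {x | ∀ K, ∃ k ≥ K, x ∈ Ex S m k}

theorem measurableSet_Q {W : Set X} (hW : MeasurableSet W) : MeasurableSet (Q S m W) := by
  refine hW.inter ?_
  have : {x | ∀ K, ∃ k ≥ K, x ∈ Ex S m k} = ⋂ K : ℕ, ⋃ k : ℕ, ⋃ _ : K ≤ k, Ex S m k := by
    ext x
    simp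
  rw [this]
  exact MeasurableSet.iInter fun K => MeasurableSet.iUnion fun k => MeasurableSet.iUnion fun _ =>
    measurableSet_Ex hS k

end seq

end M9

open M9 in
/-- M9: digits -/
theorem exists_digits {G X : Type} [Group G] [Countable G] [MeasurableSpace X]
    [StandardBorelSpace X] [MulAction G X] [MeasurableConstSMul G X]
    {W : Set X} (hW : MeasurableSet W) (hWi : Inv G W)
    (S : ℕ → X → X → Prop) (hS : ∀ n, FBR G (S n)) (hmono : ∀ n x y, S n x y → S (n + 1) x y)
    (hu : ∀ x ∈ W, ∀ g : G, ∃ n, S n x (g • x)) (m : ℕ → ℕ)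
    (h1 : ∀ x ∈ W, ∀ k, 2 ^ (k + 2) * 2 ^ (m k) ≤ sz (S k) x)
    (h2 : ∀ x ∈ W, ∀ k, 2 ^ (k + 2) * sz (S k) x ≤ 2 ^ (m (k + 1))) :
    ∃ (P : Set X) (d : X → ℕ → Bool), P ⊆ W ∧ MeasurableSet P ∧ Inv G P ∧ ComprOn G P ∧
      Dig (Eo G (X := X)) (W \ P) d := by
  classical
  -- trivial case
  by_cases hne : W.Nonempty
  swap
  · rw [Set.not_nonempty_iff_eq_empty] at hne
    subst hne
    refine ⟨∅, fun _ _ => false, le_rfl, MeasurableSet.empty, fun g x hx => hx.elim,
      ⟨fun x _ => x, fun n => measurable_id, fun x hx => hx.elim, fun x hx => hx.elim⟩,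
      ⟨measurable_const, fun x hx => hx.1.elim, fun x hx => hx.1.elim⟩⟩
  obtain ⟨w0, hw0⟩ := hne
  have hmlt : ∀ k, m k < m (k + 1) := by
    intro k
    have e1 := h1 w0 hw0 k
    have e2 := h2 w0 hw0 k
    have e3 : 2 ^ (k + 2) * (2 ^ (k + 2) * 2 ^ m k) ≤ 2 ^ m (k + 1) :=
      (Nat.mul_le_mul_left _ e1).trans e2
    rw [← pow_add, ← pow_add] at e3
    have := (Nat.pow_le_pow_iff_right (by norm_num : 1 < 2)).1 e3
    omega
  have hms : StrictMono m := strictMono_nat_of_lt_succ hmlt
  have hmm : Monotone m := hms.monotone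
  have hmge : ∀ k, k ≤ m k := fun k => hms.le_apply
  have hEo : ∀ k x y, S k x y → Eo G x y := fun k x y h => (hS k).sub x y h
  -- the exceptional sets are rare
  have hrare : ∀ k n, k < n → ∀ x ∈ W,
      2 ^ (k + 1) * {y | S n x y ∧ y ∈ Ex S m k}.ncard ≤ sz (S n) x := by
    intro k n hkn x hx
    have hk1 : ∀ y ∈ W, 2 ^ (k + 1) * {z | S (k + 1) y z ∧ z ∈ Ex S m k}.ncard ≤
        sz (S (k + 1)) y := by
      intro y hy
      refine count_exc (hS k) (hS (k + 1)) (hmono k) (pos_isPos hS hmono k)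
        (pos_isPos hS hmono (k + 1)) ?_ (by positivity) (by positivity) y ?_ ?_
      · intro z hz hz0
        show pos S m (k + 1) z ≠ 0
        rw [pos, nxt, if_pos hz]
        omega
      · intro z hz
        have hzW : z ∈ W := (hWi.mem_iff (hEo _ _ _ hz)).1 hy
        have := h1 z hzW k
        rwa [← pow_succ']
      · intro z hz
        have hzW : z ∈ W := (hWi.mem_iff (hEo _ _ _ hz)).1 hy
        have := h2 z hzW k
        rwa [← pow_succ']
    refine count_lift (hS (k + 1)) (hS n) (fun a b hab => S_le hmono hkn hab) _ _ x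
      fun y hy => hk1 y ((hWi.mem_iff (hEo _ _ _ hy)).1 hx)
  -- the time function
  have hQm : MeasurableSet (Q S m W) := measurableSet_Q hS hW
  have hex : ∀ (l : ℕ) (x : X), ∃ n, l < cnt S m n x ∨ x ∉ Q S m W := by
    intro l x
    by_cases hx : x ∈ Q S m W
    · obtain ⟨n, hn⟩ := cnt_unbounded (S := S) (m := m) hx.2 l
      exact ⟨n, Or.inl hn⟩
    · exact ⟨0, Or.inr hx⟩
  let st : X → ℕ → ℕ := fun x l => Nat.find (hex l x)
  have hst : ∀ l, Measurable fun x => st x l := by
    intro l
    refine measurable_find (hex l) fun n => ?_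
    exact (measurableSet_lt measurable_const (measurable_cnt hS n)).union hQm.compl
  have hstle : ∀ x ∈ Q S m W, ∀ l n, st x l ≤ n → l < cnt S m n x := by
    intro x hx l n h
    have := Nat.find_spec (hex l x)
    rcases this with h' | h'
    · exact h'.trans_le (cnt_mono x h)
    · exact absurd hx h'
  -- the matching
  obtain ⟨φ, hφm, hφ1, hφ2⟩ := matching (G := G) S hS hmono (A := {p | p.1 ∈ Q S m W})
    (fun l => hQm) (T := univ) MeasurableSet.univ st hst (by
      intro n x
      by_cases hx : x ∈ W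
      swap
      · have : {p : X × ℕ | p ∈ {p : X × ℕ | p.1 ∈ Q S m W} ∧ S n x p.1 ∧ st p.1 p.2 ≤ n} = ∅ := by
          rw [Set.eq_empty_iff_forall_notMem]
          rintro p ⟨hp1, hp2, _⟩
          exact hx ((hWi.mem_iff (hEo _ _ _ hp2)).2 hp1.1)
        rw [this, Set.encard_empty]
        exact zero_le
      have hCfin := (hS n).fin x
      let C : Finset X := hCfin.toFinset
      have hC : ∀ y, y ∈ C ↔ S n x y := fun y => by simp [C]
      let B : Finset (X × ℕ) := C.biUnion fun y =>
        (Finset.range (cnt S m n y)).image fun l => (y, l)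
      have hsub : {p : X × ℕ | p ∈ {p : X × ℕ | p.1 ∈ Q S m W} ∧ S n x p.1 ∧ st p.1 p.2 ≤ n} ⊆
          (B : Set (X × ℕ)) := by
        rintro ⟨y, l⟩ ⟨hp1, hp2, hp3⟩
        rw [Finset.mem_coe, Finset.mem_biUnion]
        refine ⟨y, (hC y).2 hp2, ?_⟩
        rw [Finset.mem_image]
        exact ⟨l, Finset.mem_range.2 (hstle y hp1 l n hp3), rfl⟩
      have hcard : B.card ≤ sz (S n) x := by
        have e1 : B.card ≤ ∑ y ∈ C, cnt S m n y := by
          refine Finset.card_biUnion_le.trans (Finset.sum_le_sum fun y _ => ?_)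
          exact Finset.card_image_le.trans (by rw [Finset.card_range])
        have e2 : ∑ y ∈ C, cnt S m n y =
            ∑ k ∈ Finset.range n, {y | S n x y ∧ y ∈ Ex S m k}.ncard := by
          have : ∀ k, {y | S n x y ∧ y ∈ Ex S m k}.ncard = ∑ y ∈ C, if y ∈ Ex S m k then 1 else 0 := by
            intro k
            rw [← Finset.card_filter, ← Set.ncard_coe_finset]
            congr 1
            ext y
            simp [hC]
          simp only [this]
          rw [Finset.sum_comm]
          refine Finset.sum_congr rfl fun y _ => ?_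
          unfold cnt
          rw [Finset.card_filter]
        have e3 : ∀ j ≤ n, 2 ^ j * ∑ k ∈ Finset.range j, {y | S n x y ∧ y ∈ Ex S m k}.ncard ≤
            (2 ^ j - 1) * sz (S n) x := by
          intro j hj
          induction j with
          | zero => simp
          | succ j ih =>
            have ih' := ih (by omega)
            have hr := hrare j n (by omega) x hx
            rw [Finset.sum_range_succ, mul_add]
            have e4 : 2 ^ (j + 1) * ∑ k ∈ Finset.range j, {y | S n x y ∧ y ∈ Ex S m k}.ncard ≤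
                2 * ((2 ^ j - 1) * sz (S n) x) := by
              rw [pow_succ', mul_assoc]
              exact Nat.mul_le_mul_left 2 ih'
            have e5 : 2 * ((2 ^ j - 1) * sz (S n) x) + sz (S n) x =
                (2 ^ (j + 1) - 1) * sz (S n) x := by
              have : 1 ≤ 2 ^ j := Nat.one_le_two_pow
              obtain ⟨q, hq⟩ := Nat.exists_eq_add_of_le this
              rw [pow_succ', hq]
              have : 1 + q - 1 = q := by omega
              have h' : 2 * (1 + q) - 1 = 2 * q + 1 := by omega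
              rw [this, h']
              ring
            omega
        have e6 := e3 n le_rfl
        have e7 : 2 ^ n * ∑ k ∈ Finset.range n, {y | S n x y ∧ y ∈ Ex S m k}.ncard ≤
            2 ^ n * sz (S n) x := e6.trans (Nat.mul_le_mul_right _ (Nat.sub_le _ _))
        have e8 := Nat.le_of_mul_le_mul_left e7 (by positivity)
        omega
      calc _ ≤ (B : Set (X × ℕ)).encard := Set.encard_le_encard hsub
        _ = B.card := Set.encard_coe_eq_coe_finsetCard B
        _ ≤ (sz (S n) x : ℕ∞) := by exact_mod_cast hcard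
        _ = {y | S n x y}.encard := by
            unfold sz
            rw [hCfin.cast_ncard_eq]
        _ = _ := by
            congr 1
            ext y
            simp)
  -- the compressible set
  let P : Set X := {x | ∃ g : G, g • x ∈ Q S m W}
  have hPm : MeasurableSet P := by
    have : P = ⋃ g : G, (fun x => g • x) ⁻¹' (Q S m W) := by
      ext x
      simp [P]
    rw [this]
    exact MeasurableSet.iUnion fun g => (measurable_const_smul g) hQm
  have hPi : Inv G P := by
    rintro g x ⟨h, hx⟩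
    refine ⟨h * g⁻¹, ?_⟩
    rwa [smul_smul, inv_mul_cancel_right]
  have hQP : Q S m W ⊆ P := fun x hx => ⟨1, by rwa [one_smul]⟩
  have hPW : P ⊆ W := by
    rintro x ⟨g, hg⟩
    exact (hWi.mem_iff ⟨g, rfl⟩).2 hg.1
  have hPc : ComprOn G P := by
    refine comprOn_of_section hPm hPi hQm hQP (fun x hx => hx) φ hφm ?_ ?_
    · intro x hx n
      exact hEo _ _ _ (hφ1 (x, n) hx).2
    · intro x hx y hy k n h
      have := hφ2 (x, k) hx (y, n) hy h
      exact ⟨congrArg Prod.fst this, congrArg Prod.snd this⟩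
  -- digits
  let d : X → ℕ → Bool := fun x j => decide (∃ K, ∀ k ≥ K, (pos S m k x).testBit j = true)
  have hdm : Measurable d := by
    refine measurable_pi_lambda _ fun j => ?_
    refine measurable_to_bool ?_
    have : (fun x => d x j) ⁻¹' {true} = ⋃ K : ℕ, ⋂ k : ℕ, ⋂ _ : K ≤ k,
        pos S m k ⁻¹' {n | n.testBit j = true} := by
      ext x
      simp [d]
    rw [this]
    exact MeasurableSet.iUnion fun K => MeasurableSet.iInter fun k => MeasurableSet.iInter fun _ =>
      (measurable_pos hS k) MeasurableSet.of_discrete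
  have hdlim : ∀ x K j, (∀ k ≥ K, x ∉ Ex S m k) → j < m K → d x j = (pos S m K x).testBit j := by
    intro x K j hx hj
    have hst : ∀ k ≥ K, (pos S m k x).testBit j = (pos S m K x).testBit j := by
      intro k hk
      induction k, hk using Nat.le_induction with
      | base => rfl
      | succ k hk ih => rw [testBit_succ hS hmono (hx k hk) (hj.trans_le (hmm hk)), ih]
    by_cases hb : (pos S m K x).testBit j = true
    · rw [hb]
      show decide _ = true
      rw [decide_eq_true_iff]
      exact ⟨K, fun k hk => (hst k hk).trans hb⟩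
    · have hb' : (pos S m K x).testBit j = false := by simpa using hb
      rw [hb']
      show decide _ = false
      rw [decide_eq_false_iff_not]
      rintro ⟨K', hK'⟩
      have e1 := hK' (max K K') (le_max_right _ _)
      rw [hst _ (le_max_left _ _)] at e1
      exact hb e1
  -- eventually nonexceptional
  have hev : ∀ x ∈ W \ P, ∃ K, ∀ k ≥ K, x ∉ Ex S m k := by
    intro x hx
    by_contra hcon
    push Not at hcon
    exact hx.2 (hQP ⟨hx.1, hcon⟩)
  have hinvWP : ∀ x ∈ W \ P, ∀ y, Eo G x y → y ∈ W \ P := fun x hx y h =>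
    ⟨(hWi.mem_iff h).1 hx.1, fun hy => hx.2 ((hPi.mem_iff h).2 hy)⟩
  -- digits from quotients
  have hdq : ∀ x y K, (∀ k ≥ K, x ∉ Ex S m k) → (∀ k ≥ K, y ∉ Ex S m k) →
      (∀ k ≥ K, pos S m k x / 2 ^ m K = pos S m k y / 2 ^ m K) → ∀ j ≥ m K, d x j = d y j := by
    intro x y K hx hy hq j hj
    set k := max K (j + 1) with hk
    have hKk : K ≤ k := le_max_left _ _
    have hjk : j < m k := lt_of_lt_of_le (Nat.lt_succ_self j) ((le_max_right _ _).trans (hmge k))
    rw [hdlim x k j (fun i hi => hx i (hKk.trans hi)) hjk,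
      hdlim y k j (fun i hi => hy i (hKk.trans hi)) hjk]
    have e := congrArg (fun n => n.testBit (j - m K)) (hq k hKk)
    simp only [Nat.testBit_div_two_pow] at e
    have e' : j - m K + m K = j := by omega
    rwa [e'] at e
  -- common level
  have hcommon : ∀ x ∈ W \ P, ∀ y, Eo G x y → ∃ K, (∀ k ≥ K, x ∉ Ex S m k) ∧
      (∀ k ≥ K, y ∉ Ex S m k) ∧ S K x y ∧
      (∀ k ≥ K, pos S m k x / 2 ^ m K = pos S m k y / 2 ^ m K) := by
    intro x hx y hxy
    obtain ⟨K1, hK1⟩ := hev x hx
    obtain ⟨K2, hK2⟩ := hev y (hinvWP x hx y hxy)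
    obtain ⟨g, hg⟩ := hxy
    obtain ⟨K3, hK3⟩ := hu x hx.1 g
    rw [hg] at hK3
    let K := max K1 (max K2 K3)
    have a1 : K1 ≤ K := le_max_left _ _
    have a2 : K2 ≤ K := (le_max_left _ _).trans (le_max_right _ _)
    have a3 : K3 ≤ K := (le_max_right _ _).trans (le_max_right _ _)
    have hS3 : S K x y := S_le hmono a3 hK3
    refine ⟨K + 1, fun k hk => hK1 k (by omega), fun k hk => hK2 k (by omega),
      hmono _ _ _ hS3, fun k hk => ?_⟩
    exact (quot_seq hS hmono hmm (fun k hk => hK1 k (by omega)) (hmono _ _ _ hS3)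
      (quot_eq hS hmono (hK1 K a1) (hK2 K a2) hS3) k hk).1
  refine ⟨P, d, hPW, hPm, hPi, hPc, ⟨hdm, ?_, ?_⟩⟩
  · intro x hx y hxy
    obtain ⟨K, hK1, hK2, -, hK4⟩ := hcommon x hx y hxy
    have := hdq x y K hK1 hK2 hK4
    refine (Set.finite_lt_nat (m K)).subset fun j hj => ?_
    by_contra hcon
    exact hj (this j (not_lt.1 hcon))
  · intro x hx s hs
    -- existence
    have hexist : ∃ y, Eo G x y ∧ d y = s := by
      obtain ⟨K1, hK1⟩ := hev x hx
      obtain ⟨N, hN⟩ := hs.bddAbove
      let K := max K1 (N + 1)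
      have a1 : K1 ≤ K := le_max_left _ _
      have a2 : N + 1 ≤ K := le_max_right _ _
      have hKx : ∀ k ≥ K, x ∉ Ex S m k := fun k hk => hK1 k (a1.trans hk)
      have hds : ∀ j ≥ m K, d x j = s j := by
        intro j hj
        by_contra hcon
        have e1 : j ≤ N := hN hcon
        have e2 := hmge K
        omega
      let v : ℕ := Nat.ofBits fun i : Fin (m K) => s i
      have hv : v < 2 ^ m K := Nat.ofBits_lt_two_pow _
      have hxc : cpl (S K) (pos S m K) (2 ^ m K) x := by
        by_contra h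
        exact hKx K le_rfl (Or.inl h)
      have ht : 2 ^ m K * (pos S m K x / 2 ^ m K) + v < sz (S K) x := by
        unfold cpl at hxc
        rw [mul_comm, ← Nat.div_lt_iff_lt_mul (by positivity)] at hxc
        have e1 : 2 ^ m K * (pos S m K x / 2 ^ m K + 1) ≤ 2 ^ m K * (sz (S K) x / 2 ^ m K) :=
          Nat.mul_le_mul_left _ hxc
        have e2 : 2 ^ m K * (sz (S K) x / 2 ^ m K) ≤ sz (S K) x := Nat.mul_div_le _ _
        rw [mul_add, mul_one] at e1
        omega
      obtain ⟨y, hy1, hy2⟩ := exists_pos (hS K) (pos_isPos (m := m) hS hmono K) x ht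
      have hq0 : pos S m K x / 2 ^ m K = pos S m K y / 2 ^ m K := by
        rw [hy2, Nat.mul_add_div (by positivity), Nat.div_eq_of_lt hv, Nat.add_zero]
      have hqs := quot_seq hS hmono hmm hKx hy1 hq0
      have hKy : ∀ k ≥ K, y ∉ Ex S m k := fun k hk => (hqs k hk).2
      refine ⟨y, hEo _ _ _ hy1, ?_⟩
      funext j
      by_cases hj : j < m K
      · rw [hdlim y K j hKy hj, hy2, Nat.testBit_two_pow_mul_add _ hv, if_pos hj]
        exact Nat.testBit_ofBits_lt _ _ hj
      · rw [← hdq x y K hKx hKy (fun k hk => (hqs k hk).1) j (not_lt.1 hj)]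
        exact hds j (not_lt.1 hj)
    obtain ⟨y, hy1, hy2⟩ := hexist
    refine ⟨y, ⟨hy1, hy2⟩, ?_⟩
    rintro z ⟨hz1, hz2⟩
    have hyz : Eo G y z := hy1.symm.trans hz1
    obtain ⟨K, hK1, hK2, hK3, hK4⟩ := hcommon y (hinvWP x hx y hy1) z hyz
    symm
    refine (pos_isPos (m := m) hS hmono K).inj y z hK3 ?_
    refine Nat.eq_of_testBit_eq fun j => ?_
    by_cases hj : j < m K
    · rw [← hdlim y K j hK1 hj, ← hdlim z K j hK2 hj, hy2, hz2]
    · have e := congrArg (fun n => n.testBit (j - m K)) (hK4 K le_rfl)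
      simp only [Nat.testBit_div_two_pow] at e
      have e' : j - m K + m K = j := by omega
      rwa [e'] at e

end Pool.Agent.CAR
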