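import Pool.Agent.CAR.Union
import Pool.Agent.CAR.M1
import Pool.Agent.CAR.M2
import Pool.Agent.CAR.M3
import Pool.Agent.CAR.M5
import Pool.Agent.CAR.M6
import Pool.Agent.CAR.M7a
import Pool.Agent.CAR.M7b
import Pool.Agent.CAR.M8
import Pool.Agent.CAR.M9
import Pool.Agent.CAR.M10
import Pool.Agent.CAR.M11a
import Pool.Agent.CAR.M11b
import Pool.Agent.CAR.M12a
import Pool.Agent.CAR.M12b

/-!
# Final assembly (module M4, third part)
-/

set_option autoImplicit false
set_option linter.unusedSectionVars false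
set_option linter.unusedVariables false

namespace Pool.Agent.CAR

open Set MeasureTheory
open scoped Pointwise

section Basic

variable {G X : Type} [Group G] [Countable G] [MeasurableSpace X] [StandardBorelSpace X]
  [MulAction G X] [MeasurableConstSMul G X]

theorem infinite_iff_fin {Y : Type} (S : Set Y) :
    S.Infinite ↔ ∀ n : ℕ, ∃ f : Fin n → Y, (∀ i, f i ∈ S) ∧ Function.Injective f := by
  constructor
  · intro h n
    obtain ⟨t, ht, hc⟩ := h.exists_subset_card_eq n
    refine ⟨fun i => t.equivFin.symm (Fin.cast hc.symm i), fun i => ht (Finset.coe_mem _), ?_⟩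
    intro i j hij
    have := t.equivFin.symm.injective (Subtype.ext hij)
    simpa using this
  · intro h hf
    obtain ⟨f, hf1, hf2⟩ := h (S.ncard + 1)
    have h1 : (range f).ncard = S.ncard + 1 := by
      rw [← Nat.card_coe_set_eq, Nat.card_range_of_injective hf2, Nat.card_fin]
    have h2 : (range f).ncard ≤ S.ncard :=
      Set.ncard_le_ncard (by rintro _ ⟨i, rfl⟩; exact hf1 i) hf
    omega

theorem measurableSet_orbit_infinite (C : Set G) :
    MeasurableSet {x : X | {y | ∃ g ∈ C, g • x = y}.Infinite} := by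
  have h : {x : X | {y | ∃ g ∈ C, g • x = y}.Infinite} = ⋂ n : ℕ, ⋃ g : Fin n → C,
      ⋂ i : Fin n, ⋂ j : Fin n, ⋂ _ : i ≠ j, {x | (g i : G) • x = (g j : G) • x}ᶜ := by
    ext x
    simp only [mem_ofPred_eq, mem_iInter, mem_iUnion, mem_compl_iff]
    rw [infinite_iff_fin]
    refine forall_congr' fun n => ?_
    constructor
    · rintro ⟨f, h1, h2⟩
      choose g hg1 hg2 using h1
      refine ⟨fun i => ⟨g i, hg1 i⟩, fun i j hij h => hij ?_⟩
      apply h2
      rw [← hg2 i, ← hg2 j]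
      exact h
    · rintro ⟨g, hg⟩
      refine ⟨fun i => (g i : G) • x, fun i => ⟨g i, (g i).2, rfl⟩, fun i j hij => ?_⟩
      by_contra h
      exact hg i j h hij
  rw [h]
  refine MeasurableSet.iInter fun n => MeasurableSet.iUnion fun g => MeasurableSet.iInter fun i =>
    MeasurableSet.iInter fun j => MeasurableSet.iInter fun _ => ?_
  exact (measurableSet_eq' (measurable_const_smul _) (measurable_const_smul _)).compl

end Basic

section Unif

variable {Γ X : Type} [Group Γ] [Countable Γ] [MulAction Γ X]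

/-- growth of balls in infinite orbits -/
theorem ball_growth (A : Finset Γ) (h1 : 1 ∈ A) (x : X) [DecidableEq Γ]
    (hx : {y | ∃ g ∈ Subgroup.closure (A : Set Γ), g • x = y}.Infinite)
    (hs : ∀ a ∈ A, a⁻¹ ∈ A) (l : ℕ) :
    l + 1 ≤ ((fun g : Γ => g • x) '' ((A ^ l : Finset Γ) : Set Γ)).ncard := by
  induction l with
  | zero => simp
  | succ l ih =>
    set B : ℕ → Set X := fun l => (fun g : Γ => g • x) '' ((A ^ l : Finset Γ) : Set Γ) with hB
    have hfin : ∀ l, (B l).Finite := fun l => (Finset.finite_toSet _).image _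
    have hsub : B l ⊆ B (l + 1) := by
      rintro _ ⟨g, hg, rfl⟩
      refine ⟨g, ?_, rfl⟩
      rw [Finset.mem_coe] at hg ⊢
      rw [pow_succ]
      simpa using Finset.mul_mem_mul hg h1
    have hstep : ∀ a ∈ A, ∀ y ∈ B l, a • y ∈ B (l + 1) := by
      rintro a ha _ ⟨g, hg, rfl⟩
      refine ⟨a * g, ?_, mul_smul _ _ _⟩
      rw [Finset.mem_coe] at hg ⊢
      rw [pow_succ']
      exact Finset.mul_mem_mul ha hg
    have hxB : x ∈ B l := by
      refine ⟨1, ?_, one_smul _ _⟩
      rw [Finset.mem_coe]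
      exact Finset.one_mem_pow h1
    have hne : B l ≠ B (l + 1) := by
      intro heq
      apply hx
      refine (hfin l).subset ?_
      rintro _ ⟨g, hg, rfl⟩
      have hclosed : ∀ a ∈ A, ∀ y ∈ B l, a • y ∈ B l := by
        intro a ha y hy
        rw [heq]
        exact hstep a ha y hy
      induction hg using Subgroup.closure_induction_left with
      | one => rwa [one_smul]
      | mul_left a ha g _ ihg =>
        rw [mul_smul]
        exact hclosed a ha _ ihg
      | inv_mul_cancel a ha g _ ihg =>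
        rw [mul_smul]
        exact hclosed _ (hs a ha) _ ihg
    have := Set.ncard_lt_ncard (hsub.ssubset_of_ne hne) (hfin _)
    change l + 1 + 1 ≤ (B (l + 1)).ncard
    change l + 1 ≤ (B l).ncard at ih
    omega

variable [Infinite Γ] [MeasurableSpace X] [StandardBorelSpace X] [MeasurableConstSMul Γ X]

theorem realizable_fg (hfg : Group.FG Γ) (hA : Aper Γ X) : Realizable Γ (Eo Γ (X := X)) := by
  classical
  obtain ⟨S, hS⟩ := Group.fg_def.1 hfg
  refine realizable_of_unif fun l => ?_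
  set A : Finset Γ := insert 1 (S ∪ S.image fun g => g⁻¹) with hAdef
  have h1 : 1 ∈ A := Finset.mem_insert_self _ _
  have hs : ∀ a ∈ A, a⁻¹ ∈ A := by
    intro a ha
    simp only [hAdef, Finset.mem_insert, Finset.mem_union, Finset.mem_image] at ha ⊢
    rcases ha with rfl | ha | ⟨g, hg, rfl⟩
    · left; simp
    · right; right; exact ⟨a, ha, rfl⟩
    · right; left; simpa using hg
  have htop : Subgroup.closure (A : Set Γ) = ⊤ := by
    rw [eq_top_iff, ← hS]
    refine Subgroup.closure_mono fun g hg => ?_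
    simp only [hAdef, Finset.coe_insert, Finset.coe_union, mem_insert_iff, mem_union]
    exact Or.inr (Or.inl hg)
  refine ⟨A ^ l, fun x => ?_⟩
  have h2 := ball_growth A h1 x ?_ hs l
  · omega
  · have := hA x
    rw [htop]
    refine this.mono ?_
    rintro _ ⟨g, rfl⟩
    exact ⟨g, Subgroup.mem_top g, rfl⟩

omit [MulAction Γ X] [MeasurableConstSMul Γ X] in
theorem realizable_of_freeGen {R : X → X → Prop} (h : FreeGen Γ R) : Realizable Γ R := by
  classical
  obtain ⟨a, a1, amul, am, af, ar⟩ := h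
  let _ : MulAction Γ X :=
    { smul := a
      one_smul := a1
      mul_smul := amul }
  have : MeasurableConstSMul Γ X := ⟨am⟩
  have hR : R = Eo Γ (X := X) := by
    funext x y
    exact propext (ar x y)
  rw [hR]
  refine realizable_of_unif fun l => ?_
  obtain ⟨S, hS⟩ := Infinite.exists_subset_card_eq Γ l
  refine ⟨S, fun x => ?_⟩
  have hinj : Function.Injective fun g : Γ => g • x := by
    intro g h hgh
    have h1 : a (h⁻¹ * g) x = x := by
      change (h⁻¹ * g) • x = x
      rw [mul_smul]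
      have : g • x = h • x := hgh
      rw [this, inv_smul_smul]
    have := af _ _ h1
    exact (inv_mul_eq_one.1 this).symm
  rw [Set.ncard_image_of_injective _ hinj, Set.ncard_coe_finset, hS]

end Unif

section NonFG

variable {Γ : Type} [Group Γ] [Countable Γ] [Infinite Γ]

theorem realizable_compr (hΓ : ¬ Group.FG Γ) {X : Type} [MeasurableSpace X]
    [StandardBorelSpace X] [MulAction Γ X] [MeasurableConstSMul Γ X]
    {P : Set X} (hm : MeasurableSet P) (hP : Inv Γ P) (hC : ComprOn Γ P) (hH : HypOn Γ P) :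
    Realizable Γ (fun x y : P => Eo Γ (x : X) (y : X)) := by
  have := standardBorel_sub hP hm
  exact realizable_piece hP (realizable_of_freeGen
    (freeGen_of_compr Γ hΓ (hH.restrict hP) (hC.restrict hm hP)))

theorem exists_exhaustion (Γ : Type) [Group Γ] [Countable Γ] : ∃ A : ℕ → Finset Γ,
    (∀ n, 1 ∈ A n) ∧ (∀ n, ∀ a ∈ A n, a⁻¹ ∈ A n) ∧ (∀ n, A n ⊆ A (n + 1)) ∧
    ∀ g, ∃ n, g ∈ A n := by
  classical
  obtain ⟨f, hf⟩ := exists_surjective_nat Γ
  refine ⟨fun n => insert 1 ((Finset.range n).image f ∪ (Finset.range n).image fun i => (f i)⁻¹),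
    fun n => Finset.mem_insert_self _ _, fun n a ha => ?_, fun n => ?_, fun g => ?_⟩
  · simp only [Finset.mem_insert, Finset.mem_union, Finset.mem_image, Finset.mem_range] at ha ⊢
    rcases ha with rfl | ⟨i, hi, rfl⟩ | ⟨i, hi, rfl⟩
    · left; simp
    · right; right; exact ⟨i, hi, rfl⟩
    · right; left; exact ⟨i, hi, by simp⟩
  · intro a ha
    simp only [Finset.mem_insert, Finset.mem_union, Finset.mem_image, Finset.mem_range] at ha ⊢
    rcases ha with rfl | ⟨i, hi, rfl⟩ | ⟨i, hi, rfl⟩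
    · left; rfl
    · right; left; exact ⟨i, by omega, rfl⟩
    · right; right; exact ⟨i, by omega, rfl⟩
  · obtain ⟨i, hi⟩ := hf g
    refine ⟨i + 1, ?_⟩
    simp only [Finset.mem_insert, Finset.mem_union, Finset.mem_image, Finset.mem_range]
    right; left
    exact ⟨i, by omega, hi⟩

variable {X : Type} [MeasurableSpace X] [StandardBorelSpace X] [MulAction Γ X]
  [MeasurableConstSMul Γ X]

/-- the part where some finitely generated subgroup has an infinite orbit -/
theorem realizable_fin (hΓ : ¬ Group.FG Γ) (A : ℕ → Finset Γ) (hA1 : ∀ n, 1 ∈ A n)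
    (hAs : ∀ n, ∀ a ∈ A n, a⁻¹ ∈ A n) (hAm : ∀ n, A n ⊆ A (n + 1)) (hAu : ∀ g, ∃ n, g ∈ A n)
    (hX : ∀ x : X, ∃ n, {y | ∃ g ∈ Subgroup.closure (A n : Set Γ), g • x = y}.Infinite) :
    Realizable Γ (Eo Γ (X := X)) := by
  obtain ⟨c, hc⟩ := exists_blockSize Γ
  obtain ⟨Bad, D, B, hBm, hBi, hBc, hBh, hDm, hB, h1, h2, h3, h4, h5⟩ :=
    good_bad A hA1 hAs hAm hAu hX c
  refine realizable_union Γ hBm (fun x y h => hBi.mem_iff h) (realizable_compr hΓ hBm hBi hBc hBh)
    ?_
  have hCi : Inv Γ Badᶜ := hBi.compl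
  have := standardBorel_sub hCi hBm.compl
  refine realizable_piece hCi ?_
  refine hc (subAct Badᶜ hCi) (fun x => D x) (fun x y => B x y) (hDm.comp measurable_subtype_coe)
    (hB.restrict hCi) ?_ ?_ ?_ ?_ ?_
  · intro g k
    obtain ⟨m, hm⟩ := h1 g k
    exact ⟨m, fun x hx => hm x x.2 hx⟩
  · exact fun x y hxy => h2 x x.2 y hxy
  · intro x
    rw [sz_restrict hB hCi]
    exact h3 x x.2
  · intro k
    obtain ⟨S, hS⟩ := h4 k
    refine ⟨S, fun x hx y hxy => ?_⟩
    obtain ⟨g, hg, hgy⟩ := hS x x.2 hx y hxy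
    exact ⟨g, hg, Subtype.ext hgy⟩
  · intro k l
    obtain ⟨S, hS⟩ := h5 k l
    refine ⟨S, fun x hx => ?_⟩
    have h6 := hS x x.2 hx
    rw [← Set.ncard_image_of_injective _ (f := fun y : subAct Badᶜ hCi => (y : X))
      Subtype.val_injective, Set.image_image]
    exact h6

/-- the part where all finitely generated subgroups have finite orbits -/
theorem realizable_loc (hΓ : ¬ Group.FG Γ) (hA : Aper Γ X) (hH : HypOn Γ (univ : Set X)) :
    Realizable Γ (Eo Γ (X := X)) := by
  set m : ℕ → ℕ := fun k => Nat.rec 0 (fun k mk => mk + 2 * k + 6) k with hm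
  have hm1 : ∀ k, m (k + 1) = m k + 2 * k + 6 := fun k => rfl
  obtain ⟨P, S, hPm, hPi, hPc, hS, hSm, hSu, hSs⟩ := exists_intervals hA hH
    (fun k => 2 ^ (k + 2) * 2 ^ (m k)) (Nat.mul_pos (by positivity) (by positivity)) (fun k => by
      have e : 2 ^ (k + 1 + 2) * 2 ^ (m (k + 1)) =
          (2 ^ (k + 2) * 2 ^ (m k)) * (2 * 2 ^ (2 * k + 6)) := by
        rw [hm1]
        ring
      have h1 : 1 ≤ 2 ^ (2 * k + 6) := Nat.one_le_two_pow
      have h2 : 2 ^ 6 ≤ 2 ^ (2 * k + 6) := Nat.pow_le_pow_right (by norm_num) (by omega)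
      have h3 : 1 ≤ 2 ^ (k + 2) * 2 ^ (m k) := Nat.mul_pos (by positivity) (by positivity)
      change 3 * (2 ^ (k + 2) * 2 ^ (m k)) + 1 ≤ 2 ^ (k + 1 + 2) * 2 ^ (m (k + 1))
      rw [e]
      nlinarith)
  refine realizable_union Γ hPm (fun x y h => hPi.mem_iff h)
    (realizable_compr hΓ hPm hPi hPc (hH.mono (subset_univ _))) ?_
  obtain ⟨Q, d, hQW, hQm, hQi, hQc, hd⟩ := exists_digits (W := Pᶜ) hPm.compl hPi.compl S hS hSm
    (fun x hx g => hSu x hx g) m (fun x hx k => (hSs x hx k).1) (fun x hx k => by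
      have h1 := (hSs x hx k).2
      have e : 2 ^ (m (k + 1)) = 2 ^ (k + 2) * ((2 ^ (k + 2) * 2 ^ (m k)) * 4) := by
        rw [hm1]
        ring
      rw [e]
      refine Nat.mul_le_mul_left _ (h1.trans ?_)
      change 3 * (2 ^ (k + 2) * 2 ^ (m k)) ≤ _
      omega)
  -- split `Pᶜ` in `Q` and the rest
  have hCi : Inv Γ Pᶜ := hPi.compl
  have hQi' : Inv Γ (Subtype.val ⁻¹' Q : Set (subAct Pᶜ hCi)) := fun g x hx => hQi g _ hx
  have := standardBorel_sub hCi hPm.compl
  refine realizable_piece hCi ?_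
  have hQm' : MeasurableSet (Subtype.val ⁻¹' Q : Set (subAct Pᶜ hCi)) :=
    measurable_subtype_coe hQm
  have hQc' : ComprOn Γ (Subtype.val ⁻¹' Q : Set (subAct Pᶜ hCi)) := by
    obtain ⟨ψ, p1, p2, p3⟩ := hQc.restrict hQm hQi
    have hmem : ∀ x : X, x ∈ Q → x ∈ Pᶜ := fun x hx => hQW hx
    classical
    refine ⟨fun x n => if h : (x : X) ∈ Q then
        ⟨(ψ (⟨x, h⟩ : subAct Q hQi) n : X), hmem _ (ψ (⟨x, h⟩ : subAct Q hQi) n).2⟩ else x,
      fun n => ?_, fun x hx n => ?_, fun x hx y hy k n hxy => ?_⟩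
    · have key := Measurable.dite (s := (Subtype.val ⁻¹' Q : Set (subAct Pᶜ hCi)))
        (f := fun x => (⟨(ψ (⟨x.1.1, x.2⟩ : subAct Q hQi) n : X),
          hmem _ (ψ (⟨x.1.1, x.2⟩ : subAct Q hQi) n).2⟩ : subAct Pᶜ hCi))
        (g := fun x => x.1) ?_ measurable_subtype_coe hQm'
      · exact key
      · refine Measurable.subtype_mk ?_
        refine measurable_subtype_coe.comp ((p1 n).comp ?_)
        exact Measurable.subtype_mk (measurable_subtype_coe.comp measurable_subtype_coe)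
    · have hx' : (x : X) ∈ Q := hx
      simp only [dif_pos hx']
      rw [Eo_subR]
      have := p2 (⟨x, hx'⟩ : subAct Q hQi) (mem_univ _) n
      rw [Eo_subR] at this
      exact this
    · have hx' : (x : X) ∈ Q := hx
      have hy' : (y : X) ∈ Q := hy
      simp only [dif_pos hx', dif_pos hy'] at hxy
      have h0 : (ψ (⟨x, hx'⟩ : subAct Q hQi) k : X) = (ψ (⟨y, hy'⟩ : subAct Q hQi) n : X) :=
        congrArg (fun z : subAct Pᶜ hCi => (z : X)) hxy
      have := p3 _ (mem_univ _) _ (mem_univ _) k n (Subtype.ext h0)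
      exact ⟨Subtype.ext (show (x : X) = y from
        congrArg (fun z : subAct Q hQi => (z : X)) this.1), this.2⟩
  have hHC : HypOn Γ (univ : Set (subAct Pᶜ hCi)) := (hH.mono (subset_univ _)).restrict hCi
  refine realizable_union Γ hQm' (fun x y h => hQi'.mem_iff h)
    (realizable_compr hΓ hQm' hQi' hQc' (hHC.mono (subset_univ _))) ?_
  have hRi := hQi'.compl
  refine realizable_piece hRi ?_
  have := standardBorel_sub hRi hQm'.compl
  have hdC : Dig (Eo Γ (X := subAct Pᶜ hCi)) (Subtype.val ⁻¹' Q)ᶜ (fun x => d x) := by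
    refine ⟨hd.meas.comp measurable_subtype_coe, fun x hx y hxy => ?_, fun x hx s hs => ?_⟩
    · exact hd.fwd x ⟨x.2, hx⟩ y ((Eo_subR hCi x y).1 hxy)
    · obtain ⟨y, ⟨hy1, hy2⟩, hy3⟩ := hd.bij x ⟨x.2, hx⟩ s hs
      refine ⟨⟨y, (hCi.mem_iff hy1).1 x.2⟩, ⟨(Eo_subR hCi _ _).2 hy1, hy2⟩, ?_⟩
      rintro ⟨z, hz⟩ ⟨h1, h2⟩
      exact Subtype.ext (hy3 z ⟨(Eo_subR hCi _ _).1 h1, h2⟩)
  have hdR := hdC.restrict hRi subset_rfl
  rcases nadkarni hdR with hcompr | ⟨μ, hμp, hμ⟩
  · refine realizable_of_freeGen (freeGen_of_compr Γ hΓ ?_ hcompr)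
    exact (hHC.mono (subset_univ _)).restrict hRi
  · exact realizable_of_condA Γ hΓ (condA_of_measure hdR μ hμ) hdR

theorem realizable_nonfg (hΓ : ¬ Group.FG Γ) (hA : Aper Γ X) : Realizable Γ (Eo Γ (X := X)) := by
  obtain ⟨A, hA1, hAs, hAm, hAu⟩ := exists_exhaustion Γ
  have hmono : ∀ n m, n ≤ m → A n ⊆ A m := fun n m h => monotone_nat_of_le_succ hAm h
  have hcl : ∀ n m, n ≤ m → Subgroup.closure (A n : Set Γ) ≤ Subgroup.closure (A m : Set Γ) :=
    fun n m h => Subgroup.closure_mono (by exact_mod_cast hmono n m h)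
  set O : ℕ → X → Set X := fun n x => {y | ∃ g ∈ Subgroup.closure (A n : Set Γ), g • x = y} with hO
  set P : Set X := {x | ∃ n, (O n x).Infinite} with hP
  have hPm : MeasurableSet P := by
    have : P = ⋃ n, {x | (O n x).Infinite} := by
      ext x
      simp [hP]
    rw [this]
    exact MeasurableSet.iUnion fun n => measurableSet_orbit_infinite _
  have hOeq : ∀ n x g, g ∈ Subgroup.closure (A n : Set Γ) → O n (g • x) = O n x := by
    intro n x g hg
    ext y
    constructor
    · rintro ⟨h, hh, rfl⟩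
      exact ⟨h * g, mul_mem hh hg, mul_smul _ _ _⟩
    · rintro ⟨h, hh, rfl⟩
      refine ⟨h * g⁻¹, mul_mem hh (inv_mem hg), ?_⟩
      rw [mul_smul, inv_smul_smul]
  have hPi : Inv Γ P := by
    rintro g x ⟨n, hn⟩
    obtain ⟨k, hk⟩ := hAu g
    have hg : g ∈ Subgroup.closure (A (max n k) : Set Γ) :=
      Subgroup.subset_closure (hmono k _ (le_max_right _ _) hk)
    refine ⟨max n k, ?_⟩
    rw [hOeq _ _ _ hg]
    refine hn.mono ?_
    rintro _ ⟨h, hh, rfl⟩
    exact ⟨h, hcl n _ (le_max_left _ _) hh, rfl⟩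
  refine realizable_union Γ hPm (fun x y h => hPi.mem_iff h) ?_ ?_
  · have := standardBorel_sub hPi hPm
    refine realizable_piece hPi (realizable_fin hΓ A hA1 hAs hAm hAu fun x => ?_)
    obtain ⟨n, hn⟩ := x.2
    refine ⟨n, fun hf => hn ?_⟩
    refine (hf.image (fun y : subAct P hPi => (y : X))).subset ?_
    rintro _ ⟨g, hg, rfl⟩
    exact ⟨g • x, ⟨g, hg, rfl⟩, rfl⟩
  · have hCi := hPi.compl
    have := standardBorel_sub hCi hPm.compl
    refine realizable_piece hCi (realizable_loc hΓ (hA.restrict hCi) ?_)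
    refine ⟨fun n x y => ∃ g ∈ Subgroup.closure (A n : Set Γ), g • x = y, fun n => ?_, ?_, ?_⟩
    · refine ⟨⟨fun x => ⟨1, one_mem _, one_smul _ _⟩, ?_, ?_⟩, ?_, ?_, ?_⟩
      · rintro x _ ⟨g, hg, rfl⟩
        exact ⟨g⁻¹, inv_mem hg, inv_smul_smul _ _⟩
      · rintro x _ _ ⟨g, hg, rfl⟩ ⟨h, hh, rfl⟩
        exact ⟨h * g, mul_mem hh hg, mul_smul _ _ _⟩
      · rintro x _ ⟨g, -, rfl⟩
        exact ⟨g, rfl⟩
      · intro x
        by_contra hinf
        apply x.2
        refine ⟨n, fun hf => hinf ?_⟩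
        refine Set.Finite.of_finite_image (f := fun y : subAct Pᶜ hCi => (y : X)) ?_
          Subtype.val_injective.injOn
        refine hf.subset ?_
        rintro _ ⟨_, ⟨g, hg, rfl⟩, rfl⟩
        exact ⟨g, hg, rfl⟩
      · intro g
        have : {x : subAct Pᶜ hCi | ∃ h ∈ Subgroup.closure (A n : Set Γ), h • x = g • x} =
            ⋃ h : Subgroup.closure (A n : Set Γ), {x | (h : Γ) • x = g • x} := by
          ext x
          simp
        rw [this]
        exact MeasurableSet.iUnion fun h =>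
          measurableSet_eq' (measurable_const_smul _) (measurable_const_smul _)
    · rintro n x _ ⟨g, hg, rfl⟩
      exact ⟨g, hcl n _ (Nat.le_succ n) hg, rfl⟩
    · intro x _ g
      obtain ⟨k, hk⟩ := hAu g
      exact ⟨k, g, Subgroup.subset_closure hk, rfl⟩

end NonFG

theorem realizable_all {Γ : Type} [Group Γ] [Countable Γ] [Infinite Γ] {X : Type}
    [MeasurableSpace X] [StandardBorelSpace X] [MulAction Γ X] [MeasurableConstSMul Γ X]
    (hA : Aper Γ X) : Realizable Γ (Eo Γ (X := X)) := by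
  by_cases hfg : Group.FG Γ
  · exact realizable_fg hfg hA
  · exact realizable_nonfg hfg hA

end Pool.Agent.CAR
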