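import Pool.Agent.CAR.DigTool

/-!
# Restriction to invariant Borel sets, Cantor-Schroeder-Bernstein, unions (module M4, first part)
-/

set_option autoImplicit false

namespace Pool.Agent.CAR

open Set MeasureTheory

section Restrict

variable {G X : Type} [Group G] [MeasurableSpace X] [MulAction G X]

theorem coe_smul_sub {P : Set X} (hP : Inv G P) (g : G) (x : subAct P hP) :
    ((g • x : subAct P hP) : X) = g • (x : X) := rfl

theorem Eo_subR {P : Set X} (hP : Inv G P) (x y : subAct P hP) :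
    Eo G x y ↔ Eo G (x : X) (y : X) := by
  constructor
  · rintro ⟨g, rfl⟩
    exact ⟨g, rfl⟩
  · rintro ⟨g, hg⟩
    exact ⟨g, Subtype.ext hg⟩

instance instMeasSub [MeasurableConstSMul G X] {P : Set X} (hP : Inv G P) :
    MeasurableConstSMul G (subAct P hP) where
  measurable_const_smul g := by
    refine Measurable.subtype_mk ?_
    exact (measurable_const_smul g).comp measurable_subtype_coe

theorem standardBorel_sub [StandardBorelSpace X] {P : Set X} (hP : Inv G P)
    (hm : MeasurableSet P) : StandardBorelSpace (subAct P hP) :=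
  MeasurableSet.standardBorel hm

theorem FBR.restrict {F : X → X → Prop} (hF : FBR G F) {P : Set X} (hP : Inv G P) :
    FBR G (fun x y : subAct P hP => F x y) where
  equiv := ⟨fun x => hF.equiv.refl _, fun h => hF.equiv.symm h, fun h h' => hF.equiv.trans h h'⟩
  sub x y h := by
    obtain ⟨g, hg⟩ := hF.sub _ _ h
    exact ⟨g, Subtype.ext hg⟩
  fin x := by
    refine Finite.of_finite_image (f := fun y : subAct P hP => (y : X)) ?_
      Subtype.val_injective.injOn
    exact (hF.fin x).subset (by rintro _ ⟨y, hy, rfl⟩; exact hy)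
  meas g := measurable_subtype_coe (hF.meas g)

theorem sz_restrict {F : X → X → Prop} (hF : FBR G F) {P : Set X} (hP : Inv G P)
    (x : subAct P hP) : sz (fun x y : subAct P hP => F x y) x = sz F (x : X) := by
  unfold sz
  rw [← Set.ncard_image_of_injective _ (f := fun y : subAct P hP => (y : X))
    Subtype.val_injective]
  congr 1
  ext y
  constructor
  · rintro ⟨y, hy, rfl⟩
    exact hy
  · intro hy
    have hyP : y ∈ P := (hP.mem_iff (hF.sub _ _ hy)).1 x.2
    exact ⟨⟨y, hyP⟩, hy, rfl⟩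

theorem ComprOn.mono {P Q : Set X} (hPQ : P ⊆ Q) (h : ComprOn G Q) : ComprOn G P := by
  obtain ⟨ψ, h1, h2, h3⟩ := h
  exact ⟨ψ, h1, fun x hx => h2 x (hPQ hx), fun x hx y hy => h3 x (hPQ hx) y (hPQ hy)⟩

theorem HypOn.mono {P Q : Set X} (hPQ : P ⊆ Q) (h : HypOn G Q) : HypOn G P := by
  obtain ⟨F, h1, h2, h3⟩ := h
  exact ⟨F, h1, h2, fun x hx => h3 x (hPQ hx)⟩

open Classical in
theorem ComprOn.restrict {P : Set X} (hm : MeasurableSet P) (hP : Inv G P) (h : ComprOn G P) :
    ComprOn G (univ : Set (subAct P hP)) := by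
  obtain ⟨ψ, h1, h2, h3⟩ := h
  have hmem : ∀ (x : subAct P hP) n, ψ x n ∈ P := fun x n => (hP.mem_iff (h2 x x.2 n)).1 x.2
  refine ⟨fun x n => ⟨ψ x n, hmem x n⟩, fun n => ?_, fun x _ n => ?_, fun x _ y _ m n hxy => ?_⟩
  · exact Measurable.subtype_mk ((h1 n).comp measurable_subtype_coe)
  · rw [Eo_subR]
    exact h2 x x.2 n
  · have := h3 x x.2 y y.2 m n (congrArg Subtype.val hxy)
    exact ⟨Subtype.ext this.1, this.2⟩

theorem HypOn.restrict {P : Set X} (hP : Inv G P) (h : HypOn G P) :
    HypOn G (univ : Set (subAct P hP)) := by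
  obtain ⟨F, h1, h2, h3⟩ := h
  exact ⟨fun n x y => F n x y, fun n => (h1 n).restrict hP, fun n x y => h2 n x y,
    fun x _ g => h3 x x.2 g⟩

theorem Dig.restrict {P : Set X} {W : Set X} {d : X → ℕ → Bool}
    (hP : Inv G P) (hd : Dig (Eo G (X := X)) W d) (hPW : P ⊆ W) :
    Dig (Eo G (X := subAct P hP)) univ (fun x => d x) where
  meas := hd.meas.comp measurable_subtype_coe
  fwd x _ y h := hd.fwd x (hPW x.2) y ((Eo_subR hP x y).1 h)
  bij x _ s hs := by
    obtain ⟨y, ⟨hy1, hy2⟩, hy3⟩ := hd.bij x (hPW x.2) s hs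
    refine ⟨⟨y, (hP.mem_iff hy1).1 x.2⟩, ⟨(Eo_subR hP _ _).2 hy1, hy2⟩, ?_⟩
    rintro ⟨z, hz⟩ ⟨h1, h2⟩
    exact Subtype.ext (hy3 z ⟨(Eo_subR hP _ _).1 h1, h2⟩)

theorem Aper.restrict {P : Set X} (hP : Inv G P) (h : Aper G X) : Aper G (subAct P hP) := by
  intro x
  have h1 := h (x : X)
  refine fun hf => h1 ?_
  have h2 := hf.image (fun y : subAct P hP => (y : X))
  refine h2.subset ?_
  rintro _ ⟨g, rfl⟩
  exact ⟨g • x, ⟨g, rfl⟩, rfl⟩

end Restrict

section CSB

variable {X Y : Type} [MeasurableSpace X] [StandardBorelSpace X] [MeasurableSpace Y]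
  [StandardBorelSpace Y]

open Classical in
/-- Cantor-Schroeder-Bernstein for invariant embeddings -/
theorem InvEmb.csb {R : X → X → Prop} {S : Y → Y → Prop} (hR : ∀ x y, R x y → R y x)
    (hf : InvEmb R S) (hg : InvEmb S R) :
    ∃ h : X → Y, Measurable h ∧ Function.Bijective h ∧ ∀ x x', R x x' ↔ S (h x) (h x') := by
  obtain ⟨f, fm, fi, fr, fs⟩ := hf
  obtain ⟨g, gm, gi, gr, gs⟩ := hg
  set C : ℕ → Set X := fun n => (fun x => g (f x))^[n] '' (range g)ᶜ with hC
  have gfi : Function.Injective fun x => g (f x) := gi.comp fi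
  have gfm : Measurable fun x => g (f x) := gm.comp fm
  have hgE : MeasurableEmbedding g := gm.measurableEmbedding gi
  have hCm : ∀ n, MeasurableSet (C n) := by
    intro n
    have h1 : Function.Injective (fun x => g (f x))^[n] := gfi.iterate n
    have h2 : Measurable (fun x => g (f x))^[n] := gfm.iterate n
    exact (h2.measurableEmbedding h1).measurableSet_image.2 hgE.measurableSet_range.compl
  have hCsucc : ∀ n x, x ∈ C n → g (f x) ∈ C (n + 1) := by
    rintro n _ ⟨x, hx, rfl⟩
    refine ⟨x, hx, ?_⟩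
    rw [Function.iterate_succ_apply']
  have hCpre : ∀ n x, x ∈ C (n + 1) → ∃ y ∈ C n, g (f y) = x := by
    rintro n _ ⟨x, hx, rfl⟩
    refine ⟨_, ⟨x, hx, rfl⟩, ?_⟩
    rw [Function.iterate_succ_apply']
  have hCinv : ∀ n x x', x ∈ C n → R x x' → x' ∈ C n := by
    intro n
    induction n with
    | zero =>
      rintro x x' hx hxx'
      simp only [hC, Function.iterate_zero, id_eq, image_id'] at hx ⊢
      intro hx'
      obtain ⟨y, rfl⟩ := hx'
      exact hx (gs y x (hR _ _ hxx'))
    | succ n ih =>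
      rintro x x' hx hxx'
      obtain ⟨c, hc, rfl⟩ := hCpre n x hx
      obtain ⟨y, rfl⟩ := gs (f c) x' hxx'
      have h1 := (gr _ _).2 hxx'
      obtain ⟨c', rfl⟩ := fs c y h1
      exact hCsucc n c' (ih c c' hc ((fr _ _).2 h1))
  set U : Set X := ⋃ n, C n with hU
  have hUm : MeasurableSet U := MeasurableSet.iUnion hCm
  have hUinv : ∀ x x', x ∈ U → R x x' → x' ∈ U := by
    intro x x' hx hxx'
    obtain ⟨n, hn⟩ := mem_iUnion.1 hx
    exact mem_iUnion.2 ⟨n, hCinv n x x' hn hxx'⟩
  have hUf : ∀ x ∈ U, g (f x) ∈ U := by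
    intro x hx
    obtain ⟨n, hn⟩ := mem_iUnion.1 hx
    exact mem_iUnion.2 ⟨n + 1, hCsucc n x hn⟩
  have hUg : ∀ x, x ∉ U → ∃ y, g y = x := by
    intro x hx
    by_contra h
    exact hx (mem_iUnion.2 ⟨0, x, h, rfl⟩)
  have hUgf : ∀ x, g (f x) ∈ U → x ∈ U := by
    intro x hx
    obtain ⟨n, hn⟩ := mem_iUnion.1 hx
    cases n with
    | zero =>
      exfalso
      simp only [hC, Function.iterate_zero, id_eq, image_id'] at hn
      exact hn ⟨f x, rfl⟩
    | succ n =>
      obtain ⟨y, hy, hyx⟩ := hCpre n _ hn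
      rw [← gfi hyx]
      exact mem_iUnion.2 ⟨n, hy⟩
  choose gi' hgi' using hUg
  set h : X → Y := fun x => if hx : x ∈ U then f x else gi' x hx with hh
  have h_in : ∀ x ∈ U, h x = f x := fun x hx => dif_pos hx
  have h_out : ∀ x, x ∉ U → g (h x) = x := by
    intro x hx
    have : h x = gi' x hx := dif_neg hx
    rw [this, hgi' x hx]
  refine ⟨h, ?_, ⟨?_, ?_⟩, ?_⟩
  · intro B hB
    have h1 : h ⁻¹' B = (U ∩ f ⁻¹' B) ∪ (Uᶜ ∩ g '' B) := by
      ext x
      by_cases hx : x ∈ U
      · simp [h_in x hx, hx]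
      · simp only [mem_preimage, mem_union, mem_inter_iff, hx, false_and, mem_compl_iff,
          not_false_eq_true, true_and, false_or]
        constructor
        · intro hxB
          exact ⟨h x, hxB, h_out x hx⟩
        · rintro ⟨y, hy, hyx⟩
          have : h x = y := gi ((h_out x hx).trans hyx.symm)
          rwa [this]
    rw [h1]
    exact (hUm.inter (fm hB)).union (hUm.compl.inter (hgE.measurableSet_image.2 hB))
  · intro x x' hxx'
    by_cases hx : x ∈ U <;> by_cases hx' : x' ∈ U
    · rw [h_in x hx, h_in x' hx'] at hxx'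
      exact fi hxx'
    · exfalso
      apply hx'
      rw [← h_out x' hx', ← hxx', h_in x hx]
      exact hUf x hx
    · exfalso
      apply hx
      rw [← h_out x hx, hxx', h_in x' hx']
      exact hUf x' hx'
    · rw [← h_out x hx, hxx', h_out x' hx']
  · intro y
    by_cases hy : g y ∈ U
    · obtain ⟨n, hn⟩ := mem_iUnion.1 hy
      cases n with
      | zero =>
        exfalso
        simp only [hC, Function.iterate_zero, id_eq, image_id'] at hn
        exact hn ⟨y, rfl⟩
      | succ n =>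
        obtain ⟨c, hc, hcy⟩ := hCpre n _ hn
        refine ⟨c, ?_⟩
        rw [h_in c (mem_iUnion.2 ⟨n, hc⟩)]
        exact gi hcy
    · exact ⟨g y, gi (h_out _ hy)⟩
  · intro x x'
    by_cases hx : x ∈ U <;> by_cases hx' : x' ∈ U
    · rw [h_in x hx, h_in x' hx']
      exact fr x x'
    · constructor
      · intro h1
        exact absurd (hUinv x x' hx h1) hx'
      · intro h1
        exfalso
        rw [h_in x hx] at h1
        obtain ⟨c, hc⟩ := fs x _ h1
        rw [← hc] at h1
        have hc' := hUinv x c hx ((fr _ _).2 h1)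
        apply hx'
        rw [← h_out x' hx', ← hc]
        exact hUf c hc'
    · constructor
      · intro h1
        exact absurd (hUinv x' x hx' (hR _ _ h1)) hx
      · intro h1
        exfalso
        rw [h_in x' hx'] at h1
        have h2 := hR _ _ ((gr _ _).1 h1)
        have h3 := (gr _ _).2 h2
        obtain ⟨c, hc⟩ := fs x' _ h3
        rw [← hc] at h3
        have hc' := hUinv x' c hx' ((fr _ _).2 h3)
        apply hx
        rw [← h_out x hx, ← hc]
        exact hUf c hc'
    · have e1 := h_out x hx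
      have e2 := h_out x' hx'
      rw [gr (h x) (h x'), e1, e2]

end CSB

end Pool.Agent.CAR
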