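import Pool.Agent.CAR.Main

/-!
# The shift space and the final statement
-/

set_option autoImplicit false
set_option linter.unusedSectionVars false
set_option linter.unusedVariables false

namespace Pool.Agent.CAR

open Set MeasureTheory

/-- the shift space -/
def Sh (Γ : Type) : Type := Γ → ℕ → Bool

instance instMSSh (Γ : Type) : MeasurableSpace (Sh Γ) :=
  inferInstanceAs (MeasurableSpace (Γ → ℕ → Bool))

instance instSBSh (Γ : Type) [Countable Γ] : StandardBorelSpace (Sh Γ) :=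
  inferInstanceAs (StandardBorelSpace (Γ → ℕ → Bool))

instance instActSh (Γ : Type) [Group Γ] : MulAction Γ (Sh Γ) where
  smul g x := fun δ => x (g⁻¹ * δ)
  one_smul x := by
    funext δ
    change x (1⁻¹ * δ) = x δ
    simp
  mul_smul g h x := by
    funext δ
    change x ((g * h)⁻¹ * δ) = x (h⁻¹ * (g⁻¹ * δ))
    rw [mul_inv_rev, mul_assoc]

theorem Sh_smul_apply {Γ : Type} [Group Γ] (g : Γ) (x : Sh Γ) (δ : Γ) :
    (g • x) δ = x (g⁻¹ * δ) := rfl

instance instMeasSh (Γ : Type) [Group Γ] : MeasurableConstSMul Γ (Sh Γ) where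
  measurable_const_smul g := by
    refine measurable_pi_lambda _ fun δ => ?_
    exact measurable_pi_apply (g⁻¹ * δ)

variable {Γ : Type} [Group Γ]

/-- the aperiodic part -/
def apSet (Γ : Type) [Group Γ] : Set (Sh Γ) :=
  {x | (range (fun γ : Γ => fun δ : Γ => x (γ⁻¹ * δ))).Infinite}

theorem apSet_eq : apSet Γ = {x : Sh Γ | {y | ∃ g ∈ (univ : Set Γ), g • x = y}.Infinite} := by
  ext x
  have : range (fun γ : Γ => fun δ : Γ => x (γ⁻¹ * δ)) = {y | ∃ g ∈ (univ : Set Γ), g • x = y} := by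
    ext y
    constructor
    · rintro ⟨g, rfl⟩
      exact ⟨g, mem_univ _, rfl⟩
    · rintro ⟨g, -, rfl⟩
      exact ⟨g, rfl⟩
  simp only [apSet, mem_ofPred_eq]
  rw [this]
  exact Iff.rfl

theorem measurableSet_apSet [Countable Γ] : MeasurableSet (apSet Γ) := by
  rw [apSet_eq]
  exact measurableSet_orbit_infinite _

theorem inv_apSet : Inv Γ (apSet Γ) := by
  intro g x hx
  have hx' : (range (fun γ : Γ => γ • x)).Infinite := hx
  change (range (fun γ : Γ => γ • (g • x))).Infinite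
  refine hx'.mono ?_
  rintro _ ⟨h, rfl⟩
  exact ⟨h * g⁻¹, by simp only [mul_smul, inv_smul_smul]⟩

theorem aper_apSet : Aper Γ (subAct (apSet Γ) inv_apSet) := by
  intro x hf
  have hx' : (range (fun γ : Γ => γ • (x : Sh Γ))).Infinite := x.2
  apply hx'
  refine (hf.image (fun y : subAct (apSet Γ) inv_apSet => (y : Sh Γ))).subset ?_
  rintro _ ⟨g, rfl⟩
  exact ⟨g • x, ⟨g, rfl⟩, rfl⟩

/-- a relation generated by an aperiodic Borel action embeds invariantly in the aperiodic part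
of the shift -/
theorem invEmb_of_gen [Countable Γ] {Y : Type} [MeasurableSpace Y] [StandardBorelSpace Y]
    {R : Y → Y → Prop} (h : Gen Γ R) :
    InvEmb R (Eo Γ (X := subAct (apSet Γ) inv_apSet)) := by
  obtain ⟨a, a1, amul, am, ainf, ar⟩ := h
  obtain ⟨c, hc⟩ := MeasurableSpace.measurable_injection_nat_bool_of_countablySeparated Y
  set f : Y → Sh Γ := fun y γ => c (a γ⁻¹ y) with hf
  have fm : Measurable f := measurable_pi_lambda _ fun γ => hc.1.comp (am γ⁻¹)
  have fi : Function.Injective f := by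
    intro y z hyz
    have := congrFun hyz 1
    simp only [hf, inv_one, a1] at this
    exact hc.2 this
  have feq : ∀ g y, f (a g y) = g • f y := by
    intro g y
    funext δ
    change c (a δ⁻¹ (a g y)) = c (a (g⁻¹ * δ)⁻¹ y)
    rw [← amul, mul_inv_rev, inv_inv]
  have fap : ∀ y, f y ∈ apSet Γ := by
    intro y
    change (range (fun γ : Γ => γ • f y)).Infinite
    have h1 := (ainf y).image fi.injOn
    refine h1.mono ?_
    rintro _ ⟨_, ⟨g, rfl⟩, rfl⟩
    exact ⟨g, (feq g y).symm⟩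
  refine ⟨fun y => ⟨f y, fap y⟩, fm.subtype_mk, fun y z hyz => fi (congrArg Subtype.val hyz),
    fun y z => ?_, fun y z hyz => ?_⟩
  · rw [Eo_subR, ar]
    constructor
    · rintro ⟨g, rfl⟩
      exact ⟨g, (feq g y).symm⟩
    · rintro ⟨g, hg⟩
      refine ⟨g, fi ?_⟩
      rw [feq]
      exact hg
  · rw [Eo_subR] at hyz
    obtain ⟨g, hg⟩ := hyz
    exact ⟨a g y, Subtype.ext ((feq g y).trans hg)⟩

open Classical in
theorem final (Γ : Type) [Group Γ] [Countable Γ] [Infinite Γ] :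
    ∃ (Y : Type) (tY : TopologicalSpace Y) (mY : MeasurableSpace Y),
        CompactSpace Y ∧ TopologicalSpace.MetrizableSpace Y ∧ BorelSpace Y ∧
        ∃ (Δ : Type) (gΔ : Group Δ) (aΔ : MulAction Δ Y),
          Countable Δ ∧ ContinuousConstSMul Δ Y ∧
          ∃ f : (Γ → ℕ → Bool) → Y, Measurable f ∧
            Set.InjOn f {x : Γ → ℕ → Bool |
              (Set.range (fun γ : Γ => fun δ : Γ => x (γ⁻¹ * δ))).Infinite} ∧
            f '' {x : Γ → ℕ → Bool |
              (Set.range (fun γ : Γ => fun δ : Γ => x (γ⁻¹ * δ))).Infinite} = Set.univ ∧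
            ∀ a ∈ {x : Γ → ℕ → Bool |
                (Set.range (fun γ : Γ => fun δ : Γ => x (γ⁻¹ * δ))).Infinite},
            ∀ b ∈ {x : Γ → ℕ → Bool |
                (Set.range (fun γ : Γ => fun δ : Γ => x (γ⁻¹ * δ))).Infinite},
              ((∃ γ : Γ, ∀ δ : Γ, b δ = a (γ⁻¹ * δ)) ↔ ∃ g : Δ, g • f a = f b) := by
  have hstd := standardBorel_sub (inv_apSet (Γ := Γ)) (measurableSet_apSet (Γ := Γ))
  obtain ⟨Y, tY, mY, hc, hm, hb, Δ, gΔ, aΔ, cΔ, csΔ, hemb, hgen⟩ :=
    realizable_all (aper_apSet (Γ := Γ))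
  have hpolish : StandardBorelSpace Y := by
    let _ := TopologicalSpace.metrizableSpaceMetric Y
    infer_instance
  have hemb' := invEmb_of_gen hgen
  obtain ⟨h, hmeas, hbij, hrel⟩ := hemb.csb (fun x y hxy => hxy.symm) hemb'
  refine ⟨Y, tY, mY, hc, hm, hb, Δ, gΔ, aΔ, cΔ, csΔ, ?_⟩
  -- the aperiodic part is nonempty
  have hne : (apSet Γ).Nonempty := by
    refine ⟨fun δ _ => decide (δ = 1), ?_⟩
    change (range (fun γ : Γ => fun δ : Γ => fun _ : ℕ => decide (γ⁻¹ * δ = 1))).Infinite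
    refine Set.infinite_range_of_injective fun g k hgk => ?_
    have := congrFun (congrFun hgk g) 0
    simp only [inv_mul_cancel, decide_true] at this
    have h1 := of_decide_eq_true this.symm
    exact (inv_mul_eq_one.1 h1).symm
  obtain ⟨x0, hx0⟩ := hne
  set y0 : Y := h ⟨x0, hx0⟩
  set f : (Γ → ℕ → Bool) → Y := fun x => if hx : x ∈ apSet Γ then h ⟨x, hx⟩ else y0 with hf
  have hfin : ∀ x (hx : x ∈ apSet Γ), f x = h ⟨x, hx⟩ := fun x hx => dif_pos hx
  refine ⟨f, ?_, ?_, ?_, ?_⟩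
  · exact Measurable.dite (α := Sh Γ) (s := apSet Γ) (f := fun x => h ⟨x.1, x.2⟩)
      (g := fun _ => y0) hmeas measurable_const measurableSet_apSet
  · intro x hx y hy hxy
    rw [hfin x hx, hfin y hy] at hxy
    exact congrArg Subtype.val (hbij.1 hxy)
  · rw [eq_univ_iff_forall]
    intro y
    obtain ⟨x, rfl⟩ := hbij.2 y
    exact ⟨x.1, x.2, hfin x.1 x.2⟩
  · intro a ha b hb
    rw [hfin a ha, hfin b hb]
    refine Iff.trans ?_ (hrel ⟨a, ha⟩ ⟨b, hb⟩)
    rw [Eo_subR]
    constructor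
    · rintro ⟨g, hg⟩
      exact ⟨g, (funext hg).symm⟩
    · rintro ⟨g, hg⟩
      exact ⟨g, fun δ => (congrFun hg δ).symm⟩

end Pool.Agent.CAR
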