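import Pool.Agent.CAR.Defs

/-!
# Toolkit for finite Borel relations (module M0)
-/

set_option autoImplicit false

namespace Pool.Agent.CAR

open Set MeasureTheory

variable {G X : Type} [Group G] [Countable G] [MeasurableSpace X] [StandardBorelSpace X]
  [MulAction G X] [MeasurableConstSMul G X]

/-- a Borel injection into the reals, used as a Borel linear order -/
noncomputable def nu (x : X) : ℝ := embeddingReal X x

theorem nu_inj : Function.Injective (nu (X := X)) := (measurableEmbedding_embeddingReal X).injective

theorem measurable_nu : Measurable (nu (X := X)) := (measurableEmbedding_embeddingReal X).measurable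

/-- equality of two measurable maps is a measurable condition -/
theorem measurableSet_eq' {Y Z : Type} [MeasurableSpace Y] [StandardBorelSpace Y]
    [MeasurableSpace Z] {f g : Z → Y}
    (hf : Measurable f) (hg : Measurable g) : MeasurableSet {x | f x = g x} := by
  have h : {x | f x = g x} = {x | nu (f x) = nu (g x)} := by
    ext x
    exact ⟨fun h => congrArg nu h, fun h => nu_inj h⟩
  rw [h]
  exact measurableSet_eq_fun (measurable_nu.comp hf) (measurable_nu.comp hg)

/-- size of the class -/
noncomputable def sz (F : X → X → Prop) (x : X) : ℕ := {y | F x y}.ncard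

/-- rank of `x` in its class with respect to the Borel order `nu` -/
noncomputable def rk (F : X → X → Prop) (x : X) : ℕ := {y | F x y ∧ nu y < nu x}.ncard

open Classical in
/-- the `j`-th element of the class of `x` (or `x`, if there is none) -/
noncomputable def el (F : X → X → Prop) (x : X) (j : ℕ) : X :=
  if h : ∃ y, F x y ∧ rk F y = j then h.choose else x

/-- the list of the values of `f` on the class of `x` -/
noncomputable def dat {α : Type} (F : X → X → Prop) (f : X → α) (x : X) : List α :=
  (List.range (sz F x)).map fun j => f (el F x j)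

/-- counting functions are measurable: if `P` is a relation such that each
`{x | P x (g • x)}` is measurable and `P x y` implies `y` is in the orbit and finiteness -/
theorem measurable_ncard (P : X → X → Prop) (hsub : ∀ x y, P x y → ∃ g : G, g • x = y)
    (hfin : ∀ x, {y | P x y}.Finite) (hm : ∀ g : G, MeasurableSet {x | P x (g • x)}) :
    Measurable fun x => {y | P x y}.ncard := by
  have key : ∀ n : ℕ, MeasurableSet {x | n ≤ {y | P x y}.ncard} := by
    intro n
    have h : {x | n ≤ {y | P x y}.ncard} =
        ⋃ g : Fin n → G, ({x | ∀ i, P x (g i • x)} ∩ {x | ∀ i j, i ≠ j → g i • x ≠ g j • x}) := by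
      ext x
      simp only [mem_ofPred_eq, mem_iUnion, mem_inter_iff]
      constructor
      · intro hn
        obtain ⟨t, ht, hc⟩ := Set.exists_subset_card_eq hn
        have htf : t.Finite := (hfin x).subset ht
        have e : Nonempty (Fin n ≃ t) := by
          rw [← hc]
          have := htf.fintype
          exact ⟨(Fintype.equivFinOfCardEq (by rw [← Nat.card_coe_set_eq, Nat.card_eq_fintype_card])).symm⟩
        obtain ⟨e⟩ := e
        have hg : ∀ i : Fin n, ∃ g : G, g • x = (e i : X) := fun i => hsub x _ (ht (e i).2)
        choose g hg using hg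
        refine ⟨g, fun i => ?_, fun i j hij h => hij ?_⟩
        · rw [hg i]
          exact ht (e i).2
        · rw [hg i, hg j] at h
          exact e.injective (Subtype.ext h)
      · rintro ⟨g, h1, h2⟩
        have hinj : Function.Injective fun i => g i • x := by
          intro i j hij
          by_contra h
          exact h2 i j h hij
        have hr : range (fun i => g i • x) ⊆ {y | P x y} := by
          rintro _ ⟨i, rfl⟩
          exact h1 i
        calc n = (range fun i => g i • x).ncard := by
                rw [← Nat.card_coe_set_eq, Nat.card_range_of_injective hinj, Nat.card_fin]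
          _ ≤ _ := Set.ncard_le_ncard hr (hfin x)
    rw [h]
    refine MeasurableSet.iUnion fun g => MeasurableSet.inter ?_ ?_
    · rw [Set.ofPred_forall]
      exact MeasurableSet.iInter fun i => hm (g i)
    · simp only [Set.ofPred_forall]
      refine MeasurableSet.iInter fun i => MeasurableSet.iInter fun j => MeasurableSet.iInter fun _ => ?_
      exact (measurableSet_eq' (measurable_const_smul (g i)) (measurable_const_smul (g j))).compl
  refine measurable_to_countable' fun n => ?_
  have h : (fun x => {y | P x y}.ncard) ⁻¹' {n} =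
      {x | n ≤ {y | P x y}.ncard} \ {x | n + 1 ≤ {y | P x y}.ncard} := by
    ext x
    simp only [mem_preimage, mem_singleton_iff, mem_sdiff, mem_ofPred_eq]
    omega
  rw [h]
  exact (key n).diff (key (n + 1))

namespace FBR

variable {F : X → X → Prop}

omit [Countable G] [StandardBorelSpace X] [MeasurableConstSMul G X] in
theorem cls_eq (hF : FBR G F) {x y : X} (h : F x y) : {z | F x z} = {z | F y z} := by
  ext z
  exact ⟨fun hz => hF.equiv.trans (hF.equiv.symm h) hz, fun hz => hF.equiv.trans h hz⟩

omit [Countable G] [StandardBorelSpace X] [MeasurableConstSMul G X] in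
theorem sz_eq (hF : FBR G F) {x y : X} (h : F x y) : sz F x = sz F y := by
  unfold sz
  rw [hF.cls_eq h]

omit [Countable G] [StandardBorelSpace X] [MeasurableConstSMul G X] in
theorem sz_pos (hF : FBR G F) (x : X) : 0 < sz F x :=
  (Set.ncard_pos (hF.fin x)).2 ⟨x, hF.equiv.refl x⟩

theorem measurable_sz (hF : FBR G F) : Measurable (sz F) :=
  measurable_ncard (G := G) F hF.sub hF.fin hF.meas

theorem measurable_rk (hF : FBR G F) : Measurable (rk F) := by
  refine measurable_ncard (G := G) (fun x y => F x y ∧ nu y < nu x) (fun x y h => hF.sub x y h.1)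
    (fun x => (hF.fin x).subset fun y h => h.1) fun g => ?_
  exact (hF.meas g).inter (measurableSet_lt (measurable_nu.comp (measurable_const_smul g))
    measurable_nu)

omit [Countable G] [MeasurableConstSMul G X] in
theorem rk_lt_of_lt (hF : FBR G F) {x y : X} (h : F x y) (hn : nu x < nu y) :
    rk F x < rk F y := by
  refine Set.ncard_lt_ncard ?_ ((hF.fin y).subset fun z hz => hz.1)
  refine ⟨fun z hz => ⟨hF.equiv.trans (hF.equiv.symm h) hz.1, hz.2.trans hn⟩, fun hsub => ?_⟩
  have : x ∈ {z | F y z ∧ nu z < nu y} := ⟨hF.equiv.symm h, hn⟩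
  exact lt_irrefl _ (hsub this).2

omit [Countable G] [MeasurableConstSMul G X] in
theorem rk_inj (hF : FBR G F) {x y : X} (h : F x y) (hr : rk F x = rk F y) : x = y := by
  rcases lt_trichotomy (nu x) (nu y) with h1 | h1 | h1
  · exact absurd hr (hF.rk_lt_of_lt h h1).ne
  · exact nu_inj h1
  · exact absurd hr (hF.rk_lt_of_lt (hF.equiv.symm h) h1).ne'

omit [Countable G] [MeasurableConstSMul G X] in
theorem rk_lt_sz (hF : FBR G F) (x : X) : rk F x < sz F x := by
  refine Set.ncard_lt_ncard ?_ (hF.fin x)
  exact ⟨fun z hz => hz.1, fun hsub => lt_irrefl _ (hsub (hF.equiv.refl x)).2⟩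

omit [Countable G] [MeasurableConstSMul G X] in
theorem exists_rk (hF : FBR G F) (x : X) {j : ℕ} (hj : j < sz F x) :
    ∃ y, F x y ∧ rk F y = j := by
  have h1 : rk F '' {y | F x y} ⊆ Iio (sz F x) := by
    rintro _ ⟨y, hy, rfl⟩
    rw [mem_Iio, hF.sz_eq hy]
    exact hF.rk_lt_sz y
  have hinj : InjOn (rk F) {y | F x y} := by
    intro y hy z hz h
    exact hF.rk_inj (hF.equiv.trans (hF.equiv.symm hy) hz) h
  have h2 : (rk F '' {y | F x y}).ncard = sz F x := hinj.ncard_image
  have h3 : rk F '' {y | F x y} = Iio (sz F x) := by
    refine Set.eq_of_subset_of_ncard_le h1 ?_ (Set.finite_Iio _)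
    rw [h2, ← Finset.coe_Iio, Set.ncard_coe_finset, Nat.card_Iio]
  have : j ∈ rk F '' {y | F x y} := by
    rw [h3]
    exact hj
  obtain ⟨y, hy, hr⟩ := this
  exact ⟨y, hy, hr⟩

omit [Countable G] [StandardBorelSpace X] [MeasurableConstSMul G X] in
theorem el_cls [StandardBorelSpace X] (hF : FBR G F) (x : X) (j : ℕ) : F x (el F x j) := by
  unfold el
  split_ifs with h
  · exact h.choose_spec.1
  · exact hF.equiv.refl x

omit [Countable G] [MeasurableConstSMul G X] in
theorem rk_el (hF : FBR G F) (x : X) {j : ℕ} (hj : j < sz F x) : rk F (el F x j) = j := by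
  have h := hF.exists_rk x hj
  unfold el
  rw [dif_pos h]
  exact h.choose_spec.2

omit [Countable G] [MeasurableConstSMul G X] in
theorem el_rk (hF : FBR G F) {x y : X} (h : F x y) : el F x (rk F y) = y := by
  have hj : rk F y < sz F x := by
    rw [hF.sz_eq h]
    exact hF.rk_lt_sz y
  have h1 := hF.el_cls x (rk F y)
  exact hF.rk_inj (hF.equiv.trans (hF.equiv.symm h1) h) (hF.rk_el x hj)

omit [Countable G] [MeasurableConstSMul G X] in
theorem el_congr (hF : FBR G F) {x y : X} (h : F x y) {j : ℕ} (hj : j < sz F x) :
    el F x j = el F y j := by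
  have hj' : j < sz F y := by rwa [← hF.sz_eq h]
  refine hF.rk_inj (hF.equiv.trans (hF.equiv.symm (hF.el_cls x j))
    (hF.equiv.trans h (hF.el_cls y j))) ?_
  rw [hF.rk_el x hj, hF.rk_el y hj']

theorem measurable_el (hF : FBR G F) (j : ℕ) : Measurable fun x => el F x j := by
  intro B hB
  have h : (fun x => el F x j) ⁻¹' B =
      (⋃ g : G, {x | F x (g • x)} ∩ {x | rk F (g • x) = j} ∩ {x | g • x ∈ B}) ∪
      ({x | j < sz F x}ᶜ ∩ B) := by
    ext x
    simp only [mem_preimage, mem_union, mem_iUnion, mem_inter_iff, mem_ofPred_eq, mem_compl_iff]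
    constructor
    · intro hx
      by_cases hj : j < sz F x
      · left
        obtain ⟨g, hg⟩ := hF.sub _ _ (hF.el_cls x j)
        refine ⟨g, ⟨?_, ?_⟩, ?_⟩
        · rw [hg]
          exact hF.el_cls x j
        · rw [hg]
          exact hF.rk_el x hj
        · rw [hg]
          exact hx
      · right
        refine ⟨hj, ?_⟩
        have : ¬∃ y, F x y ∧ rk F y = j := by
          rintro ⟨y, hy, hr⟩
          apply hj
          rw [← hr, hF.sz_eq hy]
          exact hF.rk_lt_sz y
        rwa [el, dif_neg this] at hx
    · rintro (⟨g, ⟨h1, h2⟩, h3⟩ | ⟨hj, hx⟩)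
      · have := hF.el_rk h1
        rw [h2] at this
        rwa [this]
      · have : ¬∃ y, F x y ∧ rk F y = j := by
          rintro ⟨y, hy, hr⟩
          apply hj
          rw [← hr, hF.sz_eq hy]
          exact hF.rk_lt_sz y
        rwa [el, dif_neg this]
  rw [h]
  refine MeasurableSet.union (MeasurableSet.iUnion fun g => ?_) ?_
  · refine ((hF.meas g).inter ?_).inter ?_
    · exact (hF.measurable_rk.comp (measurable_const_smul g)) (measurableSet_singleton j)
    · exact (measurable_const_smul g) hB
  · exact (measurableSet_lt measurable_const hF.measurable_sz).compl.inter hB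

omit [Countable G] [MeasurableConstSMul G X] in
theorem length_dat {α : Type} (f : X → α) (x : X) : (dat F f x).length = sz F x := by
  simp [dat]

omit [Countable G] [MeasurableConstSMul G X] in
theorem dat_congr {α : Type} (hF : FBR G F) (f : X → α) {x y : X} (h : F x y) :
    dat F f x = dat F f y := by
  unfold dat
  rw [← hF.sz_eq h]
  refine List.map_congr_left fun j hj => ?_
  rw [hF.el_congr h (List.mem_range.1 hj)]

/-- every function of the list of data is measurable, if the data are in a countable type -/
theorem measurable_dat {α β : Type} [Countable α] [MeasurableSpace β] (hF : FBR G F) (f : X → α)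
    (hf : ∀ a, MeasurableSet (f ⁻¹' {a})) (Φ : List α → β) : Measurable fun x => Φ (dat F f x) := by
  intro B _
  have h : (fun x => Φ (dat F f x)) ⁻¹' B = ⋃ l : {l : List α // Φ l ∈ B},
      {x | sz F x = l.1.length} ∩ ⋂ j : ℕ, {x | ∀ a, l.1[j]? = some a → f (el F x j) = a} := by
    ext x
    simp only [mem_preimage, mem_iUnion, mem_inter_iff, mem_ofPred_eq, mem_iInter, Subtype.exists]
    constructor
    · intro hx
      refine ⟨dat F f x, hx, (length_dat f x).symm, fun j a ha => ?_⟩
      simp only [dat, List.getElem?_map, Option.map_eq_some_iff] at ha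
      obtain ⟨i, hi, rfl⟩ := ha
      rw [List.getElem?_eq_some_iff] at hi
      obtain ⟨hj, hi⟩ := hi
      simp at hi
      rw [hi]
    · rintro ⟨l, hl, hlen, hj⟩
      have : dat F f x = l := by
        refine List.ext_getElem (by rw [length_dat, hlen]) fun j h1 h2 => ?_
        have := hj j l[j] (List.getElem?_eq_getElem h2)
        simp only [dat, List.getElem_map, List.getElem_range]
        exact this
      rwa [this]
  rw [h]
  refine MeasurableSet.iUnion fun l => MeasurableSet.inter ?_ (MeasurableSet.iInter fun j => ?_)
  · exact hF.measurable_sz (measurableSet_singleton _)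
  · simp only [Set.ofPred_forall]
    refine MeasurableSet.iInter fun a => MeasurableSet.iInter fun _ => ?_
    exact (hF.measurable_el j) (hf a)

end FBR

end Pool.Agent.CAR
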