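import Pool.Agent.CAR.Restrict

/-!
# Disjoint unions of realizable relations (module M4, second part)
-/

set_option autoImplicit false
set_option linter.unusedSectionVars false
set_option linter.unusedVariables false

namespace Pool.Agent.CAR

open Set MeasureTheory

theorem borelSpace_sum {Y₁ Y₂ : Type} [TopologicalSpace Y₁] [TopologicalSpace Y₂]
    [MeasurableSpace Y₁] [MeasurableSpace Y₂] [BorelSpace Y₁] [BorelSpace Y₂] :
    BorelSpace (Y₁ ⊕ Y₂) where
  measurable_eq := by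
    refine le_antisymm ?_ ?_
    · intro s hs
      obtain ⟨h1, h2⟩ := measurableSet_sum_iff.1 hs
      have e : s = Sum.inl '' (Sum.inl ⁻¹' s) ∪ Sum.inr '' (Sum.inr ⁻¹' s) := by
        ext x
        rcases x with x | x <;> simp
      let _ : MeasurableSpace (Y₁ ⊕ Y₂) := borel _
      have : BorelSpace (Y₁ ⊕ Y₂) := ⟨rfl⟩
      have i1 : MeasurableEmbedding (Sum.inl : Y₁ → Y₁ ⊕ Y₂) :=
        Topology.IsOpenEmbedding.inl.measurableEmbedding
      have i2 : MeasurableEmbedding (Sum.inr : Y₂ → Y₁ ⊕ Y₂) :=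
        Topology.IsOpenEmbedding.inr.measurableEmbedding
      change MeasurableSet s
      rw [e]
      exact (i1.measurableSet_image.2 h1).union (i2.measurableSet_image.2 h2)
    · refine MeasurableSpace.generateFrom_le fun s hs => ?_
      have hs' : IsOpen s := hs
      exact measurableSet_sum_iff.2 ⟨(hs'.preimage continuous_inl).measurableSet,
        (hs'.preimage continuous_inr).measurableSet⟩

open Classical in
/-- M4: disjoint unions -/
theorem realizable_union (Γ : Type) [Group Γ] {X : Type} [MeasurableSpace X]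
    {R : X → X → Prop} {P : Set X} (hP : MeasurableSet P)
    (hinv : ∀ x y, R x y → (x ∈ P ↔ y ∈ P))
    (h1 : Realizable Γ (fun x y : P => R x y))
    (h2 : Realizable Γ (fun x y : (Pᶜ : Set X) => R x y)) : Realizable Γ R := by
  obtain ⟨Y₁, t₁, m₁, c₁, me₁, b₁, Δ₁, g₁, a₁, cΔ₁, cs₁, ⟨f₁, f₁m, f₁i, f₁r, f₁s⟩,
    ⟨α₁, α₁1, α₁m, α₁me, α₁inf, α₁r⟩⟩ := h1
  obtain ⟨Y₂, t₂, m₂, c₂, me₂, b₂, Δ₂, g₂, a₂, cΔ₂, cs₂, ⟨f₂, f₂m, f₂i, f₂r, f₂s⟩,
    ⟨α₂, α₂1, α₂m, α₂me, α₂inf, α₂r⟩⟩ := h2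
  let act : MulAction (Δ₁ × Δ₂) (Y₁ ⊕ Y₂) :=
    { smul := fun g => Sum.map (fun y => g.1 • y) (fun y => g.2 • y)
      one_smul := by
        rintro (y | y)
        · exact congrArg Sum.inl (one_smul Δ₁ y)
        · exact congrArg Sum.inr (one_smul Δ₂ y)
      mul_smul := by
        rintro g h (y | y)
        · exact congrArg Sum.inl (mul_smul g.1 h.1 y)
        · exact congrArg Sum.inr (mul_smul g.2 h.2 y) }
  have act1 : ∀ (g : Δ₁ × Δ₂) (y : Y₁), g • (Sum.inl y : Y₁ ⊕ Y₂) = Sum.inl (g.1 • y) :=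
    fun _ _ => rfl
  have act2 : ∀ (g : Δ₁ × Δ₂) (y : Y₂), g • (Sum.inr y : Y₁ ⊕ Y₂) = Sum.inr (g.2 • y) :=
    fun _ _ => rfl
  have E11 : ∀ y z : Y₁, (∃ g : Δ₁ × Δ₂, g • (Sum.inl y : Y₁ ⊕ Y₂) = Sum.inl z) ↔
      ∃ g : Δ₁, g • y = z := by
    intro y z
    constructor
    · rintro ⟨g, hg⟩
      exact ⟨g.1, Sum.inl_injective hg⟩
    · rintro ⟨g, rfl⟩
      exact ⟨(g, 1), rfl⟩
  have E22 : ∀ y z : Y₂, (∃ g : Δ₁ × Δ₂, g • (Sum.inr y : Y₁ ⊕ Y₂) = Sum.inr z) ↔
      ∃ g : Δ₂, g • y = z := by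
    intro y z
    constructor
    · rintro ⟨g, hg⟩
      exact ⟨g.2, Sum.inr_injective hg⟩
    · rintro ⟨g, rfl⟩
      exact ⟨(1, g), rfl⟩
  have E12 : ∀ (y : Y₁) (z : Y₂), ¬ ∃ g : Δ₁ × Δ₂, g • (Sum.inl y : Y₁ ⊕ Y₂) = Sum.inr z := by
    rintro y z ⟨g, hg⟩
    rw [act1] at hg
    cases hg
  have E21 : ∀ (y : Y₂) (z : Y₁), ¬ ∃ g : Δ₁ × Δ₂, g • (Sum.inr y : Y₁ ⊕ Y₂) = Sum.inl z := by
    rintro y z ⟨g, hg⟩
    rw [act2] at hg
    cases hg
  have := borelSpace_sum (Y₁ := Y₁) (Y₂ := Y₂)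
  have : TopologicalSpace.MetrizableSpace (Y₁ ⊕ Y₂) := by
    let _ := TopologicalSpace.metrizableSpaceMetric Y₁
    let _ := TopologicalSpace.metrizableSpaceMetric Y₂
    infer_instance
  refine ⟨Y₁ ⊕ Y₂, inferInstance, inferInstance, inferInstance, inferInstance, inferInstance,
    Δ₁ × Δ₂, inferInstance, act, inferInstance, ⟨fun g => ?_⟩, ?_, ?_⟩
  · exact Continuous.sumMap (continuous_const_smul g.1) (continuous_const_smul g.2)
  · set f : X → Y₁ ⊕ Y₂ := fun x => if hx : x ∈ P then Sum.inl (f₁ ⟨x, hx⟩)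
      else Sum.inr (f₂ ⟨x, hx⟩) with hf
    have hf1 : ∀ x (hx : x ∈ P), f x = Sum.inl (f₁ ⟨x, hx⟩) := fun x hx => dif_pos hx
    have hf2 : ∀ x (hx : x ∈ Pᶜ), f x = Sum.inr (f₂ ⟨x, hx⟩) := fun x hx => dif_neg hx
    refine ⟨f, ?_, ?_, ?_, ?_⟩
    · exact Measurable.dite (s := P) (measurable_inl.comp f₁m) (measurable_inr.comp f₂m) hP
    · intro x y hxy
      by_cases hx : x ∈ P <;> by_cases hy : y ∈ P
      · rw [hf1 x hx, hf1 y hy] at hxy
        exact congrArg Subtype.val (f₁i (Sum.inl_injective hxy))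
      · rw [hf1 x hx, hf2 y hy] at hxy
        cases hxy
      · rw [hf2 x hx, hf1 y hy] at hxy
        cases hxy
      · rw [hf2 x hx, hf2 y hy] at hxy
        exact congrArg Subtype.val (f₂i (Sum.inr_injective hxy))
    · intro x y
      change R x y ↔ ∃ g : Δ₁ × Δ₂, g • f x = f y
      by_cases hx : x ∈ P <;> by_cases hy : y ∈ P
      · rw [hf1 x hx, hf1 y hy]
        exact (f₁r ⟨x, hx⟩ ⟨y, hy⟩).trans (E11 _ _).symm
      · rw [hf1 x hx, hf2 y hy]
        exact ⟨fun h => absurd ((hinv _ _ h).1 hx) hy, fun h => absurd h (E12 _ _)⟩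
      · rw [hf2 x hx, hf1 y hy]
        exact ⟨fun h => absurd ((hinv _ _ h).2 hy) hx, fun h => absurd h (E21 _ _)⟩
      · rw [hf2 x hx, hf2 y hy]
        exact (f₂r ⟨x, hx⟩ ⟨y, hy⟩).trans (E22 _ _).symm
    · intro x y hxy
      by_cases hx : x ∈ P
      · rw [hf1 x hx] at hxy
        rcases y with y | y
        · obtain ⟨z, hz⟩ := f₁s ⟨x, hx⟩ y ((E11 _ _).1 hxy)
          refine ⟨z, ?_⟩
          rw [hf1 z z.2, ← hz]
        · exact absurd hxy (E12 _ _)
      · rw [hf2 x hx] at hxy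
        rcases y with y | y
        · exact absurd hxy (E21 _ _)
        · obtain ⟨z, hz⟩ := f₂s ⟨x, hx⟩ y ((E22 _ _).1 hxy)
          refine ⟨z, ?_⟩
          rw [hf2 z z.2, ← hz]
  · refine ⟨fun g => Sum.map (α₁ g) (α₂ g), ?_, ?_, ?_, ?_, ?_⟩
    · rintro (y | y)
      · exact congrArg Sum.inl (α₁1 y)
      · exact congrArg Sum.inr (α₂1 y)
    · rintro g h (y | y)
      · exact congrArg Sum.inl (α₁m g h y)
      · exact congrArg Sum.inr (α₂m g h y)
    · exact fun g => (α₁me g).sumMap (α₂me g)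
    · rintro (y | y)
      · have h := (α₁inf y).image (f := (Sum.inl : Y₁ → Y₁ ⊕ Y₂)) Sum.inl_injective.injOn
        refine h.mono ?_
        rintro _ ⟨_, ⟨g, rfl⟩, rfl⟩
        exact ⟨g, rfl⟩
      · have h := (α₂inf y).image (f := (Sum.inr : Y₂ → Y₁ ⊕ Y₂)) Sum.inr_injective.injOn
        refine h.mono ?_
        rintro _ ⟨_, ⟨g, rfl⟩, rfl⟩
        exact ⟨g, rfl⟩
    · rintro (y | y) (z | z)
      · refine (E11 y z).trans ((α₁r y z).trans ?_)
        constructor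
        · rintro ⟨g, rfl⟩
          exact ⟨g, rfl⟩
        · rintro ⟨g, hg⟩
          exact ⟨g, Sum.inl_injective hg⟩
      · constructor
        · intro h
          exact absurd h (E12 _ _)
        · rintro ⟨g, hg⟩
          cases hg
      · constructor
        · intro h
          exact absurd h (E21 _ _)
        · rintro ⟨g, hg⟩
          cases hg
      · refine (E22 y z).trans ((α₂r y z).trans ?_)
        constructor
        · rintro ⟨g, rfl⟩
          exact ⟨g, rfl⟩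
        · rintro ⟨g, hg⟩
          exact ⟨g, Sum.inr_injective hg⟩

/-- transport of realizability to the coordinate form of an invariant piece -/
theorem realizable_piece {Γ X : Type} [Group Γ] [MeasurableSpace X] [MulAction Γ X]
    {P : Set X} (hP : Inv Γ P) (h : Realizable Γ (Eo Γ (X := subAct P hP))) :
    Realizable Γ (fun x y : P => Eo Γ (x : X) (y : X)) := by
  have e : (fun x y : subAct P hP => Eo Γ (x : X) (y : X)) = Eo Γ (X := subAct P hP) := by
    funext x y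
    exact propext (Eo_subR hP x y).symm
  rw [← e] at h
  exact h

end Pool.Agent.CAR
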